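import Pool.Agent.H552R2.Enum

/-!
Resource-bounded measure relative to an oracle (null covers), complexity classes relative to an
oracle, and the random oracles used: hidden strings.
-/

namespace Pool.Agent.H552R2.RM

open Function MeasureTheory
open Pool.Agent.Helper556.OM

/-! ### the standard enumeration of strings, characteristic sequences -/

/-- the `i`-th string in the order by length and then lexicographically: the binary expansion of
`i + 1` without the leading `1` -/
def str (i : ℕ) : List Bool := (Nat.bits (i + 1)).reverse.tail

open Classical in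
/-- the first `n` bits of the characteristic sequence of `L` -/
noncomputable def pre (L : Set (List Bool)) (n : ℕ) : List Bool :=
  (List.range n).map (fun i => decide (str i ∈ L))

/-! ### real functions computed by machines -/

/-- the number with the binary expansion `y`, most significant bit first -/
def natOf (y : List Bool) : ℕ := y.foldl (fun a b => 2 * a + (if b then 1 else 0)) 0

/-- The dyadic rational denoted by a string: the string `s 1^a 0 b` denotes `natOf b / 2 ^ a`,
with the sign minus if the bit `s` is `1`. -/
noncomputable def dy : List Bool → ℝ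
  | [] => 0
  | s :: y => (if s then -1 else 1) * (natOf (y.dropWhile (· = true)).tail : ℝ) /
      2 ^ (y.takeWhile (· = true)).length

/-- the input string `1^k 0 1^r 0 w` -/
def enc (k r : ℕ) (w : List Bool) : List Bool :=
  List.replicate k true ++ false :: (List.replicate r true ++ false :: w)

/-- Some deterministic machine with oracle `A` computes `f`: on the input `1^k 0 1^r 0 w`, of
length `N`, it halts within `T N` steps, with the dyadic rational `f k r w` on stack `1`. -/
def Comp (A : Set (List Bool)) (T : ℕ → ℕ) (f : ℕ → ℕ → List Bool → ℝ) : Prop :=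
  ∃ M : Machine, Det M ∧ ∀ (k r : ℕ) (w : List Bool) (v : ℕ → Bool),
    M.Halted (M.run A (T (enc k r w).length) v (M.init (enc k r w))) ∧
    dy ((M.run A (T (enc k r w).length) v (M.init (enc k r w))).2 1) = f k r w

/-- polynomial time bounds -/
def poly (c n : ℕ) : ℕ := n ^ c + c

/-- the time bounds `n ^ ((log n) ^ O(1))` -/
def quasi (c n : ℕ) : ℕ := 2 ^ ((Nat.size n) ^ c + c)

/-- `X` has a null cover `d` relative to the oracle `A` (a sequence of density functions `d k`
with `d k [] ≤ 2 ^ (-k)` covering `X`) of which approximations `f k r w` with error at most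
`2 ^ (-r)` are computed with oracle `A` within one of the time bounds `cls c`. -/
def Null (cls : ℕ → ℕ → ℕ) (A : Set (List Bool)) (X : Set (Set (List Bool))) : Prop :=
  ∃ (d : ℕ → List Bool → ℝ) (f : ℕ → ℕ → List Bool → ℝ) (c : ℕ),
    Comp A (cls c) f ∧ (∀ k r w, |f k r w - d k w| ≤ (1 / 2) ^ r) ∧
    (∀ k w, 0 ≤ d k w) ∧
    (∀ k w, d k (w ++ [false]) + d k (w ++ [true]) ≤ 2 * d k w) ∧
    (∀ k, d k [] ≤ (1 / 2) ^ k) ∧
    ∀ k, ∀ L ∈ X, ∃ n, 1 ≤ d k (pre L n)

/-! ### complexity classes -/

/-- The class `UP` relative to `A`: nondeterministic polynomial time machines with at most one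
accepting computation. -/
def InUP (A : Set (List Bool)) (L : Set (List Bool)) : Prop :=
  ∃ (M : Machine) (d : ℕ), ∀ x : List Bool,
    (∀ w : ℕ → Bool, M.Halted (M.run A (x.length ^ d + d) w (M.init x))) ∧
    (x ∈ L ↔ ∃ w : ℕ → Bool, M.Accepts (M.run A (x.length ^ d + d) w (M.init x))) ∧
    ∀ w w' : ℕ → Bool, M.Accepts (M.run A (x.length ^ d + d) w (M.init x)) →
      M.Accepts (M.run A (x.length ^ d + d) w' (M.init x)) →
      ∀ t ≤ x.length ^ d + d, M.run A t w (M.init x) = M.run A t w' (M.init x)

/-- The class `E`: deterministic time `2 ^ O(n)`. -/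
def InE (A : Set (List Bool)) (L : Set (List Bool)) : Prop :=
  ∃ (M : Machine) (c : ℕ), Det M ∧ ∀ (x : List Bool) (w : ℕ → Bool),
    M.Halted (M.run A (2 ^ (c * (x.length + 1))) w (M.init x)) ∧
    (x ∈ L ↔ M.Accepts (M.run A (2 ^ (c * (x.length + 1))) w (M.init x)))

/-- The class `E₂`: deterministic time `2 ^ (n ^ O(1))`. -/
def InE2 (A : Set (List Bool)) (L : Set (List Bool)) : Prop :=
  ∃ (M : Machine) (c : ℕ), Det M ∧ ∀ (x : List Bool) (w : ℕ → Bool),
    M.Halted (M.run A (2 ^ (x.length ^ c + c)) w (M.init x)) ∧
    (x ∈ L ↔ M.Accepts (M.run A (2 ^ (x.length ^ c + c)) w (M.init x)))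

/-- The class `PSPACE`: deterministic machines all of whose stacks always have polynomial
height (a machine uses finitely many stacks, and asks only strings standing on a stack). -/
def InPSPACE (A : Set (List Bool)) (L : Set (List Bool)) : Prop :=
  ∃ (M : Machine) (d : ℕ), Det M ∧ ∀ (x : List Bool) (w : ℕ → Bool),
    (∀ t k, ((M.run A t w (M.init x)).2 k).length ≤ x.length ^ d + d) ∧
    ∃ t, M.Halted (M.run A t w (M.init x)) ∧
      (x ∈ L ↔ M.Accepts (M.run A t w (M.init x)))

/-! ### random bits, hidden strings, the oracles -/

/-- indices of the random bits -/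
abbrev Idx : Type := ℕ × List Bool × ℕ

/-- the sample space -/
abbrev Om : Type := Idx → Bool

/-- the fair coin -/
noncomputable def coin : Measure Bool := (2⁻¹ : ENNReal) • (Measure.dirac true + Measure.dirac false)

/-- independent fair coins -/
noncomputable def mu : Measure Om := Measure.infinitePi (fun _ => coin)

/-- the pairs with a random hidden string -/
def Rnd (e : ℕ) (x : List Bool) : Prop := 2 ≤ e ∧ e ≤ x.length

instance (e : ℕ) (x : List Bool) : Decidable (Rnd e x) := inferInstanceAs (Decidable (_ ∧ _))

/-- the length of the hidden string -/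
def bl (e : ℕ) (x : List Bool) : ℕ := (x.length + 1) ^ e

/-- the hidden string -/
def hs (e : ℕ) (x : List Bool) (ω : Om) : List Bool :=
  (List.range (bl e x)).map (fun i => decide (Rnd e x) && ω (e, x, i))

/-- the part of the code of a pair -/
def base (e : ℕ) (x : List Bool) : List Bool :=
  x ++ false :: (List.replicate x.length true ++ false :: (List.replicate e true ++ [false]))

/-- the code string of a triple -/
def code (e : ℕ) (x y : List Bool) : List Bool := true :: (y ++ base e x)

/-- The oracle: the strings `false :: u` with `u` in the set `β`, and the codes of the hidden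
strings; if `full` is `false`, only those of the hidden strings with first bit `1`. -/
def orc (full : Bool) (β : Set (List Bool)) (ω : Om) : Set (List Bool) :=
  {z | (∃ u ∈ β, z = false :: u) ∨
    ∃ e x, z = code e x (hs e x ω) ∧ (full = true ∨ (hs e x ω).head? = some true)}

/-- the languages of the first bits of the hidden strings -/
def Lang (e : ℕ) (ω : Om) : Set (List Bool) := {x | (hs e x ω).head? = some true}

/-! ### the sparse sequence of lengths -/

/-- a fast growing sequence -/
def aa : ℕ → ℕ
  | 0 => 64
  | t + 1 => 2 ^ 2 ^ aa t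

/-- the lengths at which the null cover bets -/
def nn (t : ℕ) : ℕ := aa t ^ 4

/-- the threshold for the lengths `nn t` -/
def th (t : ℕ) : ℕ := aa t ^ 3

/-- the random bits of the blocks of the strings of length at most `th t` -/
def S (t : ℕ) : Set Idx := {p | Rnd p.1 p.2.1 ∧ p.2.1.length ≤ th t ∧ p.2.2 < bl p.1 p.2.1}

open Classical in
/-- the bits of `ω` on `J`, those of `ω'` elsewhere -/
noncomputable def pw (J : Set Idx) (ω ω' : Om) : Om := fun p => if p ∈ J then ω p else ω' p

/-- the value depends only on the bits in `J` -/
def Dep {β : Type} (J : Set Idx) (f : Om → β) : Prop :=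
  ∀ ω ω', (∀ p ∈ J, ω p = ω' p) → f ω = f ω'

/-- the value depends only on finitely many bits -/
def FD {β : Type} (f : Om → β) : Prop := ∃ J : Set Idx, J.Finite ∧ Dep J f

/-- local functionals: predicates of a string and an oracle, depending only on the part of the
oracle of polynomial length -/
structure LFun where
  F : List Bool → Set (List Bool) → Prop
  d : ℕ
  loc : ∀ x O, F x O ↔ F x (O ∩ {z | z.length ≤ x.length + (x.length ^ d + d)})

/-- the prediction: the majority value, given the bits in `S t` -/
def pr (full : Bool) (φ : LFun) (β : Set (List Bool)) (t : ℕ) (x : List Bool) (ω : Om) : Prop :=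
  1 / 2 < mu.real {ω' | φ.F x (orc full β (pw (S t) ω ω'))}

open Classical in
/-- the number of wrong predictions for the strings of length `nn t` -/
noncomputable def wrong (full : Bool) (φ : LFun) (β : Set (List Bool)) (t : ℕ) (ω : Om)
    (L : Set (List Bool)) : ℕ :=
  (Finset.univ.filter (fun x : Fin (nn t) → Bool =>
    ¬ (List.ofFn x ∈ L ↔ pr full φ β t (List.ofFn x) ω))).card

/-- the languages predicted by one of the functionals -/
def Predicted (full : Bool) (Φ : ℕ → LFun) (β : Set (List Bool)) (ω : Om) :
    Set (Set (List Bool)) :=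
  {L | ∃ j, ∃ᶠ t in Filter.atTop, (Nat.unpair t).1 = j ∧ 16 * wrong full (Φ j) β t ω L ≤ 2 ^ nn t}

end Pool.Agent.H552R2.RM
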