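import Pool.Agent.H552R2.RM.Defs

/-!
The density functions of the null cover, and other auxiliary notions.
-/

namespace Pool.Agent.H552R2.RM

open Function MeasureTheory
open Pool.Agent.Helper556.OM

/-- the indices of the bits of the block of a pair -/
def blk (e : ℕ) (x : List Bool) : Set Idx := {p | p.1 = e ∧ p.2.1 = x}

open Classical in
/-- the payoff of a bet on `p` if the bit is `b` -/
noncomputable def fac (b : Bool) (p : Prop) : ℝ := if (b = true ↔ p) then 3 / 2 else 1 / 2

/-- the capital after betting on the strings `str (2 ^ nn t - 1 + i)`, `i < u.length`, if `u` are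
the bits of the language: the average over all `ω` of the capitals of the bettors `ω` -/
noncomputable def cap (pred : List Bool → Om → Prop) (t : ℕ) (u : List Bool) : ℝ :=
  ∫ ω, ∏ i : Fin u.length, fac (u.get i) (pred (str (2 ^ nn t - 1 + i)) ω) ∂mu

/-- the bits of the strings of length `nn t` -/
def seg (t : ℕ) (w : List Bool) : List Bool := (w.drop (2 ^ nn t - 1)).take (2 ^ nn t)

/-- the density functions -/
noncomputable def dd (pred : ℕ → List Bool → Om → Prop) (k : ℕ) (w : List Bool) : ℝ :=
  ∑ t ∈ Finset.Ico k w.length, (1 / 2) ^ (t + 1) * cap (pred t) t (seg t w) +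
    (1 / 2) ^ (max k w.length)

/-- the predictions with the truncated part `β` of the oracle -/
noncomputable def prT (full : Bool) (Φ : ℕ → LFun) (β : Set (List Bool)) (t : ℕ) (x : List Bool)
    (ω : Om) : Prop :=
  pr full (Φ (Nat.unpair t).1) (β ∩ {z | z.length < 2 ^ nn t - 1}) t x ω

/-- the numerator of the approximation with denominator `2 ^ |enc k r w|` -/
noncomputable def num (full : Bool) (Φ : ℕ → LFun) (β : Set (List Bool)) (k r : ℕ)
    (w : List Bool) : ℕ :=
  ⌊(2 : ℝ) ^ (enc k r w).length * dd (prT full Φ β) k w⌋₊

/-- the question for the bit `i` -/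
def ques (i k r : ℕ) (w : List Bool) : List Bool := List.replicate i true ++ false :: enc k r w

/-- `β` answers the questions correctly -/
def Answers (full : Bool) (Φ : ℕ → LFun) (β : Set (List Bool)) : Prop :=
  ∀ i k r w, ques i k r w ∈ β ↔ (num full Φ β k r w).testBit i = true

/-- the acceptance of a nondeterministic machine, as a local functional -/
def npF (p : FM × ℕ) : LFun where
  F := fun x O => AccN p.1.toM p.2 O x
  d := p.2
  loc := fun x O => AccN_congr _ _ x (fun z hz => by simp [hz])

/-- the acceptance of a deterministic space bounded machine, as a local functional -/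
def psF (p : FM × ℕ) : LFun where
  F := fun x O => ∃ t, p.1.toM.Accepts (p.1.toM.run
    (O ∩ {z | z.length ≤ x.length + (x.length ^ p.2 + p.2)}) t (fun _ => false)
    (p.1.toM.init x))
  d := p.2
  loc := fun x O => by
    rw [Set.inter_assoc, Set.inter_self]

/-- all the functionals used -/
noncomputable def Phi (j : ℕ) : LFun :=
  match (exists_surjective_nat (FM × ℕ × Bool)).choose j with
  | (M, d, b) => if b then npF (M, d) else psF (M, d)

/-- the machine `M` accepts after `q` steps -/
def AccT (M : Machine) (q : ℕ) (O : Set (List Bool)) (x : List Bool) : Prop :=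
  M.Accepts (M.run O q (fun _ => false) (M.init x))

end Pool.Agent.H552R2.RM
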