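import Pool.Agent.H552R2.Upper
import Pool.Agent.H552R2.RM.Defs2

namespace Pool.Agent.H552R2.RM

open Function MeasureTheory
open Pool.Agent.Helper556.OM

theorem co_rep {a b : List Bool} : ∀ {n n' : ℕ},
    List.replicate n true ++ false :: a = List.replicate n' true ++ false :: b →
      n = n' ∧ a = b := by
  intro n
  induction n with
  | zero =>
    intro n' h
    cases n' with
    | zero => simpa using h
    | succ n' => simp [List.replicate_succ] at h
  | succ n ih =>
    intro n' h
    cases n' with
    | zero => simp [List.replicate_succ] at h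
    | succ n' =>
      rw [List.replicate_succ, List.replicate_succ, List.cons_append, List.cons_append,
        List.cons.injEq] at h
      obtain ⟨h1, h2⟩ := ih h.2
      exact ⟨by rw [h1], h2⟩

theorem co_rep' {a b : List Bool} {n n' : ℕ}
    (h : a ++ false :: List.replicate n true = b ++ false :: List.replicate n' true) :
    n = n' ∧ a = b := by
  have h1 := congrArg List.reverse h
  rw [List.reverse_append, List.reverse_append, List.reverse_cons, List.reverse_cons,
    List.reverse_replicate, List.reverse_replicate, List.append_assoc, List.append_assoc] at h1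
  obtain ⟨h2, h3⟩ := co_rep h1
  exact ⟨h2, List.reverse_injective h3⟩

theorem co_code (e : ℕ) (x y : List Bool) :
    code e x y = (((true :: (y ++ x)) ++ false :: List.replicate x.length true) ++
      false :: List.replicate e true) ++ [false] := by
  unfold code base
  simp [List.append_assoc]

theorem code_inj' {e e' : ℕ} {x x' y y' : List Bool} (h : code e x y = code e' x' y') :
    e = e' ∧ x = x' ∧ y = y' := by
  rw [co_code, co_code] at h
  have h1 := List.append_cancel_right h
  obtain ⟨h2, h3⟩ := co_rep' h1
  obtain ⟨h4, h5⟩ := co_rep' h3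
  rw [List.cons.injEq] at h5
  obtain ⟨h6, h7⟩ := List.append_inj' h5.2 h4
  exact ⟨h2, h7, h6⟩

theorem co_length (e : ℕ) (x y : List Bool) : x.length < (code e x y).length := by
  rw [co_code]
  simp only [List.length_append, List.length_cons, List.length_replicate]
  omega

theorem false_mem_orc' {full : Bool} {β : Set (List Bool)} {ω : Om} {u : List Bool} :
    false :: u ∈ orc full β ω ↔ u ∈ β := by
  constructor
  · rintro (⟨u', hu', h⟩ | ⟨e, x, h, -⟩)
    · rw [List.cons.injEq] at h
      rw [h.2]
      exact hu'
    · exact absurd h (by simp [code])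
  · intro h
    exact Or.inl ⟨u, h, rfl⟩

theorem code_mem_orc' {full : Bool} {β : Set (List Bool)} {ω : Om} {e : ℕ} {x y : List Bool} :
    code e x y ∈ orc full β ω ↔ y = hs e x ω ∧ (full = true ∨ y.head? = some true) := by
  constructor
  · rintro (⟨u', hu', h⟩ | ⟨e', x', h, h'⟩)
    · exact absurd h (by simp [code])
    · obtain ⟨rfl, rfl, rfl⟩ := code_inj' h
      exact ⟨rfl, h'⟩
  · rintro ⟨rfl, h⟩
    exact Or.inr ⟨e, x, rfl, h⟩

theorem length_hs' (e : ℕ) (x : List Bool) (ω : Om) : (hs e x ω).length = bl e x := by
  simp [hs]

theorem hs_congr' {e : ℕ} {x : List Bool} {ω ω' : Om}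
    (h : Rnd e x → ∀ i < bl e x, ω (e, x, i) = ω' (e, x, i)) : hs e x ω = hs e x ω' := by
  unfold hs
  apply List.map_congr_left
  intro i hi
  rw [List.mem_range] at hi
  by_cases hr : Rnd e x
  · rw [h hr i hi]
  · simp [hr]

theorem co_sub {full : Bool} {β : Set (List Bool)} {ω ω' : Om} {z : List Bool}
    (h : ∀ e x, Rnd e x → x.length < z.length → hs e x ω = hs e x ω')
    (hz : z ∈ orc full β ω) : z ∈ orc full β ω' := by
  rcases hz with hz | ⟨e, x, hz, h'⟩
  · exact Or.inl hz
  · have hl : x.length < z.length := by
      rw [hz]
      exact co_length _ _ _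
    have heq : hs e x ω = hs e x ω' := by
      by_cases hr : Rnd e x
      · exact h e x hr hl
      · exact hs_congr' (fun hr' => absurd hr' hr)
    rw [heq] at hz h'
    exact Or.inr ⟨e, x, hz, h'⟩

/-- the strings of length at most `N` of the oracle depend only on the blocks of the strings of
length less than `N` -/
theorem orc_congr' {full : Bool} {β : Set (List Bool)} {ω ω' : Om} {z : List Bool}
    (h : ∀ e x, Rnd e x → x.length < z.length → hs e x ω = hs e x ω') :
    z ∈ orc full β ω ↔ z ∈ orc full β ω' :=
  ⟨co_sub h, co_sub (fun e x hr hl => (h e x hr hl).symm)⟩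

end Pool.Agent.H552R2.RM


namespace Pool.Agent.H552R2.RM

alias code_inj := code_inj'
alias false_mem_orc := false_mem_orc'
alias code_mem_orc := code_mem_orc'
alias length_hs := length_hs'
alias hs_congr := hs_congr'
alias orc_congr := orc_congr'

end Pool.Agent.H552R2.RM
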