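import Pool.Agent.H552R2.RM.Defs2

/-!
Task GR: growth of the sequences `aa`, `nn`, `th`. This file has the final names (no primes) and
does not import the stubs.
-/

set_option autoImplicit false

namespace Pool.Agent.H552R2.RM

open Function MeasureTheory

theorem gr_aux (b : ℕ) (hb : 32 ≤ b) : (2 * b + 1) ^ 4 ≤ 2 ^ b := by
  induction b, hb using Nat.le_induction with
  | base => norm_num
  | succ b hb ih =>
    have h : (2 * (b + 1) + 1) ^ 4 ≤ 2 * (2 * b + 1) ^ 4 := by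
      obtain ⟨u, rfl⟩ := Nat.exists_eq_add_of_le hb
      ring_nf
      nlinarith [Nat.zero_le (u ^ 4), Nat.zero_le (u ^ 3), Nat.zero_le (u ^ 2), Nat.zero_le u]
    calc (2 * (b + 1) + 1) ^ 4 ≤ 2 * (2 * b + 1) ^ 4 := h
      _ ≤ 2 * 2 ^ b := Nat.mul_le_mul_left 2 ih
      _ = 2 ^ (b + 1) := by rw [pow_succ]; ring

theorem gr_pow4 (a : ℕ) (ha : 64 ≤ a) : a ^ 4 ≤ 2 ^ (a / 2) := by
  calc a ^ 4 ≤ (2 * (a / 2) + 1) ^ 4 := Nat.pow_le_pow_left (by omega) 4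
    _ ≤ 2 ^ (a / 2) := gr_aux _ (by omega)

theorem gr_aa (t : ℕ) : 64 + t ≤ aa t := by
  induction t with
  | zero => simp [aa]
  | succ t ih =>
    have h1 : aa t < 2 ^ aa t := Nat.lt_two_pow_self
    have h2 : 2 ^ aa t < 2 ^ 2 ^ aa t := Nat.lt_two_pow_self
    change 64 + (t + 1) ≤ 2 ^ 2 ^ aa t
    omega

theorem gr_aa_mono : Monotone aa := by
  refine monotone_nat_of_le_succ fun t => ?_
  have h1 : aa t < 2 ^ aa t := Nat.lt_two_pow_self
  have h2 : 2 ^ aa t < 2 ^ 2 ^ aa t := Nat.lt_two_pow_self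
  change aa t ≤ 2 ^ 2 ^ aa t
  omega

theorem gr_le_pow4 (a : ℕ) (ha : 64 ≤ a) : a + 10 ≤ a ^ 4 := by
  have h2 : 64 * 64 ≤ a ^ 2 := by rw [sq]; exact Nat.mul_le_mul ha ha
  have h3 : a ^ 2 * a ^ 2 = a ^ 4 := by rw [← pow_add]
  nlinarith

theorem S_finite (t : ℕ) : (S t).Finite := by
  have h : S t ⊆ (Set.Iic (th t)) ×ˢ ({x : List Bool | x.length ≤ th t} ×ˢ
      Set.Iio ((th t + 1) ^ th t)) := by
    rintro ⟨e, x, i⟩ ⟨h1, h2, h3⟩
    have h1' : 2 ≤ e ∧ e ≤ x.length := h1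
    dsimp only at h2 h3
    refine ⟨?_, h2, ?_⟩
    · exact h1'.2.trans h2
    · refine lt_of_lt_of_le h3 ?_
      unfold bl
      calc (x.length + 1) ^ e ≤ (th t + 1) ^ e := Nat.pow_le_pow_left (by omega) e
        _ ≤ (th t + 1) ^ th t := Nat.pow_le_pow_right (by omega) (h1'.2.trans h2)
  exact ((Set.finite_Iic _).prod ((List.finite_length_le Bool (th t)).prod
    (Set.finite_Iio _))).subset h

theorem S_mono {s t : ℕ} (h : s ≤ t) : S s ⊆ S t := by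
  rintro p ⟨h1, h2, h3⟩
  exact ⟨h1, h2.trans (Nat.pow_le_pow_left (gr_aa_mono h) 3), h3⟩

theorem gr_card_lists (N : ℕ) : {x : List Bool | x.length ≤ N}.ncard ≤ 2 ^ (N + 1) := by
  classical
  have h : {x : List Bool | x.length ≤ N} ⊆
      ((Finset.range (N + 1)).biUnion fun m =>
        (Finset.univ : Finset (Fin m → Bool)).image List.ofFn : Finset (List Bool)) := by
    intro x hx
    have hx' : x.length ≤ N := hx
    simp only [Finset.coe_biUnion, Set.mem_iUnion, Finset.mem_coe, Finset.mem_range,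
      Finset.mem_image, Finset.mem_univ, true_and]
    exact ⟨x.length, by omega, x.get, List.ofFn_get x⟩
  refine (Set.ncard_le_ncard h (Finset.finite_toSet _)).trans ?_
  rw [Set.ncard_coe_finset]
  refine Finset.card_biUnion_le.trans ?_
  calc ∑ m ∈ Finset.range (N + 1), ((Finset.univ : Finset (Fin m → Bool)).image List.ofFn).card
      ≤ ∑ m ∈ Finset.range (N + 1), 2 ^ m := by
        refine Finset.sum_le_sum fun m _ => ?_
        refine Finset.card_image_le.trans ?_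
        simp
    _ ≤ 2 ^ (N + 1) := by
        have := Nat.geomSum_lt (m := 2) (n := N + 1) (s := Finset.range (N + 1)) (le_refl 2)
          (fun k hk => Finset.mem_range.1 hk)
        exact this.le

theorem gr_card (t : ℕ) : (S t).ncard ≤ (2 * (th t + 1)) ^ (th t + 1) := by
  have h : S t ⊆ (Set.Iic (th t)) ×ˢ ({x : List Bool | x.length ≤ th t} ×ˢ
      Set.Iio ((th t + 1) ^ th t)) := by
    rintro ⟨e, x, i⟩ ⟨h1, h2, h3⟩
    have h1' : 2 ≤ e ∧ e ≤ x.length := h1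
    dsimp only at h2 h3
    refine ⟨?_, h2, ?_⟩
    · exact h1'.2.trans h2
    · refine lt_of_lt_of_le h3 ?_
      unfold bl
      calc (x.length + 1) ^ e ≤ (th t + 1) ^ e := Nat.pow_le_pow_left (by omega) e
        _ ≤ (th t + 1) ^ th t := Nat.pow_le_pow_right (by omega) (h1'.2.trans h2)
  have hf : ((Set.Iic (th t)) ×ˢ ({x : List Bool | x.length ≤ th t} ×ˢ
      Set.Iio ((th t + 1) ^ th t))).Finite :=
    (Set.finite_Iic _).prod ((List.finite_length_le Bool (th t)).prod (Set.finite_Iio _))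
  refine (Set.ncard_le_ncard h hf).trans ?_
  rw [Set.ncard_prod, Set.ncard_prod]
  have e1 : (Set.Iic (th t)).ncard = th t + 1 := by
    rw [← Finset.coe_Iic, Set.ncard_coe_finset, Nat.card_Iic]
  have e2 : (Set.Iio ((th t + 1) ^ th t)).ncard = (th t + 1) ^ th t := by
    rw [← Finset.coe_Iio, Set.ncard_coe_finset, Nat.card_Iio]
  rw [e1, e2, mul_pow]
  calc (th t + 1) * ({x : List Bool | x.length ≤ th t}.ncard * (th t + 1) ^ th t)
      ≤ (th t + 1) * (2 ^ (th t + 1) * (th t + 1) ^ th t) :=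
        Nat.mul_le_mul_left _ (Nat.mul_le_mul_right _ (gr_card_lists _))
    _ = 2 ^ (th t + 1) * (th t + 1) ^ (th t + 1) := by rw [pow_succ (th t + 1)]; ring

theorem S_card (t : ℕ) : (S t).ncard + t + 4 * nn t + 10 ≤ 2 ^ nn t / 16 := by
  have ha := gr_aa t
  have h1 := gr_card t
  unfold nn th at *
  set a := aa t with haa
  have ha64 : 64 ≤ a := by omega
  have h4 := gr_pow4 a ha64
  have h10 := gr_le_pow4 a ha64
  have hT : 2 * (a ^ 3 + 1) ≤ 2 ^ (a / 2) := by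
    refine le_trans ?_ h4
    have : a ^ 4 = a ^ 3 * a := by ring
    have h3 : 1 ≤ a ^ 3 := Nat.one_le_pow _ _ (by omega)
    rw [this]
    nlinarith
  have hc : (S t).ncard ≤ 2 ^ (a / 2 * (a ^ 3 + 1)) := by
    refine h1.trans ?_
    rw [pow_mul]
    exact Nat.pow_le_pow_left hT _
  have hr : t + 4 * a ^ 4 + 10 ≤ 2 ^ (a / 2 * (a ^ 3 + 1)) := by
    calc t + 4 * a ^ 4 + 10 ≤ 8 * a ^ 4 := by omega
      _ ≤ 2 ^ 3 * 2 ^ (a / 2) := Nat.mul_le_mul_left 8 h4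
      _ = 2 ^ (3 + a / 2) := by rw [pow_add]
      _ ≤ 2 ^ (a / 2 * (a ^ 3 + 1)) := by
        refine Nat.pow_le_pow_right (by norm_num) ?_
        have h3 : 1 ≤ a ^ 3 := Nat.one_le_pow _ _ (by omega)
        have h5 : a / 2 * 1 ≤ a / 2 * a ^ 3 := Nat.mul_le_mul_left _ h3
        rw [mul_add]
        omega
  have he : a / 2 * (a ^ 3 + 1) + 1 + 4 ≤ a ^ 4 := by
    have h5 : 2 * (a / 2) * (a ^ 3 + 1) ≤ a * (a ^ 3 + 1) := Nat.mul_le_mul_right _ (by omega)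
    have h6 : a * (a ^ 3 + 1) = a ^ 4 + a := by ring
    have h7 : 2 * (a / 2) * (a ^ 3 + 1) = 2 * (a / 2 * (a ^ 3 + 1)) := by ring
    omega
  have hfin : (S t).ncard + t + 4 * a ^ 4 + 10 ≤ 2 ^ (a ^ 4 - 4) := by
    calc (S t).ncard + t + 4 * a ^ 4 + 10 ≤ 2 ^ (a / 2 * (a ^ 3 + 1)) + 2 ^ (a / 2 * (a ^ 3 + 1)) := by
          omega
      _ = 2 ^ (a / 2 * (a ^ 3 + 1) + 1) := by rw [pow_succ]; ring
      _ ≤ 2 ^ (a ^ 4 - 4) := Nat.pow_le_pow_right (by norm_num) (by omega)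
  refine hfin.trans ?_
  rw [Nat.le_div_iff_mul_le (by norm_num)]
  calc 2 ^ (a ^ 4 - 4) * 16 = 2 ^ (a ^ 4 - 4 + 4) := by rw [pow_add]; norm_num
    _ ≤ 2 ^ a ^ 4 := Nat.pow_le_pow_right (by norm_num) (by omega)

theorem t_le_nn (t : ℕ) : t + 2 ≤ nn t := by
  have ha := gr_aa t
  have h10 := gr_le_pow4 (aa t) (by omega)
  unfold nn
  omega

theorem nn_tendsto : Filter.Tendsto nn Filter.atTop Filter.atTop :=
  Filter.tendsto_atTop_mono (fun t => by have := t_le_nn t; change t ≤ nn t; omega) Filter.tendsto_id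

theorem gr_th_succ (t : ℕ) : 2 ^ 2 ^ aa t ≤ th (t + 1) := by
  unfold th
  change 2 ^ 2 ^ aa t ≤ (2 ^ 2 ^ aa t) ^ 3
  exact Nat.le_self_pow (by norm_num) _

/-- exponential time at length `nn t` stays below the next threshold -/
theorem th_big (c : ℕ) : ∃ t0, ∀ t ≥ t0, nn t + 2 ^ (c * (nn t + 1)) ≤ th (t + 1) := by
  refine ⟨4 * c + 2, fun t ht => (?_ : _ ≤ 2 ^ 2 ^ aa t).trans (gr_th_succ t)⟩
  have ha := gr_aa t
  have h4 := gr_pow4 (aa t) (by omega)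
  have h10 := gr_le_pow4 (aa t) (by omega)
  unfold nn
  set a := aa t
  set N := a ^ 4
  have h1 : N + 2 ^ (c * (N + 1)) ≤ 2 ^ (N + c * (N + 1)) := by
    have e1 : N < 2 ^ N := Nat.lt_two_pow_self
    have e2 : 1 ≤ 2 ^ (c * (N + 1)) := Nat.one_le_two_pow
    rw [pow_add]
    nlinarith
  refine h1.trans (Nat.pow_le_pow_right (by norm_num) ?_)
  have h2 : N + c * (N + 1) ≤ (2 * c + 1) * N := by nlinarith
  have h3 : 2 * c + 1 ≤ 2 ^ (a / 2) := by
    have : a / 2 < 2 ^ (a / 2) := Nat.lt_two_pow_self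
    omega
  calc N + c * (N + 1) ≤ (2 * c + 1) * N := h2
    _ ≤ 2 ^ (a / 2) * 2 ^ (a / 2) := Nat.mul_le_mul h3 h4
    _ = 2 ^ (a / 2 + a / 2) := by rw [pow_add]
    _ ≤ 2 ^ a := Nat.pow_le_pow_right (by norm_num) (by omega)

theorem gr_poly (d a N : ℕ) (ha : 64 ≤ a) (hd : 2 * d + 2 ≤ a) (hN : N = a ^ 4) :
    N + (N ^ d + d) ≤ 2 ^ (a / 2 * (d + 1) + 2) := by
  have h4 := gr_pow4 a ha
  rw [← hN] at h4
  have e1 : N ≤ 2 ^ (a / 2 * (d + 1)) :=
    h4.trans (Nat.pow_le_pow_right (by norm_num) (Nat.le_mul_of_pos_right _ (by omega)))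
  have e2 : N ^ d ≤ 2 ^ (a / 2 * (d + 1)) := by
    calc N ^ d ≤ (2 ^ (a / 2)) ^ d := Nat.pow_le_pow_left h4 d
      _ = 2 ^ (a / 2 * d) := by rw [pow_mul]
      _ ≤ 2 ^ (a / 2 * (d + 1)) :=
        Nat.pow_le_pow_right (by norm_num) (Nat.mul_le_mul_left _ (by omega))
  have e3 : d ≤ 2 ^ (a / 2 * (d + 1)) := by
    have : a / 2 * (d + 1) < 2 ^ (a / 2 * (d + 1)) := Nat.lt_two_pow_self
    have h5 : 1 * (d + 1) ≤ a / 2 * (d + 1) := Nat.mul_le_mul_right _ (by omega)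
    omega
  rw [pow_add]
  omega

theorem gr_small (d a : ℕ) (ha : 64 ≤ a) (hd : 2 * d + 2 ≤ a) :
    a / 2 * (d + 1) + 2 + a + 2 ≤ a ^ 4 := by
  have h1 : a / 2 * (d + 1) ≤ a * a := Nat.mul_le_mul (by omega) (by omega)
  have h2 : a * a * (a * a) = a ^ 4 := by ring
  have h3 : 64 * 64 ≤ a * a := Nat.mul_le_mul ha ha
  have h4 : a ≤ a * a := Nat.le_mul_of_pos_right _ (by omega)
  nlinarith

theorem th_big' (d : ℕ) : ∃ t0, ∀ t ≥ t0, nn t + (nn t ^ d + d) ≤ th (t + 1) ∧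
    nn t + (nn t ^ d + d) < 2 ^ nn t - 1 := by
  refine ⟨2 * d + 2, fun t ht => ?_⟩
  have ha := gr_aa t
  have h4 := gr_pow4 (aa t) (by omega)
  have h10 := gr_le_pow4 (aa t) (by omega)
  have hp := gr_poly d (aa t) (nn t) (by omega) (by omega) rfl
  have hs := gr_small d (aa t) (by omega) (by omega)
  have hlt : nn t + (nn t ^ d + d) < 2 ^ nn t - 1 := by
    refine lt_of_le_of_lt hp ?_
    have e1 : 2 ^ (aa t / 2 * (d + 1) + 2) * 2 ≤ 2 ^ nn t := by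
      rw [← pow_succ]
      refine Nat.pow_le_pow_right (by norm_num) ?_
      unfold nn
      omega
    have e2 : 2 ^ 2 ≤ 2 ^ (aa t / 2 * (d + 1) + 2) :=
      Nat.pow_le_pow_right (by norm_num) (by omega)
    omega
  refine ⟨?_, hlt⟩
  refine le_trans ?_ (gr_th_succ t)
  have e3 : 2 ^ nn t ≤ 2 ^ 2 ^ aa t := by
    refine Nat.pow_le_pow_right (by norm_num) ?_
    unfold nn
    exact h4.trans (Nat.pow_le_pow_right (by norm_num) (by omega))
  omega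

theorem gr_m (t m : ℕ) (hm : th t < m) : aa t ^ 6 + 1 ≤ (m + 1) ^ 2 := by
  unfold th at hm
  have h1 : aa t ^ 3 * aa t ^ 3 = aa t ^ 6 := by rw [← pow_add]
  have h2 : (aa t ^ 3 + 1) * (aa t ^ 3 + 1) ≤ (m + 1) * (m + 1) :=
    Nat.mul_le_mul (by omega) (by omega)
  have h3 : (aa t ^ 3 + 1) * (aa t ^ 3 + 1) = aa t ^ 6 + 2 * aa t ^ 3 + 1 := by
    rw [← h1]; ring
  rw [sq]
  omega

/-- exponentially many questions do not find hidden strings of blocks above the threshold -/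
theorem th_hit (c : ℕ) : ∃ t0, ∀ t ≥ t0, ∀ m, th t < m →
    (2 : ℝ) ^ nn t * 2 ^ (c * (nn t + 1)) * (1 / 2) ^ ((m + 1) ^ 2) ≤ 1 / 4 := by
  refine ⟨2 * c + 2, fun t ht m hm => ?_⟩
  have ha := gr_aa t
  have hm' := gr_m t m hm
  have h10 := gr_le_pow4 (aa t) (by omega)
  have he : nn t + c * (nn t + 1) + 2 ≤ (m + 1) ^ 2 := by
    unfold nn
    set a := aa t
    have e1 : a ^ 6 = a ^ 4 * (a * a) := by ring
    have e2 : 2 * c + 2 ≤ a * a := by nlinarith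
    have e3 : a ^ 4 * (2 * c + 2) ≤ a ^ 4 * (a * a) := Nat.mul_le_mul_left _ e2
    have e4 : c * (a ^ 4 + 1) ≤ c * (2 * a ^ 4) := Nat.mul_le_mul_left _ (by omega)
    nlinarith
  have h1 : (1 / 2 : ℝ) ^ ((m + 1) ^ 2) ≤ (1 / 2) ^ (nn t + c * (nn t + 1) + 2) :=
    pow_le_pow_of_le_one (by norm_num) (by norm_num) he
  calc (2 : ℝ) ^ nn t * 2 ^ (c * (nn t + 1)) * (1 / 2) ^ ((m + 1) ^ 2)
      ≤ (2 : ℝ) ^ nn t * 2 ^ (c * (nn t + 1)) * (1 / 2) ^ (nn t + c * (nn t + 1) + 2) :=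
        mul_le_mul_of_nonneg_left h1 (by positivity)
    _ = ((2 : ℝ) ^ (nn t + c * (nn t + 1)) * (1 / 2) ^ (nn t + c * (nn t + 1))) * (1 / 2) ^ 2 := by
        rw [pow_add (2 : ℝ), pow_add (1 / 2 : ℝ) (nn t + c * (nn t + 1)) 2]
        ring
    _ = 1 / 4 := by
        rw [← mul_pow]
        norm_num
    _ ≤ 1 / 4 := le_refl _

theorem th_hit' (d : ℕ) (δ : ℝ) (hδ : 0 < δ) : ∃ t0, ∀ t ≥ t0, ∀ m, th t < m →
    ((nn t : ℝ) ^ d + d) * (1 / 2) ^ ((m + 1) ^ 2 - 1) ≤ δ := by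
  obtain ⟨t1, ht1⟩ := exists_pow_lt_of_lt_one hδ (show (1 / 2 : ℝ) < 1 by norm_num)
  refine ⟨2 * d + 2 + t1, fun t ht m hm => ?_⟩
  have ha := gr_aa t
  have hm' := gr_m t m hm
  have hp := gr_poly d (aa t) (nn t) (by omega) (by omega) rfl
  have hs := gr_small d (aa t) (by omega) (by omega)
  have h46 : aa t ^ 4 ≤ aa t ^ 6 := Nat.pow_le_pow_right (by omega) (by norm_num)
  set K := aa t / 2 * (d + 1) + 2 with hK
  have h1 : ((nn t : ℝ) ^ d + d) ≤ 2 ^ K := by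
    have : nn t ^ d + d ≤ 2 ^ K := by omega
    exact_mod_cast this
  have h2 : (1 / 2 : ℝ) ^ ((m + 1) ^ 2 - 1) ≤ (1 / 2) ^ (K + t1) :=
    pow_le_pow_of_le_one (by norm_num) (by norm_num) (by omega)
  calc ((nn t : ℝ) ^ d + d) * (1 / 2) ^ ((m + 1) ^ 2 - 1) ≤ 2 ^ K * (1 / 2) ^ (K + t1) :=
        mul_le_mul h1 h2 (by positivity) (by positivity)
    _ = (1 / 2) ^ t1 := by
        rw [pow_add (1 / 2 : ℝ) K t1, ← mul_assoc, ← mul_pow]
        norm_num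
    _ ≤ δ := ht1.le

end Pool.Agent.H552R2.RM
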