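import Pool.Agent.H552R2.RM.Defs2
import Pool.Agent.H552R2.Upper

/-!
The standard enumeration of strings; polynomial versus quasipolynomial time bounds.
-/

namespace Pool.Agent.H552R2.RM

open Function MeasureTheory
open Pool.Agent.Helper556.OM

theorem st_bits_ne (i : ℕ) : (Nat.bits (i + 1)).reverse ≠ [] := by
  intro h
  have h1 : Nat.bits (i + 1) = [] := List.reverse_eq_nil_iff.1 h
  have h2 := Nat.size_eq_bits_len (i + 1)
  rw [h1, List.length_nil] at h2
  have h3 : 0 < Nat.size (i + 1) := Nat.size_pos.2 (by omega)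
  omega

theorem st_zero : str 0 = [] := by
  simp [str]

theorem st_false (i : ℕ) : str (2 * i + 1) = str i ++ [false] := by
  unfold str
  have h : 2 * i + 1 + 1 = 2 * (i + 1) := by ring
  rw [h, Nat.bit0_bits (i + 1) (by omega), List.reverse_cons,
    List.tail_append_of_ne_nil (st_bits_ne i)]

theorem st_true (i : ℕ) : str (2 * i + 2) = str i ++ [true] := by
  unfold str
  have h : 2 * i + 2 + 1 = 2 * (i + 1) + 1 := by ring
  rw [h, Nat.bit1_bits (i + 1), List.reverse_cons,
    List.tail_append_of_ne_nil (st_bits_ne i)]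

/-- the index of a string -/
def st_ix (x : List Bool) : ℕ := x.foldl (fun a b => 2 * a + 1 + (if b then 1 else 0)) 0

theorem st_ix_append (x : List Bool) (b : Bool) :
    st_ix (x ++ [b]) = 2 * st_ix x + 1 + (if b then 1 else 0) := by
  unfold st_ix
  rw [List.foldl_append]
  rfl

theorem st_ix_str (i : ℕ) : st_ix (str i) = i := by
  induction i using Nat.strong_induction_on with
  | _ i ih =>
      rcases Nat.eq_zero_or_pos i with h | h
      · subst h; rw [st_zero]; rfl
      · rcases Nat.even_or_odd' i with ⟨j, hj | hj⟩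
        · have e : i = 2 * (j - 1) + 2 := by omega
          rw [e, st_true, st_ix_append, ih (j - 1) (by omega)]
          simp
        · rw [hj, st_false, st_ix_append, ih j (by omega)]
          simp

theorem st_str_ix (x : List Bool) : str (st_ix x) = x := by
  induction x using List.reverseRecOn with
  | nil => exact st_zero
  | append_singleton x b ih =>
      rw [st_ix_append]
      cases b
      · simp only [Bool.false_eq_true, if_false, add_zero]
        rw [st_false, ih]
      · simp only [if_true]
        rw [show 2 * st_ix x + 1 + 1 = 2 * st_ix x + 2 by ring, st_true, ih]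

theorem st_ix_range (x : List Bool) : 2 ^ x.length ≤ st_ix x + 1 ∧
    st_ix x + 1 < 2 ^ (x.length + 1) := by
  induction x using List.reverseRecOn with
  | nil => simp [st_ix]
  | append_singleton x b ih =>
      rw [st_ix_append, List.length_append, List.length_singleton]
      obtain ⟨h1, h2⟩ := ih
      have e1 : 2 ^ (x.length + 1) = 2 * 2 ^ x.length := by ring
      have e2 : 2 ^ (x.length + 1 + 1) = 2 * 2 ^ (x.length + 1) := by ring
      cases b <;> simp <;> omega

theorem str_length_log (i : ℕ) : (str i).length = Nat.log 2 (i + 1) := by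
  have h := st_ix_range (str i)
  rw [st_ix_str] at h
  exact ((Nat.log_eq_iff (Or.inr ⟨by norm_num, by omega⟩)).2 h).symm

theorem str_length {n i : ℕ} (h1 : 2 ^ n - 1 ≤ i) (h2 : i < 2 ^ (n + 1) - 1) :
    (str i).length = n := by
  rw [str_length_log]
  exact (Nat.log_eq_iff (Or.inr ⟨by norm_num, by omega⟩)).2 ⟨by omega, by omega⟩

theorem str_inj : Injective str := fun i j h => by
  rw [← st_ix_str i, ← st_ix_str j, h]

theorem str_surj : Surjective str := fun x => ⟨st_ix x, st_str_ix x⟩

open Classical in
theorem card_str (n : ℕ) (P : List Bool → Prop) :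
    ((Finset.range (2 ^ n)).filter (fun i => P (str (2 ^ n - 1 + i)))).card =
      (Finset.univ.filter (fun x : Fin n → Bool => P (List.ofFn x))).card := by
  symm
  have hpos : 1 ≤ 2 ^ n := Nat.one_le_two_pow
  have hix : ∀ x : Fin n → Bool, 2 ^ n - 1 + (st_ix (List.ofFn x) - (2 ^ n - 1)) =
      st_ix (List.ofFn x) ∧ st_ix (List.ofFn x) - (2 ^ n - 1) < 2 ^ n := by
    intro x
    have h := st_ix_range (List.ofFn x)
    rw [List.length_ofFn] at h
    have e1 : 2 ^ (n + 1) = 2 * 2 ^ n := by ring
    omega
  refine Finset.card_bij (fun x _ => st_ix (List.ofFn x) - (2 ^ n - 1)) ?_ ?_ ?_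
  · intro x hx
    rw [Finset.mem_filter] at hx ⊢
    refine ⟨Finset.mem_range.2 (hix x).2, ?_⟩
    rw [(hix x).1, st_str_ix]
    exact hx.2
  · intro x _ y _ h
    have h1 : st_ix (List.ofFn x) = st_ix (List.ofFn y) := by
      rw [← (hix x).1, ← (hix y).1, h]
    have h2 : List.ofFn x = List.ofFn y := by
      rw [← st_str_ix (List.ofFn x), ← st_str_ix (List.ofFn y), h1]
    exact List.ofFn_injective h2
  · intro i hi
    rw [Finset.mem_filter, Finset.mem_range] at hi
    have hl : (str (2 ^ n - 1 + i)).length = n := by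
      refine str_length (by omega) ?_
      have e1 : 2 ^ (n + 1) = 2 * 2 ^ n := by ring
      omega
    have hx : List.ofFn (fun j : Fin n => (str (2 ^ n - 1 + i)).get (j.cast hl.symm)) =
        str (2 ^ n - 1 + i) := by
      refine List.ext_get (by rw [List.length_ofFn, hl]) (fun k h1 h2 => ?_)
      rw [List.get_ofFn]
      rfl
    refine ⟨fun j => (str (2 ^ n - 1 + i)).get (j.cast hl.symm), ?_, ?_⟩
    · rw [Finset.mem_filter]
      refine ⟨Finset.mem_univ _, ?_⟩
      rw [hx]
      exact hi.2
    · simp only [hx, st_ix_str]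
      omega

theorem Null.toQuasi {A : Set (List Bool)} {X : Set (Set (List Bool))}
    (h : Null poly A X) : Null quasi A X := by
  obtain ⟨d, f, c, ⟨M, hM, hc⟩, h1⟩ := h
  obtain ⟨D, hD⟩ := pow_bound (c + 1)
  refine ⟨d, f, D, ⟨M, hM, fun k r w v => ?_⟩, h1⟩
  set n := (enc k r w).length with hn
  have hle : poly c n ≤ quasi D n := by
    unfold poly quasi
    set s := Nat.size n with hs
    have h2 : n < 2 ^ s := Nat.lt_size_self n
    have h3 : n ^ c ≤ 2 ^ (s * c) := by
      rw [pow_mul]
      exact Nat.pow_le_pow_left h2.le c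
    have h4 : c < 2 ^ c := Nat.lt_two_pow_self
    have h5 : n ^ c + c ≤ 2 ^ (s * c + c + 1) := by
      have e1 : 2 ^ (s * c) ≤ 2 ^ (s * c + c) := Nat.pow_le_pow_right (by norm_num) (by omega)
      have e2 : 2 ^ c ≤ 2 ^ (s * c + c) := Nat.pow_le_pow_right (by norm_num) (by omega)
      rw [pow_succ]
      omega
    refine h5.trans (Nat.pow_le_pow_right (by norm_num) (le_trans ?_ (hD s)))
    have h6 : (s + 2) * 2 ^ c ≤ (s + 2) ^ (c + 1) := by
      rw [pow_succ, mul_comm]
      exact Nat.mul_le_mul_right _ (Nat.pow_le_pow_left (by omega) c)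
    refine le_trans ?_ h6
    have h7 : (s + 2) * (c + 1) ≤ (s + 2) * 2 ^ c := Nat.mul_le_mul_left _ h4
    refine le_trans ?_ h7
    ring_nf
    omega
  have h := hc k r w v
  have hr := run_mono M v _ hle h.1
  refine ⟨?_, ?_⟩
  · rw [hr]; exact h.1
  · rw [hr]; exact h.2

end Pool.Agent.H552R2.RM
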