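import Pool.Agent.H552R2.RM.F_ME
import Pool.Agent.H552R2.RM.F_CO
import Pool.Agent.H552R2.RM.F_DY
import Pool.Agent.H552R2.RM.T_GR
import Pool.Agent.H552R2.RM.T_ST
import Pool.Agent.H552R2.Code

/-!
Task E2: the language of the first bits is in `E₂` relative to the oracle: deterministic search of
the hidden string.
-/

namespace Pool.Agent.H552R2.RM

open Function MeasureTheory
open Pool.Agent.Helper556.OM

/-! ### states -/

/-- the states met by the search program -/
def e2_mk (a b c d f : List Bool) : St := fun k =>
  if k = 3 then a else if k = 4 then b else if k = 5 then c else if k = 6 then d else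
  if k = 7 then f else []

section states
variable (a b c d f l : List Bool)

theorem e2_at3 : e2_mk a b c d f 3 = a := rfl
theorem e2_at4 : e2_mk a b c d f 4 = b := rfl
theorem e2_at5 : e2_mk a b c d f 5 = c := rfl
theorem e2_at6 : e2_mk a b c d f 6 = d := rfl
theorem e2_at7 : e2_mk a b c d f 7 = f := rfl

theorem e2_up3 : update (e2_mk a b c d f) 3 l = e2_mk l b c d f := by
  funext k
  simp only [update_apply, e2_mk]
  split_ifs <;> first | rfl | omega

theorem e2_up4 : update (e2_mk a b c d f) 4 l = e2_mk a l c d f := by
  funext k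
  simp only [update_apply, e2_mk]
  split_ifs <;> first | rfl | omega

theorem e2_up5 : update (e2_mk a b c d f) 5 l = e2_mk a b l d f := by
  funext k
  simp only [update_apply, e2_mk]
  split_ifs <;> first | rfl | omega

theorem e2_up6 : update (e2_mk a b c d f) 6 l = e2_mk a b c l f := by
  funext k
  simp only [update_apply, e2_mk]
  split_ifs <;> first | rfl | omega

theorem e2_up7 : update (e2_mk a b c d f) 7 l = e2_mk a b c d l := by
  funext k
  simp only [update_apply, e2_mk]
  split_ifs <;> first | rfl | omega

end states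

variable {A : Set (List Bool)}

theorem e2_loopc {r : ℕ} {p : Cmd} {s s' s'' : St} {T T' : ℕ} (h0 : s r ≠ [])
    (h : EvB A p s s' T) (h' : EvB A (.loop r p) s' s'' T') :
    EvB A (.loop r p) s s'' (T + T' + 1) := by
  obtain ⟨t, ht, h⟩ := h
  obtain ⟨t', ht', h'⟩ := h'
  exact ⟨t + t' + 1, by omega, Ev.loopc h0 h h'⟩

theorem e2_loopn {r : ℕ} {p : Cmd} {s : St} (h0 : s r = []) : EvB A (.loop r p) s s 1 :=
  ⟨1, le_refl _, Ev.loopn h0⟩

theorem e2_askt {r : ℕ} {pt pf : Cmd} {s s' : St} {T : ℕ} (h0 : s r ∈ A)
    (h : EvB A pt s s' T) : EvB A (.ask r pt pf) s s' (T + 1) := by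
  obtain ⟨t, ht, h⟩ := h
  exact ⟨t + 1, by omega, Ev.askt h0 h⟩

theorem e2_askf {r : ℕ} {pt pf : Cmd} {s s' : St} {T : ℕ} (h0 : s r ∉ A)
    (h : EvB A pf s s' T) : EvB A (.ask r pt pf) s s' (T + 1) := by
  obtain ⟨t, ht, h⟩ := h
  exact ⟨t + 1, by omega, Ev.askf h0 h⟩

/-- `move` on a stack which is not unary -/
theorem e2_ones {a b : ℕ} (hab : a ≠ b) (n : ℕ) : ∀ (s : St), s a = un n →
    EvB A (move a b) s (update (update s a []) b (un n ++ s b)) (3 * n + 1) := by
  induction n with
  | zero =>
      intro s hs
      have e : update (update s a []) b (un 0 ++ s b) = s := by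
        funext k
        simp only [update_apply, un_zero, List.nil_append]
        split_ifs with h1 h2
        · rw [h1]
        · rw [h2, hs, un_zero]
        · rfl
      rw [e]
      exact e2_loopn (by rw [hs, un_zero])
  | succ n ih =>
      intro s hs
      have p1 := EvB.pop (A := A) a s
      have p2 := EvB.push (A := A) b true (update s a (s a).tail)
      have p3 := p1.seq p2
      have e : update (update s a (s a).tail) b (true :: (update s a (s a).tail) b) =
          update (update s a (un n)) b (true :: s b) := by
        rw [hs, un_succ, List.tail_cons, update_of_ne hab.symm]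
      rw [e] at p3
      have p4 := ih (update (update s a (un n)) b (true :: s b))
        (by rw [update_of_ne hab, update_self])
      have p5 := e2_loopc (r := a) (by rw [hs, un_succ]; simp) p3 p4
      have e2 : update (update (update (update s a (un n)) b (true :: s b)) a []) b
          (un n ++ (update (update s a (un n)) b (true :: s b)) b) =
          update (update s a []) b (un (n + 1) ++ s b) := by
        have h3 : un n ++ true :: s b = un (n + 1) ++ s b := by
          rw [show un (n + 1) = un n ++ [true] from List.replicate_succ', List.append_assoc]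
          rfl
        funext k
        simp only [update_apply]
        split_ifs <;> first | rfl | exact h3
      rw [e2] at p5
      exact p5.mono (by omega)

/-! ### the increment -/

/-- flipping the leading `true`s -/
def e2_inc : Cmd := .loop 5 (.br 4 .skip
  (.seq (.pop 4) (.seq (.push 4 true) (move 5 7)))
  (.seq (.pop 4) (.seq (.pop 5) (.push 3 true))))

theorem e2_inc_step (j n : ℕ) (b d : List Bool) {s'' : St} {T : ℕ}
    (h : EvB A e2_inc (e2_mk (un (j + 1)) b (un n) d []) s'' T) :
    EvB A e2_inc (e2_mk (un j) (true :: b) (un (n + 1)) d []) s'' (T + 5) := by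
  have p1 := EvB.pop (A := A) 4 (e2_mk (un j) (true :: b) (un (n + 1)) d [])
  rw [e2_at4, List.tail_cons, e2_up4] at p1
  have p2 := EvB.pop (A := A) 5 (e2_mk (un j) b (un (n + 1)) d [])
  rw [e2_at5, un_succ, List.tail_cons, ← un_succ, e2_up5] at p2
  have p3 := EvB.push (A := A) 3 true (e2_mk (un j) b (un n) d [])
  rw [e2_at3, un_cons, e2_up3] at p3
  have p4 := EvB.brt (A := A) (r := 4) (pn := .skip)
    (pf := .seq (.pop 4) (.seq (.push 4 true) (move 5 7)))
    (s := e2_mk (un j) (true :: b) (un (n + 1)) d []) (l := b) rfl (p1.seq (p2.seq p3))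
  have p5 := e2_loopc (r := 5) (by rw [e2_at5]; exact un_ne (by omega)) p4 h
  exact p5.mono (by omega)

theorem e2_inc_found (i : ℕ) : ∀ (j k : ℕ) (r d : List Bool),
    EvB A e2_inc (e2_mk (un j) (List.replicate i true ++ false :: r) (un (i + 1 + k)) d [])
      (e2_mk (un (j + i)) (true :: r) [] d (un (k + 1))) (5 * i + 3 * k + 10) := by
  induction i with
  | zero =>
      intro j k r d
      rw [List.replicate_zero, List.nil_append, Nat.add_zero, Nat.zero_add, Nat.add_comm 1 k]
      have p1 := EvB.pop (A := A) 4 (e2_mk (un j) (false :: r) (un (k + 1)) d [])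
      rw [e2_at4, List.tail_cons, e2_up4] at p1
      have p2 := EvB.push (A := A) 4 true (e2_mk (un j) r (un (k + 1)) d [])
      rw [e2_at4, e2_up4] at p2
      have p3 := move_ev (A := A) (a := 5) (b := 7) (by omega)
        (s := e2_mk (un j) (true :: r) (un (k + 1)) d []) (n := k + 1) (m := 0) rfl rfl
      rw [e2_up5, e2_up7, Nat.zero_add] at p3
      have p4 := EvB.brf (A := A) (r := 4) (pn := .skip)
        (pt := .seq (.pop 4) (.seq (.pop 5) (.push 3 true)))
        (s := e2_mk (un j) (false :: r) (un (k + 1)) d []) (l := r) rfl (p1.seq (p2.seq p3))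
      have p5 := e2_loopc (r := 5) (by rw [e2_at5]; exact un_ne (by omega)) p4
        (e2_loopn (by rfl))
      exact p5.mono (by omega)
  | succ i ih =>
      intro j k r d
      have h := ih (j + 1) k r d
      rw [show j + 1 + i = j + (i + 1) by omega] at h
      have h2 := e2_inc_step j (i + 1 + k) _ d h
      rw [List.replicate_succ, List.cons_append, show i + 1 + 1 + k = i + 1 + k + 1 by omega]
      exact h2.mono (by omega)

theorem e2_inc_over (m : ℕ) : ∀ (j : ℕ) (r d : List Bool),
    EvB A e2_inc (e2_mk (un j) (List.replicate m true ++ r) (un m) d [])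
      (e2_mk (un (j + m)) r [] d []) (5 * m + 1) := by
  induction m with
  | zero =>
      intro j r d
      exact e2_loopn (by rfl)
  | succ m ih =>
      intro j r d
      have h := ih (j + 1) r d
      rw [show j + 1 + m = j + (m + 1) by omega] at h
      have h2 := e2_inc_step j m _ d h
      rw [List.replicate_succ, List.cons_append]
      exact h2.mono (by omega)

/-- pushing the `false`s back -/
def e2_rest : Cmd := .loop 3 (.seq (.pop 3) (.seq (.push 4 false) (.push 5 true)))

theorem e2_rest_ev (j : ℕ) : ∀ (b : List Bool) (c : ℕ) (d f : List Bool),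
    EvB A e2_rest (e2_mk (un j) b (un c) d f)
      (e2_mk [] (List.replicate j false ++ b) (un (c + j)) d f) (4 * j + 1) := by
  induction j with
  | zero =>
      intro b c d f
      exact e2_loopn (by rfl)
  | succ j ih =>
      intro b c d f
      have p1 := EvB.pop (A := A) 3 (e2_mk (un (j + 1)) b (un c) d f)
      rw [e2_at3, un_succ, List.tail_cons, ← un_succ, e2_up3] at p1
      have p2 := EvB.push (A := A) 4 false (e2_mk (un j) b (un c) d f)
      rw [e2_at4, e2_up4] at p2
      have p3 := EvB.push (A := A) 5 true (e2_mk (un j) (false :: b) (un c) d f)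
      rw [e2_at5, un_cons, e2_up5] at p3
      have h := ih (false :: b) (c + 1) d f
      have p5 := e2_loopc (r := 3) (by rw [e2_at3]; exact un_ne (by omega)) (p1.seq (p2.seq p3)) h
      have e : List.replicate j false ++ false :: b = List.replicate (j + 1) false ++ b := by
        rw [List.replicate_succ', List.append_assoc]
        rfl
      rw [e, show c + 1 + j = c + (j + 1) by omega] at p5
      exact p5.mono (by omega)

/-- the end of the increment -/
def e2_fin : Cmd := .br 7 (.seq (.pop 6) (clear 4)) .skip (move 7 5)

theorem e2_fin_some (b d : List Bool) (j k : ℕ) :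
    EvB A e2_fin (e2_mk [] b (un j) d (un (k + 1))) (e2_mk [] b (un (j + (k + 1))) d [])
      (3 * (k + 1) + 2) := by
  have p3 := move_ev (A := A) (a := 7) (b := 5) (by omega)
    (s := e2_mk [] b (un j) d (un (k + 1))) (n := k + 1) (m := j) rfl rfl
  rw [e2_up7, e2_up5] at p3
  exact (EvB.brt (A := A) (r := 7) (pn := .seq (.pop 6) (clear 4)) (pf := .skip)
    (l := un k) rfl p3).mono (by omega)

theorem e2_fin_none (b : List Bool) (j : ℕ) :
    EvB A e2_fin (e2_mk [] b (un j) [true] []) (e2_mk [] [] (un j) [] []) (2 * b.length + 3) := by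
  have p1 := EvB.pop (A := A) 6 (e2_mk [] b (un j) [true] [])
  rw [e2_at6, List.tail_cons, e2_up6] at p1
  have p2 := clear_ev (A := A) 4 (e2_mk [] b (un j) [] [])
  rw [e2_at4, e2_up4] at p2
  exact (EvB.brn (A := A) (r := 7) (pf := .skip) (pt := move 7 5)
    (by rfl) (p1.seq p2)).mono (by omega)

/-! ### one round of the search -/

/-- one round: ask, and go to the next string -/
def e2_body : Cmd := .seq (.push 4 true) (.seq (.push 4 true) (.ask 4 (.pop 6)
  (.seq (.pop 4) (.seq (.pop 4) (.seq e2_inc (.seq e2_rest e2_fin))))))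

theorem e2_body_yes (b c : List Bool) (h : true :: true :: b ∈ A) :
    EvB A e2_body (e2_mk [] b c [true] []) (e2_mk [] (true :: true :: b) c [] []) 4 := by
  have p1 := EvB.push (A := A) 4 true (e2_mk [] b c [true] [])
  rw [e2_at4, e2_up4] at p1
  have p2 := EvB.push (A := A) 4 true (e2_mk [] (true :: b) c [true] [])
  rw [e2_at4, e2_up4] at p2
  have p3 := EvB.pop (A := A) 6 (e2_mk [] (true :: true :: b) c [true] [])
  rw [e2_at6, List.tail_cons, e2_up6] at p3
  have p4 := e2_askt (r := 4) (pf := .seq (.pop 4) (.seq (.pop 4) (.seq e2_inc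
    (.seq e2_rest e2_fin)))) (by rw [e2_at4]; exact h) p3
  exact (p1.seq (p2.seq p4)).mono (by omega)

theorem e2_body_no (b c : List Bool) (h : true :: true :: b ∉ A) {s'' : St} {T : ℕ}
    (h2 : EvB A (.seq e2_inc (.seq e2_rest e2_fin)) (e2_mk [] b c [true] []) s'' T) :
    EvB A e2_body (e2_mk [] b c [true] []) s'' (T + 5) := by
  have p1 := EvB.push (A := A) 4 true (e2_mk [] b c [true] [])
  rw [e2_at4, e2_up4] at p1
  have p2 := EvB.push (A := A) 4 true (e2_mk [] (true :: b) c [true] [])
  rw [e2_at4, e2_up4] at p2
  have p3 := EvB.pop (A := A) 4 (e2_mk [] (true :: true :: b) c [true] [])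
  rw [e2_at4, List.tail_cons, e2_up4] at p3
  have p4 := EvB.pop (A := A) 4 (e2_mk [] (true :: b) c [true] [])
  rw [e2_at4, List.tail_cons, e2_up4] at p4
  have p5 := e2_askf (r := 4) (pt := .pop 6) (by rw [e2_at4]; exact h) (p3.seq (p4.seq h2))
  exact (p1.seq (p2.seq p5)).mono (by omega)

theorem e2_body_next (i k : ℕ) (r : List Bool)
    (h : true :: true :: (List.replicate i true ++ false :: r) ∉ A) :
    EvB A e2_body (e2_mk [] (List.replicate i true ++ false :: r) (un (i + 1 + k)) [true] [])
      (e2_mk [] (List.replicate i false ++ true :: r) (un (i + 1 + k)) [true] [])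
      (9 * i + 6 * k + 21) := by
  have p1 := e2_inc_found (A := A) i 0 k r [true]
  have p2 := e2_rest_ev (A := A) (0 + i) (true :: r) 0 [true] (un (k + 1))
  have p3 := e2_fin_some (A := A) (List.replicate (0 + i) false ++ true :: r) [true] (0 + (0 + i)) k
  rw [un_zero] at p1 p2
  have p4 := e2_body_no _ _ h (p1.seq (p2.seq p3))
  rw [show 0 + (0 + i) + (k + 1) = i + 1 + k by omega, Nat.zero_add] at p4
  exact p4.mono (by omega)

theorem e2_body_over (m : ℕ) (r : List Bool)
    (h : true :: true :: (List.replicate m true ++ r) ∉ A) :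
    EvB A e2_body (e2_mk [] (List.replicate m true ++ r) (un m) [true] [])
      (e2_mk [] [] (un m) [] []) (11 * m + 2 * r.length + 10) := by
  have p1 := e2_inc_over (A := A) m 0 r [true]
  have p2 := e2_rest_ev (A := A) (0 + m) r 0 [true] []
  have p3 := e2_fin_none (A := A) (List.replicate (0 + m) false ++ r) (0 + (0 + m))
  rw [un_zero] at p1 p2
  have p4 := e2_body_no _ _ h (p1.seq (p2.seq p3))
  rw [Nat.zero_add, Nat.zero_add, List.length_append, List.length_replicate] at p4
  exact p4.mono (by omega)

/-! ### the order of the strings -/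

/-- the value, lowest bit first -/
def e2_val : List Bool → ℕ
  | [] => 0
  | b :: l => 2 * e2_val l + (if b then 1 else 0)

theorem e2_val_lt (l : List Bool) : e2_val l < 2 ^ l.length := by
  induction l with
  | nil => simp [e2_val]
  | cons b l ih =>
      rw [List.length_cons, pow_succ, e2_val]
      split_ifs <;> omega

theorem e2_val_inj : ∀ (l l' : List Bool), l.length = l'.length → e2_val l = e2_val l' → l = l' := by
  intro l
  induction l with
  | nil =>
      intro l' h _
      exact (List.length_eq_zero_iff.1 h.symm).symm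
  | cons b l ih =>
      intro l' h1 h2
      cases l' with
      | nil => simp at h1
      | cons b' l' =>
          simp only [List.length_cons, Nat.add_right_cancel_iff] at h1
          simp only [e2_val] at h2
          have h3 : e2_val l = e2_val l' := by
            split_ifs at h2 <;> omega
          have h4 : b = b' := by
            cases b <;> cases b' <;> first | rfl | (simp at h2; omega)
          rw [ih l' h1 h3, h4]

theorem e2_val_true (m : ℕ) : e2_val (List.replicate m true) + 1 = 2 ^ m := by
  induction m with
  | zero => simp [e2_val]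
  | succ m ih =>
      rw [List.replicate_succ, e2_val, pow_succ, ← ih]
      simp only [if_true]
      omega

theorem e2_val_next (i : ℕ) (r : List Bool) :
    e2_val (List.replicate i false ++ true :: r) =
      e2_val (List.replicate i true ++ false :: r) + 1 := by
  induction i with
  | zero => simp [e2_val]
  | succ i ih =>
      rw [List.replicate_succ, List.replicate_succ, List.cons_append, List.cons_append, e2_val,
        e2_val, ih]
      simp only [if_true, Bool.false_eq_true, if_false]
      omega

theorem e2_cases (y : List Bool) :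
    (∃ i r, y = List.replicate i true ++ false :: r) ∨ y = List.replicate y.length true := by
  induction y with
  | nil => right; rfl
  | cons b y ih =>
      cases b with
      | false => left; exact ⟨0, y, rfl⟩
      | true =>
          rcases ih with ⟨i, r, h⟩ | h
          · left
            exact ⟨i + 1, r, by rw [h]; rfl⟩
          · right
            rw [List.length_cons, List.replicate_succ, ← h]

/-! ### the search -/

theorem e2_loop (m : ℕ) (bs : List Bool) : ∀ (N : ℕ) (y : List Bool), y.length = m →
    2 ^ m ≤ e2_val y + N →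
    (∀ y' : List Bool, y'.length = m → e2_val y' < e2_val y → true :: true :: (y' ++ bs) ∉ A) →
    ∃ s' : St, EvB A (.loop 6 e2_body) (e2_mk [] (y ++ bs) (un m) [true] []) s'
      (N * (11 * m + 2 * bs.length + 30) + 1) ∧
      ((∃ y' : List Bool, y'.length = m ∧ s' 4 = true :: true :: (y' ++ bs) ∧ s' 4 ∈ A) ∨
        (s' 4 = [] ∧ ∀ y' : List Bool, y'.length = m → true :: true :: (y' ++ bs) ∉ A)) := by
  intro N
  induction N with
  | zero =>
      intro y hy h1 _
      exfalso
      have := e2_val_lt y
      rw [hy] at this
      omega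
  | succ N ih =>
      intro y hy h1 h2
      have hK : (N + 1) * (11 * m + 2 * bs.length + 30) + 1 =
          N * (11 * m + 2 * bs.length + 30) + 1 + (11 * m + 2 * bs.length + 30) := by ring
      by_cases hin : true :: true :: (y ++ bs) ∈ A
      · refine ⟨e2_mk [] (true :: true :: (y ++ bs)) (un m) [] [], ?_, ?_⟩
        · have p1 := e2_loopc (r := 6) (by rw [e2_at6]; simp)
            (e2_body_yes (A := A) (y ++ bs) (un m) hin) (e2_loopn (by rfl))
          refine p1.mono ?_
          rw [hK]
          omega
        · left
          exact ⟨y, hy, rfl, by rw [e2_at4]; exact hin⟩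
      · rcases e2_cases y with ⟨i, r, hr⟩ | hr
        · -- next string
          have hlen : i + 1 + r.length = m := by
            rw [← hy, hr]
            simp only [List.length_append, List.length_replicate, List.length_cons]
            omega
          have e1 : y ++ bs = List.replicate i true ++ false :: (r ++ bs) := by
            rw [hr, List.append_assoc]; rfl
          rw [e1] at hin
          have p1 := e2_body_next (A := A) i r.length (r ++ bs) hin
          rw [hlen] at p1
          obtain ⟨s', p2, p3⟩ := ih (List.replicate i false ++ true :: r)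
            (by simp only [List.length_append, List.length_replicate, List.length_cons]; omega)
            (by rw [e2_val_next, ← hr]; omega)
            (by
              intro y' hy' hlt
              rw [e2_val_next, ← hr] at hlt
              rcases Nat.lt_succ_iff_lt_or_eq.1 hlt with h | h
              · exact h2 y' hy' h
              · have := e2_val_inj y' y (by rw [hy', hy]) h
                rw [this, e1]
                exact hin)
          refine ⟨s', ?_, p3⟩
          rw [List.append_assoc, List.cons_append] at p2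
          have p4 := e2_loopc (r := 6) (by rw [e2_at6]; simp) p1 p2
          rw [e1]
          refine p4.mono ?_
          rw [hK]
          omega
        · -- the last string
          rw [hy] at hr
          rw [hr] at hin
          have p1 := e2_body_over (A := A) m bs hin
          refine ⟨e2_mk [] [] (un m) [] [], ?_, ?_⟩
          · rw [hr]
            have p2 := e2_loopc (r := 6) (by rw [e2_at6]; simp) p1 (e2_loopn (by rfl))
            refine p2.mono ?_
            rw [hK]
            omega
          · right
            refine ⟨rfl, fun y' hy' => ?_⟩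
            have hv := e2_val_true m
            rw [← hr] at hv
            have hv' := e2_val_lt y'
            rw [hy'] at hv'
            rcases Nat.lt_or_ge (e2_val y') (e2_val y) with h | h
            · exact h2 y' hy' h
            · have := e2_val_inj y' y (by rw [hy', hy]) (by omega)
              rw [this, hr]
              exact hin

/-! ### the whole program -/

theorem e2_prog (e : ℕ) : ∃ (P : Cmd) (Tp : ℕ → ℕ), (∃ c, ∀ n, Tp n ≤ (n + 2) ^ c) ∧
    ∀ x : List Bool, ∃ s' : St, EvB A P (fun k => if k = 0 then x else []) s'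
      (Tp x.length + 2 ^ ((x.length + 1) ^ e - 1) * Tp x.length) ∧
      ((∃ y' : List Bool, y'.length = (x.length + 1) ^ e - 1 ∧
          s' 4 = true :: true :: (y' ++ base e x) ∧ s' 4 ∈ A) ∨
        (s' 4 = [] ∧ ∀ y' : List Bool, y'.length = (x.length + 1) ^ e - 1 →
          true :: true :: (y' ++ base e x) ∉ A)) := by
  have hid : U A (fun v : Fin 1 → ℕ => v 0) := U.proj 0
  have hU : U A (fun v : Fin 1 → ℕ => (v 0 + 1) ^ e - 1) := (U.pow hid.succ e).sub (U.const 1)
  have hmb := hU.bound
  obtain ⟨Pr, T, hT, hPr⟩ := hU
  set cst : List Bool := false :: (List.replicate e true ++ [false]) with hcst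
  have hcl : cst.length = e + 2 := by
    rw [hcst]; simp
  set P : Cmd := .seq split (.seq (Pr (fun _ => 2) 3 5) (.seq (pushL 4 cst) (.seq (move 2 4)
    (.seq (.push 4 false) (.seq (back 1 4) (.seq e2_rest (.seq (.push 6 true)
      (.loop 6 e2_body)))))))) with hP
  refine ⟨P, fun n => (5 * n + 1) + T (fun _ => n) + (e + 3) + (3 * n + 1) + 1 + (4 * n + 1) +
    (4 * ((n + 1) ^ e - 1) + 1) + 2 + (11 * ((n + 1) ^ e - 1) + 2 * (2 * n + e + 3) + 30), ?_, ?_⟩
  · have h0 := PB.proj (0 : Fin 1)
    have hTn : PB (fun v : Fin 1 → ℕ => T (fun _ => v 0)) :=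
      PB.comp (G := fun _ v => v 0) hT (fun _ => h0)
    have h : PB (fun v : Fin 1 → ℕ => (5 * v 0 + 1) + T (fun _ => v 0) + (e + 3) + (3 * v 0 + 1) +
        1 + (4 * v 0 + 1) + (4 * ((v 0 + 1) ^ e - 1) + 1) + 2 +
        (11 * ((v 0 + 1) ^ e - 1) + 2 * (2 * v 0 + e + 3) + 30)) := by
      refine PB.add (PB.add (PB.add (PB.add (PB.add (PB.add (PB.add (PB.add ?_ hTn) ?_) ?_) ?_) ?_)
        ?_) ?_) ?_
      · exact ((PB.const 5).mul h0).add (PB.const 1)
      · exact PB.const _
      · exact ((PB.const 3).mul h0).add (PB.const 1)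
      · exact PB.const 1
      · exact ((PB.const 4).mul h0).add (PB.const 1)
      · exact ((PB.const 4).mul hmb).add (PB.const 1)
      · exact PB.const 2
      · exact (((PB.const 11).mul hmb).add ((PB.const 2).mul ((((PB.const 2).mul h0).add
          (PB.const e)).add (PB.const 3)))).add (PB.const 30)
    obtain ⟨c, hc⟩ := h
    refine ⟨c, fun n => ?_⟩
    have := hc (fun _ => n)
    simp only [Fin.sum_univ_one] at this
    exact this
  · intro x
    set m := (x.length + 1) ^ e - 1 with hm
    have h1 := split_ev (A := A) x [] 0 (fun k => if k = 0 then x else []) (by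
      funext k
      split_ifs <;> rfl)
    rw [List.append_nil, Nat.zero_add] at h1
    set s1 : St := fun k => if k = 1 then x.reverse else if k = 2 then un x.length else []
      with hs1
    have h2 := (hPr (fun _ => x.length)).2 (fun _ => 2) 3 5 (fun _ => by omega) (by omega)
      (fun _ => by omega) s1 (fun i => by simp [hs1]) (by simp [hs1])
      (fun k hk => by rw [hs1]; simp only; rw [if_neg (by omega), if_neg (by omega)])
    simp only [← hm] at h2
    set s2 : St := update s1 3 (un m) with hs2
    have h3 := pushL_ev (A := A) 4 cst s2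
    have e24 : s2 4 = [] := by
      rw [hs2, update_of_ne (by omega), hs1]
      simp
    rw [e24, List.append_nil] at h3
    set s3 : St := update s2 4 cst with hs3
    have e32 : s3 2 = un x.length := by
      rw [hs3, update_of_ne (by omega), hs2, update_of_ne (by omega), hs1]
      simp
    have h4 := e2_ones (A := A) (a := 2) (b := 4) (by omega) x.length s3 e32
    have e34 : s3 4 = cst := by rw [hs3, update_self]
    rw [e34] at h4
    set s4 : St := update (update s3 2 []) 4 (un x.length ++ cst) with hs4
    have h5 := EvB.push (A := A) 4 false s4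
    have e44 : s4 4 = un x.length ++ cst := by rw [hs4, update_self]
    rw [e44] at h5
    set s5 : St := update s4 4 (false :: (un x.length ++ cst)) with hs5
    have e51 : s5 1 = x.reverse := by
      rw [hs5, update_of_ne (by omega), hs4, update_of_ne (by omega), update_of_ne (by omega),
        hs3, update_of_ne (by omega), hs2, update_of_ne (by omega), hs1]
      simp
    have e54 : s5 4 = false :: (un x.length ++ cst) := by rw [hs5, update_self]
    have h6 := back_ev (A := A) (a := 1) (b := 4) (by omega) x.reverse s5 e51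
    rw [List.reverse_reverse, e54, List.length_reverse] at h6
    have e6 : update (update s5 1 []) 4 (x ++ false :: (un x.length ++ cst)) =
        e2_mk (un m) (base e x) (un 0) [] [] := by
      funext k
      simp only [hs5, hs4, hs3, hs2, hs1, update_apply, e2_mk, base, hcst, un, List.replicate_zero]
      split_ifs <;> first | rfl | omega
    rw [e6] at h6
    have h7 := e2_rest_ev (A := A) m (base e x) 0 [] []
    rw [Nat.zero_add] at h7
    have h8 := EvB.push (A := A) 6 true
      (e2_mk [] (List.replicate m false ++ base e x) (un m) [] [])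
    rw [e2_at6, e2_up6] at h8
    obtain ⟨s', h9, h10⟩ := e2_loop (A := A) m (base e x) (2 ^ m) (List.replicate m false)
      (List.length_replicate) (by omega) (by
        intro y' _ hlt
        exfalso
        have : e2_val (List.replicate m false) = 0 := by
          clear * -
          induction m with
          | zero => rfl
          | succ m ih => rw [List.replicate_succ, e2_val, ih]; rfl
        omega)
    refine ⟨s', ?_, h10⟩
    have hbl : (base e x).length = 2 * x.length + e + 3 := by
      simp only [base, List.length_append, List.length_cons, List.length_replicate,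
        List.length_nil]
      omega
    rw [hbl] at h9
    have hfin := h1.seq (h2.seq (h3.seq (h4.seq (h5.seq (h6.seq (h7.seq (h8.seq h9)))))))
    refine hfin.mono ?_
    beta_reduce
    rw [hcl, ← hm]
    have hpos : 1 ≤ 2 ^ m := Nat.one_le_two_pow
    have hmul : 2 ^ m * (11 * m + 2 * (2 * x.length + e + 3) + 30) ≤
        2 ^ m * ((5 * x.length + 1) + T (fun _ => x.length) + (e + 3) + (3 * x.length + 1) + 1 +
          (4 * x.length + 1) + (4 * m + 1) + 2 + (11 * m + 2 * (2 * x.length + e + 3) + 30)) :=
      Nat.mul_le_mul_left _ (by omega)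
    omega

theorem e2_nil_notMem (full : Bool) (β : Set (List Bool)) (ω : Om) : [] ∉ orc full β ω := by
  rintro (⟨u, -, h⟩ | ⟨e, x, h, -⟩)
  · exact List.cons_ne_nil _ _ h.symm
  · exact List.cons_ne_nil _ _ h.symm

theorem lang_E2' (full : Bool) (β : Set (List Bool)) (e : ℕ) (ω : Om) :
    InE2 (orc full β ω) (Lang e ω) := by
  obtain ⟨P, Tp, ⟨c, hc⟩, hP⟩ := e2_prog (A := orc full β ω) e
  obtain ⟨D, hD⟩ := pow_bound (c + e + 3)
  refine ⟨decM P 4, D, decM_det P 4, fun x w => ?_⟩
  obtain ⟨s', ⟨t, ht, hev⟩, hs'⟩ := hP x
  set n := x.length with hn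
  have hm : (n + 1) ^ e - 1 ≤ (n + 2) ^ e :=
    (Nat.sub_le _ _).trans (Nat.pow_le_pow_left (by omega) e)
  have htime : t + 1 ≤ 2 ^ (n ^ D + D) := by
    have h1 : Tp n ≤ (n + 2) ^ c := hc n
    have h2 : Tp n + 2 ^ ((n + 1) ^ e - 1) * Tp n + 1 ≤
        2 ^ ((n + 2) ^ e) * 2 ^ ((n + 2) ^ c + 1) := by
      have h3 : 2 ^ ((n + 1) ^ e - 1) ≤ 2 ^ ((n + 2) ^ e) := Nat.pow_le_pow_right (by norm_num) hm
      have h4 : (n + 2) ^ c + 1 ≤ 2 ^ ((n + 2) ^ c) := Nat.lt_two_pow_self
      have h5 : 1 ≤ 2 ^ ((n + 2) ^ e) := Nat.one_le_two_pow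
      calc Tp n + 2 ^ ((n + 1) ^ e - 1) * Tp n + 1
          ≤ (n + 2) ^ c + 2 ^ ((n + 2) ^ e) * (n + 2) ^ c + 1 := by
            have := Nat.mul_le_mul h3 h1
            omega
        _ ≤ 2 ^ ((n + 2) ^ e) * ((n + 2) ^ c + 1) + 2 ^ ((n + 2) ^ e) * ((n + 2) ^ c + 1) := by
            have h6 : (n + 2) ^ c + 1 ≤ 2 ^ ((n + 2) ^ e) * ((n + 2) ^ c + 1) :=
              Nat.le_mul_of_pos_left _ (by omega)
            have h7 : 2 ^ ((n + 2) ^ e) * (n + 2) ^ c ≤
                2 ^ ((n + 2) ^ e) * ((n + 2) ^ c + 1) := Nat.mul_le_mul_left _ (by omega)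
            omega
        _ ≤ 2 ^ ((n + 2) ^ e) * 2 ^ ((n + 2) ^ c) + 2 ^ ((n + 2) ^ e) * 2 ^ ((n + 2) ^ c) := by
            have h8 := Nat.mul_le_mul_left (2 ^ ((n + 2) ^ e)) h4
            omega
        _ = 2 ^ ((n + 2) ^ e) * 2 ^ ((n + 2) ^ c + 1) := by rw [pow_succ]; ring
    rw [← pow_add] at h2
    have h9 : (n + 2) ^ e + ((n + 2) ^ c + 1) ≤ (n + 2) ^ (c + e + 3) := by
      have a0 : (n + 2) ^ e ≤ (n + 2) ^ (c + e) := Nat.pow_le_pow_right (by omega) (by omega)
      have a1 : (n + 2) ^ c ≤ (n + 2) ^ (c + e) := Nat.pow_le_pow_right (by omega) (by omega)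
      have a2 : 1 ≤ (n + 2) ^ (c + e) := Nat.one_le_pow _ _ (by omega)
      have a3 : (n + 2) ^ (c + e) * 8 ≤ (n + 2) ^ (c + e + 3) := by
        rw [pow_add _ (c + e) 3]
        apply Nat.mul_le_mul_left
        calc 8 = 2 ^ 3 := by norm_num
          _ ≤ (n + 2) ^ 3 := Nat.pow_le_pow_left (by omega) 3
      omega
    calc t + 1 ≤ Tp n + 2 ^ ((n + 1) ^ e - 1) * Tp n + 1 := by omega
      _ ≤ 2 ^ ((n + 2) ^ e + ((n + 2) ^ c + 1)) := h2
      _ ≤ 2 ^ ((n + 2) ^ (c + e + 3)) := Nat.pow_le_pow_right (by norm_num) h9
      _ ≤ 2 ^ (n ^ D + D) := Nat.pow_le_pow_right (by norm_num) (hD n)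
  have hrun := decM_run P 4 hev htime w
  refine ⟨hrun.1, Iff.trans ?_ hrun.2⟩
  have hbl : bl e x = (n + 1) ^ e := rfl
  have hpos : 1 ≤ (n + 1) ^ e := Nat.one_le_pow _ _ (by omega)
  rcases hs' with ⟨y', hy', h4, h5⟩ | ⟨h4, h5⟩
  · refine ⟨fun _ => h5, fun _ => ?_⟩
    rw [h4] at h5
    have h6 : code e x (true :: y') ∈ orc full β ω := h5
    rw [code_mem_orc] at h6
    change (hs e x ω).head? = some true
    rw [← h6.1]
    rfl
  · constructor
    · intro hx
      exfalso
      have hx' : (hs e x ω).head? = some true := hx
      cases hh : hs e x ω with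
      | nil => rw [hh] at hx'; simp at hx'
      | cons b y =>
          rw [hh, List.head?_cons, Option.some.injEq] at hx'
          subst hx'
          have hlen := length_hs e x ω
          rw [hh, List.length_cons, hbl] at hlen
          have h7 := h5 y (by omega)
          apply h7
          change code e x (true :: y) ∈ orc full β ω
          rw [code_mem_orc, hh]
          exact ⟨rfl, Or.inr rfl⟩
    · intro h6
      rw [h4] at h6
      exact absurd h6 (e2_nil_notMem _ _ _)

end Pool.Agent.H552R2.RM


namespace Pool.Agent.H552R2.RM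

alias lang_E2 := lang_E2'

end Pool.Agent.H552R2.RM
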