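import Pool.Agent.H552R2.RM.F_ME
import Pool.Agent.H552R2.RM.F_CO
import Pool.Agent.H552R2.RM.F_DY
import Pool.Agent.H552R2.RM.T_GR
import Pool.Agent.H552R2.RM.T_ST
import Pool.Agent.H552R2.Code

/-! Task FX: existence of the part `β` of the oracle. -/

namespace Pool.Agent.H552R2.RM

open Function MeasureTheory
open Pool.Agent.Helper556.OM

/-- approximations of the fixed point -/
def fx_seq (Ψ : Set (List Bool) → List Bool → Prop) : ℕ → Set (List Bool)
  | 0 => ∅
  | n + 1 => {u | Ψ (fx_seq Ψ n) u}

theorem exists_fix' (Ψ : Set (List Bool) → List Bool → Prop)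
    (h : ∀ β β' : Set (List Bool), ∀ u, (∀ z : List Bool, z.length < u.length → (z ∈ β ↔ z ∈ β')) →
      (Ψ β u ↔ Ψ β' u)) : ∃ β : Set (List Bool), ∀ u, u ∈ β ↔ Ψ β u := by
  have h1 : ∀ n, ∀ z : List Bool, z.length < n → (z ∈ fx_seq Ψ n ↔ z ∈ fx_seq Ψ (n + 1)) := by
    intro n
    induction n with
    | zero => intro z hz; exact absurd hz (Nat.not_lt_zero _)
    | succ n ih =>
      intro z hz
      show Ψ (fx_seq Ψ n) z ↔ Ψ (fx_seq Ψ (n + 1)) z
      exact h _ _ z fun y hy => ih y (by omega)
  have h2 : ∀ z : List Bool, ∀ n, z.length < n → (z ∈ fx_seq Ψ (z.length + 1) ↔ z ∈ fx_seq Ψ n) := by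
    intro z n hn
    induction n with
    | zero => exact absurd hn (Nat.not_lt_zero _)
    | succ n ih =>
      rcases Nat.lt_or_ge z.length n with h3 | h3
      · exact (ih h3).trans (h1 n z h3)
      · have : z.length = n := by omega
        rw [this]
  refine ⟨{u | u ∈ fx_seq Ψ (u.length + 1)}, fun u => ?_⟩
  show Ψ (fx_seq Ψ u.length) u ↔ _
  exact h _ _ u fun z hz => (h2 z u.length hz).symm

theorem fx_rep {i j : ℕ} {s s' : List Bool}
    (h : List.replicate i true ++ false :: s = List.replicate j true ++ false :: s') :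
    i = j ∧ s = s' := by
  induction i generalizing j with
  | zero =>
    cases j with
    | zero => simpa using h
    | succ j => simp [List.replicate_succ] at h
  | succ i ih =>
    cases j with
    | zero => simp [List.replicate_succ] at h
    | succ j =>
      simp only [List.replicate_succ, List.cons_append, List.cons.injEq, true_and] at h
      obtain ⟨h1, h2⟩ := ih h
      exact ⟨by omega, h2⟩

theorem enc_inj' {k r k' r' : ℕ} {w w' : List Bool} (h : enc k r w = enc k' r' w') :
    k = k' ∧ r = r' ∧ w = w' := by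
  unfold enc at h
  obtain ⟨h1, h2⟩ := fx_rep h
  obtain ⟨h3, h4⟩ := fx_rep h2
  exact ⟨h1, h3, h4⟩

theorem ques_inj' {i k r i' k' r' : ℕ} {w w' : List Bool} (h : ques i k r w = ques i' k' r' w') :
    i = i' ∧ k = k' ∧ r = r' ∧ w = w' := by
  unfold ques at h
  obtain ⟨h1, h2⟩ := fx_rep h
  exact ⟨h1, enc_inj' h2⟩

/-- `dd k w` depends only on the part of `β` of length less than `w.length` -/
theorem dd_congr' (full : Bool) (Φ : ℕ → LFun) {β β' : Set (List Bool)} (k : ℕ) (w : List Bool)
    (h : ∀ z : List Bool, z.length < w.length → (z ∈ β ↔ z ∈ β')) :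
    dd (prT full Φ β) k w = dd (prT full Φ β') k w := by
  unfold dd
  congr 1
  apply Finset.sum_congr rfl
  intro t _
  congr 1
  by_cases hs : 2 ^ nn t - 1 < w.length
  · have he : β ∩ {z : List Bool | z.length < 2 ^ nn t - 1} =
        β' ∩ {z : List Bool | z.length < 2 ^ nn t - 1} := by
      ext z
      simp only [Set.mem_inter_iff, Set.mem_setOf_eq]
      constructor
      · rintro ⟨h1, h2⟩
        exact ⟨(h z (by omega)).1 h1, h2⟩
      · rintro ⟨h1, h2⟩
        exact ⟨(h z (by omega)).2 h1, h2⟩
    have he2 : prT full Φ β t = prT full Φ β' t := by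
      unfold prT
      rw [he]
    rw [he2]
  · have he : seg t w = [] := by
      unfold seg
      rw [List.drop_eq_nil_of_le (by omega)]
      simp
    rw [he]
    unfold cap
    simp

theorem fx_num_congr (full : Bool) (Φ : ℕ → LFun) {β β' : Set (List Bool)} (k r : ℕ)
    (w : List Bool) (h : ∀ z : List Bool, z.length < w.length → (z ∈ β ↔ z ∈ β')) :
    num full Φ β k r w = num full Φ β' k r w := by
  unfold num
  rw [dd_congr' full Φ k w h]

theorem exists_answers' (full : Bool) (Φ : ℕ → LFun) : ∃ β, Answers full Φ β := by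
  obtain ⟨β, hβ⟩ := exists_fix' (fun β u => ∃ i k r w, u = ques i k r w ∧
    (num full Φ β k r w).testBit i = true) (by
      intro β β' u h
      constructor
      · rintro ⟨i, k, r, w, rfl, h2⟩
        refine ⟨i, k, r, w, rfl, ?_⟩
        rw [← fx_num_congr full Φ k r w (β := β) (β' := β')]
        · exact h2
        · intro z hz
          apply h
          simp only [ques, enc, List.length_append, List.length_replicate, List.length_cons]
          omega
      · rintro ⟨i, k, r, w, rfl, h2⟩
        refine ⟨i, k, r, w, rfl, ?_⟩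
        rw [fx_num_congr full Φ k r w (β := β) (β' := β')]
        · exact h2
        · intro z hz
          apply h
          simp only [ques, enc, List.length_append, List.length_replicate, List.length_cons]
          omega)
  refine ⟨β, fun i k r w => ?_⟩
  rw [hβ]
  constructor
  · rintro ⟨i', k', r', w', h1, h2⟩
    obtain ⟨rfl, rfl, rfl, rfl⟩ := ques_inj' h1
    exact h2
  · intro h
    exact ⟨i, k, r, w, rfl, h⟩

end Pool.Agent.H552R2.RM


namespace Pool.Agent.H552R2.RM

alias exists_fix := exists_fix'
alias enc_inj := enc_inj'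
alias ques_inj := ques_inj'
alias dd_congr := dd_congr'
alias exists_answers := exists_answers'

end Pool.Agent.H552R2.RM
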