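import Pool.Agent.H552R2.RM.F_ME
import Pool.Agent.H552R2.RM.F_CO
import Pool.Agent.H552R2.RM.F_DY
import Pool.Agent.H552R2.RM.T_GR
import Pool.Agent.H552R2.RM.T_ST
import Pool.Agent.H552R2.Code

/-!
Task MG: the density functions are martingales.
-/

set_option autoImplicit false

namespace Pool.Agent.H552R2.RM

open Function MeasureTheory
open Pool.Agent.Helper556.OM

theorem mg_fac_nonneg (b : Bool) (p : Prop) : 0 ≤ fac b p := by
  unfold fac
  split_ifs <;> norm_num

theorem mg_fac_add (p : Prop) : fac false p + fac true p = 2 := by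
  unfold fac
  by_cases h : p
  · simp [h]; norm_num
  · simp [h]; norm_num

/-- the capital of one bettor -/
noncomputable def mg_f (pred : List Bool → Om → Prop) (t : ℕ) (u : List Bool) (m : ℕ) (ω : Om) : ℝ :=
  ∏ i ∈ Finset.range m, fac (u.getD i false) (pred (str (2 ^ nn t - 1 + i)) ω)

theorem mg_cap (pred : List Bool → Om → Prop) (t : ℕ) (u : List Bool) :
    cap pred t u = ∫ ω, mg_f pred t u u.length ω ∂mu := by
  unfold cap mg_f
  congr 1
  funext ω
  rw [← Fin.prod_univ_eq_prod_range
    (fun i => fac (u.getD i false) (pred (str (2 ^ nn t - 1 + i)) ω)) u.length]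
  refine Finset.prod_congr rfl fun i _ => ?_
  rw [List.getD_eq_getElem _ _ i.2, List.get_eq_getElem]

theorem mg_cap_nonneg (pred : List Bool → Om → Prop) (t : ℕ) (u : List Bool) :
    0 ≤ cap pred t u := by
  unfold cap
  exact integral_nonneg fun ω => Finset.prod_nonneg fun _ _ => mg_fac_nonneg _ _

theorem mg_cap_nil (pred : List Bool → Om → Prop) (t : ℕ) : cap pred t [] = 1 := by
  rw [mg_cap]
  simp [mg_f]

theorem mg_FD (pred : List Bool → Om → Prop) (hFD : ∀ x, FD (fun ω => pred x ω)) (t : ℕ)
    (u : List Bool) (m : ℕ) : FD (mg_f pred t u m) := by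
  induction m with
  | zero =>
    have : mg_f pred t u 0 = fun _ => 1 := by
      funext ω
      simp [mg_f]
    rw [this]
    exact FD.const 1
  | succ m ih =>
    have : mg_f pred t u (m + 1) = fun ω => (fun a b : ℝ => a * b) (mg_f pred t u m ω)
        ((fun p : Prop => fac (u.getD m false) p) (pred (str (2 ^ nn t - 1 + m)) ω)) := by
      funext ω
      simp only [mg_f]
      rw [Finset.prod_range_succ]
    rw [this]
    exact FD.comp₂ ih ((hFD _).comp (fun p : Prop => fac (u.getD m false) p)) (fun a b : ℝ => a * b)

theorem mg_f_append (pred : List Bool → Om → Prop) (t : ℕ) (u : List Bool) (b : Bool) (ω : Om) :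
    mg_f pred t (u ++ [b]) (u ++ [b]).length ω =
      mg_f pred t u u.length ω * fac b (pred (str (2 ^ nn t - 1 + u.length)) ω) := by
  unfold mg_f
  rw [List.length_append, List.length_singleton, Finset.prod_range_succ]
  congr 1
  · refine Finset.prod_congr rfl fun i hi => ?_
    rw [List.getD_append _ _ _ _ (Finset.mem_range.1 hi)]
  · rw [List.getD_append_right _ _ _ _ (le_refl _)]
    simp

theorem mg_cap_append (pred : List Bool → Om → Prop) (hFD : ∀ x, FD (fun ω => pred x ω)) (t : ℕ)
    (u : List Bool) : cap pred t (u ++ [false]) + cap pred t (u ++ [true]) = 2 * cap pred t u := by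
  rw [mg_cap, mg_cap, mg_cap]
  have hi : ∀ b, Integrable (fun ω => mg_f pred t (u ++ [b]) (u ++ [b]).length ω) mu :=
    fun b => (mg_FD pred hFD t _ _).integrable
  rw [← integral_add (hi false) (hi true), ← integral_const_mul]
  congr 1
  funext ω
  rw [mg_f_append, mg_f_append, ← mul_add, mg_fac_add]
  ring

theorem mg_seg (t : ℕ) (w : List Bool) (pred : List Bool → Om → Prop)
    (hFD : ∀ x, FD (fun ω => pred x ω)) :
    cap pred t (seg t (w ++ [false])) + cap pred t (seg t (w ++ [true])) =
      2 * cap pred t (seg t w) := by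
  unfold seg
  set D := 2 ^ nn t - 1
  by_cases h : w.length < D
  · have e : ∀ b : Bool, List.drop D (w ++ [b]) = [] := by
      intro b
      apply List.drop_eq_nil_of_le
      rw [List.length_append, List.length_singleton]
      omega
    rw [e, e, List.drop_eq_nil_of_le h.le, List.take_nil, mg_cap_nil]
    norm_num
  · have e : ∀ b : Bool, List.drop D (w ++ [b]) = List.drop D w ++ [b] := by
      intro b
      exact List.drop_append_of_le_length (by omega)
    rw [e, e]
    by_cases h2 : 2 ^ nn t ≤ (List.drop D w).length
    · rw [List.take_append_of_le_length h2, List.take_append_of_le_length h2]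
      ring
    · have e2 : ∀ b : Bool, List.take (2 ^ nn t) (List.drop D w ++ [b]) = List.drop D w ++ [b] := by
        intro b
        apply List.take_of_length_le
        rw [List.length_append, List.length_singleton]
        omega
      rw [e2, e2, List.take_of_length_le (by omega)]
      exact mg_cap_append pred hFD t _

theorem mg_seg_nil (w : List Bool) (b : Bool) : seg w.length (w ++ [b]) = [] := by
  unfold seg
  have h := t_le_nn w.length
  have h2 : w.length + 2 < 2 ^ (w.length + 2) := Nat.lt_two_pow_self
  have h3 : 2 ^ (w.length + 2) ≤ 2 ^ nn w.length := Nat.pow_le_pow_right (by norm_num) h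
  rw [List.drop_eq_nil_of_le, List.take_nil]
  rw [List.length_append, List.length_singleton]
  omega

theorem dd_nonneg' (pred : ℕ → List Bool → Om → Prop) (k : ℕ) (w : List Bool) :
    0 ≤ dd pred k w := by
  unfold dd
  have := fun t => mg_cap_nonneg (pred t) t (seg t w)
  exact add_nonneg (Finset.sum_nonneg fun t _ => mul_nonneg (by positivity) (this t))
    (by positivity)

theorem dd_nil' (pred : ℕ → List Bool → Om → Prop) (k : ℕ) : dd pred k [] = (1 / 2) ^ k := by
  unfold dd
  simp

theorem dd_mart' (pred : ℕ → List Bool → Om → Prop)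
    (hFD : ∀ t x, FD (fun ω => pred t x ω)) (k : ℕ) (w : List Bool) :
    dd pred k (w ++ [false]) + dd pred k (w ++ [true]) = 2 * dd pred k w := by
  unfold dd
  rw [List.length_append, List.length_append, List.length_singleton, List.length_singleton]
  by_cases h : w.length < k
  · rw [Finset.Ico_eq_empty (by omega), Finset.Ico_eq_empty (by omega), max_eq_left (by omega),
      max_eq_left (by omega)]
    simp only [Finset.sum_empty]
    ring
  · rw [Finset.sum_Ico_succ_top (by omega), Finset.sum_Ico_succ_top (by omega), mg_seg_nil,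
      mg_seg_nil, mg_cap_nil, max_eq_right (by omega), max_eq_right (by omega)]
    have hs : ∑ t ∈ Finset.Ico k w.length, (1 / 2 : ℝ) ^ (t + 1) *
          cap (pred t) t (seg t (w ++ [false])) +
        ∑ t ∈ Finset.Ico k w.length, (1 / 2 : ℝ) ^ (t + 1) *
          cap (pred t) t (seg t (w ++ [true])) =
        2 * ∑ t ∈ Finset.Ico k w.length, (1 / 2 : ℝ) ^ (t + 1) * cap (pred t) t (seg t w) := by
      rw [← Finset.sum_add_distrib, Finset.mul_sum]
      refine Finset.sum_congr rfl fun t _ => ?_
      rw [← mul_add, mg_seg t w (pred t) (hFD t)]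
      ring
    have hp : (1 / 2 : ℝ) ^ (w.length + 1) = (1 / 2) ^ w.length / 2 := by
      rw [pow_succ]; ring
    rw [hp]
    linarith

theorem dd_le' (pred : ℕ → List Bool → Om → Prop)
    (hFD : ∀ t x, FD (fun ω => pred t x ω)) (k : ℕ) (w : List Bool) :
    dd pred k w ≤ 2 ^ w.length := by
  induction w using List.reverseRecOn with
  | nil =>
    rw [dd_nil']
    simp only [List.length_nil, pow_zero]
    exact pow_le_one₀ (by norm_num) (by norm_num)
  | append_singleton w b ih =>
    have h1 := dd_mart' pred hFD k w
    have h2 := dd_nonneg' pred k (w ++ [false])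
    have h3 := dd_nonneg' pred k (w ++ [true])
    rw [List.length_append, List.length_singleton, pow_succ]
    cases b <;> linarith

/-- the predictions depend only on the bits in `S t` -/
theorem pr_dep' (full : Bool) (φ : LFun) (β : Set (List Bool)) (t : ℕ) (x : List Bool) :
    Dep (S t) (pr full φ β t x) := by
  intro ω ω' h
  have e : ∀ ω'', pw (S t) ω ω'' = pw (S t) ω' ω'' := by
    intro ω''
    funext p
    unfold pw
    by_cases hp : p ∈ S t
    · rw [if_pos hp, if_pos hp, h p hp]
    · rw [if_neg hp, if_neg hp]
  unfold pr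
  simp only [e]

theorem pr_FD' (full : Bool) (φ : LFun) (β : Set (List Bool)) (t : ℕ) (x : List Bool) :
    FD (pr full φ β t x) := ⟨S t, S_finite t, pr_dep' full φ β t x⟩

end Pool.Agent.H552R2.RM


namespace Pool.Agent.H552R2.RM

alias dd_nonneg := dd_nonneg'
alias dd_nil := dd_nil'
alias dd_mart := dd_mart'
alias dd_le := dd_le'
alias pr_dep := pr_dep'
alias pr_FD := pr_FD'

end Pool.Agent.H552R2.RM
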