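import Pool.Agent.H552R2.RM.F_WI
import Pool.Agent.H552R2.RM.F_S3

/-!
Almost every oracle predicts: exponential time, `NP` and `PSPACE`.
-/

namespace Pool.Agent.H552R2.RM

open Function MeasureTheory
open Pool.Agent.Helper556.OM

theorem a3_phi_np (M : FM) (d : ℕ) : ∃ j, Phi j = npF (M, d) := by
  obtain ⟨j, hj⟩ := (exists_surjective_nat (FM × ℕ × Bool)).choose_spec (M, d, true)
  refine ⟨j, ?_⟩
  unfold Phi
  rw [hj]
  rfl

theorem a3_phi_ps (M : FM) (d : ℕ) : ∃ j, Phi j = psF (M, d) := by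
  obtain ⟨j, hj⟩ := (exists_surjective_nat (FM × ℕ × Bool)).choose_spec (M, d, false)
  refine ⟨j, ?_⟩
  unfold Phi
  rw [hj]
  rfl

theorem a3_infinite (j : ℕ) : {t : ℕ | (Nat.unpair t).1 = j}.Infinite := by
  have h : Injective (fun m : ℕ => Nat.pair j m) := by
    intro a b hab
    have := congrArg (fun n => (Nat.unpair n).2) hab
    simpa using this
  refine Set.infinite_of_injective_forall_mem h fun m => ?_
  simp

/-- the machine relabelled -/
theorem a3_FM (M : Machine) : ∃ F : FM, ∀ (A : Set (List Bool)) (x : List Bool) (t : ℕ)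
    (w : ℕ → Bool), F.toM.Accepts (F.toM.run A t w (F.toM.init x)) ↔
      M.Accepts (M.run A t w (M.init x)) := by
  have := M.fin
  obtain ⟨n, ⟨e⟩⟩ := Finite.exists_equiv_fin M.Q
  refine ⟨relabel M e, fun A x t w => ?_⟩
  have h := relabel_run M e A t w (M.init x)
  have hi : (relabel M e).toM.init x = emb M e (M.init x) := rfl
  rw [hi, h, relabel_accepts]

theorem a3_run_add (M : Machine) (A : Set (List Bool)) : ∀ (s t : ℕ) (w : ℕ → Bool)
    (c : M.Config), M.run A (s + t) w c = M.run A t (fun i => w (i + s)) (M.run A s w c)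
  | 0, t, w, c => by
      rw [Nat.zero_add]
      rfl
  | s + 1, t, w, c => by
      rw [Nat.add_right_comm, Machine.run, a3_run_add M A s t, Machine.run]
      rfl

theorem a3_halted_step (M : Machine) (A : Set (List Bool)) (g : Bool) (c : M.Config)
    (h : M.Halted c) : M.step A g c = c := by
  obtain ⟨b, hb⟩ := h
  unfold Machine.step
  rw [hb]

theorem a3_halted_run (M : Machine) (A : Set (List Bool)) : ∀ (t : ℕ) (w : ℕ → Bool)
    (c : M.Config), M.Halted c → M.run A t w c = c
  | 0, _, _, _ => rfl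
  | t + 1, w, c, h => by
      rw [Machine.run, a3_halted_step M A _ c h]
      exact a3_halted_run M A t _ c h

/-- the machine halts at most once -/
theorem a3_halted_unique (M : Machine) (A : Set (List Bool)) (w : ℕ → Bool) (c : M.Config)
    {s t : ℕ} (hs : M.Halted (M.run A s w c)) (ht : M.Halted (M.run A t w c)) :
    M.run A s w c = M.run A t w c := by
  rcases le_total s t with h | h
  · obtain ⟨r, rfl⟩ := Nat.exists_eq_add_of_le h
    rw [a3_run_add, a3_halted_run M A _ _ _ hs]
  · obtain ⟨r, rfl⟩ := Nat.exists_eq_add_of_le h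
    rw [a3_run_add, a3_halted_run M A _ _ _ ht]

/-- asked strings stand on stacks -/
theorem a3_qs (M : Machine) (A : Set (List Bool)) : ∀ (t : ℕ) (w : ℕ → Bool)
    (c : M.Config) (L : ℕ), (∀ s k, ((M.run A s w c).2 k).length ≤ L) →
    ∀ z ∈ qs M A t w c, z.length ≤ L
  | 0, _, _, _, _, z, hz => by simp [qs] at hz
  | t + 1, w, c, L, hL, z, hz => by
      rw [qs, List.mem_append] at hz
      rcases hz with hz | hz
      · unfold asked at hz
        split at hz
        · rename_i k f hk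
          simp only [List.mem_singleton] at hz
          subst hz
          exact hL 0 k
        · simp at hz
      · exact a3_qs M A t (fun i => w (i + 1)) (M.step A (w 0) c) L
          (fun s k => hL (s + 1) k) z hz

theorem a3_np {A L : Set (List Bool)} (h : InNP A L) :
    ∃ j, ∀ x, (x ∈ L ↔ (Phi j).F x A) := by
  obtain ⟨M, d, hM⟩ := h
  obtain ⟨F, hF⟩ := a3_FM M
  obtain ⟨j, hj⟩ := a3_phi_np F d
  refine ⟨j, fun x => ?_⟩
  rw [hj, (hM x).2]
  show _ ↔ AccN F.toM d A x
  unfold AccN Acc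
  exact exists_congr fun w => (hF A x _ w).symm

theorem a3_ps {A L : Set (List Bool)} (h : InPSPACE A L) :
    ∃ j, ∀ x, (x ∈ L ↔ (Phi j).F x A) := by
  obtain ⟨M, d, hdet, hM⟩ := h
  obtain ⟨F, hF⟩ := a3_FM M
  obtain ⟨j, hj⟩ := a3_phi_ps F d
  refine ⟨j, fun x => ?_⟩
  rw [hj]
  show _ ↔ ∃ t, F.toM.Accepts (F.toM.run (A ∩ {z | z.length ≤ x.length + (x.length ^ d + d)}) t
    (fun _ => false) (F.toM.init x))
  obtain ⟨hlen, t, hhalt, hx⟩ := hM x (fun _ => false)
  have hcong : ∀ s, M.run (A ∩ {z | z.length ≤ x.length + (x.length ^ d + d)}) s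
      (fun _ => false) (M.init x) = M.run A s (fun _ => false) (M.init x) := by
    intro s
    symm
    apply run_congr_qs
    intro z hz
    have h1 := a3_qs M A s _ _ _ hlen z hz
    refine ⟨fun h2 => ⟨h2, ?_⟩, fun h2 => h2.1⟩
    show z.length ≤ x.length + (x.length ^ d + d)
    omega
  constructor
  · intro h
    refine ⟨t, ?_⟩
    rw [hF, hcong]
    exact hx.1 h
  · rintro ⟨s, hs⟩
    rw [hF, hcong] at hs
    apply hx.2
    have h1 : M.Halted (M.run A s (fun _ => false) (M.init x)) := ⟨true, hs⟩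
    rw [← a3_halted_unique M A _ _ h1 hhalt]
    exact hs

/-- if all predictions are right then none is wrong -/
theorem a3_wrong {full : Bool} {φ : LFun} {β : Set (List Bool)} {t : ℕ} {ω : Om}
    {L : Set (List Bool)}
    (h : ∀ x : List Bool, x.length = nn t → (x ∈ L ↔ pr full φ β t x ω)) :
    wrong full φ β t ω L = 0 := by
  classical
  unfold wrong
  rw [Finset.card_eq_zero, Finset.filter_eq_empty_iff]
  intro x _ hx
  exact hx (h _ (List.length_ofFn))

theorem predicted3' (β : Set (List Bool)) : ∀ᵐ ω ∂mu, ∀ L : Set (List Bool),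
    (InNP (orc true β ω) L ∨ InPSPACE (orc true β ω) L) → InE (orc true β ω) L →
      L ∈ Predicted true Phi β ω := by
  have key : ∀ᵐ ω ∂mu, ∀ p : ℕ × FM × ℕ, ∃ᶠ t in Filter.atTop, (Nat.unpair t).1 = p.1 ∧
      ¬ ((∀ x : List Bool, x.length = nn t →
          ((Phi p.1).F x (orc true β ω) ↔
            AccT p.2.1.toM (2 ^ (p.2.2 * (x.length + 1))) (orc true β ω) x)) ∧
        ∃ x : List Bool, x.length = nn t ∧
          ¬ ((Phi p.1).F x (orc true β ω) ↔ pr true (Phi p.1) β t x ω)) := by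
    rw [ae_all_iff]
    rintro ⟨j, F, c⟩
    obtain ⟨t0, ht0⟩ := step3 β (Phi j) F.toM c
    exact borel_cantelli {t : ℕ | (Nat.unpair t).1 = j} (a3_infinite j)
      (fun t => {ω | (∀ x : List Bool, x.length = nn t →
          ((Phi j).F x (orc true β ω) ↔
            AccT F.toM (2 ^ (c * (x.length + 1))) (orc true β ω) x)) ∧
        ∃ x : List Bool, x.length = nn t ∧
          ¬ ((Phi j).F x (orc true β ω) ↔ pr true (Phi j) β t x ω)}) (3 / 4) (by norm_num) t0
      (fun t _ ht => (ht0 t ht).1) (fun t _ ht => (ht0 t ht).2)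
  filter_upwards [key] with ω hω L hL hE
  obtain ⟨j, hj⟩ : ∃ j, ∀ x, (x ∈ L ↔ (Phi j).F x (orc true β ω)) := by
    rcases hL with hL | hL
    · exact a3_np hL
    · exact a3_ps hL
  obtain ⟨M, c, hdet, hM⟩ := hE
  obtain ⟨F, hF⟩ := a3_FM M
  refine ⟨j, (hω (j, F, c)).mono ?_⟩
  rintro t ⟨htj, ht⟩
  refine ⟨htj, ?_⟩
  rw [a3_wrong]
  · simp
  · intro x hx
    rw [hj x]
    by_contra hcon
    apply ht
    refine ⟨fun y hy => ?_, x, hx, hcon⟩
    rw [← hj y, (hM y (fun _ => false)).2]
    unfold AccT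
    exact (hF _ _ _ _).symm

end Pool.Agent.H552R2.RM


namespace Pool.Agent.H552R2.RM

alias predicted3 := predicted3'

end Pool.Agent.H552R2.RM
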