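import Pool.Agent.H552R2.RM.F_S5A

/-!
Task S5B: assembly of the step for NP ∩ coNP with the Markov inequality.
-/

namespace Pool.Agent.H552R2.RM

open Function MeasureTheory
open Pool.Agent.Helper556.OM

theorem s5b_pw_mem {J : Set Idx} {ω ω' : Om} {p : Idx} (h : p ∈ J) : pw J ω ω' p = ω p := by
  unfold pw
  rw [if_pos h]

theorem s5b_pw_agree {J K : Set Idx} {ω w w' : Om} (h : ∀ p ∈ K, w p = w' p) :
    ∀ p ∈ K, pw J ω w p = pw J ω w' p := by
  intro p hp
  unfold pw
  by_cases hJ : p ∈ J
  · rw [if_pos hJ, if_pos hJ]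
  · rw [if_neg hJ, if_neg hJ]
    exact h p hp

/-- the acceptance of short strings depends only on the bits in `S (t + 1)` -/
theorem s5b_acc {β : Set (List Bool)} {M : Machine} {d t : ℕ}
    (ht : nn t + (nn t ^ d + d) ≤ th (t + 1)) {ω ω' : Om} (h : ∀ p ∈ S (t + 1), ω p = ω' p)
    {x : List Bool} (hx : x.length = nn t) :
    AccN M d (orc false β ω) x ↔ AccN M d (orc false β ω') x := by
  refine AccN_congr M d x (fun z hz => orc_congr (fun e y hr hl => hs_congr (fun _ i hi => ?_)))
  rw [hx] at hz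
  exact h _ ⟨hr, by change y.length ≤ th (t + 1); omega, hi⟩

theorem s5b_pr (φ : LFun) (β : Set (List Bool)) (t : ℕ) (x : List Bool) {ω ω' : Om}
    (h : ∀ p ∈ S t, ω p = ω' p) : pr false φ β t x ω = pr false φ β t x ω' :=
  pr_dep false φ β t x ω ω' h

theorem s5b_dep (β : Set (List Bool)) (p1 p0 : FM × ℕ) {t : ℕ}
    (h1 : nn t + (nn t ^ p1.2 + p1.2) ≤ th (t + 1))
    (h0 : nn t + (nn t ^ p0.2 + p0.2) ≤ th (t + 1)) :
    Dep (S (t + 1)) (fun ω => (∀ x : List Bool, x.length = nn t →
          (AccN p1.1.toM p1.2 (orc false β ω) x ↔ ¬ AccN p0.1.toM p0.2 (orc false β ω) x)) ∧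
        2 ^ nn t < 16 * wrong false (npF p1) β t ω
          {x | AccN p1.1.toM p1.2 (orc false β ω) x}) := by
  classical
  intro ω ω' h
  have hS : ∀ p ∈ S t, ω p = ω' p := fun p hp => h p (S_mono (Nat.le_succ t) hp)
  have e1 : (∀ x : List Bool, x.length = nn t →
          (AccN p1.1.toM p1.2 (orc false β ω) x ↔ ¬ AccN p0.1.toM p0.2 (orc false β ω) x)) ↔
      (∀ x : List Bool, x.length = nn t →
          (AccN p1.1.toM p1.2 (orc false β ω') x ↔ ¬ AccN p0.1.toM p0.2 (orc false β ω') x)) := by
    refine forall₂_congr (fun x hx => ?_)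
    rw [s5b_acc h1 h hx, s5b_acc h0 h hx]
  have e2 : wrong false (npF p1) β t ω {x | AccN p1.1.toM p1.2 (orc false β ω) x} =
      wrong false (npF p1) β t ω' {x | AccN p1.1.toM p1.2 (orc false β ω') x} := by
    unfold wrong
    congr 1
    refine Finset.filter_congr (fun x _ => ?_)
    have hl : (List.ofFn x).length = nn t := List.length_ofFn
    have a1 : (List.ofFn x ∈ {x | AccN p1.1.toM p1.2 (orc false β ω) x}) ↔
        (List.ofFn x ∈ {x | AccN p1.1.toM p1.2 (orc false β ω') x}) := s5b_acc h1 h hl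
    rw [a1, s5b_pr (npF p1) β t _ hS]
  refine propext ?_
  change (_ ∧ _) ↔ (_ ∧ _)
  rw [e1, e2]

theorem s5b_ind {V : Set Om} (h : FD (fun w => w ∈ V)) :
    FD (fun w => V.indicator (fun _ => (1 : ℝ)) w) := by
  classical
  have := h.comp (fun p : Prop => if p then (1 : ℝ) else 0)
  refine cast (congrArg _ ?_) this
  funext w
  by_cases hw : w ∈ V
  · simp [hw]
  · simp [hw]

theorem step5' (β : Set (List Bool)) (p1 p0 : FM × ℕ) :
    ∃ (ρ : ℝ) (t0 : ℕ), ρ < 1 ∧ ∀ t ≥ t0,
      Dep (S (t + 1)) (fun ω => (∀ x : List Bool, x.length = nn t →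
          (AccN p1.1.toM p1.2 (orc false β ω) x ↔ ¬ AccN p0.1.toM p0.2 (orc false β ω) x)) ∧
        2 ^ nn t < 16 * wrong false (npF p1) β t ω
          {x | AccN p1.1.toM p1.2 (orc false β ω) x}) ∧
      ∀ ω, mu.real {ω' | (∀ x : List Bool, x.length = nn t →
          (AccN p1.1.toM p1.2 (orc false β (pw (S t) ω ω')) x ↔
            ¬ AccN p0.1.toM p0.2 (orc false β (pw (S t) ω ω')) x)) ∧
        2 ^ nn t < 16 * wrong false (npF p1) β t (pw (S t) ω ω')
          {x | AccN p1.1.toM p1.2 (orc false β (pw (S t) ω ω')) x}} ≤ ρ := by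
  classical
  obtain ⟨t1, ht1⟩ := step5_one β p1.1.toM p0.1.toM p1.2 p0.2 (1 / 5120) (by norm_num)
  obtain ⟨t2, ht2⟩ := th_big' p1.2
  obtain ⟨t3, ht3⟩ := th_big' p0.2
  refine ⟨5119 / 5120, max t1 (max t2 t3), by norm_num, fun t ht => ?_⟩
  have h1 := (ht2 t (le_trans (le_trans (le_max_left _ _) (le_max_right _ _)) ht)).1
  have h0 := (ht3 t (le_trans (le_trans (le_max_right _ _) (le_max_right _ _)) ht)).1
  have hs1 := ht1 t (le_trans (le_max_left _ _) ht)
  refine ⟨s5b_dep β p1 p0 h1 h0, fun ω => ?_⟩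
  -- the event of failure
  set Fail : Set Om := {w | ∃ x : List Bool, x.length = nn t ∧
    ¬ (AccN p1.1.toM p1.2 (orc false β (pw (S t) ω w)) x ↔
            ¬ AccN p0.1.toM p0.2 (orc false β (pw (S t) ω w)) x)} with hFail
  have hFailFD : FD (fun w => w ∈ Fail) := by
    refine ⟨S (t + 1), S_finite _, fun w w' h => propext (exists_congr (fun x =>
      and_congr_right (fun hx => ?_)))⟩
    rw [s5b_acc h1 (s5b_pw_agree (ω := ω) (J := S t) h) hx,
      s5b_acc h0 (s5b_pw_agree (ω := ω) (J := S t) h) hx]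
  by_cases hcase : 1 / 5120 < mu.real Fail
  · have hc := probReal_compl_eq_one_sub hFailFD.measurableSet (μ := mu)
    refine le_trans (measureReal_mono (s₂ := Failᶜ) ?_ (measure_ne_top _ _)) ?_
    · intro w hw hf
      obtain ⟨x, hx1, hx2⟩ := hf
      exact hx2 (hw.1 x hx1)
    · rw [hc]
      linarith
  · have hcase' := not_lt.1 hcase
    -- the probabilities
    set P : List Bool → ℝ := fun x =>
      mu.real {w | AccN p1.1.toM p1.2 (orc false β (pw (S t) ω w)) x} with hP
    have hprod : ∀ x : List Bool, x.length = nn t → P x * (1 - P x) ≤ 1 / 128 := by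
      intro x hx
      have h := hs1 ω x hx (1 / 5120) (le_trans (measureReal_mono (s₂ := Fail) (fun w hw =>
        ⟨x, hx, hw⟩) (measure_ne_top _ _)) hcase')
      refine h.trans ?_
      norm_num
    set Wr : List Bool → Set Om := fun x =>
      {w | ¬ (AccN p1.1.toM p1.2 (orc false β (pw (S t) ω w)) x ↔ 1 / 2 < P x)} with hWr
    have hAccFD : ∀ x : List Bool, x.length = nn t →
        FD (fun w => w ∈ {w | AccN p1.1.toM p1.2 (orc false β (pw (S t) ω w)) x}) := by
      intro x hx
      exact ⟨S (t + 1), S_finite _, fun w w' h => propext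
        (s5b_acc h1 (s5b_pw_agree (ω := ω) (J := S t) h) hx)⟩
    have hWrFD : ∀ x : List Bool, x.length = nn t → FD (fun w => w ∈ Wr x) := by
      intro x hx
      exact (hAccFD x hx).comp (fun q : Prop => ¬ (q ↔ 1 / 2 < P x))
    have hP0 : ∀ x, 0 ≤ P x := fun x => measureReal_nonneg
    have hP1 : ∀ x, P x ≤ 1 := fun x => measureReal_le_one
    have hWrP : ∀ x : List Bool, x.length = nn t → mu.real (Wr x) ≤ 1 / 64 := by
      intro x hx
      have h3 := hprod x hx
      by_cases hp : 1 / 2 < P x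
      · have he : Wr x = {w | AccN p1.1.toM p1.2 (orc false β (pw (S t) ω w)) x}ᶜ := by
          ext w
          change ¬ (AccN p1.1.toM p1.2 (orc false β (pw (S t) ω w)) x ↔ 1 / 2 < P x) ↔
            ¬ AccN p1.1.toM p1.2 (orc false β (pw (S t) ω w)) x
          simp only [hp, iff_true]
        rw [he, probReal_compl_eq_one_sub (hAccFD x hx).measurableSet]
        change 1 - P x ≤ 1 / 64
        have := hP1 x
        nlinarith
      · have he : Wr x = {w | AccN p1.1.toM p1.2 (orc false β (pw (S t) ω w)) x} := by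
          ext w
          change ¬ (AccN p1.1.toM p1.2 (orc false β (pw (S t) ω w)) x ↔ 1 / 2 < P x) ↔
            AccN p1.1.toM p1.2 (orc false β (pw (S t) ω w)) x
          simp only [hp, iff_false, not_not]
        rw [he]
        change P x ≤ 1 / 64
        have := hP0 x
        have := not_lt.1 hp
        nlinarith
    -- the number of wrong predictions
    set f : Om → ℝ := fun w => ∑ x : Fin (nn t) → Bool,
      (Wr (List.ofFn x)).indicator (fun _ => (1 : ℝ)) w with hf
    have hlen : ∀ x : Fin (nn t) → Bool, (List.ofFn x).length = nn t := fun x => List.length_ofFn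
    have hfint : ∀ x : Fin (nn t) → Bool,
        Integrable (fun w => (Wr (List.ofFn x)).indicator (fun _ => (1 : ℝ)) w) mu :=
      fun x => (s5b_ind (hWrFD _ (hlen x))).integrable
    have hwrong : ∀ w : Om, (wrong false (npF p1) β t (pw (S t) ω w)
        {x | AccN p1.1.toM p1.2 (orc false β (pw (S t) ω w)) x} : ℝ) = f w := by
      intro w
      unfold wrong
      rw [Finset.card_filter]
      push_cast
      refine Finset.sum_congr rfl (fun x _ => ?_)
      have hpr : pr false (npF p1) β t (List.ofFn x) (pw (S t) ω w) =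
          pr false (npF p1) β t (List.ofFn x) ω :=
        s5b_pr (npF p1) β t _ (fun p hp => s5b_pw_mem hp)
      rw [hpr]
      have hpr2 : pr false (npF p1) β t (List.ofFn x) ω = (1 / 2 < P (List.ofFn x)) := rfl
      rw [hpr2]
      by_cases hw : w ∈ Wr (List.ofFn x)
      · rw [Set.indicator_of_mem hw]
        exact if_pos hw
      · rw [Set.indicator_of_notMem hw]
        exact if_neg hw
    have hint : ∫ w, f w ∂mu ≤ 2 ^ nn t / 64 := by
      rw [hf]
      simp only
      rw [integral_finsetSum _ (fun x _ => hfint x)]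
      calc ∑ x : Fin (nn t) → Bool,
            ∫ w, (Wr (List.ofFn x)).indicator (fun _ => (1 : ℝ)) w ∂mu
          ≤ ∑ _x : Fin (nn t) → Bool, (1 / 64 : ℝ) := by
            refine Finset.sum_le_sum (fun x _ => ?_)
            rw [integral_indicator (hWrFD _ (hlen x)).measurableSet]
            simp only [integral_const, smul_eq_mul, mul_one, measureReal_restrict_apply_univ]
            exact hWrP _ (hlen x)
        _ = 2 ^ nn t / 64 := by
            rw [Finset.sum_const, Finset.card_univ, Fintype.card_fun, Fintype.card_bool,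
              Fintype.card_fin, nsmul_eq_mul]
            push_cast
            ring
    have hmark := mul_meas_ge_le_integral_of_nonneg (μ := mu) (f := f)
      (Filter.Eventually.of_forall (fun w => Finset.sum_nonneg (fun x _ =>
        Set.indicator_nonneg (fun _ _ => zero_le_one) _)))
      (integrable_finsetSum _ (fun x _ => hfint x)) ((2 : ℝ) ^ nn t / 16)
    have hpos : (0 : ℝ) < 2 ^ nn t := by positivity
    have hsub : {ω' | (∀ x : List Bool, x.length = nn t →
          (AccN p1.1.toM p1.2 (orc false β (pw (S t) ω ω')) x ↔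
            ¬ AccN p0.1.toM p0.2 (orc false β (pw (S t) ω ω')) x)) ∧
        2 ^ nn t < 16 * wrong false (npF p1) β t (pw (S t) ω ω')
          {x | AccN p1.1.toM p1.2 (orc false β (pw (S t) ω ω')) x}} ⊆
        {w | (2 : ℝ) ^ nn t / 16 ≤ f w} := by
      rintro w ⟨-, hw⟩
      change (2 : ℝ) ^ nn t / 16 ≤ f w
      rw [← hwrong w]
      have h5 : ((2 ^ nn t : ℕ) : ℝ) < ((16 * wrong false (npF p1) β t (pw (S t) ω w)
          {x | AccN p1.1.toM p1.2 (orc false β (pw (S t) ω w)) x} : ℕ) : ℝ) := by
        exact_mod_cast hw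
      push_cast at h5
      linarith
    refine le_trans (measureReal_mono hsub (measure_ne_top _ _)) ?_
    have h6 : (2 : ℝ) ^ nn t / 16 * mu.real {w | (2 : ℝ) ^ nn t / 16 ≤ f w} ≤
        2 ^ nn t / 64 := hmark.trans hint
    have h7 : mu.real {w | (2 : ℝ) ^ nn t / 16 ≤ f w} ≤ 1 / 4 := by
      by_contra hcon
      push Not at hcon
      nlinarith
    linarith

end Pool.Agent.H552R2.RM


namespace Pool.Agent.H552R2.RM

alias step5 := step5'

end Pool.Agent.H552R2.RM
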