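import Pool.Agent.H552R2.RM.F_A3
import Pool.Agent.H552R2.RM.F_S5B

/-!
Almost every oracle predicts: `NP ∩ coNP`.
-/

namespace Pool.Agent.H552R2.RM

open Function MeasureTheory
open Pool.Agent.Helper556.OM

theorem a5_np {A L : Set (List Bool)} (h : InNP A L) :
    ∃ p : FM × ℕ, ∀ x, (x ∈ L ↔ AccN p.1.toM p.2 A x) := by
  obtain ⟨M, d, hM⟩ := h
  obtain ⟨F, hF⟩ := a3_FM M
  refine ⟨(F, d), fun x => ?_⟩
  rw [(hM x).2]
  unfold AccN Acc
  exact exists_congr fun w => (hF A x _ w).symm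

theorem predicted5' (β : Set (List Bool)) : ∀ᵐ ω ∂mu, ∀ L : Set (List Bool),
    InNP (orc false β ω) L → InNP (orc false β ω) Lᶜ → L ∈ Predicted false Phi β ω := by
  have key : ∀ᵐ ω ∂mu, ∀ q : ℕ × (FM × ℕ) × (FM × ℕ), ∃ᶠ t in Filter.atTop,
      (Nat.unpair t).1 = q.1 ∧
      ¬ ((∀ x : List Bool, x.length = nn t →
          (AccN q.2.1.1.toM q.2.1.2 (orc false β ω) x ↔
            ¬ AccN q.2.2.1.toM q.2.2.2 (orc false β ω) x)) ∧
        2 ^ nn t < 16 * wrong false (npF q.2.1) β t ω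
          {x | AccN q.2.1.1.toM q.2.1.2 (orc false β ω) x}) := by
    rw [ae_all_iff]
    rintro ⟨j, p1, p0⟩
    obtain ⟨ρ, t0, hρ, ht0⟩ := step5 β p1 p0
    exact borel_cantelli {t : ℕ | (Nat.unpair t).1 = j} (a3_infinite j)
      (fun t => {ω | (∀ x : List Bool, x.length = nn t →
          (AccN p1.1.toM p1.2 (orc false β ω) x ↔ ¬ AccN p0.1.toM p0.2 (orc false β ω) x)) ∧
        2 ^ nn t < 16 * wrong false (npF p1) β t ω
          {x | AccN p1.1.toM p1.2 (orc false β ω) x}}) ρ hρ t0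
      (fun t _ ht => (ht0 t ht).1) (fun t _ ht => (ht0 t ht).2)
  filter_upwards [key] with ω hω L hL1 hL0
  obtain ⟨p1, h1⟩ := a5_np hL1
  obtain ⟨p0, h0⟩ := a5_np hL0
  obtain ⟨j, hj⟩ := a3_phi_np p1.1 p1.2
  have hLset : {x | AccN p1.1.toM p1.2 (orc false β ω) x} = L := by
    ext x
    exact (h1 x).symm
  refine ⟨j, (hω (j, p1, p0)).mono ?_⟩
  rintro t ⟨htj, ht⟩
  refine ⟨htj, ?_⟩
  by_contra hcon
  apply ht
  refine ⟨fun x _ => ?_, ?_⟩
  · rw [← h1 x, ← h0 x]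
    show x ∈ L ↔ ¬ (x ∉ L)
    rw [not_not]
  · rw [hj, not_le] at hcon
    rw [hLset]
    exact hcon

end Pool.Agent.H552R2.RM


namespace Pool.Agent.H552R2.RM

alias predicted5 := predicted5'

end Pool.Agent.H552R2.RM
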