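import Pool.Agent.H552R2.RM.F_ME
import Pool.Agent.H552R2.RM.F_CO
import Pool.Agent.H552R2.RM.F_DY
import Pool.Agent.H552R2.RM.T_GR
import Pool.Agent.H552R2.RM.T_ST
import Pool.Agent.H552R2.Code

/-!
Task CR: two complementary increasing events are trivial.
-/

namespace Pool.Agent.H552R2.RM

open Function MeasureTheory
open Pool.Agent.Helper556.OM
open scoped BigOperators

section cr

variable {ι B : Type} [Fintype ι] [Fintype B] [Nonempty B]

/-- the flipped point -/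
def cr_flip (a : ι → Bool) : ι → Bool := fun i => !(a i)

omit [Fintype ι] in
theorem cr_flip_flip (a : ι → Bool) : cr_flip (cr_flip a) = a := by
  funext i
  simp [cr_flip]

theorem cr_expect_flip [DecidableEq ι] (g : (ι → Bool) → ℝ) : 𝔼 a, g (cr_flip a) = 𝔼 a, g a := by
  let e : (ι → Bool) ≃ (ι → Bool) := ⟨cr_flip, cr_flip, cr_flip_flip, cr_flip_flip⟩
  exact Fintype.expect_equiv e _ _ fun _ => rfl

theorem cr_harris [DecidableEq ι] {f g : (ι → Bool) → ℝ} (hf0 : ∀ a, 0 ≤ f a) (hg0 : ∀ a, 0 ≤ g a)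
    (hf : Monotone f) (hg : Monotone g) : (𝔼 a, f a) * (𝔼 a, g a) ≤ 𝔼 a, f a * g a := by
  have h := fkg (μ := fun _ : ι → Bool => (1 : ℝ)) (f := f) (g := g) (fun _ => zero_le_one)
    hf0 hg0 hf hg (fun _ _ => le_refl _)
  simp only [one_mul, Finset.sum_const, Finset.card_univ, nsmul_eq_mul, mul_one] at h
  rw [Fintype.expect_eq_sum_div_card, Fintype.expect_eq_sum_div_card,
    Fintype.expect_eq_sum_div_card, div_mul_div_comm, div_le_div_iff₀]
  · calc (∑ a, f a) * (∑ a, g a) * (Fintype.card (ι → Bool) : ℝ) ≤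
        ((Fintype.card (ι → Bool) : ℝ) * ∑ a, f a * g a) * (Fintype.card (ι → Bool) : ℝ) :=
          mul_le_mul_of_nonneg_right h (Nat.cast_nonneg _)
      _ = _ := by ring
  · have : (0 : ℝ) < Fintype.card (ι → Bool) := by exact_mod_cast Fintype.card_pos
    positivity
  · exact_mod_cast Fintype.card_pos

theorem cr_harris' [DecidableEq ι] {f g : (ι → Bool) → ℝ} (hf0 : ∀ a, 0 ≤ f a) (hg1 : ∀ a, g a ≤ 1)
    (hf : Monotone f) (hg : Antitone g) : 𝔼 a, f a * g a ≤ (𝔼 a, f a) * (𝔼 a, g a) := by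
  have h := cr_harris (f := f) (g := fun a => 1 - g a) hf0 (fun a => sub_nonneg.2 (hg1 a)) hf
    (fun a b hab => sub_le_sub_left (hg hab) 1)
  have e1 : 𝔼 a : ι → Bool, (1 - g a) = 1 - 𝔼 a, g a := by
    rw [Finset.expect_sub_distrib, Fintype.expect_const]
  have e2 : 𝔼 a : ι → Bool, f a * (1 - g a) = 𝔼 a, f a - 𝔼 a, f a * g a := by
    rw [← Finset.expect_sub_distrib]
    refine Finset.expect_congr rfl fun a _ => ?_
    ring
  rw [e1, e2] at h
  linarith

theorem cr_fin [DecidableEq ι] (u1 u0 w1 w0 : (ι → Bool) → B → ℝ) (ε τ : ℝ)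
    (hu1 : ∀ a b, u1 a b = 0 ∨ u1 a b = 1) (hu0 : ∀ a b, u0 a b = 0 ∨ u0 a b = 1)
    (hw1 : ∀ a b, 0 ≤ w1 a b ∧ w1 a b ≤ u1 a b) (hw0 : ∀ a b, 0 ≤ w0 a b ∧ w0 a b ≤ u0 a b)
    (hτ1 : 𝔼 a, 𝔼 b, (u1 a b - w1 a b) ≤ τ) (hτ0 : 𝔼 a, 𝔼 b, (u0 a b - w0 a b) ≤ τ)
    (i1 : ∀ b, Monotone fun a => w1 a b) (i0 : ∀ b, Monotone fun a => w0 a b)
    (hb : 𝔼 a, 𝔼 b, u1 a b * u0 a b ≤ ε) (hn : 𝔼 a, 𝔼 b, (1 - u1 a b) * (1 - u0 a b) ≤ ε)
    (hind : ∀ a, 𝔼 b, u1 a b * u0 (cr_flip a) b = (𝔼 b, u1 a b) * 𝔼 b, u0 (cr_flip a) b) :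
    (𝔼 a, 𝔼 b, u1 a b) * (1 - 𝔼 a, 𝔼 b, u1 a b) ≤ 20 * (ε + τ) := by
  have hu1' : ∀ a b, 0 ≤ u1 a b ∧ u1 a b ≤ 1 := fun a b => by
    rcases hu1 a b with h | h <;> rw [h] <;> norm_num
  have hu0' : ∀ a b, 0 ≤ u0 a b ∧ u0 a b ≤ 1 := fun a b => by
    rcases hu0 a b with h | h <;> rw [h] <;> norm_num
  -- epsilon and tau are nonnegative
  have hε : 0 ≤ ε := le_trans (Finset.expect_nonneg fun a _ => Finset.expect_nonneg fun b _ =>
    mul_nonneg (hu1' a b).1 (hu0' a b).1) hb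
  have hτ : 0 ≤ τ := le_trans (Finset.expect_nonneg fun a _ => Finset.expect_nonneg fun b _ =>
    sub_nonneg.2 (hw1 a b).2) hτ1
  obtain ⟨α, hα⟩ : ∃ α : (ι → Bool) → ℝ, ∀ a, α a = 𝔼 b, u1 a b := ⟨_, fun _ => rfl⟩
  obtain ⟨β, hβ⟩ : ∃ β : (ι → Bool) → ℝ, ∀ a, β a = 𝔼 b, u0 a b := ⟨_, fun _ => rfl⟩
  have hα01 : ∀ a, 0 ≤ α a ∧ α a ≤ 1 := fun a => by
    rw [hα]
    exact ⟨Finset.expect_nonneg fun b _ => (hu1' a b).1,
      Finset.expect_le Finset.univ_nonempty fun b _ => (hu1' a b).2⟩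
  -- step 1
  have hww : 𝔼 b, 𝔼 a, w1 a b * w0 a b ≤ ε := by
    rw [Finset.expect_comm]
    refine le_trans (Finset.expect_le_expect fun a _ => Finset.expect_le_expect fun b _ => ?_) hb
    exact mul_le_mul (hw1 a b).2 (hw0 a b).2 (hw0 a b).1 (hu1' a b).1
  have s1 : 𝔼 a, α a * β (cr_flip a) ≤ ε + 2 * τ := by
    have e1 : 𝔼 a, α a * β (cr_flip a) = 𝔼 a, 𝔼 b, u1 a b * u0 (cr_flip a) b := by
      refine Finset.expect_congr rfl fun a _ => ?_
      rw [hind a, hα, hβ]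
    have e2 : 𝔼 a, 𝔼 b, u1 a b * u0 (cr_flip a) b ≤
        𝔼 a, 𝔼 b, (w1 a b * w0 (cr_flip a) b + (u1 a b - w1 a b) +
          (u0 (cr_flip a) b - w0 (cr_flip a) b)) := by
      refine Finset.expect_le_expect fun a _ => Finset.expect_le_expect fun b _ => ?_
      have h1 := hw1 a b
      have h2 := hu1' a b
      have h3 := hw0 (cr_flip a) b
      have h4 := hu0' (cr_flip a) b
      nlinarith [mul_nonneg (sub_nonneg.2 h1.2) (sub_nonneg.2 h4.2),
        mul_nonneg (sub_nonneg.2 h3.2) (sub_nonneg.2 (h1.2.trans h2.2))]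
    have e3 : 𝔼 a, 𝔼 b, (w1 a b * w0 (cr_flip a) b + (u1 a b - w1 a b) +
          (u0 (cr_flip a) b - w0 (cr_flip a) b)) =
        𝔼 a, 𝔼 b, w1 a b * w0 (cr_flip a) b + 𝔼 a, 𝔼 b, (u1 a b - w1 a b) +
          𝔼 a, 𝔼 b, (u0 (cr_flip a) b - w0 (cr_flip a) b) := by
      simp only [Finset.expect_add_distrib]
    have e4 : 𝔼 a, 𝔼 b, (u0 (cr_flip a) b - w0 (cr_flip a) b) = 𝔼 a, 𝔼 b, (u0 a b - w0 a b) :=
      cr_expect_flip fun a => 𝔼 b, (u0 a b - w0 a b)
    have e5 : 𝔼 a, 𝔼 b, w1 a b * w0 (cr_flip a) b ≤ 𝔼 b, 𝔼 a, w1 a b * w0 a b := by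
      rw [Finset.expect_comm]
      refine Finset.expect_le_expect fun b _ => ?_
      have h1 := cr_harris' (f := fun a => w1 a b) (g := fun a => w0 (cr_flip a) b)
        (fun a => (hw1 a b).1) (fun a => (hw0 _ b).2.trans (hu0' _ b).2) (i1 b)
        (fun a a' haa => i0 b (by
          intro i
          have := haa i
          simp only [cr_flip]
          revert this
          cases a i <;> cases a' i <;> simp))
      have h2 := cr_harris (f := fun a => w1 a b) (g := fun a => w0 a b)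
        (fun a => (hw1 a b).1) (fun a => (hw0 a b).1) (i1 b) (i0 b)
      have h3 : 𝔼 a, w0 (cr_flip a) b = 𝔼 a, w0 a b := cr_expect_flip fun a => w0 a b
      rw [h3] at h1
      exact h1.trans h2
    rw [e1]
    rw [e3, e4] at e2
    linarith
  -- step 2
  have s2 : 𝔼 a, α a * (1 - α (cr_flip a)) ≤ 2 * ε + 2 * τ := by
    have e1 : 𝔼 a, α a * (1 - α (cr_flip a)) ≤ 𝔼 a, (α a * β (cr_flip a) +
        𝔼 b, (1 - u1 (cr_flip a) b) * (1 - u0 (cr_flip a) b)) := by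
      refine Finset.expect_le_expect fun a _ => ?_
      have h1 : 1 - α (cr_flip a) - β (cr_flip a) ≤
          𝔼 b, (1 - u1 (cr_flip a) b) * (1 - u0 (cr_flip a) b) := by
        have h2 : 1 - α (cr_flip a) - β (cr_flip a) =
            𝔼 b, (1 - u1 (cr_flip a) b - u0 (cr_flip a) b) := by
          rw [Finset.expect_sub_distrib, Finset.expect_sub_distrib, Fintype.expect_const, hα, hβ]
        rw [h2]
        refine Finset.expect_le_expect fun b _ => ?_
        nlinarith [mul_nonneg (hu1' (cr_flip a) b).1 (hu0' (cr_flip a) b).1]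
      have h3 : 0 ≤ 𝔼 b, (1 - u1 (cr_flip a) b) * (1 - u0 (cr_flip a) b) :=
        Finset.expect_nonneg fun b _ => mul_nonneg (sub_nonneg.2 (hu1' _ b).2)
          (sub_nonneg.2 (hu0' _ b).2)
      have h4 := hα01 a
      nlinarith [mul_le_mul_of_nonneg_left h1 h4.1, mul_nonneg (sub_nonneg.2 h4.2) h3]
    rw [Finset.expect_add_distrib] at e1
    have e2 : 𝔼 a, 𝔼 b, (1 - u1 (cr_flip a) b) * (1 - u0 (cr_flip a) b) =
        𝔼 a, 𝔼 b, (1 - u1 a b) * (1 - u0 a b) :=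
      cr_expect_flip fun a => 𝔼 b, (1 - u1 a b) * (1 - u0 a b)
    rw [e2] at e1
    linarith
  have s2' : 𝔼 a, α (cr_flip a) * (1 - α a) ≤ 2 * ε + 2 * τ := by
    have h := cr_expect_flip fun a => α (cr_flip a) * (1 - α a)
    rw [← h]
    simp only [cr_flip_flip]
    exact s2
  have s3 : 𝔼 a, α a * (1 - α a) ≤ 2 * ε + 2 * τ := by
    have h1 : 𝔼 a, α (cr_flip a) * (1 - α (cr_flip a)) = 𝔼 a, α a * (1 - α a) :=
      cr_expect_flip fun a => α a * (1 - α a)
    have h2 : 𝔼 a, (α a * (1 - α a) + α (cr_flip a) * (1 - α (cr_flip a))) ≤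
        𝔼 a, (α a * (1 - α (cr_flip a)) + α (cr_flip a) * (1 - α a)) := by
      refine Finset.expect_le_expect fun a _ => ?_
      nlinarith [sq_nonneg (α a - α (cr_flip a))]
    rw [Finset.expect_add_distrib, Finset.expect_add_distrib, h1] at h2
    linarith
  -- step 3
  obtain ⟨x, hx⟩ : ∃ x : B → ℝ, ∀ b, x b = 𝔼 a, u1 a b := ⟨_, fun _ => rfl⟩
  obtain ⟨y, hy⟩ : ∃ y : B → ℝ, ∀ b, y b = 𝔼 a, w1 a b := ⟨_, fun _ => rfl⟩
  have s4 : 𝔼 b, x b * (1 - x b) ≤ 2 * ε + 3 * τ := by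
    have h0 : ∀ b, x b * (1 - x b) ≤ 𝔼 a, (w1 a b * w0 a b) +
        𝔼 a, (1 - u1 a b) * (1 - u0 a b) + 𝔼 a, (u0 a b - w0 a b) +
          2 * 𝔼 a, (u1 a b - w1 a b) := by
      intro b
      have hx01 : 0 ≤ x b ∧ x b ≤ 1 := by
        rw [hx]
        exact ⟨Finset.expect_nonneg fun a _ => (hu1' a b).1,
          Finset.expect_le Finset.univ_nonempty fun a _ => (hu1' a b).2⟩
      have hyx : 0 ≤ y b ∧ y b ≤ x b := by
        rw [hy, hx]
        exact ⟨Finset.expect_nonneg fun a _ => (hw1 a b).1,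
          Finset.expect_le_expect fun a _ => (hw1 a b).2⟩
      have hd : 𝔼 a, (u1 a b - w1 a b) = x b - y b := by
        rw [Finset.expect_sub_distrib, hx, hy]
      have h1 : y b * 𝔼 a, w0 a b ≤ 𝔼 a, w1 a b * w0 a b := by
        rw [hy]
        exact cr_harris (f := fun a => w1 a b) (g := fun a => w0 a b)
          (fun a => (hw1 a b).1) (fun a => (hw0 a b).1) (i1 b) (i0 b)
      have h2 : 1 - y b - 𝔼 a, w0 a b ≤ 𝔼 a, (1 - u1 a b) * (1 - u0 a b) +
          𝔼 a, (u0 a b - w0 a b) + (x b - y b) := by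
        have h3 : 1 - x b - 𝔼 a, u0 a b ≤ 𝔼 a, (1 - u1 a b) * (1 - u0 a b) := by
          have h4 : 1 - x b - 𝔼 a, u0 a b = 𝔼 a, (1 - u1 a b - u0 a b) := by
            rw [Finset.expect_sub_distrib, Finset.expect_sub_distrib, Fintype.expect_const, hx]
          rw [h4]
          refine Finset.expect_le_expect fun a _ => ?_
          nlinarith [mul_nonneg (hu1' a b).1 (hu0' a b).1]
        rw [Finset.expect_sub_distrib]
        linarith
      have h5 : 0 ≤ 𝔼 a, (1 - u1 a b) * (1 - u0 a b) :=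
        Finset.expect_nonneg fun a _ => mul_nonneg (sub_nonneg.2 (hu1' _ b).2)
          (sub_nonneg.2 (hu0' _ b).2)
      have h6 : 0 ≤ 𝔼 a, (u0 a b - w0 a b) :=
        Finset.expect_nonneg fun a _ => sub_nonneg.2 (hw0 a b).2
      rw [hd]
      have h7 : y b * (1 - y b) ≤ y b * 𝔼 a, w0 a b +
          (𝔼 a, (1 - u1 a b) * (1 - u0 a b) + 𝔼 a, (u0 a b - w0 a b) + (x b - y b)) := by
        have h8 := mul_le_mul_of_nonneg_left h2 hyx.1
        have h9 : 0 ≤ 𝔼 a, (1 - u1 a b) * (1 - u0 a b) + 𝔼 a, (u0 a b - w0 a b) + (x b - y b) := by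
          linarith
        have h10 : y b * (𝔼 a, (1 - u1 a b) * (1 - u0 a b) + 𝔼 a, (u0 a b - w0 a b) +
            (x b - y b)) ≤ 1 * (𝔼 a, (1 - u1 a b) * (1 - u0 a b) + 𝔼 a, (u0 a b - w0 a b) +
            (x b - y b)) := mul_le_mul_of_nonneg_right (hyx.2.trans hx01.2) h9
        linarith
      have h11 : x b * (1 - x b) ≤ y b * (1 - y b) + (x b - y b) := by
        nlinarith [mul_nonneg (sub_nonneg.2 hyx.2) (add_nonneg hx01.1 hyx.1)]
      linarith
    have h1 := Finset.expect_le_expect fun b (_ : b ∈ (Finset.univ : Finset B)) => h0 b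
    rw [Finset.expect_add_distrib, Finset.expect_add_distrib, Finset.expect_add_distrib,
      ← Finset.mul_expect] at h1
    have c1 : 𝔼 b, 𝔼 a, (1 - u1 a b) * (1 - u0 a b) ≤ ε := by rw [Finset.expect_comm]; exact hn
    have c2 : 𝔼 b, 𝔼 a, (u0 a b - w0 a b) ≤ τ := by rw [Finset.expect_comm]; exact hτ0
    have c3 : 𝔼 b, 𝔼 a, (u1 a b - w1 a b) ≤ τ := by rw [Finset.expect_comm]; exact hτ1
    linarith
  -- step 4
  have s5 : (𝔼 a, 𝔼 b, u1 a b) * (1 - 𝔼 a, 𝔼 b, u1 a b) ≤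
      𝔼 a, α a * (1 - α a) + 𝔼 b, x b * (1 - x b) := by
    have e1 : (𝔼 a, 𝔼 b, u1 a b) * (1 - 𝔼 a, 𝔼 b, u1 a b) =
        𝔼 a, 𝔼 b, 𝔼 a', 𝔼 b', u1 a b * (1 - u1 a' b') := by
      have h1 : ∀ a b, 𝔼 a', 𝔼 b', u1 a b * (1 - u1 a' b') =
          u1 a b * (1 - 𝔼 a, 𝔼 b, u1 a b) := by
        intro a b
        simp only [← Finset.mul_expect, Finset.expect_sub_distrib, Fintype.expect_const]
      simp only [h1, ← Finset.expect_mul]
    have e2 : 𝔼 a, 𝔼 b, 𝔼 a', 𝔼 b', u1 a b * (1 - u1 a' b') ≤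
        𝔼 a, 𝔼 b, 𝔼 a', 𝔼 b', (u1 a b * (1 - u1 a b') + u1 a b' * (1 - u1 a' b')) := by
      refine Finset.expect_le_expect fun a _ => Finset.expect_le_expect fun b _ =>
        Finset.expect_le_expect fun a' _ => Finset.expect_le_expect fun b' _ => ?_
      rcases hu1 a b with h1 | h1 <;> rcases hu1 a b' with h2 | h2 <;>
        rcases hu1 a' b' with h3 | h3 <;> rw [h1, h2, h3] <;> norm_num
    have e3 : 𝔼 a, 𝔼 b, 𝔼 a' : ι → Bool, 𝔼 b', u1 a b * (1 - u1 a b') =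
        𝔼 a, α a * (1 - α a) := by
      refine Finset.expect_congr rfl fun a _ => ?_
      simp only [Fintype.expect_const, ← Finset.mul_expect, ← Finset.expect_mul,
        Finset.expect_sub_distrib, hα]
    have e4 : 𝔼 a, 𝔼 _b : B, 𝔼 a', 𝔼 b', u1 a b' * (1 - u1 a' b') = 𝔼 b, x b * (1 - x b) := by
      simp only [Fintype.expect_const]
      have h1 : 𝔼 a, 𝔼 a', 𝔼 b', u1 a b' * (1 - u1 a' b') =
          𝔼 b', 𝔼 a, 𝔼 a', u1 a b' * (1 - u1 a' b') := by
        rw [Finset.expect_comm]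
        conv_lhs => 
          enter [2, a']
          rw [Finset.expect_comm]
        rw [Finset.expect_comm]
        refine Finset.expect_congr rfl fun b _ => ?_
        rw [Finset.expect_comm]
      rw [h1]
      refine Finset.expect_congr rfl fun b _ => ?_
      simp only [← Finset.mul_expect, ← Finset.expect_mul, Finset.expect_sub_distrib,
        Fintype.expect_const, hx]
    have e5 : 𝔼 a, 𝔼 b, 𝔼 a', 𝔼 b', (u1 a b * (1 - u1 a b') + u1 a b' * (1 - u1 a' b')) =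
        𝔼 a, 𝔼 b, 𝔼 a' : ι → Bool, 𝔼 b', u1 a b * (1 - u1 a b') +
          𝔼 a, 𝔼 _b : B, 𝔼 a', 𝔼 b', u1 a b' * (1 - u1 a' b') := by
      simp only [Finset.expect_add_distrib]
    rw [e1]
    rw [e5, e3, e4] at e2
    exact e2
  linarith

end cr

section tr

variable {J : Set Idx}

open Classical in
/-- extension of a point of the finite cube by `false` -/
noncomputable def cr_ext (σ : J → Bool) : Om := fun p => if h : p ∈ J then σ ⟨p, h⟩ else false

theorem cr_ext_apply (σ : J → Bool) {p : Idx} (h : p ∈ J) : cr_ext σ p = σ ⟨p, h⟩ := by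
  unfold cr_ext
  rw [dif_pos h]

theorem cr_Dep_mono {β : Type} {J K : Set Idx} (h : J ⊆ K) {f : Om → β} (hf : Dep J f) :
    Dep K f := fun ω ω' hω => hf ω ω' fun p hp => hω p (h hp)

open Classical in
theorem cr_integral (hJ : J.Finite) [Fintype J] {g : Om → ℝ} (hg : Dep J g) :
    ∫ ω, g ω ∂mu = 𝔼 σ : J → Bool, g (cr_ext σ) := by
  have h1 : ∀ ω, g ω = ∑ σ : J → Bool,
      Set.indicator {ω : Om | ∀ p ∈ J, ω p = cr_ext σ p} (fun _ => g (cr_ext σ)) ω := by
    intro ω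
    rw [Finset.sum_eq_single (fun p : J => ω p)]
    · rw [Set.indicator_of_mem]
      · exact hg _ _ fun p hp => (cr_ext_apply (fun p : J => ω p) hp).symm
      · intro p hp
        exact (cr_ext_apply (fun p : J => ω p) hp).symm
    · intro σ _ hσ
      rw [Set.indicator_of_notMem]
      intro hmem
      apply hσ
      funext p
      have := hmem p.1 p.2
      rw [cr_ext_apply σ p.2] at this
      exact this.symm
    · intro h
      exact absurd (Finset.mem_univ _) h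
  have hms : ∀ σ : J → Bool, MeasurableSet {ω : Om | ∀ p ∈ J, ω p = cr_ext σ p} := by
    intro σ
    apply FD.measurableSet
    refine ⟨J, hJ, fun ω ω' hω => ?_⟩
    simp only [Set.mem_ofPred_eq, eq_iff_iff]
    exact ⟨fun h p hp => (hω p hp).symm.trans (h p hp), fun h p hp => (hω p hp).trans (h p hp)⟩
  rw [integral_congr_ae (Filter.Eventually.of_forall h1), integral_finsetSum]
  · rw [Fintype.expect_eq_sum_div_card, Finset.sum_div]
    refine Finset.sum_congr rfl fun σ _ => ?_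
    rw [integral_indicator_const _ (hms σ), cyl J hJ (cr_ext σ), smul_eq_mul]
    have h2 : (Fintype.card (J → Bool) : ℝ) = 2 ^ J.ncard := by
      rw [Fintype.card_fun, Fintype.card_bool, ← Nat.card_coe_set_eq, Nat.card_eq_fintype_card]
      push_cast
      rfl
    rw [h2, one_div, inv_pow, mul_comm, div_eq_mul_inv]
  · intro σ _
    exact (integrable_const _).indicator (hms σ)

open Classical in
theorem cr_real (hJ : J.Finite) [Fintype J] {V : Set Om} (hV : Dep J (fun ω => ω ∈ V)) :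
    mu.real V = 𝔼 σ : J → Bool, (if cr_ext σ ∈ V then (1 : ℝ) else 0) := by
  have hms : MeasurableSet V := FD.measurableSet ⟨J, hJ, hV⟩
  rw [← cr_integral hJ (g := fun ω => if ω ∈ V then (1 : ℝ) else 0)]
  · have h1 := integral_indicator_const (μ := mu) (1 : ℝ) hms
    rw [smul_eq_mul, mul_one] at h1
    rw [← h1]
    refine integral_congr_ae (Filter.Eventually.of_forall fun ω => ?_)
    simp [Set.indicator_apply]
  · intro ω ω' hω
    have := hV ω ω' hω
    simp only at this ⊢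
    rw [this]

theorem cr_pw_dep {β : Type} {f : Om → β} (hf : Dep J f) (C : Set Idx) (c : Om) :
    Dep J (fun ω => f (pw C c ω)) := by
  intro ω ω' hω
  refine hf _ _ fun p hp => ?_
  unfold pw
  split_ifs
  · rfl
  · exact hω p hp

theorem cr_pw_dep' {β : Type} {f : Om → β} (hf : Dep J f) (C : Set Idx) (ω : Om) :
    Dep J (fun c => f (pw C c ω)) := by
  intro c c' hc
  refine hf _ _ fun p hp => ?_
  unfold pw
  split_ifs
  · exact hc p hp
  · rfl

open Classical in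
theorem cr_real2 (hJ : J.Finite) [Fintype J] (C : Set Idx) {V : Set Om}
    (hV : Dep J (fun ω => ω ∈ V)) :
    mu.real V = 𝔼 σ : J → Bool, 𝔼 ρ : J → Bool,
      (if pw C (cr_ext σ) (cr_ext ρ) ∈ V then (1 : ℝ) else 0) := by
  have hms : MeasurableSet V := FD.measurableSet ⟨J, hJ, hV⟩
  have hdep : Dep J (fun ω => if ω ∈ V then (1 : ℝ) else 0) := by
    intro ω ω' hω
    have := hV ω ω' hω
    simp only at this ⊢
    rw [this]
  have h1 := integral_indicator_const (μ := mu) (1 : ℝ) hms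
  rw [smul_eq_mul, mul_one] at h1
  have h2 : ∫ ω, (if ω ∈ V then (1 : ℝ) else 0) ∂mu = mu.real V := by
    rw [← h1]
    refine integral_congr_ae (Filter.Eventually.of_forall fun ω => ?_)
    simp [Set.indicator_apply]
  rw [← h2, integral_pw C ⟨J, hJ, hdep⟩, cr_integral hJ]
  · refine Finset.expect_congr rfl fun σ _ => ?_
    rw [cr_integral hJ (cr_pw_dep hdep C (cr_ext σ))]
  · intro ω ω' hω
    refine integral_congr_ae (Filter.Eventually.of_forall fun η => ?_)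
    exact cr_pw_dep' hdep C η ω ω' hω

end tr

theorem core' (C : Set Idx) (hC : C.Finite) (U1 U0 W1 W0 : Set Om) (ε τ : ℝ)
    (h1 : FD (fun ω => ω ∈ U1)) (h0 : FD (fun ω => ω ∈ U0))
    (k1 : FD (fun ω => ω ∈ W1)) (k0 : FD (fun ω => ω ∈ W0))
    (hW1 : W1 ⊆ U1) (hW0 : W0 ⊆ U0)
    (hτ1 : mu.real (U1 \ W1) ≤ τ) (hτ0 : mu.real (U0 \ W0) ≤ τ)
    (i1 : ∀ ω ω' : Om, (∀ p ∈ C, ω p = true → ω' p = true) → (∀ p ∉ C, ω p = ω' p) →
      ω ∈ W1 → ω' ∈ W1)
    (i0 : ∀ ω ω' : Om, (∀ p ∈ C, ω p = true → ω' p = true) → (∀ p ∉ C, ω p = ω' p) →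
      ω ∈ W0 → ω' ∈ W0)
    (hb : mu.real (U1 ∩ U0) ≤ ε) (hn : mu.real (U1 ∪ U0)ᶜ ≤ ε)
    (hind : ∀ c : Om, mu.real {ω | pw C c ω ∈ U1 ∧ pw C (fun p => !(c p)) ω ∈ U0} =
      mu.real {ω | pw C c ω ∈ U1} * mu.real {ω | pw C (fun p => !(c p)) ω ∈ U0}) :
    mu.real U1 * (1 - mu.real U1) ≤ 20 * (ε + τ) := by
  classical
  obtain ⟨J1, fJ1, d1⟩ := h1
  obtain ⟨J0, fJ0, d0⟩ := h0
  obtain ⟨K1, fK1, e1⟩ := k1
  obtain ⟨K0, fK0, e0⟩ := k0
  obtain ⟨J, hJdef⟩ : ∃ J : Set Idx, J = C ∪ (J1 ∪ (J0 ∪ (K1 ∪ K0))) := ⟨_, rfl⟩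
  have hJ : J.Finite := by
    rw [hJdef]
    exact hC.union (fJ1.union (fJ0.union (fK1.union fK0)))
  have sC : C ⊆ J := by rw [hJdef]; exact Set.subset_union_left
  have D1 : Dep J (fun ω => ω ∈ U1) := cr_Dep_mono (by
    rw [hJdef]; intro p hp; exact Or.inr (Or.inl hp)) d1
  have D0 : Dep J (fun ω => ω ∈ U0) := cr_Dep_mono (by
    rw [hJdef]; intro p hp; exact Or.inr (Or.inr (Or.inl hp))) d0
  have E1 : Dep J (fun ω => ω ∈ W1) := cr_Dep_mono (by
    rw [hJdef]; intro p hp; exact Or.inr (Or.inr (Or.inr (Or.inl hp)))) e1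
  have E0 : Dep J (fun ω => ω ∈ W0) := cr_Dep_mono (by
    rw [hJdef]; intro p hp; exact Or.inr (Or.inr (Or.inr (Or.inr hp)))) e0
  have : Fintype J := hJ.fintype
  have ew : ∀ (σ : J → Bool) (ω : Om),
      pw C (fun p => !(cr_ext σ p)) ω = pw C (cr_ext (cr_flip σ)) ω := by
    intro σ ω
    funext p
    unfold pw
    split_ifs with hp
    · show (!(cr_ext σ p)) = cr_ext (cr_flip σ) p
      rw [cr_ext_apply σ (sC hp), cr_ext_apply (cr_flip σ) (sC hp)]
      rfl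
    · rfl
  have hmono : ∀ {W : Set Om}, (∀ ω ω' : Om, (∀ p ∈ C, ω p = true → ω' p = true) →
      (∀ p ∉ C, ω p = ω' p) → ω ∈ W → ω' ∈ W) → ∀ ρ : J → Bool, Monotone fun σ : J → Bool =>
        (if pw C (cr_ext σ) (cr_ext ρ) ∈ W then (1 : ℝ) else 0) := by
    intro W hW ρ σ σ' hσ
    by_cases hm : pw C (cr_ext σ) (cr_ext ρ) ∈ W
    · have hm' : pw C (cr_ext σ') (cr_ext ρ) ∈ W := by
        refine hW _ _ (fun p hp h => ?_) (fun p hp => ?_) hm
        · unfold pw at h ⊢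
          rw [if_pos hp] at h ⊢
          rw [cr_ext_apply _ (sC hp)] at h ⊢
          have := hσ ⟨p, sC hp⟩
          rw [h] at this
          exact Bool.eq_true_of_true_le this
        · unfold pw
          rw [if_neg hp, if_neg hp]
      simp only [if_pos hm, if_pos hm', le_refl]
    · simp only [if_neg hm]
      split_ifs <;> norm_num
  have key := cr_fin (ι := J) (B := J → Bool)
    (fun σ ρ => if pw C (cr_ext σ) (cr_ext ρ) ∈ U1 then (1 : ℝ) else 0)
    (fun σ ρ => if pw C (cr_ext σ) (cr_ext ρ) ∈ U0 then (1 : ℝ) else 0)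
    (fun σ ρ => if pw C (cr_ext σ) (cr_ext ρ) ∈ W1 then (1 : ℝ) else 0)
    (fun σ ρ => if pw C (cr_ext σ) (cr_ext ρ) ∈ W0 then (1 : ℝ) else 0) ε τ
    (fun σ ρ => by split_ifs <;> simp) (fun σ ρ => by split_ifs <;> simp)
    (fun σ ρ => by
      by_cases hm : pw C (cr_ext σ) (cr_ext ρ) ∈ W1
      · simp [hm, hW1 hm]
      · simp only [if_neg hm]
        split_ifs <;> norm_num)
    (fun σ ρ => by
      by_cases hm : pw C (cr_ext σ) (cr_ext ρ) ∈ W0
      · simp [hm, hW0 hm]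
      · simp only [if_neg hm]
        split_ifs <;> norm_num)
    (by
      refine le_trans (le_of_eq ?_) hτ1
      rw [cr_real2 hJ C (V := U1 \ W1) (fun ω ω' hω => by
        have a1 := D1 ω ω' hω
        have a2 := E1 ω ω' hω
        simp only [Set.mem_sdiff] at a1 a2 ⊢
        rw [a1, a2])]
      refine Finset.expect_congr rfl fun σ _ => Finset.expect_congr rfl fun ρ _ => ?_
      by_cases hu : pw C (cr_ext σ) (cr_ext ρ) ∈ U1
      · by_cases hw : pw C (cr_ext σ) (cr_ext ρ) ∈ W1 <;> simp [hu, hw]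
      · have hw : pw C (cr_ext σ) (cr_ext ρ) ∉ W1 := fun h => hu (hW1 h)
        simp [hu, hw])
    (by
      refine le_trans (le_of_eq ?_) hτ0
      rw [cr_real2 hJ C (V := U0 \ W0) (fun ω ω' hω => by
        have a1 := D0 ω ω' hω
        have a2 := E0 ω ω' hω
        simp only [Set.mem_sdiff] at a1 a2 ⊢
        rw [a1, a2])]
      refine Finset.expect_congr rfl fun σ _ => Finset.expect_congr rfl fun ρ _ => ?_
      by_cases hu : pw C (cr_ext σ) (cr_ext ρ) ∈ U0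
      · by_cases hw : pw C (cr_ext σ) (cr_ext ρ) ∈ W0 <;> simp [hu, hw]
      · have hw : pw C (cr_ext σ) (cr_ext ρ) ∉ W0 := fun h => hu (hW0 h)
        simp [hu, hw])
    (hmono i1) (hmono i0)
    (by
      refine le_trans (le_of_eq ?_) hb
      rw [cr_real2 hJ C (V := U1 ∩ U0) (fun ω ω' hω => by
        have a1 := D1 ω ω' hω
        have a2 := D0 ω ω' hω
        simp only [Set.mem_inter_iff] at a1 a2 ⊢
        rw [a1, a2])]
      refine Finset.expect_congr rfl fun σ _ => Finset.expect_congr rfl fun ρ _ => ?_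
      by_cases hu : pw C (cr_ext σ) (cr_ext ρ) ∈ U1 <;>
        by_cases hw : pw C (cr_ext σ) (cr_ext ρ) ∈ U0 <;> simp [hu, hw])
    (by
      refine le_trans (le_of_eq ?_) hn
      rw [cr_real2 hJ C (V := (U1 ∪ U0)ᶜ) (fun ω ω' hω => by
        have a1 := D1 ω ω' hω
        have a2 := D0 ω ω' hω
        simp only [Set.mem_compl_iff, Set.mem_union] at a1 a2 ⊢
        rw [a1, a2])]
      refine Finset.expect_congr rfl fun σ _ => Finset.expect_congr rfl fun ρ _ => ?_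
      by_cases hu : pw C (cr_ext σ) (cr_ext ρ) ∈ U1 <;>
        by_cases hw : pw C (cr_ext σ) (cr_ext ρ) ∈ U0 <;> simp [hu, hw])
    (by
      intro σ
      have h := hind (cr_ext σ)
      simp only [ew] at h
      rw [cr_real hJ (V := {ω | pw C (cr_ext σ) ω ∈ U1 ∧ pw C (cr_ext (cr_flip σ)) ω ∈ U0})
          (fun ω ω' hω => by
            have a1 := cr_pw_dep D1 C (cr_ext σ) ω ω' hω
            have a2 := cr_pw_dep D0 C (cr_ext (cr_flip σ)) ω ω' hω
            simp only [Set.mem_ofPred_eq] at a1 a2 ⊢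
            rw [a1, a2]),
        cr_real hJ (V := {ω | pw C (cr_ext σ) ω ∈ U1}) (cr_pw_dep D1 C (cr_ext σ)),
        cr_real hJ (V := {ω | pw C (cr_ext (cr_flip σ)) ω ∈ U0})
          (cr_pw_dep D0 C (cr_ext (cr_flip σ)))] at h
      simp only [Set.mem_ofPred_eq] at h
      rw [← h]
      refine Finset.expect_congr rfl fun ρ _ => ?_
      by_cases hu : pw C (cr_ext σ) (cr_ext ρ) ∈ U1 <;>
        by_cases hw : pw C (cr_ext (cr_flip σ)) (cr_ext ρ) ∈ U0 <;> simp [hu, hw])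
  rw [cr_real2 hJ C D1]
  exact key

end Pool.Agent.H552R2.RM


namespace Pool.Agent.H552R2.RM

alias core := core'

end Pool.Agent.H552R2.RM
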