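import Pool.Agent.H552R2.RM.Defs2
import Pool.Agent.H552R2.Upper

/-!
STUBS of the tasks (statements with sorry). Never import this file in a hand-in.
-/

namespace Pool.Agent.H552R2.RM

open Function MeasureTheory
open Pool.Agent.Helper556.OM

/-! ### task ME: measure basics -/

instance : IsProbabilityMeasure coin := sorry
instance : IsProbabilityMeasure mu := sorry

theorem FD.measurable {β : Type} [MeasurableSpace β] {f : Om → β} (h : FD f) : Measurable f := sorry
theorem FD.measurableSet {V : Set Om} (h : FD (fun ω => ω ∈ V)) : MeasurableSet V := sorry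
theorem FD.integrable {f : Om → ℝ} (h : FD f) : Integrable f mu := sorry
theorem FD.const {β : Type} (b : β) : FD (fun _ : Om => b) := sorry
theorem FD.comp {α β : Type} {f : Om → α} (h : FD f) (g : α → β) : FD (fun ω => g (f ω)) := sorry
theorem FD.comp₂ {α β γ : Type} {f : Om → α} {f' : Om → β} (h : FD f) (h' : FD f')
    (g : α → β → γ) : FD (fun ω => g (f ω) (f' ω)) := sorry
/-- a function of `ω` built from the bits in the finite set `J`, after fixing the others -/
theorem FD.pw_left {β : Type} {f : Om → β} (h : FD f) (J : Set Idx) (ω' : Om) :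
    FD (fun ω => f (pw J ω ω')) := sorry
theorem FD.pw_right {β : Type} {f : Om → β} (h : FD f) (J : Set Idx) (ω : Om) :
    FD (fun ω' => f (pw J ω ω')) := sorry
theorem FD.inner {f : Om → ℝ} (h : FD f) (J : Set Idx) :
    FD (fun ω => ∫ ω', f (pw J ω ω') ∂mu) := sorry

theorem pw_mp (J : Set Idx) :
    MeasurePreserving (fun p : Om × Om => pw J p.1 p.2) (mu.prod mu) mu := sorry

theorem integral_pw (J : Set Idx) {f : Om → ℝ} (h : FD f) :
    ∫ ω, f ω ∂mu = ∫ ω, ∫ ω', f (pw J ω ω') ∂mu ∂mu := sorry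

/-- the probability of a cylinder -/
theorem cyl (J : Set Idx) (hJ : J.Finite) (σ : Om) :
    mu.real {ω | ∀ p ∈ J, ω p = σ p} = (1 / 2) ^ J.ncard := sorry

theorem hs_prob {e : ℕ} {x : List Bool} (h : Rnd e x) (y : List Bool) :
    mu.real {ω | hs e x ω = y} ≤ (1 / 2) ^ bl e x := sorry

/-- the first bit is a fair coin -/
theorem head_integral {e : ℕ} {x : List Bool} (h : Rnd e x) (g : Bool → ℝ) :
    ∫ ω, g (decide ((hs e x ω).head? = some true)) ∂mu = (g false + g true) / 2 := sorry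

/-! ### task RS: resampling one block -/

theorem resample {e : ℕ} {x : List Bool} (hr : Rnd e x) (g g0 : Bool → Om → ℝ)
    (Z : Om → Finset (List Bool)) (C : ℝ) (Q : ℕ) (hFD : ∀ b, FD (g b))
    (hC : ∀ b ω, 0 ≤ g b ω ∧ g b ω ≤ C) (hC0 : ∀ b ω, 0 ≤ g0 b ω ∧ g0 b ω ≤ C)
    (hZ : ∀ ω, (Z ω).card ≤ Q)
    (hag : ∀ ω ω', code e x (hs e x ω') ∉ Z ω → ∀ b, g b (pw (blk e x)ᶜ ω ω') = g0 b ω) :
    ∫ ω, g (decide ((hs e x ω).head? = some true)) ω ∂mu ≤
      ∫ ω, (g false ω + g true ω) / 2 ∂mu + 2 * C * Q * (1 / 2) ^ bl e x := sorry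

/-! ### task CO: codes and oracles -/

theorem code_inj {e e' : ℕ} {x x' y y' : List Bool} (h : code e x y = code e' x' y') :
    e = e' ∧ x = x' ∧ y = y' := sorry

theorem false_mem_orc {full : Bool} {β : Set (List Bool)} {ω : Om} {u : List Bool} :
    false :: u ∈ orc full β ω ↔ u ∈ β := sorry

theorem code_mem_orc {full : Bool} {β : Set (List Bool)} {ω : Om} {e : ℕ} {x y : List Bool} :
    code e x y ∈ orc full β ω ↔ y = hs e x ω ∧ (full = true ∨ y.head? = some true) := sorry

theorem length_hs (e : ℕ) (x : List Bool) (ω : Om) : (hs e x ω).length = bl e x := sorry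

theorem hs_congr {e : ℕ} {x : List Bool} {ω ω' : Om}
    (h : Rnd e x → ∀ i < bl e x, ω (e, x, i) = ω' (e, x, i)) : hs e x ω = hs e x ω' := sorry

/-- the strings of length at most `N` of the oracle depend only on the blocks of the strings of
length less than `N` -/
theorem orc_congr {full : Bool} {β : Set (List Bool)} {ω ω' : Om} {z : List Bool}
    (h : ∀ e x, Rnd e x → x.length < z.length → hs e x ω = hs e x ω') :
    z ∈ orc full β ω ↔ z ∈ orc full β ω' := sorry

/-! ### task ST: the standard enumeration -/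

theorem str_length {n i : ℕ} (h1 : 2 ^ n - 1 ≤ i) (h2 : i < 2 ^ (n + 1) - 1) :
    (str i).length = n := sorry
theorem str_length_log (i : ℕ) : (str i).length = Nat.log 2 (i + 1) := sorry
theorem str_inj : Injective str := sorry
theorem str_surj : Surjective str := sorry

open Classical in
/-- counting over the indices of the strings of length `n` is counting over the strings -/
theorem card_str (n : ℕ) (P : List Bool → Prop) :
    ((Finset.range (2 ^ n)).filter (fun i => P (str (2 ^ n - 1 + i)))).card =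
      (Finset.univ.filter (fun x : Fin n → Bool => P (List.ofFn x))).card := sorry

/-! ### task DY: dyadic numbers -/

/-- writing a number with `m` bits, highest bit first -/
theorem natOf_bits (N m : ℕ) (h : N < 2 ^ m) :
    natOf ((List.range m).reverse.map (fun i => N.testBit i)) = N := sorry

theorem dy_write (a N m : ℕ) (h : N < 2 ^ m) :
    dy (false :: (List.replicate a true ++
      false :: ((List.range m).reverse.map (fun i => N.testBit i)))) = (N : ℝ) / 2 ^ a := sorry

/-! ### task UP: the machines guessing the hidden string -/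

theorem lang_UP (full : Bool) (β : Set (List Bool)) (e : ℕ) (ω : Om) :
    InUP (orc full β ω) (Lang e ω) := sorry

theorem lang_coUP (β : Set (List Bool)) (e : ℕ) (ω : Om) :
    InUP (orc true β ω) (Lang e ω)ᶜ := sorry

/-! ### task E2: searching the hidden string -/

theorem lang_E2 (full : Bool) (β : Set (List Bool)) (e : ℕ) (ω : Om) :
    InE2 (orc full β ω) (Lang e ω) := sorry

/-! ### task MA: the machine computing the null cover from the oracle -/

theorem comp_of_bits (A : Set (List Bool)) (N : ℕ → ℕ → List Bool → ℕ)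
    (hN : ∀ k r w, N k r w < 2 ^ (2 * (enc k r w).length))
    (hA : ∀ i k r w, false :: ques i k r w ∈ A ↔ (N k r w).testBit i = true) :
    ∃ c, Comp A (poly c) (fun k r w => (N k r w : ℝ) / 2 ^ (enc k r w).length) := sorry

/-! ### task FX: existence of the part `β` of the oracle -/

theorem exists_fix (Ψ : Set (List Bool) → List Bool → Prop)
    (h : ∀ β β' : Set (List Bool), ∀ u, (∀ z : List Bool, z.length < u.length → (z ∈ β ↔ z ∈ β')) →
      (Ψ β u ↔ Ψ β' u)) : ∃ β : Set (List Bool), ∀ u, u ∈ β ↔ Ψ β u := sorry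

theorem enc_inj {k r k' r' : ℕ} {w w' : List Bool} (h : enc k r w = enc k' r' w') :
    k = k' ∧ r = r' ∧ w = w' := sorry

theorem ques_inj {i k r i' k' r' : ℕ} {w w' : List Bool} (h : ques i k r w = ques i' k' r' w') :
    i = i' ∧ k = k' ∧ r = r' ∧ w = w' := sorry

/-- `dd k w` depends only on the part of `β` of length less than `w.length` -/
theorem dd_congr (full : Bool) (Φ : ℕ → LFun) {β β' : Set (List Bool)} (k : ℕ) (w : List Bool)
    (h : ∀ z : List Bool, z.length < w.length → (z ∈ β ↔ z ∈ β')) :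
    dd (prT full Φ β) k w = dd (prT full Φ β') k w := sorry

theorem exists_answers (full : Bool) (Φ : ℕ → LFun) : ∃ β, Answers full Φ β := sorry

/-! ### task MG: the density functions are martingales -/

theorem dd_nonneg (pred : ℕ → List Bool → Om → Prop) (k : ℕ) (w : List Bool) :
    0 ≤ dd pred k w := sorry
theorem dd_nil (pred : ℕ → List Bool → Om → Prop) (k : ℕ) : dd pred k [] = (1 / 2) ^ k := sorry
theorem dd_mart (pred : ℕ → List Bool → Om → Prop)
    (hFD : ∀ t x, FD (fun ω => pred t x ω)) (k : ℕ) (w : List Bool) :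
    dd pred k (w ++ [false]) + dd pred k (w ++ [true]) = 2 * dd pred k w := sorry
theorem dd_le (pred : ℕ → List Bool → Om → Prop)
    (hFD : ∀ t x, FD (fun ω => pred t x ω)) (k : ℕ) (w : List Bool) :
    dd pred k w ≤ 2 ^ w.length := sorry

/-- the predictions depend only on the bits in `S t` -/
theorem pr_dep (full : Bool) (φ : LFun) (β : Set (List Bool)) (t : ℕ) (x : List Bool) :
    Dep (S t) (pr full φ β t x) := sorry
theorem pr_FD (full : Bool) (φ : LFun) (β : Set (List Bool)) (t : ℕ) (x : List Bool) :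
    FD (pr full φ β t x) := sorry

/-! ### task GR: growth -/

theorem S_finite (t : ℕ) : (S t).Finite := sorry
theorem S_mono {s t : ℕ} (h : s ≤ t) : S s ⊆ S t := sorry
theorem S_card (t : ℕ) : (S t).ncard + t + 4 * nn t + 10 ≤ 2 ^ nn t / 16 := sorry
theorem nn_tendsto : Filter.Tendsto nn Filter.atTop Filter.atTop := sorry
theorem t_le_nn (t : ℕ) : t + 2 ≤ nn t := sorry
/-- exponential time at length `nn t` stays below the next threshold -/
theorem th_big (c : ℕ) : ∃ t0, ∀ t ≥ t0, nn t + 2 ^ (c * (nn t + 1)) ≤ th (t + 1) := sorry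
theorem th_big' (d : ℕ) : ∃ t0, ∀ t ≥ t0, nn t + (nn t ^ d + d) ≤ th (t + 1) ∧
    nn t + (nn t ^ d + d) < 2 ^ nn t - 1 := sorry
/-- exponentially many questions do not find hidden strings of blocks above the threshold -/
theorem th_hit (c : ℕ) : ∃ t0, ∀ t ≥ t0, ∀ m, th t < m →
    (2 : ℝ) ^ nn t * 2 ^ (c * (nn t + 1)) * (1 / 2) ^ ((m + 1) ^ 2) ≤ 1 / 4 := sorry
theorem th_hit' (d : ℕ) (δ : ℝ) (hδ : 0 < δ) : ∃ t0, ∀ t ≥ t0, ∀ m, th t < m →
    ((nn t : ℝ) ^ d + d) * (1 / 2) ^ ((m + 1) ^ 2 - 1) ≤ δ := sorry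

/-! ### task WI: winning -/

/-- if few predictions are wrong then the average capital becomes large -/
theorem cap_big (full : Bool) (φ : LFun) (β : Set (List Bool)) (t : ℕ) (ω : Om)
    (L : Set (List Bool)) (h : 16 * wrong full φ β t ω L ≤ 2 ^ nn t) :
    2 ^ (t + 1) ≤ cap (pr full φ β t) t (seg t (pre L (2 ^ (nn t + 1) - 1))) := sorry

/-- for large `t` the truncation of `β` does not matter -/
theorem prT_eq (full : Bool) (Φ : ℕ → LFun) (β : Set (List Bool)) (j : ℕ) :
    ∃ t0, ∀ t ≥ t0, (Nat.unpair t).1 = j → ∀ x : List Bool, x.length = nn t → ∀ ω,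
      (prT full Φ β t x ω ↔ pr full (Φ j) β t x ω) := sorry

/-- the languages predicted by a functional have measure zero -/
theorem null_predicted (full : Bool) (Φ : ℕ → LFun) {β : Set (List Bool)}
    (hβ : Answers full Φ β) (ω : Om) :
    Null poly (orc full β ω) (Predicted full Φ β ω) := sorry

/-! ### task BC: a Borel-Cantelli lemma -/

theorem borel_cantelli (I : Set ℕ) (hI : I.Infinite) (V : ℕ → Set Om) (ρ : ℝ) (hρ : ρ < 1)
    (t0 : ℕ) (h1 : ∀ t ∈ I, t0 ≤ t → Dep (S (t + 1)) (fun ω => ω ∈ V t))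
    (h2 : ∀ t ∈ I, t0 ≤ t → ∀ ω, mu.real {ω' | pw (S t) ω ω' ∈ V t} ≤ ρ) :
    ∀ᵐ ω ∂mu, ∃ᶠ t in Filter.atTop, t ∈ I ∧ ω ∉ V t := sorry

/-! ### task HP: hitting probability -/

/-- hits: for a finite set `Z` of strings, the probability that one of them is the code of a
hidden string of a random block of a string of length at least `m` -/
theorem hit_prob (Z : Finset (List Bool)) (m : ℕ) :
    mu.real {ω' | ∃ e x, Rnd e x ∧ m ≤ x.length ∧ code e x (hs e x ω') ∈ Z} ≤
      Z.card * (1 / 2) ^ ((m + 1) ^ 2) := sorry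

/-! ### task T3: the step for exponential time -/

theorem step3 (β : Set (List Bool)) (φ : LFun) (M : Machine) (c : ℕ) :
    ∃ t0, ∀ t ≥ t0,
      Dep (S (t + 1)) (fun ω => (∀ x : List Bool, x.length = nn t →
          (φ.F x (orc true β ω) ↔ AccT M (2 ^ (c * (x.length + 1))) (orc true β ω) x)) ∧
        ∃ x : List Bool, x.length = nn t ∧
          ¬ (φ.F x (orc true β ω) ↔ pr true φ β t x ω)) ∧
      ∀ ω, mu.real {ω' | (∀ x : List Bool, x.length = nn t →
          (φ.F x (orc true β (pw (S t) ω ω')) ↔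
            AccT M (2 ^ (c * (x.length + 1))) (orc true β (pw (S t) ω ω')) x)) ∧
        ∃ x : List Bool, x.length = nn t ∧
          ¬ (φ.F x (orc true β (pw (S t) ω ω')) ↔ pr true φ β t x (pw (S t) ω ω'))} ≤ 3 / 4 :=
  sorry

/-! ### task CORE: two complementary increasing events are trivial -/

open Classical in
/-- `C` is a finite set of coins, `U1 U0` events, `W1 W0` parts of them that are increasing in the
coins; `U1` for the coins `c` and `U0` for the opposite coins are independent. If `U1` and `U0`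
are almost complementary then they are almost trivial. -/
theorem core (C : Set Idx) (hC : C.Finite) (U1 U0 W1 W0 : Set Om) (ε τ : ℝ)
    (h1 : FD (fun ω => ω ∈ U1)) (h0 : FD (fun ω => ω ∈ U0))
    (k1 : FD (fun ω => ω ∈ W1)) (k0 : FD (fun ω => ω ∈ W0))
    (hW1 : W1 ⊆ U1) (hW0 : W0 ⊆ U0)
    (hτ1 : mu.real (U1 \ W1) ≤ τ) (hτ0 : mu.real (U0 \ W0) ≤ τ)
    (i1 : ∀ ω ω' : Om, (∀ p ∈ C, ω p = true → ω' p = true) → (∀ p ∉ C, ω p = ω' p) →
      ω ∈ W1 → ω' ∈ W1)
    (i0 : ∀ ω ω' : Om, (∀ p ∈ C, ω p = true → ω' p = true) → (∀ p ∉ C, ω p = ω' p) →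
      ω ∈ W0 → ω' ∈ W0)
    (hb : mu.real (U1 ∩ U0) ≤ ε) (hn : mu.real (U1 ∪ U0)ᶜ ≤ ε)
    (hind : ∀ c : Om, mu.real {ω | pw C c ω ∈ U1 ∧ pw C (fun p => !(c p)) ω ∈ U0} =
      mu.real {ω | pw C c ω ∈ U1} * mu.real {ω | pw C (fun p => !(c p)) ω ∈ U0}) :
    mu.real U1 * (1 - mu.real U1) ≤ 20 * (ε + τ) := sorry

/-! ### task T5: the step for NP ∩ coNP -/

/-- the majority value is wrong with small probability only -/
theorem step5_one (β : Set (List Bool)) (M1 M0 : Machine) (d1 d0 : ℕ) (δ : ℝ) (hδ : 0 < δ) :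
    ∃ t0, ∀ t ≥ t0, ∀ ω, ∀ x : List Bool, x.length = nn t → ∀ ε : ℝ,
      mu.real {ω' | ¬ (AccN M1 d1 (orc false β (pw (S t) ω ω')) x ↔
        ¬ AccN M0 d0 (orc false β (pw (S t) ω ω')) x)} ≤ ε →
      mu.real {ω' | AccN M1 d1 (orc false β (pw (S t) ω ω')) x} *
        (1 - mu.real {ω' | AccN M1 d1 (orc false β (pw (S t) ω ω')) x}) ≤ 20 * (ε + δ) := sorry

theorem step5 (β : Set (List Bool)) (p1 p0 : FM × ℕ) :
    ∃ (ρ : ℝ) (t0 : ℕ), ρ < 1 ∧ ∀ t ≥ t0,
      Dep (S (t + 1)) (fun ω => (∀ x : List Bool, x.length = nn t →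
          (AccN p1.1.toM p1.2 (orc false β ω) x ↔ ¬ AccN p0.1.toM p0.2 (orc false β ω) x)) ∧
        2 ^ nn t < 16 * wrong false (npF p1) β t ω
          {x | AccN p1.1.toM p1.2 (orc false β ω) x}) ∧
      ∀ ω, mu.real {ω' | (∀ x : List Bool, x.length = nn t →
          (AccN p1.1.toM p1.2 (orc false β (pw (S t) ω ω')) x ↔
            ¬ AccN p0.1.toM p0.2 (orc false β (pw (S t) ω ω')) x)) ∧
        2 ^ nn t < 16 * wrong false (npF p1) β t (pw (S t) ω ω')
          {x | AccN p1.1.toM p1.2 (orc false β (pw (S t) ω ω')) x}} ≤ ρ := sorry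

/-! ### task PI: the languages `Lang e` do not have measure zero -/

theorem not_null (full : Bool) (β : Set (List Bool)) :
    ∀ᵐ ω ∂mu, ¬ Null quasi (orc full β ω) {L | ∃ e, 2 ≤ e ∧ L = Lang e ω} := sorry

/-! ### tasks A3, A5: almost every oracle predicts -/

theorem predicted3 (β : Set (List Bool)) : ∀ᵐ ω ∂mu, ∀ L : Set (List Bool),
    (InNP (orc true β ω) L ∨ InPSPACE (orc true β ω) L) → InE (orc true β ω) L →
      L ∈ Predicted true Phi β ω := sorry

theorem predicted5 (β : Set (List Bool)) : ∀ᵐ ω ∂mu, ∀ L : Set (List Bool),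
    InNP (orc false β ω) L → InNP (orc false β ω) Lᶜ → L ∈ Predicted false Phi β ω := sorry

/-! ### the main theorems -/

theorem Null.mono {cls : ℕ → ℕ → ℕ} {A : Set (List Bool)} {X Y : Set (Set (List Bool))}
    (h : Null cls A Y) (hXY : X ⊆ Y) : Null cls A X := by
  obtain ⟨d, f, c, h1, h2, h3, h4, h5, h6⟩ := h
  exact ⟨d, f, c, h1, h2, h3, h4, h5, fun k L hL => h6 k L (hXY hL)⟩

theorem Null.toQuasi {A : Set (List Bool)} {X : Set (Set (List Bool))}
    (h : Null poly A X) : Null quasi A X := sorry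

theorem main3 : ∃ A : Set (List Bool),
    ¬ Null quasi A {L | InUP A L ∧ InUP A Lᶜ ∧ InE2 A L} ∧
    Null poly A {L | (InNP A L ∨ InPSPACE A L) ∧ InE A L} := by
  obtain ⟨β, hβ⟩ := exists_answers true Phi
  obtain ⟨ω, h1, h2⟩ := ((not_null true β).and (predicted3 β)).exists
  refine ⟨orc true β ω, fun h => h1 (h.mono ?_), (null_predicted true Phi hβ ω).mono ?_⟩
  · rintro L ⟨e, -, rfl⟩
    exact ⟨lang_UP _ _ _ _, lang_coUP _ _ _, lang_E2 _ _ _ _⟩
  · rintro L ⟨h3, h4⟩
    exact h2 L h3 h4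

theorem main5 : ∃ A : Set (List Bool),
    ¬ Null quasi A {L | InUP A L ∧ InE2 A L} ∧
    Null poly A {L | InNP A L ∧ InNP A Lᶜ} := by
  obtain ⟨β, hβ⟩ := exists_answers false Phi
  obtain ⟨ω, h1, h2⟩ := ((not_null false β).and (predicted5 β)).exists
  refine ⟨orc false β ω, fun h => h1 (h.mono ?_), (null_predicted false Phi hβ ω).mono ?_⟩
  · rintro L ⟨e, -, rfl⟩
    exact ⟨lang_UP _ _ _ _, lang_E2 _ _ _ _⟩
  · rintro L ⟨h3, h4⟩
    exact h2 L h3 h4

end Pool.Agent.H552R2.RM
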