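import Pool.Agent.H552R2.RM.Stubs

set_option autoImplicit false

/-! Task BC: a Borel-Cantelli lemma. -/

namespace Pool.Agent.H552R2.RM

open Function MeasureTheory
open Pool.Agent.Helper556.OM

open Classical in
theorem bc_ind {V : Set Om} (h : FD (fun ω => ω ∈ V)) :
    FD (fun ω => V.indicator (fun _ => (1 : ℝ)) ω) := by
  have := FD.comp h (fun p : Prop => if p then (1 : ℝ) else 0)
  simpa [Set.indicator_apply] using this

theorem bc_int {V : Set Om} (h : FD (fun ω => ω ∈ V)) :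
    ∫ ω, V.indicator (fun _ => (1 : ℝ)) ω ∂mu = mu.real V := by
  rw [integral_indicator (FD.measurableSet h)]
  simp

theorem bc_step (W V : Set Om) (T : ℕ) (hW : Dep (S T) (fun ω => ω ∈ W))
    (hV : Dep (S (T + 1)) (fun ω => ω ∈ V)) (ρ : ℝ)
    (h : ∀ ω, mu.real {ω' | pw (S T) ω ω' ∈ V} ≤ ρ) :
    mu.real (W ∩ V) ≤ ρ * mu.real W := by
  have fW : FD (fun ω => ω ∈ W) := ⟨S T, S_finite T, hW⟩
  have fV : FD (fun ω => ω ∈ V) := ⟨S (T + 1), S_finite _, hV⟩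
  have fWV : FD (fun ω => ω ∈ W ∩ V) := FD.comp₂ fW fV (fun p q => p ∧ q)
  have hpw : ∀ ω ω', (pw (S T) ω ω' ∈ W ↔ ω ∈ W) := by
    intro ω ω'
    have : (pw (S T) ω ω' ∈ W) = (ω ∈ W) := hW _ _ (fun p hp => by simp [pw, hp])
    rw [this]
  rw [← bc_int fWV, ← bc_int fW, integral_pw (S T) (bc_ind fWV), ← integral_const_mul]
  refine integral_mono (FD.integrable (FD.inner (bc_ind fWV) (S T)))
    ((FD.integrable (bc_ind fW)).const_mul ρ) ?_
  intro ω
  show ∫ ω', (W ∩ V).indicator (fun _ => (1 : ℝ)) (pw (S T) ω ω') ∂mu ≤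
    ρ * W.indicator (fun _ => (1 : ℝ)) ω
  by_cases hω : ω ∈ W
  · have fV' : FD (fun ω' => ω' ∈ {ω' | pw (S T) ω ω' ∈ V}) := FD.pw_right fV (S T) ω
    rw [Set.indicator_of_mem hω, mul_one]
    refine le_trans (le_of_eq ?_) (h ω)
    rw [← bc_int fV']
    refine integral_congr_ae (Filter.Eventually.of_forall (fun ω' => ?_))
    show (W ∩ V).indicator (fun _ => (1 : ℝ)) (pw (S T) ω ω') =
      ({ω' | pw (S T) ω ω' ∈ V} : Set Om).indicator (fun _ => (1 : ℝ)) ω'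
    have h1 : pw (S T) ω ω' ∈ W := (hpw ω ω').2 hω
    by_cases h2 : pw (S T) ω ω' ∈ V
    · rw [Set.indicator_of_mem (show pw (S T) ω ω' ∈ W ∩ V from ⟨h1, h2⟩),
        Set.indicator_of_mem (show ω' ∈ {ω' | pw (S T) ω ω' ∈ V} from h2)]
    · rw [Set.indicator_of_notMem (fun hh : pw (S T) ω ω' ∈ W ∩ V => h2 hh.2),
        Set.indicator_of_notMem (show ω' ∉ {ω' | pw (S T) ω ω' ∈ V} from h2)]
  · rw [Set.indicator_of_notMem hω, mul_zero]
    refine le_of_eq ?_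
    rw [← integral_zero Om ℝ]
    refine integral_congr_ae (Filter.Eventually.of_forall (fun ω' => ?_))
    show (W ∩ V).indicator (fun _ => (1 : ℝ)) (pw (S T) ω ω') = 0
    exact Set.indicator_of_notMem (fun hh => hω ((hpw ω ω').1 hh.1)) _

theorem bc_null (I : Set ℕ) (hI : I.Infinite) (V : ℕ → Set Om) (ρ : ℝ) (hρ : ρ < 1)
    (s : ℕ) (h1 : ∀ t ∈ I, s ≤ t → Dep (S (t + 1)) (fun ω => ω ∈ V t))
    (h2 : ∀ t ∈ I, s ≤ t → ∀ ω, mu.real {ω' | pw (S t) ω ω' ∈ V t} ≤ ρ) :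
    mu {ω | ∀ t ∈ I, s ≤ t → ω ∈ V t} = 0 := by
  let W : ℕ → Set Om := fun T => {ω | ∀ t ∈ I, s ≤ t → t < T → ω ∈ V t}
  have hρ0 : 0 ≤ ρ := by
    obtain ⟨t, ht, hst⟩ := hI.exists_gt s
    exact le_trans measureReal_nonneg (h2 t ht hst.le (fun _ => false))
  have hdep : ∀ T, Dep (S T) (fun ω => ω ∈ W T) := by
    intro T ω ω' hw
    show (∀ t ∈ I, s ≤ t → t < T → ω ∈ V t) = (∀ t ∈ I, s ≤ t → t < T → ω' ∈ V t)
    have : ∀ t ∈ I, s ≤ t → t < T → ((ω ∈ V t) = (ω' ∈ V t)) := by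
      intro t ht hs htT
      exact h1 t ht hs ω ω' (fun p hp => hw p (S_mono (by omega : t + 1 ≤ T) hp))
    apply propext
    constructor
    · intro h t ht hs htT
      rw [← this t ht hs htT]; exact h t ht hs htT
    · intro h t ht hs htT
      rw [this t ht hs htT]; exact h t ht hs htT
  have hmono : ∀ T T', T ≤ T' → W T' ⊆ W T := by
    intro T T' hT ω hω t ht hs htT
    exact hω t ht hs (by omega)
  have hk : ∀ k : ℕ, ∃ T, mu.real (W T) ≤ ρ ^ k := by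
    intro k
    induction k with
    | zero => exact ⟨0, by simp⟩
    | succ k ih =>
      obtain ⟨T, hT⟩ := ih
      obtain ⟨t, ht, hst⟩ := hI.exists_gt (max s T)
      have hs : s ≤ t := by
        have := le_max_left s T; omega
      have hTt : T ≤ t := by
        have := le_max_right s T; omega
      refine ⟨t + 1, ?_⟩
      have e1 : W (t + 1) ⊆ W t ∩ V t := by
        intro ω hω
        exact ⟨hmono t (t + 1) (by omega) hω, hω t ht hs (by omega)⟩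
      calc mu.real (W (t + 1)) ≤ mu.real (W t ∩ V t) := measureReal_mono e1
        _ ≤ ρ * mu.real (W t) := bc_step (W t) (V t) t (hdep t) (h1 t ht hs) ρ (h2 t ht hs)
        _ ≤ ρ * mu.real (W T) := by
            exact mul_le_mul_of_nonneg_left (measureReal_mono (hmono T t hTt)) hρ0
        _ ≤ ρ * ρ ^ k := mul_le_mul_of_nonneg_left hT hρ0
        _ = ρ ^ (k + 1) := by ring
  have hle : ∀ k : ℕ, mu.real {ω | ∀ t ∈ I, s ≤ t → ω ∈ V t} ≤ ρ ^ k := by
    intro k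
    obtain ⟨T, hT⟩ := hk k
    refine le_trans (measureReal_mono ?_) hT
    intro ω hω t ht hs _
    exact hω t ht hs
  have h0 : mu.real {ω | ∀ t ∈ I, s ≤ t → ω ∈ V t} ≤ 0 :=
    ge_of_tendsto' (tendsto_pow_atTop_nhds_zero_of_lt_one hρ0 hρ) hle
  have h3 : mu.real {ω | ∀ t ∈ I, s ≤ t → ω ∈ V t} = 0 := le_antisymm h0 measureReal_nonneg
  rcases (ENNReal.toReal_eq_zero_iff _).1 h3 with h4 | h4
  · exact h4
  · exact absurd h4 (measure_ne_top _ _)

theorem borel_cantelli' (I : Set ℕ) (hI : I.Infinite) (V : ℕ → Set Om) (ρ : ℝ) (hρ : ρ < 1)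
    (t0 : ℕ) (h1 : ∀ t ∈ I, t0 ≤ t → Dep (S (t + 1)) (fun ω => ω ∈ V t))
    (h2 : ∀ t ∈ I, t0 ≤ t → ∀ ω, mu.real {ω' | pw (S t) ω ω' ∈ V t} ≤ ρ) :
    ∀ᵐ ω ∂mu, ∃ᶠ t in Filter.atTop, t ∈ I ∧ ω ∉ V t := by
  have h3 : ∀ s : ℕ, ∀ᵐ ω ∂mu, ¬ ∀ t ∈ I, max s t0 ≤ t → ω ∈ V t := by
    intro s
    rw [ae_iff]
    simp only [not_not]
    refine bc_null I hI V ρ hρ (max s t0) (fun t ht hs => h1 t ht ?_) (fun t ht hs => h2 t ht ?_)
    · exact le_trans (le_max_right _ _) hs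
    · exact le_trans (le_max_right _ _) hs
  filter_upwards [ae_all_iff.2 h3] with ω hω
  rw [Filter.frequently_atTop]
  intro s
  have := hω s
  push Not at this
  obtain ⟨t, ht, hs, hV⟩ := this
  exact ⟨t, le_trans (le_max_left _ _) hs, ht, hV⟩

end Pool.Agent.H552R2.RM
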