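import Pool.Agent.H552R2.RM.Stubs

/-!
Task DY: dyadic numbers.
-/

namespace Pool.Agent.H552R2.RM

theorem dy_foldl (y : List Bool) (c : ℕ) :
    y.foldl (fun a b => 2 * a + (if b then 1 else 0)) c = c * 2 ^ y.length + natOf y := by
  induction y generalizing c with
  | nil => simp [natOf]
  | cons b y ih =>
    unfold natOf
    rw [List.foldl_cons, List.foldl_cons, ih, ih (2 * 0 + _), List.length_cons, pow_succ]
    ring

theorem dy_natOf_mod (N m : ℕ) :
    natOf ((List.range m).reverse.map (fun i => N.testBit i)) = N % 2 ^ m := by
  induction m with
  | zero => simp [natOf, Nat.mod_one]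
  | succ m ih =>
    rw [List.range_succ, List.reverse_append, List.reverse_singleton, List.singleton_append,
      List.map_cons]
    unfold natOf
    rw [List.foldl_cons, dy_foldl, ih, pow_succ, Nat.mod_mul, ← Nat.toNat_testBit]
    simp only [List.length_map, List.length_reverse, List.length_range]
    cases N.testBit m
    · simp
    · simp only [if_true, Bool.toNat_true]
      ring

/-- writing a number with `m` bits, highest bit first -/
theorem natOf_bits' (N m : ℕ) (h : N < 2 ^ m) :
    natOf ((List.range m).reverse.map (fun i => N.testBit i)) = N := by
  rw [dy_natOf_mod, Nat.mod_eq_of_lt h]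

theorem dy_drop (a : ℕ) (y : List Bool) :
    (List.replicate a true ++ false :: y).dropWhile (· = true) = false :: y := by
  induction a with
  | zero => simp
  | succ a ih => rw [List.replicate_succ, List.cons_append]; simp

theorem dy_take (a : ℕ) (y : List Bool) :
    (List.replicate a true ++ false :: y).takeWhile (· = true) = List.replicate a true := by
  induction a with
  | zero => simp
  | succ a ih => rw [List.replicate_succ, List.cons_append]; simp

theorem dy_write' (a N m : ℕ) (h : N < 2 ^ m) :
    dy (false :: (List.replicate a true ++
      false :: ((List.range m).reverse.map (fun i => N.testBit i)))) = (N : ℝ) / 2 ^ a := by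
  simp only [dy]
  rw [dy_drop, dy_take, List.tail_cons, natOf_bits' N m h, List.length_replicate]
  simp

end Pool.Agent.H552R2.RM
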