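import Pool.Agent.H552R2.RM.Stubs

/-!
Task HP: the probability of hitting the code of a hidden string.
-/

namespace Pool.Agent.H552R2.RM

open Function MeasureTheory
open Pool.Agent.Helper556.OM

theorem hp_one (z : List Bool) (m : ℕ) :
    mu.real {ω' | ∃ e x, Rnd e x ∧ m ≤ x.length ∧ code e x (hs e x ω') = z} ≤
      (1 / 2) ^ ((m + 1) ^ 2) := by
  by_cases h : ∃ e x y, Rnd e x ∧ m ≤ x.length ∧ code e x y = z
  · obtain ⟨e, x, y, hr, hm, hz⟩ := h
    have hsub : {ω' | ∃ e x, Rnd e x ∧ m ≤ x.length ∧ code e x (hs e x ω') = z} ⊆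
        {ω' | hs e x ω' = y} := by
      rintro ω' ⟨e', x', -, -, hc⟩
      obtain ⟨h1, h2, h3⟩ := code_inj (hc.trans hz.symm)
      subst h1; subst h2
      exact h3
    have hle : (m + 1) ^ 2 ≤ bl e x := by
      unfold bl
      calc (m + 1) ^ 2 ≤ (x.length + 1) ^ 2 := Nat.pow_le_pow_left (by omega) 2
        _ ≤ (x.length + 1) ^ e := Nat.pow_le_pow_right (by omega) hr.1
    calc mu.real {ω' | ∃ e x, Rnd e x ∧ m ≤ x.length ∧ code e x (hs e x ω') = z}
        ≤ mu.real {ω' | hs e x ω' = y} := measureReal_mono hsub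
      _ ≤ (1 / 2) ^ bl e x := hs_prob hr y
      _ ≤ (1 / 2) ^ ((m + 1) ^ 2) :=
          pow_le_pow_of_le_one (by norm_num) (by norm_num) hle
  · have hemp : {ω' | ∃ e x, Rnd e x ∧ m ≤ x.length ∧ code e x (hs e x ω') = z} = ∅ := by
      rw [Set.eq_empty_iff_forall_notMem]
      rintro ω' ⟨e, x, h1, h2, h3⟩
      exact h ⟨e, x, _, h1, h2, h3⟩
    rw [hemp]
    simp

/-- hits: for a finite set `Z` of strings, the probability that one of them is the code of a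
hidden string of a random block of a string of length at least `m` -/
theorem hit_prob' (Z : Finset (List Bool)) (m : ℕ) :
    mu.real {ω' | ∃ e x, Rnd e x ∧ m ≤ x.length ∧ code e x (hs e x ω') ∈ Z} ≤
      Z.card * (1 / 2) ^ ((m + 1) ^ 2) := by
  have hsub : {ω' | ∃ e x, Rnd e x ∧ m ≤ x.length ∧ code e x (hs e x ω') ∈ Z} ⊆
      ⋃ z ∈ Z, {ω' | ∃ e x, Rnd e x ∧ m ≤ x.length ∧ code e x (hs e x ω') = z} := by
    rintro ω' ⟨e, x, h1, h2, h3⟩
    rw [Set.mem_iUnion₂]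
    exact ⟨_, h3, e, x, h1, h2, rfl⟩
  calc mu.real {ω' | ∃ e x, Rnd e x ∧ m ≤ x.length ∧ code e x (hs e x ω') ∈ Z}
      ≤ mu.real (⋃ z ∈ Z, {ω' | ∃ e x, Rnd e x ∧ m ≤ x.length ∧ code e x (hs e x ω') = z}) :=
        measureReal_mono hsub (measure_ne_top _ _)
    _ ≤ ∑ z ∈ Z, mu.real {ω' | ∃ e x, Rnd e x ∧ m ≤ x.length ∧ code e x (hs e x ω') = z} :=
        measureReal_biUnion_finset_le _ _
    _ ≤ ∑ _z ∈ Z, (1 / 2) ^ ((m + 1) ^ 2) := Finset.sum_le_sum fun z _ => hp_one z m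
    _ = Z.card * (1 / 2) ^ ((m + 1) ^ 2) := by rw [Finset.sum_const, nsmul_eq_mul]

end Pool.Agent.H552R2.RM
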