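import Pool.Agent.H552R2.RM.Stubs
import Pool.Agent.H552R2.Code

/-! Task MA: the machine computing the values of the null cover from the oracle. -/

namespace Pool.Agent.H552R2.RM

open Function MeasureTheory
open Pool.Agent.Helper556.OM

variable {A : Set (List Bool)}

/-- a state with five stacks -/
def ma_st (a0 a1 a2 a3 a4 : List Bool) : St := fun k =>
  if k = 0 then a0 else if k = 1 then a1 else if k = 2 then a2 else if k = 3 then a3 else
    if k = 4 then a4 else []

section st
variable (a0 a1 a2 a3 a4 x : List Bool)

theorem ma_st0 : ma_st a0 a1 a2 a3 a4 0 = a0 := rfl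
theorem ma_st1 : ma_st a0 a1 a2 a3 a4 1 = a1 := rfl
theorem ma_st2 : ma_st a0 a1 a2 a3 a4 2 = a2 := rfl
theorem ma_st3 : ma_st a0 a1 a2 a3 a4 3 = a3 := rfl
theorem ma_st4 : ma_st a0 a1 a2 a3 a4 4 = a4 := rfl

theorem ma_up0 : update (ma_st a0 a1 a2 a3 a4) 0 x = ma_st x a1 a2 a3 a4 := by
  funext k
  simp only [update_apply, ma_st]
  split_ifs <;> first | rfl | omega
theorem ma_up1 : update (ma_st a0 a1 a2 a3 a4) 1 x = ma_st a0 x a2 a3 a4 := by
  funext k
  simp only [update_apply, ma_st]
  split_ifs <;> first | rfl | omega
theorem ma_up2 : update (ma_st a0 a1 a2 a3 a4) 2 x = ma_st a0 a1 x a3 a4 := by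
  funext k
  simp only [update_apply, ma_st]
  split_ifs <;> first | rfl | omega
theorem ma_up3 : update (ma_st a0 a1 a2 a3 a4) 3 x = ma_st a0 a1 a2 x a4 := by
  funext k
  simp only [update_apply, ma_st]
  split_ifs <;> first | rfl | omega
theorem ma_up4 : update (ma_st a0 a1 a2 a3 a4) 4 x = ma_st a0 a1 a2 a3 x := by
  funext k
  simp only [update_apply, ma_st]
  split_ifs <;> first | rfl | omega

end st

/-- the body of the splitting loop for the bit `b` -/
def ma_body (b : Bool) : Cmd :=
  .seq (.pop 0) (.seq (.push 1 b) (.seq (.push 2 true) (.seq (.push 2 true) (.push 3 true))))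

theorem ma_body_ev (b c : Bool) (x l : List Bool) (n m : ℕ) :
    EvB A (ma_body b) (ma_st (c :: x) l (un n) (un m) [])
      (ma_st x (b :: l) (un (n + 2)) (un (m + 1)) []) 5 := by
  have p1 := EvB.pop (A := A) 0 (ma_st (c :: x) l (un n) (un m) [])
  rw [ma_st0, List.tail_cons, ma_up0] at p1
  have p2 := EvB.push (A := A) 1 b (ma_st x l (un n) (un m) [])
  rw [ma_st1, ma_up1] at p2
  have p3 := EvB.push (A := A) 2 true (ma_st x (b :: l) (un n) (un m) [])
  rw [ma_st2, ma_up2, un_cons] at p3
  have p4 := EvB.push (A := A) 2 true (ma_st x (b :: l) (un (n + 1)) (un m) [])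
  rw [ma_st2, ma_up2, un_cons] at p4
  have p5 := EvB.push (A := A) 3 true (ma_st x (b :: l) (un (n + 1 + 1)) (un m) [])
  rw [ma_st3, ma_up3, un_cons] at p5
  exact (p1.seq (p2.seq (p3.seq (p4.seq p5)))).mono (by norm_num)

/-- reversing the input onto stack `1`, twice the length on stack `2`, the length on stack `3` -/
def ma_split : Cmd := .loop 0 (.br 0 .skip (ma_body false) (ma_body true))

theorem ma_split_ev (x : List Bool) : ∀ (l : List Bool) (n m : ℕ),
    EvB A ma_split (ma_st x l (un n) (un m) [])
      (ma_st [] (x.reverse ++ l) (un (n + 2 * x.length)) (un (m + x.length)) [])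
      (7 * x.length + 1) := by
  induction x with
  | nil =>
      intro l n m
      exact ⟨1, by simp, Ev.loopn rfl⟩
  | cons b x ih =>
      intro l n m
      have hstep : EvB A (.br 0 .skip (ma_body false) (ma_body true))
          (ma_st (b :: x) l (un n) (un m) [])
          (ma_st x (b :: l) (un (n + 2)) (un (m + 1)) []) 6 := by
        cases b with
        | true => exact EvB.brt (l := x) rfl (ma_body_ev true true x l n m)
        | false => exact EvB.brf (l := x) rfl (ma_body_ev false false x l n m)
      obtain ⟨t, ht, h1⟩ := hstep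
      obtain ⟨t', ht', h2⟩ := ih (b :: l) (n + 2) (m + 1)
      refine ⟨t + t' + 1, ?_, ?_⟩
      · simp only [List.length_cons]; omega
      · have h3 := Ev.loopc (A := A) (r := 0) (by simp [ma_st]) h1 h2
        have e1 : x.reverse ++ b :: l = (b :: x).reverse ++ l := by simp
        have e2 : n + 2 + 2 * x.length = n + 2 * (b :: x).length := by simp; omega
        have e3 : m + 1 + x.length = m + (b :: x).length := by simp; omega
        rw [e1, e2, e3] at h3
        exact h3

/-- the bits of `N` below `i`, highest first -/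
def ma_bits (N i : ℕ) : List Bool := (List.range i).reverse.map (fun j => N.testBit j)

theorem ma_bits_succ (N i : ℕ) : ma_bits N (i + 1) = N.testBit i :: ma_bits N i := by
  unfold ma_bits
  rw [List.range_succ, List.reverse_append]
  rfl

/-- asking for the bits -/
def ma_ask : Cmd :=
  .loop 2 (.seq (.pop 2) (.seq (.push 4 false) (.seq (.ask 4 (.push 1 true) (.push 1 false))
    (.seq (.pop 4) (.push 4 true)))))

theorem ma_ask_ev (N m L : ℕ) (z : List Bool)
    (hA : ∀ i, false :: (List.replicate i true ++ false :: z) ∈ A ↔ N.testBit i = true) :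
    EvB A ma_ask (ma_st [] [] (un m) (un L) (false :: z))
      (ma_st [] (ma_bits N m) [] (un L) (List.replicate m true ++ false :: z)) (m * 7 + 1) := by
  have h := EvB.loop_count (A := A) (r := 2) (p := .seq (.pop 2) (.seq (.push 4 false)
    (.seq (.ask 4 (.push 1 true) (.push 1 false)) (.seq (.pop 4) (.push 4 true))))) 6 m
    (fun i => ma_st [] (ma_bits N i) (un (m - i)) (un L) (List.replicate i true ++ false :: z))
    ?_ ?_ ?_
  · simp only [Nat.sub_zero, Nat.sub_self] at h
    exact h
  · intro i hi
    rw [ma_st2]
    exact un_ne (by omega)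
  · simp [ma_st2]
  · intro i hi
    have p1 := EvB.pop (A := A) 2 (ma_st [] (ma_bits N i) (un (m - i)) (un L)
      (List.replicate i true ++ false :: z))
    rw [ma_st2, ma_up2, un_tail] at p1
    have p2 := EvB.push (A := A) 4 false (ma_st [] (ma_bits N i) (un (m - i - 1)) (un L)
      (List.replicate i true ++ false :: z))
    rw [ma_st4, ma_up4] at p2
    have p3 : EvB A (.ask 4 (.push 1 true) (.push 1 false))
        (ma_st [] (ma_bits N i) (un (m - i - 1)) (un L)
          (false :: (List.replicate i true ++ false :: z)))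
        (ma_st [] (ma_bits N (i + 1)) (un (m - i - 1)) (un L)
          (false :: (List.replicate i true ++ false :: z))) 2 := by
      rw [ma_bits_succ]
      by_cases hb : N.testBit i = true
      · have q := Ev.push (A := A) 1 true (ma_st [] (ma_bits N i) (un (m - i - 1)) (un L)
          (false :: (List.replicate i true ++ false :: z)))
        rw [ma_st1, ma_up1] at q
        rw [hb]
        exact ⟨2, le_refl _, Ev.askt (by rw [ma_st4]; exact (hA i).2 hb) q⟩
      · have q := Ev.push (A := A) 1 false (ma_st [] (ma_bits N i) (un (m - i - 1)) (un L)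
          (false :: (List.replicate i true ++ false :: z)))
        rw [ma_st1, ma_up1] at q
        have hb' : N.testBit i = false := by simpa using hb
        rw [hb']
        exact ⟨2, le_refl _, Ev.askf (by rw [ma_st4]; exact fun h => hb ((hA i).1 h)) q⟩
    have p4 := EvB.pop (A := A) 4 (ma_st [] (ma_bits N (i + 1)) (un (m - i - 1)) (un L)
          (false :: (List.replicate i true ++ false :: z)))
    rw [ma_st4, ma_up4, List.tail_cons] at p4
    have p5 := EvB.push (A := A) 4 true (ma_st [] (ma_bits N (i + 1)) (un (m - i - 1)) (un L)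
          (List.replicate i true ++ false :: z))
    rw [ma_st4, ma_up4] at p5
    have p := p1.seq (p2.seq (p3.seq (p4.seq p5)))
    have e1 : m - i - 1 = m - (i + 1) := by omega
    have e2 : true :: (List.replicate i true ++ false :: z) =
        List.replicate (i + 1) true ++ false :: z := rfl
    rw [e1, e2] at p
    exact p.mono (by norm_num)

/-- as many ones on stack `1` as there are bits on stack `3` -/
def ma_ones : Cmd := .loop 3 (.seq (.pop 3) (.push 1 true))

theorem ma_ones_ev (L : ℕ) (l y : List Bool) :
    EvB A ma_ones (ma_st [] l [] (un L) y) (ma_st [] (List.replicate L true ++ l) [] [] y)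
      (L * 3 + 1) := by
  have h := EvB.loop_count (A := A) (r := 3) (p := .seq (.pop 3) (.push 1 true)) 2 L
    (fun i => ma_st [] (List.replicate i true ++ l) [] (un (L - i)) y) ?_ ?_ ?_
  · simp only [Nat.sub_zero, Nat.sub_self] at h
    exact h
  · intro i hi
    rw [ma_st3]
    exact un_ne (by omega)
  · simp [ma_st3]
  · intro i hi
    have p1 := EvB.pop (A := A) 3 (ma_st [] (List.replicate i true ++ l) [] (un (L - i)) y)
    rw [ma_st3, ma_up3, un_tail] at p1
    have p2 := EvB.push (A := A) 1 true (ma_st [] (List.replicate i true ++ l) [] (un (L - i - 1)) y)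
    rw [ma_st1, ma_up1] at p2
    have e1 : L - i - 1 = L - (i + 1) := by omega
    have e2 : true :: (List.replicate i true ++ l) = List.replicate (i + 1) true ++ l := rfl
    rw [e1, e2] at p2
    rw [e1] at p1
    exact (p1.seq p2).mono (by norm_num)

/-- the program -/
def ma_prog : Cmd :=
  .seq ma_split (.seq (back 1 4) (.seq (.push 4 false) (.seq ma_ask (.seq (.push 1 false)
    (.seq ma_ones (.push 1 false))))))

theorem ma_prog_ev (N : ℕ) (z : List Bool)
    (hA : ∀ i, false :: (List.replicate i true ++ false :: z) ∈ A ↔ N.testBit i = true) :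
    EvB A ma_prog (ma_st z [] [] [] [])
      (ma_st [] (false :: (List.replicate z.length true ++ false :: ma_bits N (2 * z.length)))
        [] [] (List.replicate (2 * z.length) true ++ false :: z)) (28 * z.length + 10) := by
  have h1 := ma_split_ev (A := A) z [] 0 0
  rw [List.append_nil, Nat.zero_add, Nat.zero_add, un_zero] at h1
  have h2 := back_ev (A := A) (a := 1) (b := 4) (by omega) z.reverse
    (ma_st [] z.reverse (un (2 * z.length)) (un z.length) []) (ma_st1 _ _ _ _ _)
  rw [ma_up1, ma_up4, ma_st4, List.reverse_reverse, List.append_nil, List.length_reverse] at h2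
  have h3 := EvB.push (A := A) 4 false (ma_st [] [] (un (2 * z.length)) (un z.length) z)
  rw [ma_st4, ma_up4] at h3
  have h4 := ma_ask_ev (A := A) N (2 * z.length) z.length z hA
  have h5 := EvB.push (A := A) 1 false (ma_st [] (ma_bits N (2 * z.length)) [] (un z.length)
    (List.replicate (2 * z.length) true ++ false :: z))
  rw [ma_st1, ma_up1] at h5
  have h6 := ma_ones_ev (A := A) z.length (false :: ma_bits N (2 * z.length))
    (List.replicate (2 * z.length) true ++ false :: z)
  have h7 := EvB.push (A := A) 1 false (ma_st [] (List.replicate z.length true ++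
    false :: ma_bits N (2 * z.length)) [] [] (List.replicate (2 * z.length) true ++ false :: z))
  rw [ma_st1, ma_up1] at h7
  exact (h1.seq (h2.seq (h3.seq (h4.seq (h5.seq (h6.seq h7)))))).mono (by omega)

open Classical in
theorem ma_run (P : Cmd) (r : ℕ) {x : List Bool} {s' : St} {t T : ℕ}
    (h : Ev A P (fun k => if k = 0 then x else []) s' t) (hT : t + 1 ≤ T) (w : ℕ → Bool) :
    (decM P r).Halted ((decM P r).run A T w ((decM P r).init x)) ∧
    ((decM P r).run A T w ((decM P r).init x)).2 = s' := by
  have h1 : (decM P r).run A t w ((decM P r).init x) = dc P r (Sum.inr none) s' :=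
    compile_correct (decM P r) A h Sum.inl (Sum.inr none) (fun a => rfl) w
  have h2 : (decM P r).run A (t + 1) w ((decM P r).init x) =
      dc P r (Sum.inr (some (decide (s' r ∈ A)))) s' := by
    rw [Machine.run_add, h1, Machine.run_one]
    simp only [Machine.step, decM, dc]
    rfl
  have hh : (decM P r).Halted ((decM P r).run A (t + 1) w ((decM P r).init x)) := by
    rw [h2]
    exact ⟨_, rfl⟩
  rw [run_mono _ _ _ hT hh]
  refine ⟨hh, ?_⟩
  rw [h2]
  rfl

theorem ma_poly (n : ℕ) : 28 * n + 11 ≤ poly 40 n := by
  unfold poly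
  rcases Nat.lt_or_ge n 2 with h | h
  · interval_cases n <;> norm_num
  · have h1 : 28 * n ≤ n ^ 40 := by
      have h2 : n ^ 40 = n ^ 39 * n := pow_succ n 39
      have h3 : 2 ^ 39 ≤ n ^ 39 := Nat.pow_le_pow_left h 39
      rw [h2]
      have h4 : 28 ≤ n ^ 39 := le_trans (by norm_num) h3
      exact Nat.mul_le_mul_right n h4
    omega

theorem comp_of_bits' (A : Set (List Bool)) (N : ℕ → ℕ → List Bool → ℕ)
    (hN : ∀ k r w, N k r w < 2 ^ (2 * (enc k r w).length))
    (hA : ∀ i k r w, false :: ques i k r w ∈ A ↔ (N k r w).testBit i = true) :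
    ∃ c, Comp A (poly c) (fun k r w => (N k r w : ℝ) / 2 ^ (enc k r w).length) := by
  refine ⟨40, decM ma_prog 4, decM_det _ _, ?_⟩
  intro k r w v
  obtain ⟨t, ht, hev⟩ := ma_prog_ev (A := A) (N k r w) (enc k r w) (fun i => hA i k r w)
  have e0 : ma_st (enc k r w) [] [] [] [] = (fun j => if j = 0 then enc k r w else []) := by
    funext j
    simp only [ma_st]
    split_ifs <;> rfl
  rw [e0] at hev
  have h := ma_run (A := A) ma_prog 4 hev (T := poly 40 (enc k r w).length)
    (by have := ma_poly (enc k r w).length; omega) v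
  refine ⟨h.1, ?_⟩
  rw [h.2, ma_st1]
  exact dy_write (enc k r w).length (N k r w) (2 * (enc k r w).length) (hN k r w)

end Pool.Agent.H552R2.RM
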