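import Pool.Agent.H552R2.RM.Defs2

set_option autoImplicit false

/-! Task ME: measure basics. -/

namespace Pool.Agent.H552R2.RM

open Function MeasureTheory
open Pool.Agent.Helper556.OM

instance me_prob_coin : IsProbabilityMeasure coin := by
  constructor
  simp only [coin, Measure.smul_apply, Measure.add_apply, Measure.dirac_apply_of_mem (Set.mem_univ _),
    smul_eq_mul]
  rw [one_add_one_eq_two]
  exact ENNReal.inv_mul_cancel (by norm_num) (by norm_num)

instance me_prob_mu : IsProbabilityMeasure mu := by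
  unfold mu; infer_instance

theorem me_coin_singleton (b : Bool) : coin {b} = 2⁻¹ := by
  cases b <;> simp [coin]

open Classical in
/-- extension of a finite tuple -/
noncomputable def me_ext (s : Finset Idx) (v : s → Bool) : Om :=
  fun p => if h : p ∈ s then v ⟨p, h⟩ else false

theorem me_factor {β : Type} {f : Om → β} (h : FD f) :
    ∃ s : Finset Idx, ∀ ω, f ω = f (me_ext s (fun p => ω p.1)) := by
  obtain ⟨J, hJ, hd⟩ := h
  refine ⟨hJ.toFinset, fun ω => hd _ _ ?_⟩
  intro p hp
  have : p ∈ hJ.toFinset := hJ.mem_toFinset.2 hp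
  simp [me_ext, this]

theorem FD.measurable' {β : Type} [MeasurableSpace β] {f : Om → β} (h : FD f) :
    Measurable f := by
  obtain ⟨s, hs⟩ := me_factor h
  have h1 : f = (fun v : s → Bool => f (me_ext s v)) ∘ (fun ω : Om => fun p : s => ω p.1) := by
    funext ω; exact hs ω
  have h2 : Measurable (fun v : s → Bool => f (me_ext s v)) := Measurable.of_discrete
  have h3 : Measurable (fun ω : Om => fun p : s => ω p.1) :=
    measurable_pi_lambda _ (fun p => measurable_pi_apply _)
  rw [h1]
  exact h2.comp h3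

theorem FD.measurableSet' {V : Set Om} (h : FD (fun ω => ω ∈ V)) : MeasurableSet V :=
  measurableSet_setOfPred.2 h.measurable'

theorem me_bdd {f : Om → ℝ} (h : FD f) : ∃ C : ℝ, ∀ ω, ‖f ω‖ ≤ C := by
  obtain ⟨s, hs⟩ := me_factor h
  obtain ⟨C, hC⟩ := Finite.bddAbove_range (fun v : s → Bool => ‖f (me_ext s v)‖)
  refine ⟨C, fun ω => ?_⟩
  rw [hs ω]
  exact hC ⟨_, rfl⟩

theorem FD.integrable' {f : Om → ℝ} (h : FD f) : Integrable f mu := by
  obtain ⟨C, hC⟩ := me_bdd h
  exact Integrable.of_bound h.measurable'.aestronglyMeasurable C (Filter.Eventually.of_forall hC)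

theorem FD.const' {β : Type} (b : β) : FD (fun _ : Om => b) :=
  ⟨∅, Set.finite_empty, fun _ _ _ => rfl⟩

theorem FD.comp' {α β : Type} {f : Om → α} (h : FD f) (g : α → β) : FD (fun ω => g (f ω)) := by
  obtain ⟨J, hJ, hd⟩ := h
  exact ⟨J, hJ, fun ω ω' hw => congrArg g (hd ω ω' hw)⟩

theorem FD.comp₂' {α β γ : Type} {f : Om → α} {f' : Om → β} (h : FD f) (h' : FD f')
    (g : α → β → γ) : FD (fun ω => g (f ω) (f' ω)) := by
  obtain ⟨J, hJ, hd⟩ := h
  obtain ⟨J', hJ', hd'⟩ := h'
  refine ⟨J ∪ J', hJ.union hJ', fun ω ω' hw => ?_⟩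
  show g (f ω) (f' ω) = g (f ω') (f' ω')
  rw [hd ω ω' (fun p hp => hw p (Or.inl hp)), hd' ω ω' (fun p hp => hw p (Or.inr hp))]

/-- a function of `ω` built from the bits in the finite set `J`, after fixing the others -/
theorem FD.pw_left' {β : Type} {f : Om → β} (h : FD f) (J : Set Idx) (ω' : Om) :
    FD (fun ω => f (pw J ω ω')) := by
  obtain ⟨K, hK, hd⟩ := h
  refine ⟨K, hK, fun ω₁ ω₂ hw => hd _ _ ?_⟩
  intro p hp
  simp only [pw]
  split_ifs
  · exact hw p hp
  · rfl

theorem FD.pw_right' {β : Type} {f : Om → β} (h : FD f) (J : Set Idx) (ω : Om) :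
    FD (fun ω' => f (pw J ω ω')) := by
  obtain ⟨K, hK, hd⟩ := h
  refine ⟨K, hK, fun ω₁ ω₂ hw => hd _ _ ?_⟩
  intro p hp
  simp only [pw]
  split_ifs
  · rfl
  · exact hw p hp

theorem FD.inner' {f : Om → ℝ} (h : FD f) (J : Set Idx) :
    FD (fun ω => ∫ ω', f (pw J ω ω') ∂mu) := by
  obtain ⟨K, hK, hd⟩ := h
  refine ⟨K, hK, fun ω₁ ω₂ hw => ?_⟩
  show ∫ ω', f (pw J ω₁ ω') ∂mu = ∫ ω', f (pw J ω₂ ω') ∂mu
  refine integral_congr_ae (Filter.Eventually.of_forall (fun ω' => hd _ _ ?_))
  intro p hp
  simp only [pw]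
  split_ifs
  · exact hw p hp
  · rfl

theorem me_pw_meas (J : Set Idx) : Measurable (fun p : Om × Om => pw J p.1 p.2) := by
  refine measurable_pi_lambda _ (fun p => ?_)
  simp only [pw]
  split_ifs
  · exact (measurable_pi_apply p).comp measurable_fst
  · exact (measurable_pi_apply p).comp measurable_snd

theorem pw_mp' (J : Set Idx) :
    MeasurePreserving (fun p : Om × Om => pw J p.1 p.2) (mu.prod mu) mu := by
  classical
  refine ⟨me_pw_meas J, ?_⟩
  unfold mu
  apply Measure.eq_infinitePi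
  intro s t ht
  rw [Measure.map_apply (me_pw_meas J)
    (MeasurableSet.pi s.countable_toSet (fun i _ => ht i))]
  have h1 : (fun p : Om × Om => pw J p.1 p.2) ⁻¹' (Set.pi s t) =
      (Set.pi ((s.filter (fun i => i ∈ J) : Finset Idx) : Set Idx) t) ×ˢ
      (Set.pi ((s.filter (fun i => i ∉ J) : Finset Idx) : Set Idx) t) := by
    ext ⟨a, b⟩
    simp only [Set.mem_preimage, Set.mem_pi, Set.mem_prod, Finset.coe_filter, Set.mem_ofPred_eq,
      pw, Finset.mem_coe]
    constructor
    · intro h
      refine ⟨fun i hi => ?_, fun i hi => ?_⟩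
      · have := h i hi.1
        rwa [if_pos hi.2] at this
      · have := h i hi.1
        rwa [if_neg hi.2] at this
    · rintro ⟨h, h'⟩ i hi
      split_ifs with hJ
      · exact h i ⟨hi, hJ⟩
      · exact h' i ⟨hi, hJ⟩
  rw [h1, Measure.prod_prod, Measure.infinitePi_pi _ (fun i _ => ht i),
    Measure.infinitePi_pi _ (fun i _ => ht i), Finset.prod_filter_mul_prod_filter_not]

theorem integral_pw' (J : Set Idx) {f : Om → ℝ} (h : FD f) :
    ∫ ω, f ω ∂mu = ∫ ω, ∫ ω', f (pw J ω ω') ∂mu ∂mu := by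
  obtain ⟨C, hC⟩ := me_bdd h
  have h1 : Measurable (fun p : Om × Om => f (pw J p.1 p.2)) :=
    h.measurable'.comp (me_pw_meas J)
  have h2 : Integrable (fun p : Om × Om => f (pw J p.1 p.2)) (mu.prod mu) :=
    Integrable.of_bound h1.aestronglyMeasurable C (Filter.Eventually.of_forall (fun p => hC _))
  rw [← integral_prod _ h2]
  have h3 := (pw_mp' J).map_eq
  conv_lhs => rw [← h3]
  rw [integral_map (me_pw_meas J).aemeasurable]
  rw [h3]
  exact h.measurable'.aestronglyMeasurable

/-- the probability of a cylinder -/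
theorem cyl' (J : Set Idx) (hJ : J.Finite) (σ : Om) :
    mu.real {ω | ∀ p ∈ J, ω p = σ p} = (1 / 2) ^ J.ncard := by
  have h1 : {ω : Om | ∀ p ∈ J, ω p = σ p} =
      Set.pi (hJ.toFinset : Set Idx) (fun p => {σ p}) := by
    ext ω
    simp [Set.mem_pi]
  rw [Measure.real, h1]
  unfold mu
  rw [Measure.infinitePi_pi _ (fun i _ => measurableSet_singleton _)]
  simp only [me_coin_singleton, Finset.prod_const]
  rw [← Set.ncard_eq_toFinset_card J hJ, ENNReal.toReal_pow, ENNReal.toReal_inv]
  norm_num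

theorem me_hs {e : ℕ} {x : List Bool} (h : Rnd e x) (ω : Om) :
    hs e x ω = (List.range (bl e x)).map (fun i => ω (e, x, i)) := by
  simp [hs, h]

theorem hs_prob' {e : ℕ} {x : List Bool} (h : Rnd e x) (y : List Bool) :
    mu.real {ω | hs e x ω = y} ≤ (1 / 2) ^ bl e x := by
  by_cases hy : ∃ σ, hs e x σ = y
  · obtain ⟨σ, hσ⟩ := hy
    have hinj : Injective (fun i : ℕ => ((e, x, i) : Idx)) := by
      intro i j hij
      simpa using hij
    let J : Set Idx := (fun i : ℕ => ((e, x, i) : Idx)) '' (Set.Iio (bl e x))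
    have hJ : J.Finite := (Set.finite_Iio _).image _
    have hc : J.ncard = bl e x := by
      rw [Set.ncard_image_of_injective _ hinj, ← Nat.card_coe_set_eq]
      simp
    rw [← hc, ← cyl' J hJ σ]
    refine measureReal_mono ?_
    intro ω hω p hp
    obtain ⟨i, hi, rfl⟩ := hp
    have h2 : hs e x ω = hs e x σ := by
      rw [hσ]; exact hω
    rw [me_hs h, me_hs h] at h2
    have h3 := List.map_inj_left.1 h2 i (List.mem_range.2 hi)
    exact h3
  · have : {ω | hs e x ω = y} = ∅ := by
      ext ω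
      simp only [Set.mem_ofPred_eq, Set.mem_empty_iff_false, iff_false]
      exact fun hh => hy ⟨ω, hh⟩
    rw [this]
    simp only [measureReal_empty]
    positivity

/-- the first bit is a fair coin -/
theorem head_integral' {e : ℕ} {x : List Bool} (h : Rnd e x) (g : Bool → ℝ) :
    ∫ ω, g (decide ((hs e x ω).head? = some true)) ∂mu = (g false + g true) / 2 := by
  have h1 : ∀ ω, g (decide ((hs e x ω).head? = some true)) = g (ω (e, x, 0)) := by
    intro ω
    rw [me_hs h]
    have hb : 0 < bl e x := Nat.pow_pos (Nat.succ_pos _)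
    obtain ⟨n, hn⟩ : ∃ n, bl e x = n + 1 := ⟨bl e x - 1, by omega⟩
    rw [hn, List.range_succ_eq_map]
    simp
  simp only [h1]
  have h2 : MeasurePreserving (Function.eval ((e, x, 0) : Idx)) mu coin :=
    measurePreserving_eval_infinitePi _ _
  have h3 := h2.map_eq
  have hg : Measurable g := Measurable.of_discrete
  have h4 : ∫ ω, g (ω (e, x, 0)) ∂mu = ∫ b, g b ∂coin := by
    rw [← h3, integral_map h2.measurable.aemeasurable hg.aestronglyMeasurable]
  rw [h4]
  unfold coin
  rw [integral_smul_measure, integral_add_measure, integral_dirac, integral_dirac]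
  · simp only [ENNReal.toReal_inv, ENNReal.toReal_ofNat, smul_eq_mul]
    ring
  · exact Integrable.of_bound (Measurable.of_discrete).aestronglyMeasurable
      (max ‖g true‖ ‖g false‖) (Filter.Eventually.of_forall (fun b => by cases b <;> simp))
  · exact Integrable.of_bound (Measurable.of_discrete).aestronglyMeasurable
      (max ‖g true‖ ‖g false‖) (Filter.Eventually.of_forall (fun b => by cases b <;> simp))

end Pool.Agent.H552R2.RM
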