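import Pool.Agent.H552R2.RM.Stubs

/-!
The languages `Lang e` do not have measure zero: the computed values are almost a supermartingale.
-/

namespace Pool.Agent.H552R2.RM

open Function MeasureTheory Filter
open Pool.Agent.Helper556.OM

/-! ### computed values -/

/-- the value computed by `M` for `w` -/
noncomputable def pi_G (M : Machine) (c k : ℕ) (w : List Bool) (O : Set (List Bool)) : ℝ :=
  dy ((M.run O (quasi c (enc k w.length w).length) (fun _ => false)
    (M.init (enc k w.length w))).2 1)

/-- the strings asked for it -/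
noncomputable def pi_asked (M : Machine) (c k : ℕ) (w : List Bool) (O : Set (List Bool)) :
    Finset (List Bool) := by
  classical
  exact (qs M O (quasi c (enc k w.length w).length) (fun _ => false)
    (M.init (enc k w.length w))).toFinset

theorem pi_enc_length (k r : ℕ) (w : List Bool) : (enc k r w).length = k + r + w.length + 2 := by
  simp only [enc, List.length_append, List.length_replicate, List.length_cons]
  omega

theorem pi_G_congr (M : Machine) (c k : ℕ) (w : List Bool) {O O' : Set (List Bool)}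
    (h : ∀ z ∈ pi_asked M c k w O, (z ∈ O ↔ z ∈ O')) : pi_G M c k w O = pi_G M c k w O' := by
  classical
  unfold pi_G
  rw [run_congr_qs M _ _ _ (fun z hz => h z (by
    unfold pi_asked
    exact List.mem_toFinset.2 hz))]

theorem quasi_mono (c : ℕ) {m n : ℕ} (h : m ≤ n) : quasi c m ≤ quasi c n := by
  unfold quasi
  exact Nat.pow_le_pow_right (by norm_num)
    (Nat.add_le_add_right (Nat.pow_le_pow_left (Nat.size_le_size h) c) c)

theorem pi_asked_card (M : Machine) (c k : ℕ) (w : List Bool) (O : Set (List Bool)) :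
    (pi_asked M c k w O).card ≤ quasi c (enc k w.length w).length := by
  classical
  unfold pi_asked
  exact (List.toFinset_card_le _).trans (qs_length_le _ _ _ _ _)

theorem pi_asked_len (M : Machine) (c k : ℕ) (w : List Bool) (O : Set (List Bool)) :
    ∀ z ∈ pi_asked M c k w O, z.length ≤ (enc k w.length w).length +
      quasi c (enc k w.length w).length := by
  classical
  intro z hz
  unfold pi_asked at hz
  exact qs_len M O _ _ _ _ (init_len M _) z (List.mem_toFinset.1 hz)

/-! ### functions depending on finitely many blocks -/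

theorem pi_finite (N : ℕ) : {p : Idx | Rnd p.1 p.2.1 ∧ p.2.1.length < N ∧
    p.2.2 < bl p.1 p.2.1}.Finite := by
  classical
  have h1 : {x : List Bool | x.length < N}.Finite := by
    have : {x : List Bool | x.length < N} ⊆ ⋃ i ∈ Finset.range N, {x : List Bool | x.length = i} := by
      intro x hx
      simp only [Set.mem_iUnion, Finset.mem_range, Set.mem_ofPred_eq]
      exact ⟨x.length, hx, rfl⟩
    refine Set.Finite.subset ?_ this
    refine Set.Finite.biUnion (Finset.finite_toSet _) (fun i _ => ?_)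
    exact List.finite_length_eq Bool i
  have h2 : ({p : Idx | Rnd p.1 p.2.1 ∧ p.2.1.length < N ∧ p.2.2 < bl p.1 p.2.1}) ⊆
      (Set.Iio N) ×ˢ ({x : List Bool | x.length < N} ×ˢ (Set.Iio ((N + 1) ^ N + 1))) := by
    rintro ⟨e, x, i⟩ ⟨⟨he, he'⟩, hx, hi⟩
    simp only [Set.mem_prod, Set.mem_Iio, Set.mem_ofPred_eq] at *
    refine ⟨by omega, hx, ?_⟩
    have : bl e x ≤ (N + 1) ^ N := by
      unfold bl
      exact (Nat.pow_le_pow_left (by omega) e).trans (Nat.pow_le_pow_right (by omega) (by omega))
    omega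
  exact Set.Finite.subset ((Set.finite_Iio _).prod (h1.prod (Set.finite_Iio _))) h2

theorem pi_FD {γ : Type} {f : Om → γ} (N : ℕ)
    (h : ∀ ω ω', (∀ e x, Rnd e x → x.length < N → hs e x ω = hs e x ω') → f ω = f ω') :
    FD f := by
  refine ⟨_, pi_finite N, fun ω ω' hw => h ω ω' (fun e x hr hx => hs_congr (fun _ i hi => ?_))⟩
  exact hw (e, x, i) ⟨hr, hx, hi⟩

/-! ### the path -/

theorem pre_length (L : Set (List Bool)) (n : ℕ) : (pre L n).length = n := by
  classical
  simp [pre]

theorem pre_take (L : Set (List Bool)) {m n : ℕ} (h : m ≤ n) : (pre L n).take m = pre L m := by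
  classical
  unfold pre
  rw [← List.map_take, List.take_range, min_eq_left h]

open Classical in
theorem pre_succ (L : Set (List Bool)) (n : ℕ) :
    pre L (n + 1) = pre L n ++ [decide (str n ∈ L)] := by
  unfold pre
  rw [List.range_succ, List.map_append]
  simp

theorem pi_pre_congr (e n : ℕ) {ω ω' : Om} (h : ∀ i < n, hs e (str i) ω = hs e (str i) ω') :
    pre (Lang e ω) n = pre (Lang e ω') n := by
  classical
  unfold pre
  refine List.map_congr_left (fun i hi => ?_)
  have : (str i ∈ Lang e ω) ↔ (str i ∈ Lang e ω') := by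
    change (hs e (str i) ω).head? = some true ↔ (hs e (str i) ω').head? = some true
    rw [h i (List.mem_range.1 hi)]
  simp only [this]

/-! ### the conditions -/

/-- the values at step `m` are those of a supermartingale, approximately -/
def pi_chk (M : Machine) (c k : ℕ) (P : List Bool) (m : ℕ) (O : Set (List Bool)) : Prop :=
  pi_G M c k (P.take m ++ [false]) O + pi_G M c k (P.take m ++ [true]) O ≤
    2 * pi_G M c k (P.take m) O + 3 * (1 / 2) ^ m ∧
  ∀ b, 0 ≤ pi_G M c k (P.take m ++ [b]) O + (1 / 2) ^ (m + 1)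

/-- nothing has gone wrong and the set has not been covered before step `n` -/
def pi_alive (M : Machine) (c k n0 : ℕ) (P : List Bool) (n : ℕ) (O : Set (List Bool)) : Prop :=
  (pi_G M c k (P.take n0) O ≤ 2 * (1 / 2) ^ n0 ∧ 0 ≤ pi_G M c k (P.take n0) O + (1 / 2) ^ n0) ∧
  ∀ m, n0 ≤ m → m < n → pi_chk M c k P m O ∧ pi_G M c k (P.take m) O < 1 / 2

open Classical in
/-- the strings asked in all the computations up to step `n` -/
noncomputable def pi_all (M : Machine) (c k : ℕ) (P : List Bool) (n : ℕ) (O : Set (List Bool)) :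
    Finset (List Bool) :=
  (Finset.range (n + 1)).biUnion (fun m => pi_asked M c k (P.take m) O ∪
    (pi_asked M c k (P.take m ++ [false]) O ∪ pi_asked M c k (P.take m ++ [true]) O))

theorem pi_all_card (M : Machine) (c k : ℕ) (P : List Bool) (n : ℕ) (O : Set (List Bool)) :
    (pi_all M c k P n O).card ≤ 3 * (n + 1) * quasi c (k + 2 * n + 4) := by
  classical
  have hlen : ∀ m ≤ n, (P.take m).length ≤ n := fun m hm => by
    rw [List.length_take]
    omega
  have h : ∀ m ∈ Finset.range (n + 1), (pi_asked M c k (P.take m) O ∪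
      (pi_asked M c k (P.take m ++ [false]) O ∪ pi_asked M c k (P.take m ++ [true]) O)).card ≤
      3 * quasi c (k + 2 * n + 4) := by
    intro m hm
    have hm' := hlen m (by simp only [Finset.mem_range] at hm; omega)
    have e1 := (pi_asked_card M c k (P.take m) O).trans
      (quasi_mono c (n := k + 2 * n + 4) (by rw [pi_enc_length]; omega))
    have e2 : ∀ b, (pi_asked M c k (P.take m ++ [b]) O).card ≤ quasi c (k + 2 * n + 4) :=
      fun b => (pi_asked_card M c k (P.take m ++ [b]) O).trans
      (quasi_mono c (n := k + 2 * n + 4) (by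
        rw [pi_enc_length, List.length_append, List.length_singleton]; omega))
    have e3 := Finset.card_union_le (pi_asked M c k (P.take m) O)
      (pi_asked M c k (P.take m ++ [false]) O ∪ pi_asked M c k (P.take m ++ [true]) O)
    have e4 := Finset.card_union_le (pi_asked M c k (P.take m ++ [false]) O)
      (pi_asked M c k (P.take m ++ [true]) O)
    have e5 := e2 false
    have e6 := e2 true
    omega
  refine (Finset.card_biUnion_le).trans ((Finset.sum_le_card_nsmul _ _ _ h).trans ?_)
  rw [Finset.card_range, smul_eq_mul]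
  exact le_of_eq (by ring)

theorem pi_G_all (M : Machine) (c k : ℕ) (P : List Bool) (n : ℕ) {O O' : Set (List Bool)}
    (h : ∀ z ∈ pi_all M c k P n O, (z ∈ O ↔ z ∈ O')) (m : ℕ) (hm : m ≤ n) :
    pi_G M c k (P.take m) O = pi_G M c k (P.take m) O' ∧
    ∀ b, pi_G M c k (P.take m ++ [b]) O = pi_G M c k (P.take m ++ [b]) O' := by
  classical
  have hm' : m ∈ Finset.range (n + 1) := Finset.mem_range.2 (by omega)
  refine ⟨pi_G_congr _ _ _ _ (fun z hz => h z ?_), fun b => pi_G_congr _ _ _ _ (fun z hz => h z ?_)⟩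
  · unfold pi_all
    exact Finset.mem_biUnion.2 ⟨m, hm', Finset.mem_union_left _ hz⟩
  · unfold pi_all
    refine Finset.mem_biUnion.2 ⟨m, hm', Finset.mem_union_right _ ?_⟩
    cases b
    · exact Finset.mem_union_left _ hz
    · exact Finset.mem_union_right _ hz

theorem pi_chk_all (M : Machine) (c k : ℕ) (P : List Bool) (n : ℕ) {O O' : Set (List Bool)}
    (h : ∀ z ∈ pi_all M c k P n O, (z ∈ O ↔ z ∈ O')) (m : ℕ) (hm : m ≤ n) :
    pi_chk M c k P m O ↔ pi_chk M c k P m O' := by
  obtain ⟨h1, h2⟩ := pi_G_all M c k P n h m hm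
  unfold pi_chk
  simp only [h1, h2]

theorem pi_alive_all (M : Machine) (c k n0 : ℕ) (P : List Bool) (n : ℕ) (hn : n0 ≤ n)
    {O O' : Set (List Bool)} (h : ∀ z ∈ pi_all M c k P n O, (z ∈ O ↔ z ∈ O')) :
    pi_alive M c k n0 P n O ↔ pi_alive M c k n0 P n O' := by
  unfold pi_alive
  rw [(pi_G_all M c k P n h n0 hn).1]
  refine and_congr_right (fun _ => forall_congr' (fun m => ?_))
  refine forall_congr' (fun _ => forall_congr' (fun hm => ?_))
  rw [pi_chk_all M c k P n h m hm.le, (pi_G_all M c k P n h m hm.le).1]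

open Classical in
/-- the value after the next bit `b`, if everything is fine until then -/
noncomputable def pi_next (M : Machine) (c k n0 n : ℕ) (P : List Bool) (O : Set (List Bool))
    (b : Bool) : ℝ :=
  if pi_alive M c k n0 P n O ∧ pi_chk M c k P n O ∧ pi_G M c k (P.take n) O < 1 / 2 then
    pi_G M c k (P.take n ++ [b]) O + (1 / 2) ^ (n + 1) else 0

theorem pi_next_congr (M : Machine) (c k n0 n : ℕ) (hn : n0 ≤ n) (P : List Bool)
    {O O' : Set (List Bool)} (h : ∀ z ∈ pi_all M c k P n O, (z ∈ O ↔ z ∈ O')) (b : Bool) :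
    pi_next M c k n0 n P O b = pi_next M c k n0 n P O' b := by
  have e1 := (pi_G_all M c k P n h n le_rfl).2 b
  have e2 := (pi_G_all M c k P n h n le_rfl).1
  have e3 : (pi_alive M c k n0 P n O ∧ pi_chk M c k P n O ∧ pi_G M c k (P.take n) O < 1 / 2) ↔
      (pi_alive M c k n0 P n O' ∧ pi_chk M c k P n O' ∧ pi_G M c k (P.take n) O' < 1 / 2) := by
    rw [pi_alive_all M c k n0 P n hn h, pi_chk_all M c k P n h n le_rfl, e2]
  unfold pi_next
  by_cases hc : pi_alive M c k n0 P n O ∧ pi_chk M c k P n O ∧ pi_G M c k (P.take n) O < 1 / 2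
  · rw [if_pos hc, if_pos (e3.1 hc), e1]
  · rw [if_neg hc, if_neg (fun h' => hc (e3.2 h'))]

theorem pi_next_bound (M : Machine) (c k n0 n : ℕ) (P : List Bool) (O : Set (List Bool))
    (b : Bool) : 0 ≤ pi_next M c k n0 n P O b ∧ pi_next M c k n0 n P O b ≤ 5 := by
  unfold pi_next
  split_ifs with h
  · obtain ⟨-, ⟨h1, h2⟩, h3⟩ := h
    refine ⟨h2 b, ?_⟩
    have e1 : ((1 : ℝ) / 2) ^ n ≤ 1 := pow_le_one₀ (by norm_num) (by norm_num)
    have e2 : ((1 : ℝ) / 2) ^ (n + 1) ≤ 1 / 2 := by
      rw [pow_succ]
      linarith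
    have e3 := h2 false
    have e4 := h2 true
    cases b <;> linarith
  · exact ⟨le_rfl, by norm_num⟩

open Classical in
/-- the value at step `n` -/
noncomputable def pi_Z (M : Machine) (c k n0 n : ℕ) (P : List Bool) (O : Set (List Bool)) : ℝ :=
  if pi_alive M c k n0 P n O then pi_G M c k (P.take n) O + (1 / 2) ^ n else 0

/-- the set is covered at step `n` -/
def pi_cov (M : Machine) (c k n0 n : ℕ) (P : List Bool) (O : Set (List Bool)) : Prop :=
  pi_alive M c k n0 P n O ∧ 1 / 2 ≤ pi_G M c k (P.take n) O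

theorem pi_alive_succ (M : Machine) (c k n0 n : ℕ) (hn : n0 ≤ n) (P : List Bool)
    (O : Set (List Bool)) : pi_alive M c k n0 P (n + 1) O ↔
      (pi_alive M c k n0 P n O ∧ pi_chk M c k P n O ∧ pi_G M c k (P.take n) O < 1 / 2) := by
  unfold pi_alive
  constructor
  · rintro ⟨h1, h2⟩
    exact ⟨⟨h1, fun m hm hm' => h2 m hm (by omega)⟩, h2 n hn (by omega)⟩
  · rintro ⟨⟨h1, h2⟩, h3⟩
    refine ⟨h1, fun m hm hm' => ?_⟩
    rcases Nat.lt_or_ge m n with h | h
    · exact h2 m hm h
    · obtain rfl : m = n := by omega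
      exact h3

/-- conditions depend only on the beginning of the path -/
theorem pi_alive_take (M : Machine) (c k n0 n : ℕ) (hn : n0 ≤ n) {P P' : List Bool}
    (h : P.take n = P'.take n) (O : Set (List Bool)) :
    pi_alive M c k n0 P n O ↔ pi_alive M c k n0 P' n O := by
  have h1 : ∀ m ≤ n, P.take m = P'.take m := fun m hm => by
    rw [← min_eq_left hm, ← List.take_take, ← List.take_take, h]
  unfold pi_alive
  rw [h1 n0 hn]
  refine and_congr_right (fun _ => forall_congr' (fun m => ?_))
  refine forall_congr' (fun _ => forall_congr' (fun hm => ?_))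
  unfold pi_chk
  rw [h1 m hm.le]

theorem pi_Z_succ (M : Machine) (c k n0 n : ℕ) (hn : n0 ≤ n) (P : List Bool) (b : Bool)
    (hP : P.length = n) (O : Set (List Bool)) :
    pi_Z M c k n0 (n + 1) (P ++ [b]) O = pi_next M c k n0 n P O b := by
  have ht : (P ++ [b]).take n = P.take n := by
    rw [List.take_append_of_le_length (by omega)]
  have ht' : (P ++ [b]).take (n + 1) = P.take n ++ [b] := by
    rw [List.take_of_length_le (by simp [hP]), List.take_of_length_le (by omega)]
  have h1 : pi_alive M c k n0 (P ++ [b]) (n + 1) O ↔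
      (pi_alive M c k n0 P n O ∧ pi_chk M c k P n O ∧ pi_G M c k (P.take n) O < 1 / 2) := by
    rw [pi_alive_succ M c k n0 n hn, pi_alive_take M c k n0 n hn ht, ht]
    unfold pi_chk
    rw [ht]
  unfold pi_Z pi_next
  rw [ht']
  by_cases hc : pi_alive M c k n0 P n O ∧ pi_chk M c k P n O ∧ pi_G M c k (P.take n) O < 1 / 2
  · rw [if_pos hc, if_pos (h1.2 hc)]
  · rw [if_neg hc, if_neg (fun h' => hc (h1.1 h'))]

/-- the supermartingale property, with the correction for covering -/
theorem pi_drop (M : Machine) (c k n0 n : ℕ) (P : List Bool) (O : Set (List Bool))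
    [Decidable (pi_cov M c k n0 n P O)]
    (hnn : pi_alive M c k n0 P n O → 0 ≤ pi_G M c k (P.take n) O + (1 / 2) ^ n) :
    (pi_next M c k n0 n P O false + pi_next M c k n0 n P O true) / 2 +
      (1 / 2) * (if pi_cov M c k n0 n P O then 1 else 0) ≤
      pi_Z M c k n0 n P O + (1 / 2) ^ n := by
  have hp : (0 : ℝ) ≤ (1 / 2) ^ n := by positivity
  unfold pi_next pi_Z
  by_cases ha : pi_alive M c k n0 P n O
  · by_cases hg : pi_G M c k (P.take n) O < 1 / 2
    · have hc : ¬ pi_cov M c k n0 n P O := fun h => absurd h.2 (not_le.2 hg)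
      rw [if_neg hc, if_pos ha]
      by_cases hk : pi_chk M c k P n O
      · rw [if_pos ⟨ha, hk, hg⟩, if_pos ⟨ha, hk, hg⟩]
        have h1 := hk.1
        have e2 : ((1 : ℝ) / 2) ^ (n + 1) = (1 / 2) ^ n / 2 := by rw [pow_succ]; ring
        rw [e2]
        linarith
      · rw [if_neg (fun h => hk h.2.1), if_neg (fun h => hk h.2.1)]
        have := hnn ha
        linarith
    · have hc : pi_cov M c k n0 n P O := ⟨ha, not_lt.1 hg⟩
      rw [if_pos hc, if_pos ha, if_neg (fun h => hg h.2.2), if_neg (fun h => hg h.2.2)]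
      have := not_lt.1 hg
      linarith
  · have hc : ¬ pi_cov M c k n0 n P O := fun h => ha h.1
    rw [if_neg hc, if_neg (fun h => ha h.1), if_neg (fun h => ha h.1), if_neg ha]
    linarith

theorem pi_alive_nonneg (M : Machine) (c k n0 n : ℕ) (hn : n0 ≤ n) (L : Set (List Bool))
    (O : Set (List Bool)) (ha : pi_alive M c k n0 (pre L n) n O) :
    0 ≤ pi_G M c k ((pre L n).take n) O + (1 / 2) ^ n := by
  classical
  rcases Nat.eq_or_lt_of_le hn with h | h
  · subst h
    exact ha.1.2
  · obtain ⟨m, rfl⟩ : ∃ m, n = m + 1 := ⟨n - 1, by omega⟩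
    have h1 := (ha.2 m (by omega) (by omega)).1.2 (decide (str m ∈ L))
    have h2 : (pre L (m + 1)).take m ++ [decide (str m ∈ L)] = (pre L (m + 1)).take (m + 1) := by
      rw [pre_take L (by omega), pre_take L le_rfl, pre_succ]
    rw [h2] at h1
    exact h1

end Pool.Agent.H552R2.RM
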