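import Pool.Agent.H552R2.RM.T_PI

/-!
The languages `Lang e` do not have measure zero: one step.
-/

namespace Pool.Agent.H552R2.RM

open Function MeasureTheory Filter
open Pool.Agent.Helper556.OM

/-- the oracle without the codes of the block of `(e, x)` -/
def pi_er (full : Bool) (β : Set (List Bool)) (e : ℕ) (x : List Bool) (ω : Om) :
    Set (List Bool) := {z | z ∈ orc full β ω ∧ ¬ ∃ y, z = code e x y}

theorem pi_hs_pw {e e' : ℕ} {x x' : List Bool} (h : ¬ (e' = e ∧ x' = x)) (ω ω' : Om) :
    hs e' x' (pw (blk e x)ᶜ ω ω') = hs e' x' ω := by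
  classical
  refine hs_congr (fun _ i _ => ?_)
  unfold pw
  rw [if_pos]
  exact h

theorem pi_er_pw {full : Bool} {β : Set (List Bool)} {e : ℕ} {x : List Bool} {ω ω' : Om}
    {z : List Bool} (hz : z ≠ code e x (hs e x ω')) :
    z ∈ pi_er full β e x ω ↔ z ∈ orc full β (pw (blk e x)ᶜ ω ω') := by
  classical
  have hx : hs e x (pw (blk e x)ᶜ ω ω') = hs e x ω' := by
    refine hs_congr (fun _ i _ => ?_)
    unfold pw
    rw [if_neg]
    intro h
    exact h ⟨rfl, rfl⟩
  by_cases hc : ∃ y, z = code e x y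
  · have h1 : z ∉ pi_er full β e x ω := fun h => h.2 hc
    obtain ⟨y, rfl⟩ := hc
    have h2 : code e x y ∉ orc full β (pw (blk e x)ᶜ ω ω') := by
      rw [code_mem_orc, hx]
      rintro ⟨h3, -⟩
      exact hz (by rw [h3])
    simp only [h1, h2]
  · have h1 : z ∈ pi_er full β e x ω ↔ z ∈ orc full β ω := ⟨fun h => h.1, fun h => ⟨h, hc⟩⟩
    rw [h1]
    unfold orc
    simp only [Set.mem_ofPred_eq]
    refine or_congr_right (exists_congr fun e' => exists_congr fun x' => ?_)
    by_cases h : e' = e ∧ x' = x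
    · obtain ⟨rfl, rfl⟩ := h
      constructor
      · rintro ⟨h3, -⟩
        exact absurd ⟨_, h3⟩ hc
      · rintro ⟨h3, -⟩
        exact absurd ⟨_, h3⟩ hc
    · rw [pi_hs_pw h]

theorem pi_str_le (i : ℕ) : (str i).length ≤ i := by
  rw [str_length_log]
  have := Nat.log_lt_self 2 (x := i + 1) (by omega)
  omega

/-- the functions used depend on finitely many bits -/
theorem pi_FD_path {γ : Type} (M : Machine) (c k n e : ℕ) (full : Bool) (β : Set (List Bool))
    (f : List Bool → Set (List Bool) → γ)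
    (hf : ∀ P O O', (∀ z ∈ pi_all M c k P n O, (z ∈ O ↔ z ∈ O')) → f P O = f P O') :
    FD (fun ω => f (pre (Lang e ω) n) (orc full β ω)) := by
  set N := k + 2 * n + 4 + quasi c (k + 2 * n + 4) with hN
  refine pi_FD (N + n + 1) (fun ω ω' h => ?_)
  have hnr : ∀ e x, ¬ Rnd e x → hs e x ω = hs e x ω' := fun e x hr =>
    hs_congr (fun h' => absurd h' hr)
  have hP : pre (Lang e ω) n = pre (Lang e ω') n := by
    refine pi_pre_congr e n (fun i hi => ?_)
    by_cases hr : Rnd e (str i)
    · exact h _ _ hr (by have := pi_str_le i; omega)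
    · exact hnr _ _ hr
  rw [hP]
  refine hf _ _ _ (fun z hz => orc_congr (fun e' x' hr hx => h e' x' hr ?_))
  have hz' : z.length ≤ N := by
    classical
    unfold pi_all at hz
    rw [Finset.mem_biUnion] at hz
    obtain ⟨m, hm, hz⟩ := hz
    rw [Finset.mem_range] at hm
    have hl : ((pre (Lang e ω') n).take m).length ≤ n := by
      rw [List.length_take]
      omega
    rw [Finset.mem_union, Finset.mem_union] at hz
    rcases hz with hz | hz | hz
    · refine (pi_asked_len _ _ _ _ _ z hz).trans ?_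
      have e1 : (enc k ((pre (Lang e ω') n).take m).length ((pre (Lang e ω') n).take m)).length ≤
          k + 2 * n + 4 := by rw [pi_enc_length]; omega
      exact Nat.add_le_add e1 (quasi_mono c e1)
    all_goals
      refine (pi_asked_len _ _ _ _ _ z hz).trans ?_
      refine Nat.add_le_add ?_ (quasi_mono c ?_) <;>
      · rw [pi_enc_length, List.length_append, List.length_singleton]; omega
  omega

theorem pi_Z_congr (M : Machine) (c k n0 n : ℕ) (hn : n0 ≤ n) (P : List Bool)
    {O O' : Set (List Bool)} (h : ∀ z ∈ pi_all M c k P n O, (z ∈ O ↔ z ∈ O')) :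
    pi_Z M c k n0 n P O = pi_Z M c k n0 n P O' := by
  have e2 := (pi_G_all M c k P n h n le_rfl).1
  have e3 := pi_alive_all M c k n0 P n hn h
  unfold pi_Z
  by_cases hc : pi_alive M c k n0 P n O
  · rw [if_pos hc, if_pos (e3.1 hc), e2]
  · rw [if_neg hc, if_neg (fun h' => hc (e3.2 h'))]

theorem pi_cov_congr (M : Machine) (c k n0 n : ℕ) (hn : n0 ≤ n) (P : List Bool)
    {O O' : Set (List Bool)} (h : ∀ z ∈ pi_all M c k P n O, (z ∈ O ↔ z ∈ O')) :
    pi_cov M c k n0 n P O ↔ pi_cov M c k n0 n P O' := by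
  unfold pi_cov
  rw [(pi_G_all M c k P n h n le_rfl).1, pi_alive_all M c k n0 P n hn h]

theorem pi_step (full : Bool) (β : Set (List Bool)) (M : Machine) (c k n0 n e : ℕ)
    (hn : n0 ≤ n) (hr : Rnd e (str n)) :
    ∫ ω, pi_Z M c k n0 (n + 1) (pre (Lang e ω) (n + 1)) (orc full β ω) ∂mu +
      (1 / 2) * mu.real {ω | pi_cov M c k n0 n (pre (Lang e ω) n) (orc full β ω)} ≤
    ∫ ω, pi_Z M c k n0 n (pre (Lang e ω) n) (orc full β ω) ∂mu + (1 / 2) ^ n +
      2 * 5 * ((3 * (n + 1) * quasi c (k + 2 * n + 4) : ℕ) : ℝ) * (1 / 2) ^ bl e (str n) := by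
  classical
  have hres := resample hr (fun b ω => pi_next M c k n0 n (pre (Lang e ω) n) (orc full β ω) b)
    (fun b ω => pi_next M c k n0 n (pre (Lang e ω) n) (pi_er full β e (str n) ω) b)
    (fun ω => pi_all M c k (pre (Lang e ω) n) n (pi_er full β e (str n) ω)) 5
    (3 * (n + 1) * quasi c (k + 2 * n + 4))
    (fun b => pi_FD_path M c k n e full β (fun P O => pi_next M c k n0 n P O b)
      (fun P O O' h => pi_next_congr M c k n0 n hn P h b))
    (fun b ω => pi_next_bound _ _ _ _ _ _ _ _) (fun b ω => pi_next_bound _ _ _ _ _ _ _ _)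
    (fun ω => pi_all_card _ _ _ _ _ _) (fun ω ω' hω b => by
      have hP : pre (Lang e (pw (blk e (str n))ᶜ ω ω')) n = pre (Lang e ω) n := by
        refine pi_pre_congr e n (fun i hi => pi_hs_pw ?_ ω ω')
        rintro ⟨-, h⟩
        have := str_inj h
        omega
      rw [hP]
      refine (pi_next_congr M c k n0 n hn _ (fun z hz => pi_er_pw ?_) b).symm
      rintro rfl
      exact hω hz)
  have hl : ∀ ω, pi_Z M c k n0 (n + 1) (pre (Lang e ω) (n + 1)) (orc full β ω) =
      pi_next M c k n0 n (pre (Lang e ω) n) (orc full β ω)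
        (decide ((hs e (str n) ω).head? = some true)) := by
    intro ω
    rw [pre_succ, pi_Z_succ M c k n0 n hn _ _ (pre_length _ _)]
    congr 1
    exact decide_eq_decide.2 Iff.rfl
  simp only [hl]
  have hFDf : ∀ b, FD (fun ω => pi_next M c k n0 n (pre (Lang e ω) n) (orc full β ω) b) :=
    fun b => pi_FD_path M c k n e full β (fun P O => pi_next M c k n0 n P O b)
      (fun P O O' h => pi_next_congr M c k n0 n hn P h b)
  have hFDZ : FD (fun ω => pi_Z M c k n0 n (pre (Lang e ω) n) (orc full β ω)) :=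
    pi_FD_path M c k n e full β (fun P O => pi_Z M c k n0 n P O)
      (fun P O O' h => pi_Z_congr M c k n0 n hn P h)
  have hFDc : FD (fun ω => (if pi_cov M c k n0 n (pre (Lang e ω) n) (orc full β ω) then
      (1 : ℝ) else 0)) :=
    pi_FD_path M c k n e full β (fun P O => if pi_cov M c k n0 n P O then (1 : ℝ) else 0)
      (fun P O O' h => by simp only [pi_cov_congr M c k n0 n hn P h])
  have hFDs : FD (fun ω => ω ∈ {ω | pi_cov M c k n0 n (pre (Lang e ω) n) (orc full β ω)}) :=
    pi_FD_path M c k n e full β (fun P O => pi_cov M c k n0 n P O)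
      (fun P O O' h => propext (pi_cov_congr M c k n0 n hn P h))
  have hms := hFDs.measurableSet
  have hreal : mu.real {ω | pi_cov M c k n0 n (pre (Lang e ω) n) (orc full β ω)} =
      ∫ ω, (if pi_cov M c k n0 n (pre (Lang e ω) n) (orc full β ω) then (1 : ℝ) else 0) ∂mu := by
    rw [← integral_indicator_one hms]
    refine integral_congr_ae (Eventually.of_forall (fun ω => ?_))
    simp only [Set.indicator_apply, Set.mem_ofPred_eq, Pi.one_apply]
  rw [hreal]
  have hdrop : ∫ ω, (pi_next M c k n0 n (pre (Lang e ω) n) (orc full β ω) false +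
      pi_next M c k n0 n (pre (Lang e ω) n) (orc full β ω) true) / 2 ∂mu +
      (1 / 2) * ∫ ω, (if pi_cov M c k n0 n (pre (Lang e ω) n) (orc full β ω) then
        (1 : ℝ) else 0) ∂mu ≤
      ∫ ω, pi_Z M c k n0 n (pre (Lang e ω) n) (orc full β ω) ∂mu + (1 / 2) ^ n := by
    have i1 : Integrable (fun ω => (pi_next M c k n0 n (pre (Lang e ω) n) (orc full β ω) false +
      pi_next M c k n0 n (pre (Lang e ω) n) (orc full β ω) true) / 2) mu :=
      ((hFDf false).comp₂ (hFDf true) (fun a b => (a + b) / 2)).integrable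
    have i2 : Integrable (fun ω => (1 / 2) * (if pi_cov M c k n0 n (pre (Lang e ω) n)
        (orc full β ω) then (1 : ℝ) else 0)) mu := (hFDc.comp (fun a => 1 / 2 * a)).integrable
    rw [← integral_const_mul, ← integral_add i1 i2]
    have i3 : ∫ ω, (pi_Z M c k n0 n (pre (Lang e ω) n) (orc full β ω) + (1 / 2) ^ n) ∂mu =
        ∫ ω, pi_Z M c k n0 n (pre (Lang e ω) n) (orc full β ω) ∂mu + (1 / 2) ^ n := by
      rw [integral_add hFDZ.integrable (integrable_const _), integral_const]
      simp
    rw [← i3]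
    refine integral_mono (i1.add i2) (hFDZ.integrable.add (integrable_const _)) (fun ω => ?_)
    exact pi_drop M c k n0 n (pre (Lang e ω) n) (orc full β ω)
      (fun ha => pi_alive_nonneg M c k n0 n hn _ _ ha)
  linarith

end Pool.Agent.H552R2.RM
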