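import Pool.Agent.H552R2.RM.T_PI2

/-!
The languages `Lang e` do not have measure zero: summation.
-/

namespace Pool.Agent.H552R2.RM

open Function MeasureTheory Filter
open Pool.Agent.Helper556.OM

/-- the error of step `n` -/
noncomputable def pi_err (c n : ℕ) : ℝ :=
  (1 / 2) ^ n + 2 * 5 * ((3 * (n + 1) * quasi c (4 * n + 4) : ℕ) : ℝ) *
    (1 / 2) ^ bl (c + 2) (str n)

theorem pi_err_nonneg (c n : ℕ) : 0 ≤ pi_err c n := by
  unfold pi_err
  positivity

theorem pi_arith (c m : ℕ) (hm : 3 ^ c + c + 8 ≤ m + 1) :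
    5 + 3 * (m + 1) + ((m + 3) ^ c + c) ≤ (m + 1) ^ (c + 2) := by
  have h1 : (m + 3) ^ c ≤ 3 ^ c * (m + 1) ^ c := by
    rw [← mul_pow]
    exact Nat.pow_le_pow_left (by omega) c
  have h2 : (3 ^ c + c + 8) * (m + 1) ≤ (m + 1) ^ 2 := by
    rw [pow_two]
    exact Nat.mul_le_mul_right _ hm
  have h3 : 1 ≤ (m + 1) ^ c := Nat.one_le_pow _ _ (by omega)
  have h4 : 3 ^ c + c + 8 * (m + 1) ≤ (m + 1) ^ 2 := by
    refine le_trans ?_ h2
    have e1 : 3 ^ c * 1 ≤ 3 ^ c * (m + 1) := Nat.mul_le_mul_left _ (by omega)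
    have e2 : c * 1 ≤ c * (m + 1) := Nat.mul_le_mul_left _ (by omega)
    rw [add_mul, add_mul]
    omega
  have h5 : (3 ^ c + c + 8 * (m + 1)) * (m + 1) ^ c ≤ (m + 1) ^ (c + 2) := by
    rw [pow_add, mul_comm ((m + 1) ^ c)]
    exact Nat.mul_le_mul_right _ h4
  refine le_trans ?_ h5
  rw [add_mul, add_mul]
  have e3 : c * 1 ≤ c * (m + 1) ^ c := Nat.mul_le_mul_left _ h3
  have e4 : 8 * (m + 1) * 1 ≤ 8 * (m + 1) * (m + 1) ^ c := Nat.mul_le_mul_left _ h3
  omega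

theorem pi_err_le (c n : ℕ) (hn : 2 ^ (3 ^ c + c + 8) ≤ n + 1) :
    pi_err c n ≤ (1 / 2) ^ n + 1 / ((n : ℝ) + 1) ^ 2 := by
  unfold pi_err
  refine add_le_add le_rfl ?_
  set m := (str n).length with hm
  have hlog : m = Nat.log 2 (n + 1) := by rw [hm, str_length_log]
  have h1 : 3 ^ c + c + 8 ≤ m := by
    rw [hlog]
    exact Nat.le_log_of_pow_le (by norm_num) hn
  have h2 : n + 1 < 2 ^ (m + 1) := by
    rw [hlog]
    exact Nat.lt_pow_succ_log_self (by norm_num) _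
  have h3 : Nat.size (4 * n + 4) ≤ m + 3 := by
    rw [Nat.size_le]
    have : 2 ^ (m + 3) = 4 * 2 ^ (m + 1) := by ring
    omega
  have h4 : quasi c (4 * n + 4) ≤ 2 ^ ((m + 3) ^ c + c) := by
    unfold quasi
    exact Nat.pow_le_pow_right (by norm_num) (Nat.add_le_add_right (Nat.pow_le_pow_left h3 c) c)
  have h5 : 10 * (3 * (n + 1) * quasi c (4 * n + 4)) * (n + 1) ^ 2 ≤ 2 ^ bl (c + 2) (str n) := by
    have e1 : 10 * (3 * (n + 1) * quasi c (4 * n + 4)) * (n + 1) ^ 2 =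
        30 * (n + 1) ^ 3 * quasi c (4 * n + 4) := by ring
    rw [e1]
    have e2 : 30 * (n + 1) ^ 3 ≤ 2 ^ 5 * (2 ^ (m + 1)) ^ 3 :=
      Nat.mul_le_mul (by norm_num) (Nat.pow_le_pow_left h2.le 3)
    have e3 : (2 : ℕ) ^ 5 * (2 ^ (m + 1)) ^ 3 = 2 ^ (5 + 3 * (m + 1)) := by
      rw [← pow_mul, ← pow_add]
      congr 1
      ring
    calc 30 * (n + 1) ^ 3 * quasi c (4 * n + 4)
        ≤ 2 ^ (5 + 3 * (m + 1)) * 2 ^ ((m + 3) ^ c + c) :=
          Nat.mul_le_mul (e3 ▸ e2) h4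
      _ = 2 ^ (5 + 3 * (m + 1) + ((m + 3) ^ c + c)) := by rw [← pow_add]
      _ ≤ 2 ^ ((m + 1) ^ (c + 2)) :=
          Nat.pow_le_pow_right (by norm_num) (pi_arith c m (by omega))
  have h6 : (10 : ℝ) * ((3 * (n + 1) * quasi c (4 * n + 4) : ℕ) : ℝ) * ((n : ℝ) + 1) ^ 2 ≤
      2 ^ bl (c + 2) (str n) := by exact_mod_cast h5
  have hp : (0 : ℝ) < 2 ^ bl (c + 2) (str n) := by positivity
  have hq : (0 : ℝ) < ((n : ℝ) + 1) ^ 2 := by positivity
  rw [le_div_iff₀ hq, one_div, inv_pow, show (2 : ℝ) * 5 = 10 by norm_num]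
  calc (10 : ℝ) * ((3 * (n + 1) * quasi c (4 * n + 4) : ℕ) : ℝ) * (2 ^ bl (c + 2) (str n))⁻¹ *
        ((n : ℝ) + 1) ^ 2
      = (10 * ((3 * (n + 1) * quasi c (4 * n + 4) : ℕ) : ℝ) * ((n : ℝ) + 1) ^ 2) *
        (2 ^ bl (c + 2) (str n))⁻¹ := by ring
    _ ≤ 2 ^ bl (c + 2) (str n) * (2 ^ bl (c + 2) (str n))⁻¹ :=
        mul_le_mul_of_nonneg_right h6 (by positivity)
    _ = 1 := mul_inv_cancel₀ hp.ne'

theorem pi_err_summable (c : ℕ) : Summable (pi_err c) := by
  rw [← summable_nat_add_iff (2 ^ (3 ^ c + c + 8))]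
  refine Summable.of_nonneg_of_le (fun n => pi_err_nonneg _ _)
    (fun n => pi_err_le c _ (by omega)) ?_
  have h1 : Summable (fun n : ℕ => ((1 : ℝ) / 2) ^ n) := summable_geometric_two
  have h2 : Summable (fun n : ℕ => 1 / ((n : ℝ) + 1) ^ 2) := by
    have := (summable_nat_add_iff (f := fun n : ℕ => 1 / (n : ℝ) ^ 2) 1).2
      (Real.summable_one_div_nat_pow.2 (by norm_num))
    simpa using this
  exact (summable_nat_add_iff (f := fun n : ℕ => ((1 : ℝ) / 2) ^ n + 1 / ((n : ℝ) + 1) ^ 2)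
    (2 ^ (3 ^ c + c + 8))).2 (h1.add h2)

variable (full : Bool) (β : Set (List Bool)) (M : Machine) (c : ℕ)

/-- the covering event at step `n`, for the starting point `n0` -/
def pi_ev (n0 n : ℕ) : Set Om :=
  {ω | pi_cov M c (2 * n0) n0 n (pre (Lang (c + 2) ω) n) (orc full β ω)}

theorem pi_Rnd (n : ℕ) (hn : 2 ^ (c + 2) ≤ n + 1) : Rnd (c + 2) (str n) := by
  refine ⟨by omega, ?_⟩
  rw [str_length_log]
  exact Nat.le_log_of_pow_le (by norm_num) hn

theorem pi_sum (n0 : ℕ) (h0 : 2 ^ (c + 2) ≤ n0 + 1) : ∀ N ≥ n0,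
    ∫ ω, pi_Z M c (2 * n0) n0 N (pre (Lang (c + 2) ω) N) (orc full β ω) ∂mu +
      (1 / 2) * ∑ n ∈ Finset.Ico n0 N, mu.real (pi_ev full β M c n0 n) ≤
    ∫ ω, pi_Z M c (2 * n0) n0 n0 (pre (Lang (c + 2) ω) n0) (orc full β ω) ∂mu +
      ∑ n ∈ Finset.Ico n0 N, pi_err c n := by
  intro N hN
  induction N, hN using Nat.le_induction with
  | base => simp
  | succ N hN ih =>
      have h := pi_step full β M c (2 * n0) n0 N (c + 2) hN (pi_Rnd c N (by omega))
      rw [Finset.sum_Ico_succ_top hN, Finset.sum_Ico_succ_top hN]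
      have he : (1 / 2) ^ N + 2 * 5 * ((3 * (N + 1) * quasi c (2 * n0 + 2 * N + 4) : ℕ) : ℝ) *
          (1 / 2) ^ bl (c + 2) (str N) ≤ pi_err c N := by
        unfold pi_err
        have h1 : 3 * (N + 1) * quasi c (2 * n0 + 2 * N + 4) ≤
            3 * (N + 1) * quasi c (4 * N + 4) :=
          Nat.mul_le_mul_left _ (quasi_mono c (by omega))
        have h2 : ((3 * (N + 1) * quasi c (2 * n0 + 2 * N + 4) : ℕ) : ℝ) ≤
            ((3 * (N + 1) * quasi c (4 * N + 4) : ℕ) : ℝ) := by exact_mod_cast h1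
        have h3 : (0 : ℝ) ≤ (1 / 2) ^ bl (c + 2) (str N) := by positivity
        gcongr
      have h' : mu.real {ω | pi_cov M c (2 * n0) n0 N (pre (Lang (c + 2) ω) N) (orc full β ω)} =
        mu.real (pi_ev full β M c n0 N) := rfl
      rw [h'] at h
      linarith

theorem pi_Z_nonneg (k n0 n : ℕ) (hn : n0 ≤ n) (L : Set (List Bool)) (O : Set (List Bool)) :
    0 ≤ pi_Z M c k n0 n (pre L n) O := by
  unfold pi_Z
  split_ifs with h
  · exact pi_alive_nonneg M c k n0 n hn L O h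
  · exact le_rfl

theorem pi_Z_start (k n0 : ℕ) (P : List Bool) (O : Set (List Bool)) :
    pi_Z M c k n0 n0 P O ≤ 3 * (1 / 2) ^ n0 := by
  unfold pi_Z
  split_ifs with h
  · have := h.1.1
    linarith
  · positivity

theorem pi_total (n0 : ℕ) (h0 : 2 ^ (c + 2) ≤ n0 + 1) :
    mu (⋃ n, pi_ev full β M c n0 (n0 + n)) ≤
      ENNReal.ofReal (2 * (3 * (1 / 2) ^ n0 + ∑' n, pi_err c (n + n0))) := by
  have hsum : ∀ N, ∑ n ∈ Finset.range N, mu.real (pi_ev full β M c n0 (n0 + n)) ≤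
      2 * (3 * (1 / 2) ^ n0 + ∑' n, pi_err c (n + n0)) := by
    intro N
    have h := pi_sum full β M c n0 h0 (n0 + N) (by omega)
    have h1 : 0 ≤ ∫ ω, pi_Z M c (2 * n0) n0 (n0 + N) (pre (Lang (c + 2) ω) (n0 + N))
        (orc full β ω) ∂mu := integral_nonneg (fun ω => pi_Z_nonneg M c _ _ _ (by omega) _ _)
    have h2 : ∫ ω, pi_Z M c (2 * n0) n0 n0 (pre (Lang (c + 2) ω) n0) (orc full β ω) ∂mu ≤
        3 * (1 / 2) ^ n0 := by
      have hFD : FD (fun ω => pi_Z M c (2 * n0) n0 n0 (pre (Lang (c + 2) ω) n0)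
          (orc full β ω)) :=
        pi_FD_path M c (2 * n0) n0 (c + 2) full β (fun P O => pi_Z M c (2 * n0) n0 n0 P O)
          (fun P O O' h => pi_Z_congr M c (2 * n0) n0 n0 le_rfl P h)
      calc ∫ ω, pi_Z M c (2 * n0) n0 n0 (pre (Lang (c + 2) ω) n0) (orc full β ω) ∂mu
          ≤ ∫ _, 3 * (1 / 2) ^ n0 ∂mu :=
            integral_mono hFD.integrable (integrable_const _) (fun ω => pi_Z_start M c _ _ _ _)
        _ = 3 * (1 / 2) ^ n0 := by simp
    rw [Finset.sum_Ico_eq_sum_range, Finset.sum_Ico_eq_sum_range, Nat.add_sub_cancel_left] at h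
    have h3 : ∑ n ∈ Finset.range N, pi_err c (n0 + n) ≤ ∑' n, pi_err c (n + n0) := by
      have h4 : ∑ n ∈ Finset.range N, pi_err c (n0 + n) =
          ∑ n ∈ Finset.range N, pi_err c (n + n0) :=
        Finset.sum_congr rfl (fun n _ => by rw [add_comm])
      rw [h4]
      exact Summable.sum_le_tsum _ (fun n _ => pi_err_nonneg _ _)
        ((summable_nat_add_iff n0).2 (pi_err_summable c))
    linarith
  refine (measure_iUnion_le _).trans ?_
  have hconv : ∀ n, mu (pi_ev full β M c n0 (n0 + n)) =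
      ENNReal.ofReal (mu.real (pi_ev full β M c n0 (n0 + n))) := fun n => by
    rw [ofReal_measureReal]
  simp only [hconv]
  rw [ENNReal.tsum_eq_iSup_nat]
  refine iSup_le (fun N => ?_)
  rw [← ENNReal.ofReal_sum_of_nonneg (fun n _ => measureReal_nonneg)]
  exact ENNReal.ofReal_le_ofReal (hsum N)

/-- the bad event: the machine computes a null cover -/
def pi_bad : Set Om :=
  {ω | ∃ (d : ℕ → List Bool → ℝ),
    (∀ k w, |pi_G M c k w (orc full β ω) - d k w| ≤ (1 / 2) ^ w.length) ∧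
    (∀ k w, 0 ≤ d k w) ∧
    (∀ k w, d k (w ++ [false]) + d k (w ++ [true]) ≤ 2 * d k w) ∧
    (∀ k, d k [] ≤ (1 / 2) ^ k) ∧ ∀ k, ∃ n, 1 ≤ d k (pre (Lang (c + 2) ω) n)}

theorem pi_bad_sub (n0 : ℕ) (h0 : 1 ≤ n0) :
    pi_bad full β M c ⊆ ⋃ n, pi_ev full β M c n0 (n0 + n) := by
  classical
  rintro ω ⟨d, h1, h2, h3, h4, h5⟩
  set L := Lang (c + 2) ω with hL
  set k := 2 * n0 with hk
  set O := orc full β ω with hO
  -- growth of d
  have hstep : ∀ (w : List Bool) (b : Bool), d k (w ++ [b]) ≤ 2 * d k w := by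
    intro w b
    have e1 := h2 k (w ++ [false])
    have e2 := h2 k (w ++ [true])
    have e3 := h3 k w
    cases b <;> linarith
  have hgrow : ∀ n, d k (pre L n) ≤ 2 ^ n * (1 / 2) ^ k := by
    intro n
    induction n with
    | zero =>
        have : pre L 0 = [] := rfl
        rw [this, pow_zero, one_mul]
        exact h4 k
    | succ n ih =>
        rw [pre_succ, pow_succ]
        have := hstep (pre L n) (decide (str n ∈ L))
        linarith
  obtain ⟨n1, hn1⟩ := h5 k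
  have hn1k : k ≤ n1 := by
    by_contra hlt
    push Not at hlt
    have e1 := hn1.trans (hgrow n1)
    have e2 : (2 : ℝ) ^ n1 * (1 / 2) ^ k < 1 := by
      rw [one_div, inv_pow, ← div_eq_mul_inv, div_lt_one (by positivity)]
      exact pow_lt_pow_right₀ (by norm_num) hlt
    linarith
  -- the approximations
  have hG : ∀ n, |pi_G M c k (pre L n) O - d k (pre L n)| ≤ (1 / 2) ^ n := by
    intro n
    have := h1 k (pre L n)
    rwa [pre_length] at this
  have hGb : ∀ n b, |pi_G M c k (pre L n ++ [b]) O - d k (pre L n ++ [b])| ≤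
      (1 / 2) ^ (n + 1) := by
    intro n b
    have := h1 k (pre L n ++ [b])
    rwa [List.length_append, pre_length, List.length_singleton] at this
  have hex : ∃ n, n0 ≤ n ∧ 1 / 2 ≤ pi_G M c k (pre L n) O := by
    refine ⟨n1, by omega, ?_⟩
    have e1 := abs_le.1 (hG n1)
    have e2 : ((1 : ℝ) / 2) ^ n1 ≤ 1 / 2 := by
      calc ((1 : ℝ) / 2) ^ n1 ≤ (1 / 2) ^ 1 :=
        pow_le_pow_of_le_one (by norm_num) (by norm_num) (by omega)
        _ = 1 / 2 := by norm_num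
    linarith [e1.1]
  set n := Nat.find hex with hn
  obtain ⟨hn0, hn2⟩ := Nat.find_spec hex
  have hmin : ∀ m, n0 ≤ m → m < n → pi_G M c k (pre L m) O < 1 / 2 := by
    intro m hm hmn
    by_contra hge
    exact Nat.find_min hex hmn ⟨hm, not_lt.1 hge⟩
  rw [Set.mem_iUnion]
  refine ⟨n - n0, ?_⟩
  have hnn : n0 + (n - n0) = n := by omega
  rw [hnn]
  change pi_cov M c k n0 n (pre L n) O
  refine ⟨⟨⟨?_, ?_⟩, fun m hm hmn => ⟨⟨?_, fun b => ?_⟩, ?_⟩⟩, ?_⟩
  · rw [pre_take L hn0]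
    have e1 := abs_le.1 (hG n0)
    have e2 := hgrow n0
    have e3 : (2 : ℝ) ^ n0 * (1 / 2) ^ k = (1 / 2) ^ n0 := by
      rw [hk, two_mul, pow_add, ← mul_assoc, ← mul_pow]
      norm_num
    linarith [e1.2]
  · rw [pre_take L hn0]
    have e1 := abs_le.1 (hG n0)
    have e2 := h2 k (pre L n0)
    linarith [e1.1]
  · rw [pre_take L hmn.le]
    have e1 := abs_le.1 (hG m)
    have e2 := abs_le.1 (hGb m false)
    have e3 := abs_le.1 (hGb m true)
    have e4 := h3 k (pre L m)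
    have e5 : ((1 : ℝ) / 2) ^ (m + 1) = (1 / 2) ^ m / 2 := by rw [pow_succ]; ring
    rw [e5] at e2 e3
    linarith [e1.1, e2.2, e3.2]
  · rw [pre_take L hmn.le]
    have e2 := abs_le.1 (hGb m b)
    have e4 := h2 k (pre L m ++ [b])
    linarith [e2.1]
  · rw [pre_take L hmn.le]
    exact hmin m hm hmn
  · rw [pre_take L le_rfl]
    exact hn2

theorem pi_bad_null : mu (pi_bad full β M c) = 0 := by
  have hlim : Tendsto (fun n0 : ℕ => ENNReal.ofReal
      (2 * (3 * (1 / 2) ^ n0 + ∑' n, pi_err c (n + n0)))) atTop (nhds 0) := by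
    have h1 : Tendsto (fun n0 : ℕ => ((1 : ℝ) / 2) ^ n0) atTop (nhds 0) :=
      tendsto_pow_atTop_nhds_zero_of_lt_one (by norm_num) (by norm_num)
    have h2 : Tendsto (fun n0 : ℕ => ∑' n, pi_err c (n + n0)) atTop (nhds 0) :=
      tendsto_sum_nat_add (pi_err c)
    have h3 : Tendsto (fun n0 : ℕ => 2 * (3 * ((1 : ℝ) / 2) ^ n0 + ∑' n, pi_err c (n + n0)))
        atTop (nhds (2 * (3 * 0 + 0))) := ((h1.const_mul 3).add h2).const_mul 2
    have h4 : (2 : ℝ) * (3 * 0 + 0) = 0 := by norm_num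
    rw [h4] at h3
    have h5 := ENNReal.tendsto_ofReal h3
    rwa [ENNReal.ofReal_zero] at h5
  refine le_antisymm (ge_of_tendsto hlim ?_) zero_le
  filter_upwards [eventually_ge_atTop (2 ^ (c + 2))] with n0 hn0
  have h1 : 1 ≤ 2 ^ (c + 2) := Nat.one_le_two_pow
  exact (measure_mono (pi_bad_sub full β M c n0 (by omega))).trans
    (pi_total full β M c n0 (by omega))

theorem not_null' (full : Bool) (β : Set (List Bool)) :
    ∀ᵐ ω ∂mu, ¬ Null quasi (orc full β ω) {L | ∃ e, 2 ≤ e ∧ L = Lang e ω} := by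
  have h : ∀ᵐ ω ∂mu, ∀ p : FM × ℕ, ω ∉ pi_bad full β p.1.toM p.2 := by
    rw [ae_all_iff]
    intro p
    exact measure_eq_zero_iff_ae_notMem.1 (pi_bad_null full β p.1.toM p.2)
  filter_upwards [h] with ω hω
  rintro ⟨d, f, c, ⟨M, -, hM⟩, h1, h2, h3, h4, h5⟩
  have := M.fin
  obtain ⟨n, ⟨e⟩⟩ := Finite.exists_equiv_fin M.Q
  refine hω (relabel M e, c) ⟨d, fun k w => ?_, h2, h3, h4, fun k => h5 k _ ⟨c + 2, by omega, rfl⟩⟩
  have hG : pi_G (relabel M e).toM c k w (orc full β ω) = f k w.length w := by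
    rw [← (hM k w.length w (fun _ => false)).2]
    unfold pi_G
    have hr := relabel_run M e (orc full β ω) (quasi c (enc k w.length w).length)
      (fun _ => false) (M.init (enc k w.length w))
    have hi : (relabel M e).toM.init (enc k w.length w) =
      emb M e (M.init (enc k w.length w)) := rfl
    rw [hi, hr]
    rfl
  change |pi_G (relabel M e).toM c k w (orc full β ω) - d k w| ≤ _
  rw [hG]
  exact h1 k w.length w

end Pool.Agent.H552R2.RM
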