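import Pool.Agent.H552R2.RM.Stubs

/-! Resampling one block (task RS). -/

namespace Pool.Agent.H552R2.RM

open Function MeasureTheory
open Pool.Agent.Helper556.OM

theorem rs_FD_hs (e : ℕ) (x : List Bool) : FD (fun ω => hs e x ω) := by
  refine ⟨(fun i => ((e, x, i) : Idx)) '' {i | i < bl e x}, ?_, ?_⟩
  · exact (Set.finite_lt_nat _).image _
  · intro ω ω' h
    refine hs_congr fun _ i hi => h _ ⟨i, hi, rfl⟩

theorem rs_hs_pw {e : ℕ} {x : List Bool} (ω ω' : Om) :
    hs e x (pw (blk e x)ᶜ ω ω') = hs e x ω' := by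
  refine hs_congr fun _ i _ => ?_
  simp [pw, blk]

theorem rs_bad {e : ℕ} {x : List Bool} (hr : Rnd e x) (Z : Finset (List Bool)) (Q : ℕ)
    (hZ : Z.card ≤ Q) :
    mu.real {ω' | code e x (hs e x ω') ∈ Z} ≤ Q * (1 / 2) ^ bl e x := by
  have h1 : {ω' | code e x (hs e x ω') ∈ Z} = ⋃ z ∈ Z, {ω' : Om | code e x (hs e x ω') = z} := by
    ext ω'
    simp
  rw [h1]
  refine (measureReal_biUnion_finset_le _ _).trans ?_
  calc ∑ z ∈ Z, mu.real {ω' : Om | code e x (hs e x ω') = z} ≤ ∑ _z ∈ Z, (1 / 2 : ℝ) ^ bl e x := by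
        refine Finset.sum_le_sum fun z _ => ?_
        by_cases hz : ∃ y, code e x y = z
        · obtain ⟨y, rfl⟩ := hz
          have h2 : {ω' : Om | code e x (hs e x ω') = code e x y} = {ω' | hs e x ω' = y} := by
            ext ω'
            simp only [Set.mem_ofPred_eq]
            constructor
            · intro h
              exact (code_inj h).2.2
            · rintro rfl
              rfl
          rw [h2]
          exact hs_prob hr y
        · have h2 : {ω' : Om | code e x (hs e x ω') = z} = ∅ := by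
            ext ω'
            simp only [Set.mem_ofPred_eq, Set.mem_empty_iff_false, iff_false]
            intro h
            exact hz ⟨_, h⟩
          rw [h2]
          simp
    _ = Z.card * (1 / 2 : ℝ) ^ bl e x := by simp
    _ ≤ Q * (1 / 2) ^ bl e x := by
        have : (Z.card : ℝ) ≤ Q := by exact_mod_cast hZ
        gcongr

theorem resample' {e : ℕ} {x : List Bool} (hr : Rnd e x) (g g0 : Bool → Om → ℝ)
    (Z : Om → Finset (List Bool)) (C : ℝ) (Q : ℕ) (hFD : ∀ b, FD (g b))
    (hC : ∀ b ω, 0 ≤ g b ω ∧ g b ω ≤ C) (hC0 : ∀ b ω, 0 ≤ g0 b ω ∧ g0 b ω ≤ C)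
    (hZ : ∀ ω, (Z ω).card ≤ Q)
    (hag : ∀ ω ω', code e x (hs e x ω') ∉ Z ω → ∀ b, g b (pw (blk e x)ᶜ ω ω') = g0 b ω) :
    ∫ ω, g (decide ((hs e x ω).head? = some true)) ω ∂mu ≤
      ∫ ω, (g false ω + g true ω) / 2 ∂mu + 2 * C * Q * (1 / 2) ^ bl e x := by
  classical
  have hprob : IsProbabilityMeasure mu := by
    have : IsProbabilityMeasure coin := by
      constructor
      simp [coin]
      exact ENNReal.inv_two_add_inv_two
    unfold mu
    infer_instance
  have hC' : 0 ≤ C := le_trans (hC true (fun _ => true)).1 (hC true (fun _ => true)).2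
  have hH : FD (fun ω => decide ((hs e x ω).head? = some true)) :=
    FD.comp (rs_FD_hs e x) (fun y => decide (y.head? = some true))
  have hf : FD (fun ω => g (decide ((hs e x ω).head? = some true)) ω) := by
    have h1 : FD (fun ω => (g false ω, g true ω)) := FD.comp₂ (hFD false) (hFD true) Prod.mk
    have h2 := FD.comp₂ hH h1 (fun b p => if b then p.2 else p.1)
    convert h2 using 2 with ω
    cases decide ((hs e x ω).head? = some true) <;> simp
  rw [integral_pw (blk e x)ᶜ hf]
  have hbadm : ∀ ω, MeasurableSet {ω' : Om | code e x (hs e x ω') ∈ Z ω} := fun ω =>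
    FD.measurableSet (FD.comp (rs_FD_hs e x) (fun y => code e x y ∈ Z ω))
  have hind : ∀ ω, Integrable ({ω' : Om | code e x (hs e x ω') ∈ Z ω}.indicator
      (fun _ => C)) mu := fun ω => (integrable_const C).indicator (hbadm ω)
  have hindv : ∀ ω, ∫ ω', {ω' : Om | code e x (hs e x ω') ∈ Z ω}.indicator (fun _ => C) ω' ∂mu =
      C * mu.real {ω' : Om | code e x (hs e x ω') ∈ Z ω} := by
    intro ω
    rw [integral_indicator (hbadm ω), setIntegral_const, smul_eq_mul, mul_comm]
  have hb : ∀ ω, C * mu.real {ω' : Om | code e x (hs e x ω') ∈ Z ω} ≤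
      C * (Q * (1 / 2) ^ bl e x) := fun ω =>
    mul_le_mul_of_nonneg_left (rs_bad hr (Z ω) Q (hZ ω)) hC'
  have hin : ∀ ω, ∫ ω', g (decide ((hs e x (pw (blk e x)ᶜ ω ω')).head? = some true))
      (pw (blk e x)ᶜ ω ω') ∂mu ≤
      (∫ ω', g false (pw (blk e x)ᶜ ω ω') ∂mu + ∫ ω', g true (pw (blk e x)ᶜ ω ω') ∂mu) / 2 +
        2 * C * Q * (1 / 2) ^ bl e x := by
    intro ω
    have h1 : ∫ ω', g (decide ((hs e x (pw (blk e x)ᶜ ω ω')).head? = some true))
        (pw (blk e x)ᶜ ω ω') ∂mu ≤
        ∫ ω', (g0 (decide ((hs e x ω').head? = some true)) ω +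
          {ω' : Om | code e x (hs e x ω') ∈ Z ω}.indicator (fun _ => C) ω') ∂mu := by
      apply integral_mono
      · exact FD.integrable (FD.pw_right hf _ ω)
      · exact (FD.integrable (FD.comp hH (fun b => g0 b ω))).add (hind ω)
      · intro ω'
        simp only [rs_hs_pw]
        by_cases hbad : code e x (hs e x ω') ∈ Z ω
        · rw [Set.indicator_of_mem (show ω' ∈ {ω' : Om | code e x (hs e x ω') ∈ Z ω} from hbad)]
          have := (hC (decide ((hs e x ω').head? = some true)) (pw (blk e x)ᶜ ω ω')).2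
          have := (hC0 (decide ((hs e x ω').head? = some true)) ω).1
          linarith
        · rw [Set.indicator_of_notMem (show ω' ∉ {ω' : Om | code e x (hs e x ω') ∈ Z ω} from hbad),
            hag ω ω' hbad]
          simp
    rw [integral_add (FD.integrable (FD.comp hH (fun b => g0 b ω))) (hind ω), hindv,
      head_integral hr (fun b => g0 b ω)] at h1
    have h2 : ∀ b, g0 b ω ≤ ∫ ω', g b (pw (blk e x)ᶜ ω ω') ∂mu + C * (Q * (1 / 2) ^ bl e x) := by
      intro b
      have h3 : ∫ _ω' : Om, g0 b ω ∂mu ≤ ∫ ω', (g b (pw (blk e x)ᶜ ω ω') +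
          {ω' : Om | code e x (hs e x ω') ∈ Z ω}.indicator (fun _ => C) ω') ∂mu := by
        apply integral_mono
        · exact integrable_const _
        · exact (FD.integrable (FD.pw_right (hFD b) _ ω)).add (hind ω)
        · intro ω'
          simp only
          by_cases hbad : code e x (hs e x ω') ∈ Z ω
          · rw [Set.indicator_of_mem (show ω' ∈ {ω' : Om | code e x (hs e x ω') ∈ Z ω} from hbad)]
            have := (hC b (pw (blk e x)ᶜ ω ω')).1
            have := (hC0 b ω).2
            linarith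
          · rw [Set.indicator_of_notMem (show ω' ∉ {ω' : Om | code e x (hs e x ω') ∈ Z ω} from hbad),
              hag ω ω' hbad]
            simp
      rw [integral_add (FD.integrable (FD.pw_right (hFD b) _ ω)) (hind ω), hindv,
        integral_const] at h3
      simp only [probReal_univ, one_smul] at h3
      linarith [hb ω]
    linarith [h2 false, h2 true, hb ω]
  have h4 : ∫ ω, ∫ ω', g (decide ((hs e x (pw (blk e x)ᶜ ω ω')).head? = some true))
      (pw (blk e x)ᶜ ω ω') ∂mu ∂mu ≤
      ∫ ω, ((∫ ω', g false (pw (blk e x)ᶜ ω ω') ∂mu + ∫ ω', g true (pw (blk e x)ᶜ ω ω') ∂mu) / 2 +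
        2 * C * Q * (1 / 2) ^ bl e x) ∂mu := by
    apply integral_mono
    · exact FD.integrable (FD.inner hf _)
    · exact (((FD.integrable (FD.inner (hFD false) _)).add
        (FD.integrable (FD.inner (hFD true) _))).div_const 2).add (integrable_const _)
    · exact hin
  refine h4.trans (le_of_eq ?_)
  have i1 := FD.integrable (FD.inner (hFD false) (blk e x)ᶜ)
  have i2 := FD.integrable (FD.inner (hFD true) (blk e x)ᶜ)
  have i3 : Integrable (fun ω => (∫ ω', g false (pw (blk e x)ᶜ ω ω') ∂mu +
      ∫ ω', g true (pw (blk e x)ᶜ ω ω') ∂mu) / 2) mu := (i1.add i2).div_const 2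
  rw [integral_add i3 (integrable_const _), integral_const]
  simp only [probReal_univ, one_smul]
  congr 1
  rw [integral_div, integral_div, integral_add i1 i2,
    integral_add (FD.integrable (hFD false)) (FD.integrable (hFD true)),
    ← integral_pw _ (hFD false), ← integral_pw _ (hFD true)]

end Pool.Agent.H552R2.RM
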