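import Pool.Agent.H552R2.RM.Stubs

/-! Task S3: the step for exponential time. -/

namespace Pool.Agent.H552R2.RM

open Function MeasureTheory
open Pool.Agent.Helper556.OM

theorem s3_orc {full : Bool} {β : Set (List Bool)} {t : ℕ} {ω ω' : Om}
    (h : ∀ p ∈ S t, ω p = ω' p) {z : List Bool} (hz : z.length ≤ th t + 1) :
    z ∈ orc full β ω ↔ z ∈ orc full β ω' := by
  refine orc_congr (fun e x hr hx => hs_congr (fun _ i hi => h _ ?_))
  exact ⟨hr, by simp only; omega, hi⟩

theorem s3_F {full : Bool} {β : Set (List Bool)} {t n : ℕ} {ω ω' : Om} (φ : LFun)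
    (h : ∀ p ∈ S t, ω p = ω' p) (ht : n + (n ^ φ.d + φ.d) ≤ th t) {x : List Bool}
    (hx : x.length = n) :
    φ.F x (orc full β ω) ↔ φ.F x (orc full β ω') := by
  rw [φ.loc x (orc full β ω), φ.loc x (orc full β ω')]
  have : orc full β ω ∩ {z | z.length ≤ x.length + (x.length ^ φ.d + φ.d)} =
      orc full β ω' ∩ {z | z.length ≤ x.length + (x.length ^ φ.d + φ.d)} := by
    ext z
    constructor
    · rintro ⟨h1, h2⟩
      have h3 : z.length ≤ x.length + (x.length ^ φ.d + φ.d) := h2
      rw [hx] at h3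
      exact ⟨(s3_orc h (by omega)).1 h1, h2⟩
    · rintro ⟨h1, h2⟩
      have h3 : z.length ≤ x.length + (x.length ^ φ.d + φ.d) := h2
      rw [hx] at h3
      exact ⟨(s3_orc h (by omega)).2 h1, h2⟩
  rw [this]

theorem s3_T {full : Bool} {β : Set (List Bool)} {t n c : ℕ} {ω ω' : Om} (M : Machine)
    (h : ∀ p ∈ S t, ω p = ω' p) (ht : n + 2 ^ (c * (n + 1)) ≤ th t) {x : List Bool}
    (hx : x.length = n) :
    AccT M (2 ^ (c * (x.length + 1))) (orc full β ω) x ↔
      AccT M (2 ^ (c * (x.length + 1))) (orc full β ω') x := by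
  unfold AccT
  rw [run_congr_qs M (A := orc full β ω) (A' := orc full β ω')]
  intro z hz
  have h1 := qs_len M _ _ _ _ x.length (init_len M x) z hz
  rw [hx] at h1
  exact s3_orc h (by omega)

theorem s3_pw (J : Set Idx) (ω ω' : Om) : ∀ p ∈ J, pw J ω ω' p = ω p := by
  intro p hp
  simp [pw, hp]

/-- the oracle without the codes of the hidden strings of long random blocks -/
def s3_O (β : Set (List Bool)) (t : ℕ) (ω : Om) : Set (List Bool) :=
  {z | (∃ u ∈ β, z = false :: u) ∨
    ∃ e x, z = code e x (hs e x ω) ∧ ¬ (Rnd e x ∧ th t + 1 ≤ x.length)}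

theorem s3_hs_short {t : ℕ} {ω ω' : Om} {e : ℕ} {x : List Bool}
    (h : ¬ (Rnd e x ∧ th t + 1 ≤ x.length)) : hs e x (pw (S t) ω ω') = hs e x ω := by
  refine hs_congr (fun hr i hi => s3_pw _ _ _ _ ⟨hr, ?_, hi⟩)
  have : ¬ th t + 1 ≤ x.length := fun h' => h ⟨hr, h'⟩
  simp only
  omega

theorem s3_hs_long {t : ℕ} {ω ω' : Om} {e : ℕ} {x : List Bool}
    (h : th t + 1 ≤ x.length) : hs e x (pw (S t) ω ω') = hs e x ω' := by
  refine hs_congr (fun hr i hi => ?_)
  have : (e, x, i) ∉ S t := by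
    rintro ⟨-, h2, -⟩
    simp only at h2
    omega
  simp [pw, this]

theorem s3_mem {β : Set (List Bool)} {t : ℕ} {ω ω' : Om} {z : List Bool}
    (h : ¬ ∃ e x, Rnd e x ∧ th t + 1 ≤ x.length ∧ z = code e x (hs e x ω')) :
    z ∈ s3_O β t ω ↔ z ∈ orc true β (pw (S t) ω ω') := by
  constructor
  · rintro (h1 | ⟨e, x, h1, h2⟩)
    · exact Or.inl h1
    · refine Or.inr ⟨e, x, ?_, Or.inl rfl⟩
      rw [s3_hs_short h2]
      exact h1
  · rintro (h1 | ⟨e, x, h1, -⟩)
    · exact Or.inl h1
    · by_cases h2 : Rnd e x ∧ th t + 1 ≤ x.length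
      · exfalso
        apply h
        refine ⟨e, x, h2.1, h2.2, ?_⟩
        rw [h1, s3_hs_long h2.2]
      · refine Or.inr ⟨e, x, ?_, h2⟩
        rw [h1, s3_hs_short h2]

open Classical in
/-- the strings asked with the reduced oracle -/
noncomputable def s3_Z (β : Set (List Bool)) (t : ℕ) (ω : Om) (M : Machine) (q : ℕ)
    (x : List Bool) : Finset (List Bool) :=
  (qs M (s3_O β t ω) q (fun _ => false) (M.init x)).toFinset

def s3_hit (β : Set (List Bool)) (t : ℕ) (ω : Om) (M : Machine) (q : ℕ)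
    (x : List Bool) : Set Om :=
  {ω' | ∃ e y, Rnd e y ∧ th t + 1 ≤ y.length ∧ code e y (hs e y ω') ∈ s3_Z β t ω M q x}

theorem s3_hit_prob (β : Set (List Bool)) (t : ℕ) (ω : Om) (M : Machine) (q : ℕ)
    (x : List Bool) : mu.real (s3_hit β t ω M q x) ≤ q * (1 / 2) ^ ((th t + 1 + 1) ^ 2) := by
  refine (hit_prob _ _).trans ?_
  gcongr
  unfold s3_Z
  exact (List.toFinset_card_le _).trans (qs_length_le _ _ _ _ _)

theorem s3_nohit {β : Set (List Bool)} {t : ℕ} {ω ω' : Om} {M : Machine} {q : ℕ}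
    {x : List Bool} (h : ω' ∉ s3_hit β t ω M q x) :
    AccT M q (orc true β (pw (S t) ω ω')) x ↔ AccT M q (s3_O β t ω) x := by
  unfold AccT
  rw [run_congr_qs M (A := s3_O β t ω) (A' := orc true β (pw (S t) ω ω'))]
  intro z hz
  apply s3_mem
  rintro ⟨e, y, h1, h2, h3⟩
  apply h
  refine ⟨e, y, h1, h2, ?_⟩
  rw [← h3]
  unfold s3_Z
  simpa using hz

theorem s3_ofFn {n : ℕ} {x : List Bool} (hx : x.length = n) :
    ∃ f : Fin n → Bool, List.ofFn f = x := by
  subst hx
  exact ⟨fun i => x.get i, List.ofFn_get x⟩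

theorem step3' (β : Set (List Bool)) (φ : LFun) (M : Machine) (c : ℕ) :
    ∃ t0, ∀ t ≥ t0,
      Dep (S (t + 1)) (fun ω => (∀ x : List Bool, x.length = nn t →
          (φ.F x (orc true β ω) ↔ AccT M (2 ^ (c * (x.length + 1))) (orc true β ω) x)) ∧
        ∃ x : List Bool, x.length = nn t ∧
          ¬ (φ.F x (orc true β ω) ↔ pr true φ β t x ω)) ∧
      ∀ ω, mu.real {ω' | (∀ x : List Bool, x.length = nn t →
          (φ.F x (orc true β (pw (S t) ω ω')) ↔
            AccT M (2 ^ (c * (x.length + 1))) (orc true β (pw (S t) ω ω')) x)) ∧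
        ∃ x : List Bool, x.length = nn t ∧
          ¬ (φ.F x (orc true β (pw (S t) ω ω')) ↔ pr true φ β t x (pw (S t) ω ω'))} ≤ 3 / 4 := by
  classical
  obtain ⟨t1, h1⟩ := th_big c
  obtain ⟨t2, h2⟩ := th_big' φ.d
  obtain ⟨t3, h3⟩ := th_hit c
  refine ⟨max t1 (max t2 t3), fun t ht => ?_⟩
  have ht1 : t ≥ t1 := le_trans (le_max_left _ _) ht
  have ht2 : t ≥ t2 := le_trans ((le_max_left _ _).trans (le_max_right _ _)) ht
  have ht3 : t ≥ t3 := le_trans ((le_max_right _ _).trans (le_max_right _ _)) ht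
  have hT := h1 t ht1
  have hF := (h2 t ht2).1
  have hH := h3 t ht3 (th t + 1) (Nat.lt_succ_self _)
  constructor
  · intro ω ω' hω
    have e1 : ∀ x : List Bool, x.length = nn t →
        (φ.F x (orc true β ω) ↔ φ.F x (orc true β ω')) := fun x hx => s3_F φ hω hF hx
    have e2 : ∀ x : List Bool, x.length = nn t →
        (AccT M (2 ^ (c * (x.length + 1))) (orc true β ω) x ↔
          AccT M (2 ^ (c * (x.length + 1))) (orc true β ω') x) := fun x hx => s3_T M hω hT hx
    have e3 : ∀ x : List Bool, (pr true φ β t x ω ↔ pr true φ β t x ω') := fun x => by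
      rw [pr_dep true φ β t x ω ω' (fun p hp => hω p (S_mono (Nat.le_succ t) hp))]
    apply propext
    constructor
    · rintro ⟨a, x, hx, b⟩
      refine ⟨fun y hy => (e1 y hy).symm.trans ((a y hy).trans (e2 y hy)), x, hx, fun b' => b ?_⟩
      exact (e1 x hx).trans (b'.trans (e3 x).symm)
    · rintro ⟨a, x, hx, b⟩
      refine ⟨fun y hy => (e1 y hy).trans ((a y hy).trans (e2 y hy).symm), x, hx, fun b' => b ?_⟩
      exact (e1 x hx).symm.trans (b'.trans (e3 x))
  · intro ω
    set q : ℕ := 2 ^ (c * (nn t + 1)) with hq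
    have hpr : ∀ (x : List Bool) (ω' : Om),
        (pr true φ β t x (pw (S t) ω ω') ↔ pr true φ β t x ω) := fun x ω' => by
      rw [pr_dep true φ β t x (pw (S t) ω ω') ω (s3_pw _ _ _)]
    -- measurability
    have hFD : ∀ x : List Bool, x.length = nn t →
        FD (fun ω' : Om => φ.F x (orc true β (pw (S t) ω ω'))) := fun x hx =>
      FD.pw_right (f := fun ω' : Om => φ.F x (orc true β ω'))
        ⟨S (t + 1), S_finite _, fun ω1 ω2 h12 => propext (s3_F φ h12 hF hx)⟩ (S t) ω
    have hms : ∀ x : List Bool, x.length = nn t →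
        MeasurableSet {ω' : Om | φ.F x (orc true β (pw (S t) ω ω'))} := fun x hx =>
      FD.measurableSet (V := {ω' : Om | φ.F x (orc true β (pw (S t) ω ω'))}) (hFD x hx)
    have hhalf : (q : ℝ) * (1 / 2) ^ ((th t + 1 + 1) ^ 2) ≤
        (2 : ℝ) ^ nn t * 2 ^ (c * (nn t + 1)) * (1 / 2) ^ ((th t + 1 + 1) ^ 2) := by
      have : (q : ℝ) = 2 ^ (c * (nn t + 1)) := by rw [hq]; push_cast; rfl
      rw [this]
      have h1 : (1 : ℝ) ≤ 2 ^ nn t := one_le_pow₀ (by norm_num)
      have h2 : (0 : ℝ) ≤ 2 ^ (c * (nn t + 1)) * (1 / 2) ^ ((th t + 1 + 1) ^ 2) := by positivity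
      nlinarith
    have hhit : ∀ x : List Bool, mu.real (s3_hit β t ω M q x) ≤ 1 / 4 := fun x =>
      (s3_hit_prob β t ω M q x).trans (hhalf.trans hH)
    by_cases hA : ∀ x : List Bool, x.length = nn t →
        (AccT M q (s3_O β t ω) x ↔ pr true φ β t x ω)
    · -- all predictions agree with the reduced computation
      have hsub : {ω' | (∀ x : List Bool, x.length = nn t →
          (φ.F x (orc true β (pw (S t) ω ω')) ↔
            AccT M (2 ^ (c * (x.length + 1))) (orc true β (pw (S t) ω ω')) x)) ∧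
        ∃ x : List Bool, x.length = nn t ∧
          ¬ (φ.F x (orc true β (pw (S t) ω ω')) ↔ pr true φ β t x (pw (S t) ω ω'))} ⊆
          ⋃ f ∈ (Finset.univ : Finset (Fin (nn t) → Bool)),
            s3_hit β t ω M q (List.ofFn f) := by
        rintro ω' ⟨a, x, hx, b⟩
        obtain ⟨f, hxx⟩ := s3_ofFn hx
        simp only [Finset.mem_univ, Set.iUnion_true, Set.mem_iUnion]
        refine ⟨f, ?_⟩
        rw [hxx]
        by_contra hno
        apply b
        have ha := a x hx
        rw [hx, ← hq] at ha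
        rw [hpr, ha, s3_nohit hno]
        exact hA x hx
      refine (measureReal_mono hsub (measure_ne_top _ _)).trans ?_
      refine (measureReal_biUnion_finset_le _ _).trans ?_
      calc ∑ f : Fin (nn t) → Bool, mu.real (s3_hit β t ω M q (List.ofFn f))
          ≤ ∑ _f : Fin (nn t) → Bool, (q : ℝ) * (1 / 2) ^ ((th t + 1 + 1) ^ 2) :=
            Finset.sum_le_sum (fun f _ => s3_hit_prob β t ω M q _)
        _ = (2 : ℝ) ^ nn t * 2 ^ (c * (nn t + 1)) * (1 / 2) ^ ((th t + 1 + 1) ^ 2) := by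
            rw [Finset.sum_const, Finset.card_univ, Fintype.card_fun, Fintype.card_bool,
              Fintype.card_fin, nsmul_eq_mul, hq]
            push_cast
            ring
        _ ≤ 1 / 4 := hH
        _ ≤ 3 / 4 := by norm_num
    · push Not at hA
      obtain ⟨x0, hx0, hne⟩ := hA
      have hne' : ¬ (AccT M q (s3_O β t ω) x0 ↔ pr true φ β t x0 ω) := by
        intro h
        rcases hne with ⟨a, b⟩ | ⟨a, b⟩
        · exact b (h.1 a)
        · exact a (h.2 b)
      have hsub : {ω' | (∀ x : List Bool, x.length = nn t →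
          (φ.F x (orc true β (pw (S t) ω ω')) ↔
            AccT M (2 ^ (c * (x.length + 1))) (orc true β (pw (S t) ω ω')) x)) ∧
        ∃ x : List Bool, x.length = nn t ∧
          ¬ (φ.F x (orc true β (pw (S t) ω ω')) ↔ pr true φ β t x (pw (S t) ω ω'))} ⊆
          {ω' | φ.F x0 (orc true β (pw (S t) ω ω')) ↔ ¬ pr true φ β t x0 ω} ∪
            s3_hit β t ω M q x0 := by
        rintro ω' ⟨a, -⟩
        by_cases hno : ω' ∈ s3_hit β t ω M q x0
        · exact Or.inr hno
        · left
          have ha := a x0 hx0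
          rw [hx0, ← hq, s3_nohit hno] at ha
          show _ ↔ _
          rw [ha]
          tauto
      refine (measureReal_mono hsub (measure_ne_top _ _)).trans ?_
      refine (measureReal_union_le _ _).trans ?_
      have hmaj : mu.real {ω' | φ.F x0 (orc true β (pw (S t) ω ω')) ↔
          ¬ pr true φ β t x0 ω} ≤ 1 / 2 := by
        by_cases hp : pr true φ β t x0 ω
        · have e1 : {ω' | φ.F x0 (orc true β (pw (S t) ω ω')) ↔ ¬ pr true φ β t x0 ω} =
              {ω' | φ.F x0 (orc true β (pw (S t) ω ω'))}ᶜ := by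
            ext ω'
            simp [hp]
          rw [e1, probReal_compl_eq_one_sub (hms x0 hx0)]
          have := hp
          unfold pr at this
          linarith
        · have e1 : {ω' | φ.F x0 (orc true β (pw (S t) ω ω')) ↔ ¬ pr true φ β t x0 ω} =
              {ω' | φ.F x0 (orc true β (pw (S t) ω ω'))} := by
            ext ω'
            simp [hp]
          rw [e1]
          have := hp
          unfold pr at this
          linarith
      have := hhit x0
      linarith

end Pool.Agent.H552R2.RM
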