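import Pool.Agent.H552R2.RM.Stubs

/-!
Task S5A: the majority value for NP ∩ coNP machines.
-/

namespace Pool.Agent.H552R2.RM

open Function MeasureTheory
open Pool.Agent.Helper556.OM

/-! ### congruence of the asked strings -/

theorem s5a_qs_congr (M : Machine) {A A' : Set (List Bool)} : ∀ (t : ℕ) (w : ℕ → Bool)
    (c : M.Config), (∀ z ∈ qs M A t w c, (z ∈ A ↔ z ∈ A')) → qs M A' t w c = qs M A t w c
  | 0, _, _, _ => rfl
  | t + 1, w, c, h => by
      rw [qs, qs]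
      have h1 : M.step A (w 0) c = M.step A' (w 0) c :=
        step_congr M (w 0) c (fun z hz => h z (by rw [qs]; exact List.mem_append_left _ hz))
      rw [← h1, s5a_qs_congr M t _ _
        (fun z hz => h z (by rw [qs]; exact List.mem_append_right _ hz))]

theorem s5a_Qs_congr (M : Machine) (d : ℕ) {A A' : Set (List Bool)} (x : List Bool)
    (w : ℕ → Bool) (h : ∀ z ∈ Qs M d A x w, (z ∈ A ↔ z ∈ A')) :
    Qs M d A' x w = Qs M d A x w := s5a_qs_congr M _ _ _ h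

/-! ### the bits used -/

/-- the bits of blocks of strings of length at most `B` -/
def s5a_F (B : ℕ) : Set Idx := {p | Rnd p.1 p.2.1 ∧ p.2.1.length ≤ B ∧ p.2.2 < bl p.1 p.2.1}

theorem s5a_F_finite (B : ℕ) : (s5a_F B).Finite := by
  refine Set.Finite.subset ((Set.finite_le_nat B).prod
    ((List.finite_length_le Bool B).prod (Set.finite_lt_nat ((B + 1) ^ B)))) ?_
  rintro ⟨e, y, i⟩ ⟨h1, h2, h3⟩
  refine ⟨?_, h2, ?_⟩
  · exact le_trans h1.2 h2
  · refine lt_of_lt_of_le h3 ?_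
    change (y.length + 1) ^ e ≤ (B + 1) ^ B
    calc (y.length + 1) ^ e ≤ (B + 1) ^ e := Nat.pow_le_pow_left (Nat.succ_le_succ h2) e
      _ ≤ (B + 1) ^ B := Nat.pow_le_pow_right (Nat.succ_pos _) (le_trans h1.2 h2)

/-- the coins -/
def s5a_C (t B : ℕ) : Set Idx :=
  {p | Rnd p.1 p.2.1 ∧ th t < p.2.1.length ∧ p.2.1.length ≤ B ∧ p.2.2 = 0}

theorem s5a_C_finite (t B : ℕ) : (s5a_C t B).Finite := by
  refine (s5a_F_finite B).subset ?_
  rintro ⟨e, y, i⟩ ⟨h1, h2, h3, h4⟩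
  refine ⟨h1, h3, ?_⟩
  change i = 0 at h4
  subst h4
  exact Nat.pow_pos (Nat.succ_pos _)

theorem s5a_bl_pos (e : ℕ) (y : List Bool) : 0 < bl e y := Nat.pow_pos (Nat.succ_pos _)

theorem s5a_head (e : ℕ) (y : List Bool) (ω : Om) :
    (hs e y ω).head? = some true ↔ (Rnd e y ∧ ω (e, y, 0) = true) := by
  obtain ⟨k, hk⟩ : ∃ k, bl e y = k + 1 := ⟨bl e y - 1, by have := s5a_bl_pos e y; omega⟩
  unfold hs
  rw [hk, List.range_succ_eq_map]
  simp

theorem s5a_not_S {t e i : ℕ} {y : List Bool} (h : th t < y.length) : (e, y, i) ∉ S t := by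
  rintro ⟨-, h2, -⟩
  exact absurd h2 (not_le.2 h)

theorem s5a_pw_mem {J : Set Idx} {ω ω' : Om} {p : Idx} (h : p ∈ J) : pw J ω ω' p = ω p := by
  unfold pw
  rw [if_pos h]

theorem s5a_pw_not {J : Set Idx} {ω ω' : Om} {p : Idx} (h : p ∉ J) : pw J ω ω' p = ω' p := by
  unfold pw
  rw [if_neg h]

/-- all the coins set to true -/
noncomputable def s5a_on (t B : ℕ) (w : Om) : Om := pw (s5a_C t B) (fun _ => true) w

/-- the oracle -/
def s5a_G (β : Set (List Bool)) (t : ℕ) (ω w : Om) : Set (List Bool) :=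
  orc false β (pw (S t) ω w)

theorem s5a_mem_G {β : Set (List Bool)} {t : ℕ} {ω w : Om} {z : List Bool} :
    z ∈ s5a_G β t ω w ↔ (∃ u ∈ β, z = false :: u) ∨
      ∃ e y, z = code e y (hs e y (pw (S t) ω w)) ∧
        (hs e y (pw (S t) ω w)).head? = some true := by
  unfold s5a_G orc
  simp

theorem s5a_G_congr {β : Set (List Bool)} {t B : ℕ} {ω w w' : Om}
    (h : ∀ p ∈ s5a_F B, w p = w' p) {z : List Bool} (hz : z.length ≤ B) :
    z ∈ s5a_G β t ω w ↔ z ∈ s5a_G β t ω w' := by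
  refine orc_congr (fun e y hr hl => hs_congr (fun _ i hi => ?_))
  by_cases hS : (e, y, i) ∈ S t
  · rw [s5a_pw_mem hS, s5a_pw_mem hS]
  · rw [s5a_pw_not hS, s5a_pw_not hS]
    exact h _ ⟨hr, by change y.length ≤ B; omega, hi⟩

theorem s5a_on_congr {t B : ℕ} {w w' : Om} (h : ∀ p ∈ s5a_F B, w p = w' p) :
    ∀ p ∈ s5a_F B, s5a_on t B w p = s5a_on t B w' p := by
  intro p hp
  unfold s5a_on
  by_cases hC : p ∈ s5a_C t B
  · rw [s5a_pw_mem hC, s5a_pw_mem hC]
  · rw [s5a_pw_not hC, s5a_pw_not hC]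
    exact h p hp

/-- the oracle is monotone in the coins -/
theorem s5a_G_mono {β : Set (List Bool)} {t B : ℕ} {ω w w' : Om}
    (h1 : ∀ p ∈ s5a_C t B, w p = true → w' p = true) (h2 : ∀ p ∉ s5a_C t B, w p = w' p) :
    s5a_G β t ω w ⊆ s5a_G β t ω w' := by
  intro z hz
  rw [s5a_mem_G] at hz ⊢
  rcases hz with hz | ⟨e, y, hz, hh⟩
  · exact Or.inl hz
  · refine Or.inr ⟨e, y, ?_⟩
    have heq : hs e y (pw (S t) ω w) = hs e y (pw (S t) ω w') := by
      refine hs_congr (fun _ i _ => ?_)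
      by_cases hS : (e, y, i) ∈ S t
      · rw [s5a_pw_mem hS, s5a_pw_mem hS]
      · rw [s5a_pw_not hS, s5a_pw_not hS]
        by_cases hC : (e, y, i) ∈ s5a_C t B
        · have hi : i = 0 := hC.2.2.2
          subst hi
          have h3 := ((s5a_head e y _).1 hh).2
          rw [s5a_pw_not hS] at h3
          rw [h3, h1 _ hC h3]
        · exact h2 _ hC
    rw [← heq]
    exact ⟨hz, hh⟩

theorem s5a_le_on {t B : ℕ} (w : Om) :
    (∀ p ∈ s5a_C t B, w p = true → s5a_on t B w p = true) ∧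
      ∀ p ∉ s5a_C t B, w p = s5a_on t B w p := by
  refine ⟨fun p hp _ => ?_, fun p hp => ?_⟩
  · exact s5a_pw_mem hp
  · exact (s5a_pw_not hp).symm

/-- the accepting computations -/
def s5a_U (β : Set (List Bool)) (t : ℕ) (ω : Om) (M : Machine) (d : ℕ) (x : List Bool) : Set Om :=
  {w | AccN M d (s5a_G β t ω w) x}

/-- the accepting computations not using absent strings -/
def s5a_W (β : Set (List Bool)) (t B : ℕ) (ω : Om) (M : Machine) (d : ℕ) (x : List Bool) :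
    Set Om :=
  {w | ∃ v, Acc M d (s5a_G β t ω w) x v ∧ ∀ z ∈ Qs M d (s5a_G β t ω w) x v,
    z ∉ s5a_G β t ω w → z ∉ s5a_G β t ω (s5a_on t B w)}

theorem s5a_W_sub (β : Set (List Bool)) (t B : ℕ) (ω : Om) (M : Machine) (d : ℕ)
    (x : List Bool) : s5a_W β t B ω M d x ⊆ s5a_U β t ω M d x := by
  rintro w ⟨v, hv, -⟩
  exact ⟨v, hv⟩

theorem s5a_U_dep (β : Set (List Bool)) (t B : ℕ) (ω : Om) (M : Machine) (d : ℕ) (x : List Bool)
    (hB : x.length + (x.length ^ d + d) ≤ B) :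
    Dep (s5a_F B) (fun w => w ∈ s5a_U β t ω M d x) := by
  intro w w' h
  refine propext (AccN_congr M d x (fun z hz => ?_))
  exact s5a_G_congr h (hz.trans hB)

theorem s5a_W_dep (β : Set (List Bool)) (t B : ℕ) (ω : Om) (M : Machine) (d : ℕ) (x : List Bool)
    (hB : x.length + (x.length ^ d + d) ≤ B) :
    Dep (s5a_F B) (fun w => w ∈ s5a_W β t B ω M d x) := by
  intro w w' h
  refine propext (exists_congr (fun v => ?_))
  have hq : ∀ z ∈ Qs M d (s5a_G β t ω w) x v, (z ∈ s5a_G β t ω w ↔ z ∈ s5a_G β t ω w') :=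
    fun z hz => s5a_G_congr h ((Qs_len _ _ _ _ _ z hz).trans hB)
  have h1 := Acc_congr M d x v hq
  have h2 := s5a_Qs_congr M d x v hq
  rw [h2, h1]
  refine and_congr_right (fun _ => forall₂_congr (fun z hz => ?_))
  rw [hq z hz, s5a_G_congr (s5a_on_congr h) ((Qs_len _ _ _ _ _ z hz).trans hB)]

theorem s5a_W_incr (β : Set (List Bool)) (t B : ℕ) (ω : Om) (M : Machine) (d : ℕ) (x : List Bool)
    (w w' : Om) (h1 : ∀ p ∈ s5a_C t B, w p = true → w' p = true)
    (h2 : ∀ p ∉ s5a_C t B, w p = w' p) (hw : w ∈ s5a_W β t B ω M d x) :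
    w' ∈ s5a_W β t B ω M d x := by
  obtain ⟨v, hv, hz⟩ := hw
  have hon : s5a_on t B w = s5a_on t B w' := by
    funext p
    unfold s5a_on
    by_cases hC : p ∈ s5a_C t B
    · rw [s5a_pw_mem hC, s5a_pw_mem hC]
    · rw [s5a_pw_not hC, s5a_pw_not hC]
      exact h2 p hC
  have hm1 := s5a_G_mono (β := β) (ω := ω) h1 h2
  have hm2 : s5a_G β t ω w' ⊆ s5a_G β t ω (s5a_on t B w') :=
    s5a_G_mono (s5a_le_on w').1 (s5a_le_on w').2
  have hq : ∀ z ∈ Qs M d (s5a_G β t ω w) x v, (z ∈ s5a_G β t ω w ↔ z ∈ s5a_G β t ω w') := by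
    intro z hzq
    refine ⟨fun h => hm1 h, fun h => ?_⟩
    by_contra hne
    have := hz z hzq hne
    rw [hon] at this
    exact this (hm2 h)
  refine ⟨v, (Acc_congr M d x v hq).1 hv, fun z hzq hne => ?_⟩
  rw [s5a_Qs_congr M d x v hq] at hzq
  rw [← hon]
  exact hz z hzq (fun h => hne ((hq z hzq).1 h))

/-! ### the accepted strings that use absent strings -/

open Classical in
/-- the strings asked by a chosen accepting computation -/
noncomputable def s5a_Z (β : Set (List Bool)) (t B : ℕ) (ω : Om) (M : Machine) (d : ℕ)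
    (x : List Bool) (w : Om) : Finset (List Bool) :=
  if h : ∃ v, Acc M d (s5a_G β t ω w ∩ {z | z.length ≤ B}) x v then
    (Qs M d (s5a_G β t ω w ∩ {z | z.length ≤ B}) x h.choose).toFinset else ∅

theorem s5a_Z_card (β : Set (List Bool)) (t B : ℕ) (ω : Om) (M : Machine) (d : ℕ)
    (x : List Bool) (w : Om) : (s5a_Z β t B ω M d x w).card ≤ x.length ^ d + d := by
  classical
  unfold s5a_Z
  split_ifs with h
  · exact (List.toFinset_card_le _).trans (Qs_length_le _ _ _ _ _)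
  · simp

theorem s5a_Z_congr (β : Set (List Bool)) (t B : ℕ) (ω : Om) (M : Machine) (d : ℕ)
    (x : List Bool) {w w' : Om}
    (h : s5a_G β t ω w ∩ {z | z.length ≤ B} = s5a_G β t ω w' ∩ {z | z.length ≤ B}) :
    s5a_Z β t B ω M d x w = s5a_Z β t B ω M d x w' := by
  unfold s5a_Z
  rw [h]

theorem s5a_inter_congr {β : Set (List Bool)} {t B : ℕ} {ω w w' : Om}
    (h : ∀ p ∈ s5a_F B, w p = w' p) :
    s5a_G β t ω w ∩ {z | z.length ≤ B} = s5a_G β t ω w' ∩ {z | z.length ≤ B} := by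
  ext z
  exact ⟨fun hz => ⟨(s5a_G_congr h hz.2).1 hz.1, hz.2⟩,
    fun hz => ⟨(s5a_G_congr h hz.2).2 hz.1, hz.2⟩⟩

/-- the pairs whose coins are used -/
noncomputable def s5a_P (t B : ℕ) : Finset (ℕ × List Bool) :=
  (show {q : ℕ × List Bool | Rnd q.1 q.2 ∧ th t < q.2.length ∧ q.2.length ≤ B}.Finite from by
    refine Set.Finite.subset ((Set.finite_le_nat B).prod (List.finite_length_le Bool B)) ?_
    rintro ⟨e, y⟩ ⟨h1, h2, h3⟩
    exact ⟨le_trans h1.2 h3, h3⟩).toFinset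

theorem s5a_mem_P {t B : ℕ} {q : ℕ × List Bool} :
    q ∈ s5a_P t B ↔ Rnd q.1 q.2 ∧ th t < q.2.length ∧ q.2.length ≤ B := by
  unfold s5a_P
  simp

/-- the coin is off but the hidden string is found -/
def s5a_E (β : Set (List Bool)) (t B : ℕ) (ω : Om) (M : Machine) (d : ℕ) (x : List Bool)
    (q : ℕ × List Bool) : Set Om :=
  {w | w (q.1, q.2, 0) = false ∧
    code q.1 q.2 (hs q.1 q.2 (pw (S t) ω (s5a_on t B w))) ∈ s5a_Z β t B ω M d x w}

theorem s5a_diff_sub (β : Set (List Bool)) (t B : ℕ) (ω : Om) (M : Machine) (d : ℕ)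
    (x : List Bool) (hB : x.length + (x.length ^ d + d) ≤ B) :
    s5a_U β t ω M d x \ s5a_W β t B ω M d x ⊆ ⋃ q ∈ s5a_P t B, s5a_E β t B ω M d x q := by
  classical
  rintro w ⟨hU, hW⟩
  have hex : ∃ v, Acc M d (s5a_G β t ω w ∩ {z | z.length ≤ B}) x v := by
    have : AccN M d (s5a_G β t ω w ∩ {z | z.length ≤ B}) x := by
      refine (AccN_congr M d x (fun z hz => ?_)).1 hU
      exact ⟨fun h => ⟨h, hz.trans hB⟩, fun h => h.1⟩
    exact this
  have hZ : s5a_Z β t B ω M d x w =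
      (Qs M d (s5a_G β t ω w ∩ {z | z.length ≤ B}) x hex.choose).toFinset := by
    unfold s5a_Z
    rw [dif_pos hex]
  set v := hex.choose with hv
  have hacc : Acc M d (s5a_G β t ω w ∩ {z | z.length ≤ B}) x v := hex.choose_spec
  have hq : ∀ z ∈ Qs M d (s5a_G β t ω w ∩ {z | z.length ≤ B}) x v,
      (z ∈ s5a_G β t ω w ∩ {z | z.length ≤ B} ↔ z ∈ s5a_G β t ω w) :=
    fun z hz => ⟨fun h => h.1, fun h => ⟨h, (Qs_len _ _ _ _ _ z hz).trans hB⟩⟩
  have hacc' := (Acc_congr M d x v hq).1 hacc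
  have hQs := s5a_Qs_congr M d x v hq
  have hnot : ¬ ∀ z ∈ Qs M d (s5a_G β t ω w) x v,
      z ∉ s5a_G β t ω w → z ∉ s5a_G β t ω (s5a_on t B w) := fun h => hW ⟨v, hacc', h⟩
  push Not at hnot
  obtain ⟨z, hz1, hz2, hz3⟩ := hnot
  have hz3' := s5a_mem_G.1 hz3
  rcases hz3' with hz4 | ⟨e, y, hz4, hz5⟩
  · exact absurd (s5a_mem_G.2 (Or.inl hz4)) hz2
  · have key : (e, y, 0) ∈ s5a_C t B ∧ w (e, y, 0) = false := by
      by_contra hcon
      refine hz2 (s5a_mem_G.2 (Or.inr ⟨e, y, ?_⟩))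
      have heq : hs e y (pw (S t) ω (s5a_on t B w)) = hs e y (pw (S t) ω w) := by
        refine hs_congr (fun _ i _ => ?_)
        by_cases hS : (e, y, i) ∈ S t
        · rw [s5a_pw_mem hS, s5a_pw_mem hS]
        · rw [s5a_pw_not hS, s5a_pw_not hS]
          by_cases hC : (e, y, i) ∈ s5a_C t B
          · have hi : i = 0 := hC.2.2.2
            subst hi
            have h3 : w (e, y, 0) = true := by
              by_contra hne
              exact hcon ⟨hC, by simpa using hne⟩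
            rw [h3]
            exact (s5a_le_on w).1 _ hC h3
          · exact ((s5a_le_on w).2 _ hC).symm
      rw [← heq]
      exact ⟨hz4, hz5⟩
    rw [Set.mem_iUnion₂]
    refine ⟨(e, y), s5a_mem_P.2 ⟨key.1.1, key.1.2.1, key.1.2.2.1⟩, key.2, ?_⟩
    change code e y (hs e y (pw (S t) ω (s5a_on t B w))) ∈ s5a_Z β t B ω M d x w
    rw [← hz4, hZ, List.mem_toFinset, ← hQs]
    exact hz1

theorem s5a_E_dep (β : Set (List Bool)) (t B : ℕ) (ω : Om) (M : Machine) (d : ℕ) (x : List Bool)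
    {q : ℕ × List Bool} (hq : q ∈ s5a_P t B) :
    Dep (s5a_F B) (fun w => w ∈ s5a_E β t B ω M d x q) := by
  obtain ⟨e, y⟩ := q
  obtain ⟨h1, h2, h3⟩ := s5a_mem_P.1 hq
  intro w w' h
  refine propext ?_
  change (w (e, y, 0) = false ∧
    code e y (hs e y (pw (S t) ω (s5a_on t B w))) ∈ s5a_Z β t B ω M d x w) ↔
    (w' (e, y, 0) = false ∧
    code e y (hs e y (pw (S t) ω (s5a_on t B w'))) ∈ s5a_Z β t B ω M d x w')
  have e1 : w (e, y, 0) = w' (e, y, 0) := h _ ⟨h1, h3, s5a_bl_pos e y⟩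
  have e2 : s5a_Z β t B ω M d x w = s5a_Z β t B ω M d x w' :=
    s5a_Z_congr β t B ω M d x (s5a_inter_congr h)
  have e3 : hs e y (pw (S t) ω (s5a_on t B w)) = hs e y (pw (S t) ω (s5a_on t B w')) := by
    refine hs_congr (fun _ i hi => ?_)
    by_cases hS : (e, y, i) ∈ S t
    · rw [s5a_pw_mem hS, s5a_pw_mem hS]
    · rw [s5a_pw_not hS, s5a_pw_not hS]
      exact s5a_on_congr h _ ⟨h1, h3, hi⟩
  rw [e1, e2, e3]

open Classical in
/-- the number of asked strings that belong to a pair -/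
noncomputable def s5a_N (β : Set (List Bool)) (t B : ℕ) (ω : Om) (M : Machine) (d : ℕ)
    (x : List Bool) (q : ℕ × List Bool) (w : Om) : ℕ :=
  ((s5a_Z β t B ω M d x w).filter (fun z => ∃ y', z = code q.1 q.2 y')).card

theorem s5a_sum_N (β : Set (List Bool)) (t B : ℕ) (ω : Om) (M : Machine) (d : ℕ)
    (x : List Bool) (w : Om) :
    ∑ q ∈ s5a_P t B, s5a_N β t B ω M d x q w ≤ x.length ^ d + d := by
  classical
  refine le_trans ?_ (s5a_Z_card β t B ω M d x w)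
  unfold s5a_N
  rw [← Finset.card_biUnion]
  · refine Finset.card_le_card (fun z hz => ?_)
    rw [Finset.mem_biUnion] at hz
    obtain ⟨q, -, hz⟩ := hz
    exact (Finset.mem_filter.1 hz).1
  · intro q _ q' _ hne
    change Disjoint ((s5a_Z β t B ω M d x w).filter (fun z => ∃ y', z = code q.1 q.2 y'))
      ((s5a_Z β t B ω M d x w).filter (fun z => ∃ y', z = code q'.1 q'.2 y'))
    rw [Finset.disjoint_left]
    intro z hz hz'
    obtain ⟨y1, h1⟩ := (Finset.mem_filter.1 hz).2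
    obtain ⟨y2, h2⟩ := (Finset.mem_filter.1 hz').2
    have := code_inj (h1.symm.trans h2)
    exact hne (Prod.ext this.1 this.2.1)

theorem s5a_N_FD (β : Set (List Bool)) (t B : ℕ) (ω : Om) (M : Machine) (d : ℕ)
    (x : List Bool) (q : ℕ × List Bool) :
    FD (fun w => (s5a_N β t B ω M d x q w : ℝ)) := by
  refine ⟨s5a_F B, s5a_F_finite B, fun w w' h => ?_⟩
  change (s5a_N β t B ω M d x q w : ℝ) = (s5a_N β t B ω M d x q w' : ℝ)
  unfold s5a_N
  rw [s5a_Z_congr β t B ω M d x (s5a_inter_congr h)]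

/-- if the coin is off then the oracle does not depend on the other bits of the block -/
theorem s5a_G_off {β : Set (List Bool)} {t : ℕ} {ω w w' : Om} {e : ℕ} {y : List Bool}
    (hy : th t < y.length) (h0 : w (e, y, 0) = false) (h0' : w' (e, y, 0) = false)
    (h : ∀ p : Idx, ¬ (p.1 = e ∧ p.2.1 = y) → w p = w' p) :
    s5a_G β t ω w = s5a_G β t ω w' := by
  have key : ∀ w w' : Om, w (e, y, 0) = false →
      (∀ p : Idx, ¬ (p.1 = e ∧ p.2.1 = y) → w p = w' p) →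
      s5a_G β t ω w ⊆ s5a_G β t ω w' := by
    intro w w' h0 h z hz
    rw [s5a_mem_G] at hz ⊢
    rcases hz with hz | ⟨e', y', hz, hh⟩
    · exact Or.inl hz
    · refine Or.inr ⟨e', y', ?_⟩
      have hne : ¬ (e' = e ∧ y' = y) := by
        rintro ⟨rfl, rfl⟩
        have h3 := ((s5a_head e' y' _).1 hh).2
        rw [s5a_pw_not (s5a_not_S hy), h0] at h3
        exact absurd h3 (by simp)
      have heq : hs e' y' (pw (S t) ω w) = hs e' y' (pw (S t) ω w') := by
        refine hs_congr (fun _ i _ => ?_)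
        by_cases hS : (e', y', i) ∈ S t
        · rw [s5a_pw_mem hS, s5a_pw_mem hS]
        · rw [s5a_pw_not hS, s5a_pw_not hS]
          exact h _ hne
      rw [← heq]
      exact ⟨hz, hh⟩
  exact Set.Subset.antisymm (key w w' h0 h) (key w' w h0' (fun p hp => (h p hp).symm))

theorem s5a_ncard_tail (e : ℕ) (y : List Bool) :
    {p : Idx | p.1 = e ∧ p.2.1 = y ∧ 1 ≤ p.2.2 ∧ p.2.2 < bl e y}.Finite ∧
      {p : Idx | p.1 = e ∧ p.2.1 = y ∧ 1 ≤ p.2.2 ∧ p.2.2 < bl e y}.ncard = bl e y - 1 := by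
  classical
  have h : {p : Idx | p.1 = e ∧ p.2.1 = y ∧ 1 ≤ p.2.2 ∧ p.2.2 < bl e y} =
      ((Finset.Ico 1 (bl e y)).image (fun i => ((e, y, i) : Idx)) : Finset Idx) := by
    ext ⟨e', y', i⟩
    simp only [Set.mem_ofPred_eq, Finset.coe_image, Finset.coe_Ico, Set.mem_image, Set.mem_Ico,
      Prod.mk.injEq]
    constructor
    · rintro ⟨rfl, rfl, h1, h2⟩
      exact ⟨i, ⟨h1, h2⟩, rfl, rfl, rfl⟩
    · rintro ⟨j, ⟨h1, h2⟩, rfl, rfl, rfl⟩
      exact ⟨rfl, rfl, h1, h2⟩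
  rw [h]
  refine ⟨Finset.finite_toSet _, ?_⟩
  rw [Set.ncard_coe_finset, Finset.card_image_of_injective _ (fun i j hij => by
    simpa using hij), Nat.card_Ico]

/-- the probability of guessing the bits of the block but the first one -/
theorem s5a_guess {t B : ℕ} {ω ω1 : Om} {e : ℕ} {y : List Bool} (hr : Rnd e y)
    (hy : th t < y.length) (y' : List Bool) :
    mu.real {ω2 | hs e y (pw (S t) ω (s5a_on t B
      (pw {p : Idx | ¬ (p.1 = e ∧ p.2.1 = y ∧ 1 ≤ p.2.2)} ω1 ω2))) = y'} ≤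
      (1 / 2) ^ (bl e y - 1) := by
  obtain ⟨hfin, hcard⟩ := s5a_ncard_tail e y
  rw [← hcard, ← cyl _ hfin (fun p => y'.getD p.2.2 false)]
  refine measureReal_mono ?_ (measure_ne_top _ _)
  rintro ω2 h ⟨e', y1, i⟩ ⟨h1, h2, h3, h4⟩
  change e' = e at h1
  change y1 = y at h2
  subst h1
  subst h2
  change 1 ≤ i at h3
  change i < bl e' y1 at h4
  change ω2 (e', y1, i) = y'.getD i false
  have h5 : hs e' y1 (pw (S t) ω (s5a_on t B
      (pw {p : Idx | ¬ (p.1 = e' ∧ p.2.1 = y1 ∧ 1 ≤ p.2.2)} ω1 ω2))) = y' := h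
  rw [← h5]
  unfold hs
  rw [List.getD_eq_getElem?_getD, List.getElem?_map, List.getElem?_range h4]
  simp only [Option.map_some, Option.getD_some]
  rw [decide_eq_true hr, Bool.true_and, s5a_pw_not (s5a_not_S hy)]
  unfold s5a_on
  have n1 : ((e', y1, i) : Idx) ∉ s5a_C t B := fun hC => by
    have := hC.2.2.2
    change i = 0 at this
    omega
  have n2 : ((e', y1, i) : Idx) ∉ {p : Idx | ¬ (p.1 = e' ∧ p.2.1 = y1 ∧ 1 ≤ p.2.2)} :=
    fun hJ => hJ ⟨rfl, rfl, h3⟩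
  rw [s5a_pw_not n1, s5a_pw_not n2]

theorem s5a_FD_ind {V : Set Om} (h : FD (fun w => w ∈ V)) :
    FD (fun w => V.indicator (fun _ => (1 : ℝ)) w) := by
  classical
  have := h.comp (fun p : Prop => if p then (1 : ℝ) else 0)
  refine cast (congrArg _ ?_) this
  funext w
  by_cases hw : w ∈ V
  · simp [hw]
  · simp [hw]

theorem s5a_real_eq {V : Set Om} (h : FD (fun w => w ∈ V)) :
    mu.real V = ∫ w, V.indicator (fun _ => (1 : ℝ)) w ∂mu := by
  rw [integral_indicator h.measurableSet]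
  simp

theorem s5a_E_prob (β : Set (List Bool)) (t B : ℕ) (ω : Om) (M : Machine) (d : ℕ)
    (x : List Bool) {q : ℕ × List Bool} (hq : q ∈ s5a_P t B) :
    mu.real (s5a_E β t B ω M d x q) ≤
      ∫ w, (s5a_N β t B ω M d x q w : ℝ) * (1 / 2) ^ ((th t + 1 + 1) ^ 2 - 1) ∂mu := by
  classical
  have hfd : FD (fun w => w ∈ s5a_E β t B ω M d x q) :=
    ⟨s5a_F B, s5a_F_finite B, s5a_E_dep β t B ω M d x hq⟩
  obtain ⟨e, y⟩ := q
  obtain ⟨h1, h2, h3⟩ := s5a_mem_P.1 hq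
  change Rnd e y at h1
  change th t < y.length at h2
  change y.length ≤ B at h3
  set J : Set Idx := {p : Idx | ¬ (p.1 = e ∧ p.2.1 = y ∧ 1 ≤ p.2.2)} with hJ
  rw [s5a_real_eq hfd, integral_pw J (s5a_FD_ind hfd)]
  refine integral_mono ((s5a_FD_ind hfd).inner J).integrable
    (((s5a_N_FD β t B ω M d x (e, y)).comp
      (fun r : ℝ => r * (1 / 2) ^ ((th t + 1 + 1) ^ 2 - 1))).integrable) (fun ω1 => ?_)
  -- the inner integral
  have hJ0 : ((e, y, 0) : Idx) ∈ J := fun h => absurd h.2.2 (by simp)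
  have hfd2 : FD (fun ω2 => ω2 ∈ {ω2 | pw J ω1 ω2 ∈ s5a_E β t B ω M d x (e, y)}) :=
    hfd.pw_right J ω1
  have hint : ∫ ω2, (s5a_E β t B ω M d x (e, y)).indicator (fun _ => (1 : ℝ)) (pw J ω1 ω2) ∂mu =
      mu.real {ω2 | pw J ω1 ω2 ∈ s5a_E β t B ω M d x (e, y)} := by
    rw [s5a_real_eq hfd2]
    rfl
  change (∫ ω2, (s5a_E β t B ω M d x (e, y)).indicator (fun _ => (1 : ℝ)) (pw J ω1 ω2) ∂mu) ≤ _
  rw [hint]
  have hκ : (1 / 2 : ℝ) ^ (bl e y - 1) ≤ (1 / 2) ^ ((th t + 1 + 1) ^ 2 - 1) := by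
    refine pow_le_pow_of_le_one (by norm_num) (by norm_num) ?_
    have : (th t + 1 + 1) ^ 2 ≤ bl e y := by
      calc (th t + 1 + 1) ^ 2 ≤ (y.length + 1) ^ 2 := Nat.pow_le_pow_left (by omega) 2
        _ ≤ (y.length + 1) ^ e := Nat.pow_le_pow_right (Nat.succ_pos _) h1.1
    omega
  by_cases hc : ω1 (e, y, 0) = false
  · -- the coin is off
    have hZ : ∀ ω2, s5a_Z β t B ω M d x (pw J ω1 ω2) = s5a_Z β t B ω M d x ω1 := by
      intro ω2
      refine s5a_Z_congr β t B ω M d x ?_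
      rw [s5a_G_off (w' := ω1) h2 (by rw [s5a_pw_mem hJ0]; exact hc) hc
        (fun p hp => s5a_pw_mem (show p ∈ J from fun h => hp ⟨h.1, h.2.1⟩))]
    have hsub : {ω2 | pw J ω1 ω2 ∈ s5a_E β t B ω M d x (e, y)} ⊆
        ⋃ z ∈ (s5a_Z β t B ω M d x ω1).filter (fun z => ∃ y', z = code e y y'),
          {ω2 | code e y (hs e y (pw (S t) ω (s5a_on t B (pw J ω1 ω2)))) = z} := by
      intro ω2 h
      have h' := h.2
      change code e y (hs e y (pw (S t) ω (s5a_on t B (pw J ω1 ω2)))) ∈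
        s5a_Z β t B ω M d x (pw J ω1 ω2) at h'
      rw [hZ] at h'
      rw [Set.mem_iUnion₂]
      exact ⟨_, Finset.mem_filter.2 ⟨h', _, rfl⟩, rfl⟩
    calc mu.real {ω2 | pw J ω1 ω2 ∈ s5a_E β t B ω M d x (e, y)}
        ≤ mu.real (⋃ z ∈ (s5a_Z β t B ω M d x ω1).filter (fun z => ∃ y', z = code e y y'),
          {ω2 | code e y (hs e y (pw (S t) ω (s5a_on t B (pw J ω1 ω2)))) = z}) :=
          measureReal_mono hsub (measure_ne_top _ _)
      _ ≤ ∑ z ∈ (s5a_Z β t B ω M d x ω1).filter (fun z => ∃ y', z = code e y y'),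
          mu.real {ω2 | code e y (hs e y (pw (S t) ω (s5a_on t B (pw J ω1 ω2)))) = z} :=
          measureReal_biUnion_finset_le _ _
      _ ≤ ∑ _z ∈ (s5a_Z β t B ω M d x ω1).filter (fun z => ∃ y', z = code e y y'),
          (1 / 2 : ℝ) ^ ((th t + 1 + 1) ^ 2 - 1) := by
          refine Finset.sum_le_sum (fun z hz => ?_)
          obtain ⟨y', hy'⟩ := (Finset.mem_filter.1 hz).2
          refine le_trans ?_ hκ
          refine le_trans (measureReal_mono ?_ (measure_ne_top _ _))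
            (s5a_guess (B := B) (ω := ω) (ω1 := ω1) h1 h2 y')
          intro ω2 h
          have h'' : code e y (hs e y (pw (S t) ω (s5a_on t B (pw J ω1 ω2)))) = code e y y' := by
            rw [← hy']
            exact h
          exact (code_inj h'').2.2
      _ = (s5a_N β t B ω M d x (e, y) ω1 : ℝ) * (1 / 2) ^ ((th t + 1 + 1) ^ 2 - 1) := by
          rw [Finset.sum_const, nsmul_eq_mul]
          rfl
  · have hempty : {ω2 | pw J ω1 ω2 ∈ s5a_E β t B ω M d x (e, y)} = ∅ := by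
      ext ω2
      simp only [Set.mem_ofPred_eq, Set.mem_empty_iff_false, iff_false]
      intro h
      have h' := h.1
      change pw J ω1 ω2 (e, y, 0) = false at h'
      rw [s5a_pw_mem hJ0] at h'
      exact hc h'
    rw [hempty, measureReal_empty]
    positivity

theorem s5a_tau (β : Set (List Bool)) (t B : ℕ) (ω : Om) (M : Machine) (d : ℕ)
    (x : List Bool) (hB : x.length + (x.length ^ d + d) ≤ B) :
    mu.real (s5a_U β t ω M d x \ s5a_W β t B ω M d x) ≤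
      ((x.length : ℝ) ^ d + d) * (1 / 2) ^ ((th t + 1 + 1) ^ 2 - 1) := by
  classical
  calc mu.real (s5a_U β t ω M d x \ s5a_W β t B ω M d x)
      ≤ mu.real (⋃ q ∈ s5a_P t B, s5a_E β t B ω M d x q) :=
        measureReal_mono (s5a_diff_sub β t B ω M d x hB) (measure_ne_top _ _)
    _ ≤ ∑ q ∈ s5a_P t B, mu.real (s5a_E β t B ω M d x q) := measureReal_biUnion_finset_le _ _
    _ ≤ ∑ q ∈ s5a_P t B,
        ∫ w, (s5a_N β t B ω M d x q w : ℝ) * (1 / 2) ^ ((th t + 1 + 1) ^ 2 - 1) ∂mu :=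
        Finset.sum_le_sum (fun q hq => s5a_E_prob β t B ω M d x hq)
    _ = ∫ w, ∑ q ∈ s5a_P t B,
        (s5a_N β t B ω M d x q w : ℝ) * (1 / 2) ^ ((th t + 1 + 1) ^ 2 - 1) ∂mu := by
        rw [integral_finsetSum]
        intro q _
        exact ((s5a_N_FD β t B ω M d x q).comp
          (fun r : ℝ => r * (1 / 2) ^ ((th t + 1 + 1) ^ 2 - 1))).integrable
    _ ≤ ∫ _w : Om, ((x.length : ℝ) ^ d + d) * (1 / 2) ^ ((th t + 1 + 1) ^ 2 - 1) ∂mu := by
        refine integral_mono ?_ (integrable_const _) (fun w => ?_)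
        · refine integrable_finsetSum _ (fun q _ => ?_)
          exact ((s5a_N_FD β t B ω M d x q).comp
            (fun r : ℝ => r * (1 / 2) ^ ((th t + 1 + 1) ^ 2 - 1))).integrable
        · change ∑ q ∈ s5a_P t B, (s5a_N β t B ω M d x q w : ℝ) *
            (1 / 2) ^ ((th t + 1 + 1) ^ 2 - 1) ≤ _
          rw [← Finset.sum_mul]
          refine mul_le_mul_of_nonneg_right ?_ (by positivity)
          have := s5a_sum_N β t B ω M d x w
          have h2 : ((∑ q ∈ s5a_P t B, s5a_N β t B ω M d x q w : ℕ) : ℝ) ≤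
              ((x.length ^ d + d : ℕ) : ℝ) := by exact_mod_cast this
          push_cast at h2
          exact h2
    _ = ((x.length : ℝ) ^ d + d) * (1 / 2) ^ ((th t + 1 + 1) ^ 2 - 1) := by
        simp

/-! ### independence -/

theorem s5a_indep (β : Set (List Bool)) (t B : ℕ) (ω : Om) (M1 M0 : Machine) (d1 d0 : ℕ)
    (x : List Bool) (hB1 : x.length + (x.length ^ d1 + d1) ≤ B)
    (hB0 : x.length + (x.length ^ d0 + d0) ≤ B) (c : Om) :
    mu.real {w | pw (s5a_C t B) c w ∈ s5a_U β t ω M1 d1 x ∧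
        pw (s5a_C t B) (fun p => !(c p)) w ∈ s5a_U β t ω M0 d0 x} =
      mu.real {w | pw (s5a_C t B) c w ∈ s5a_U β t ω M1 d1 x} *
        mu.real {w | pw (s5a_C t B) (fun p => !(c p)) w ∈ s5a_U β t ω M0 d0 x} := by
  classical
  -- the bits of the blocks with coin on
  set J : Set Idx := {p | c (p.1, p.2.1, 0) = true} with hJ
  -- general fact
  have gen : ∀ (c' : Om) (M : Machine) (d : ℕ), x.length + (x.length ^ d + d) ≤ B →
      ∀ w w' : Om, (∀ p ∈ s5a_F B, th t < p.2.1.length → p ∉ s5a_C t B →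
        c' (p.1, p.2.1, 0) = true → w p = w' p) →
      (pw (s5a_C t B) c' w ∈ s5a_U β t ω M d x ↔ pw (s5a_C t B) c' w' ∈ s5a_U β t ω M d x) := by
    intro c' M d hB w w' h
    refine AccN_congr M d x (fun z hz => ?_)
    have hzB := hz.trans hB
    have key : ∀ w w' : Om, (∀ p ∈ s5a_F B, th t < p.2.1.length → p ∉ s5a_C t B →
        c' (p.1, p.2.1, 0) = true → w p = w' p) →
        z ∈ s5a_G β t ω (pw (s5a_C t B) c' w) → z ∈ s5a_G β t ω (pw (s5a_C t B) c' w') := by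
      intro w w' h hz
      rw [s5a_mem_G] at hz ⊢
      rcases hz with hz | ⟨e, y, hz, hh⟩
      · exact Or.inl hz
      · refine Or.inr ⟨e, y, ?_⟩
        have hlen : y.length ≤ B := by
          have h5 : y.length < z.length := by
            rw [hz]
            simp only [code, base, List.length_cons, List.length_append, List.length_replicate]
            omega
          omega
        obtain ⟨hr, hh2⟩ := (s5a_head e y _).1 hh
        have heq : hs e y (pw (S t) ω (pw (s5a_C t B) c' w)) =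
            hs e y (pw (S t) ω (pw (s5a_C t B) c' w')) := by
          refine hs_congr (fun _ i hi => ?_)
          by_cases hS : (e, y, i) ∈ S t
          · rw [s5a_pw_mem hS, s5a_pw_mem hS]
          · rw [s5a_pw_not hS, s5a_pw_not hS]
            by_cases hC : (e, y, i) ∈ s5a_C t B
            · rw [s5a_pw_mem hC, s5a_pw_mem hC]
            · rw [s5a_pw_not hC, s5a_pw_not hC]
              have hth : th t < y.length := by
                by_contra hcon
                exact hS ⟨hr, not_lt.1 hcon, hi⟩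
              have hC0 : (e, y, 0) ∈ s5a_C t B := ⟨hr, hth, hlen, rfl⟩
              rw [s5a_pw_not (s5a_not_S hth), s5a_pw_mem hC0] at hh2
              exact h _ ⟨hr, hlen, hi⟩ hth hC hh2
        rw [← heq]
        exact ⟨hz, hh⟩
    exact ⟨key w w' h, key w' w (fun p h1 h2 h3 h4 => (h p h1 h2 h3 h4).symm)⟩
  have hU1 : FD (fun w => w ∈ {w | pw (s5a_C t B) c w ∈ s5a_U β t ω M1 d1 x}) :=
    ⟨s5a_F B, s5a_F_finite B, fun w w' h => propext
      (gen c M1 d1 hB1 w w' (fun p hp _ _ _ => h p hp))⟩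
  have hU0 : FD (fun w => w ∈
      {w | pw (s5a_C t B) (fun p => !(c p)) w ∈ s5a_U β t ω M0 d0 x}) :=
    ⟨s5a_F B, s5a_F_finite B, fun w w' h => propext
      (gen (fun p => !(c p)) M0 d0 hB0 w w' (fun p hp _ _ _ => h p hp))⟩
  set V1 := {w | pw (s5a_C t B) c w ∈ s5a_U β t ω M1 d1 x} with hV1
  set V0 := {w | pw (s5a_C t B) (fun p => !(c p)) w ∈ s5a_U β t ω M0 d0 x} with hV0
  have hU : FD (fun w => w ∈ V1 ∩ V0) := hU1.comp₂ hU0 (fun p q => p ∧ q)
  have e1 : ∀ ω1 ω2, (pw J ω1 ω2 ∈ V1 ↔ ω1 ∈ V1) := by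
    intro ω1 ω2
    refine gen c M1 d1 hB1 _ _ (fun p _ _ _ h => ?_)
    exact s5a_pw_mem h
  have e0 : ∀ ω1 ω2, (pw J ω1 ω2 ∈ V0 ↔ ω2 ∈ V0) := by
    intro ω1 ω2
    refine gen (fun p => !(c p)) M0 d0 hB0 _ _ (fun p _ _ _ h => ?_)
    refine s5a_pw_not (fun h' => ?_)
    change c (p.1, p.2.1, 0) = true at h'
    rw [h'] at h
    exact absurd h (by simp)
  change mu.real (V1 ∩ V0) = mu.real V1 * mu.real V0
  rw [s5a_real_eq hU, integral_pw J (s5a_FD_ind hU), s5a_real_eq hU1, s5a_real_eq hU0]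
  have h1 : ∀ ω1 ω2, (V1 ∩ V0).indicator (fun _ => (1 : ℝ)) (pw J ω1 ω2) =
      V1.indicator (fun _ => (1 : ℝ)) ω1 * V0.indicator (fun _ => (1 : ℝ)) ω2 := by
    intro ω1 ω2
    by_cases a : ω1 ∈ V1
    · by_cases b : ω2 ∈ V0
      · rw [Set.indicator_of_mem a, Set.indicator_of_mem b,
          Set.indicator_of_mem (show pw J ω1 ω2 ∈ V1 ∩ V0 from ⟨(e1 ω1 ω2).2 a, (e0 ω1 ω2).2 b⟩)]
        norm_num
      · rw [Set.indicator_of_notMem b,
          Set.indicator_of_notMem (show pw J ω1 ω2 ∉ V1 ∩ V0 from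
            fun h => b ((e0 ω1 ω2).1 h.2))]
        norm_num
    · rw [Set.indicator_of_notMem a,
        Set.indicator_of_notMem (show pw J ω1 ω2 ∉ V1 ∩ V0 from fun h => a ((e1 ω1 ω2).1 h.1))]
      norm_num
  simp only [h1]
  have h2 : ∀ ω1, ∫ ω2, V1.indicator (fun _ => (1 : ℝ)) ω1 *
      V0.indicator (fun _ => (1 : ℝ)) ω2 ∂mu = V1.indicator (fun _ => (1 : ℝ)) ω1 *
      ∫ ω2, V0.indicator (fun _ => (1 : ℝ)) ω2 ∂mu := fun ω1 => integral_const_mul _ _
  simp only [h2]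
  rw [integral_mul_const]

theorem step5_one' (β : Set (List Bool)) (M1 M0 : Machine) (d1 d0 : ℕ) (δ : ℝ) (hδ : 0 < δ) :
    ∃ t0, ∀ t ≥ t0, ∀ ω, ∀ x : List Bool, x.length = nn t → ∀ ε : ℝ,
      mu.real {ω' | ¬ (AccN M1 d1 (orc false β (pw (S t) ω ω')) x ↔
        ¬ AccN M0 d0 (orc false β (pw (S t) ω ω')) x)} ≤ ε →
      mu.real {ω' | AccN M1 d1 (orc false β (pw (S t) ω ω')) x} *
        (1 - mu.real {ω' | AccN M1 d1 (orc false β (pw (S t) ω ω')) x}) ≤ 20 * (ε + δ) := by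
  obtain ⟨t1, ht1⟩ := th_hit' d1 δ hδ
  obtain ⟨t2, ht2⟩ := th_hit' d0 δ hδ
  refine ⟨max t1 t2, fun t ht ω x hx ε hε => ?_⟩
  set B := (nn t + (nn t ^ d1 + d1)) + (nn t + (nn t ^ d0 + d0)) with hBdef
  have hB1 : x.length + (x.length ^ d1 + d1) ≤ B := by rw [hx]; omega
  have hB0 : x.length + (x.length ^ d0 + d0) ≤ B := by rw [hx]; omega
  have hτ1 : mu.real (s5a_U β t ω M1 d1 x \ s5a_W β t B ω M1 d1 x) ≤ δ := by
    refine (s5a_tau β t B ω M1 d1 x hB1).trans ?_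
    rw [hx]
    exact ht1 t (le_trans (le_max_left _ _) ht) (th t + 1) (Nat.lt_succ_self _)
  have hτ0 : mu.real (s5a_U β t ω M0 d0 x \ s5a_W β t B ω M0 d0 x) ≤ δ := by
    refine (s5a_tau β t B ω M0 d0 x hB0).trans ?_
    rw [hx]
    exact ht2 t (le_trans (le_max_right _ _) ht) (th t + 1) (Nat.lt_succ_self _)
  refine core (s5a_C t B) (s5a_C_finite t B) (s5a_U β t ω M1 d1 x) (s5a_U β t ω M0 d0 x)
    (s5a_W β t B ω M1 d1 x) (s5a_W β t B ω M0 d0 x) ε δ
    ⟨_, s5a_F_finite B, s5a_U_dep β t B ω M1 d1 x hB1⟩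
    ⟨_, s5a_F_finite B, s5a_U_dep β t B ω M0 d0 x hB0⟩
    ⟨_, s5a_F_finite B, s5a_W_dep β t B ω M1 d1 x hB1⟩
    ⟨_, s5a_F_finite B, s5a_W_dep β t B ω M0 d0 x hB0⟩
    (s5a_W_sub _ _ _ _ _ _ _) (s5a_W_sub _ _ _ _ _ _ _) hτ1 hτ0
    (s5a_W_incr β t B ω M1 d1 x) (s5a_W_incr β t B ω M0 d0 x) ?_ ?_
    (s5a_indep β t B ω M1 M0 d1 d0 x hB1 hB0)
  · refine le_trans (measureReal_mono ?_ (measure_ne_top _ _)) hε
    rintro w ⟨h1, h2⟩ h3
    exact h3.1 h1 h2
  · refine le_trans (measureReal_mono ?_ (measure_ne_top _ _)) hε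
    intro w h h3
    have h4 : w ∉ s5a_U β t ω M1 d1 x ∧ w ∉ s5a_U β t ω M0 d0 x := by
      rw [Set.mem_compl_iff, Set.mem_union, not_or] at h
      exact h
    exact h4.1 (h3.2 h4.2)

end Pool.Agent.H552R2.RM
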