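import Pool.Agent.H552R2.RM.Stubs
import Pool.Agent.H552R2.Code

/-!
The machines guessing the hidden string.
-/

namespace Pool.Agent.H552R2.RM

open Function
open Pool.Agent.Helper556.OM

variable {A : Set (List Bool)}

/-! ### the states during the run of a compiled program -/

theorem up_prefix (M : Machine) {c : Cmd} {s s' : St} {t : ℕ}
    (h : Ev A c s s' t) : ∀ (em : CC c → M.Q) (ex : M.Q)
    (_ : ∀ a, M.act (em a) = CC.act c em ex a) (w : ℕ → Bool) (r : ℕ), r < t →
    ∃ a, (M.run A r w (em (CC.start c), s)).1 = em a := by
  induction h with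
  | skip s =>
      intro em ex hem w r hr
      obtain rfl : r = 0 := by omega
      exact ⟨_, rfl⟩
  | push k b s =>
      intro em ex hem w r hr
      obtain rfl : r = 0 := by omega
      exact ⟨_, rfl⟩
  | pop k s =>
      intro em ex hem w r hr
      obtain rfl : r = 0 := by omega
      exact ⟨_, rfl⟩
  | @seq p q s s' s'' t t' hp hq ihp ihq =>
      intro em ex hem w r hr
      rcases Nat.lt_or_ge r t with h | h
      · obtain ⟨a, ha⟩ := ihp (fun a => em (Sum.inl a)) (em (Sum.inr (CC.start q)))
          (fun a => hem (Sum.inl a)) w r h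
        exact ⟨Sum.inl a, ha⟩
      · obtain ⟨r', rfl⟩ := Nat.exists_eq_add_of_le h
        have h1 := compile_correct M A hp (fun a => em (Sum.inl a)) (em (Sum.inr (CC.start q)))
          (fun a => hem (Sum.inl a)) w
        obtain ⟨a, ha⟩ := ihq (fun a => em (Sum.inr a)) ex (fun a => hem (Sum.inr a))
          (fun i => w (i + t)) r' (by omega)
        refine ⟨Sum.inr a, ?_⟩
        rw [Machine.run_add]
        rw [show em (CC.start (p.seq q)) = em (Sum.inl (CC.start p)) from rfl, h1]
        exact ha
  | @brn k pn pf pt s s' t h0 hp ih =>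
      intro em ex hem w r hr
      cases r with
      | zero => exact ⟨_, rfl⟩
      | succ r =>
          obtain ⟨a, ha⟩ := ih (fun a => em (some (Sum.inl a))) ex
            (fun a => hem (some (Sum.inl a))) (fun i => w (i + 1)) r (by omega)
          refine ⟨some (Sum.inl a), ?_⟩
          rw [add_comm, Machine.run_add, Machine.run_one, Machine.step]
          rw [show em (CC.start (Cmd.br k pn pf pt)) = em none from rfl]
          simp only [hem, CC.act, h0]
          exact ha
  | @brf k pn pf pt s s' t h0 hp ih =>
      intro em ex hem w r hr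
      cases r with
      | zero => exact ⟨_, rfl⟩
      | succ r =>
          obtain ⟨a, ha⟩ := ih (fun a => em (some (Sum.inr (Sum.inl a)))) ex
            (fun a => hem (some (Sum.inr (Sum.inl a)))) (fun i => w (i + 1)) r (by omega)
          refine ⟨some (Sum.inr (Sum.inl a)), ?_⟩
          rw [add_comm, Machine.run_add, Machine.run_one, Machine.step]
          rw [show em (CC.start (Cmd.br k pn pf pt)) = em none from rfl]
          simp only [hem, CC.act, h0]
          exact ha
  | @brt k pn pf pt s s' t h0 hp ih =>
      intro em ex hem w r hr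
      cases r with
      | zero => exact ⟨_, rfl⟩
      | succ r =>
          obtain ⟨a, ha⟩ := ih (fun a => em (some (Sum.inr (Sum.inr a)))) ex
            (fun a => hem (some (Sum.inr (Sum.inr a)))) (fun i => w (i + 1)) r (by omega)
          refine ⟨some (Sum.inr (Sum.inr a)), ?_⟩
          rw [add_comm, Machine.run_add, Machine.run_one, Machine.step]
          rw [show em (CC.start (Cmd.br k pn pf pt)) = em none from rfl]
          simp only [hem, CC.act, h0]
          exact ha
  | @askt k pt pf s s' t h0 hp ih =>
      intro em ex hem w r hr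
      cases r with
      | zero => exact ⟨_, rfl⟩
      | succ r =>
          obtain ⟨a, ha⟩ := ih (fun a => em (some (Sum.inl a))) ex
            (fun a => hem (some (Sum.inl a))) (fun i => w (i + 1)) r (by omega)
          refine ⟨some (Sum.inl a), ?_⟩
          rw [add_comm, Machine.run_add, Machine.run_one, Machine.step]
          rw [show em (CC.start (Cmd.ask k pt pf)) = em none from rfl]
          simp only [hem, CC.act, h0, decide_true]
          exact ha
  | @askf k pt pf s s' t h0 hp ih =>
      intro em ex hem w r hr
      cases r with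
      | zero => exact ⟨_, rfl⟩
      | succ r =>
          obtain ⟨a, ha⟩ := ih (fun a => em (some (Sum.inr a))) ex
            (fun a => hem (some (Sum.inr a))) (fun i => w (i + 1)) r (by omega)
          refine ⟨some (Sum.inr a), ?_⟩
          rw [add_comm, Machine.run_add, Machine.run_one, Machine.step]
          rw [show em (CC.start (Cmd.ask k pt pf)) = em none from rfl]
          simp only [hem, CC.act, h0, decide_false]
          exact ha
  | @loopn k p s h0 =>
      intro em ex hem w r hr
      obtain rfl : r = 0 := by omega
      exact ⟨_, rfl⟩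
  | @loopc k p s s' s'' t t' h0 hp hl ihp ihl =>
      intro em ex hem w r hr
      obtain ⟨b, l, hbl⟩ := List.exists_cons_of_ne_nil h0
      cases r with
      | zero => exact ⟨_, rfl⟩
      | succ r =>
          rw [add_comm, Machine.run_add, Machine.run_one, Machine.step]
          rw [show em (CC.start (Cmd.loop k p)) = em none from rfl]
          simp only [hem, CC.act, hbl, List.head?_cons]
          rcases Nat.lt_or_ge r t with h | h
          · obtain ⟨a, ha⟩ := ihp (fun a => em (some a)) (em none) (fun a => hem (some a))
              (fun i => w (i + 1)) r h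
            exact ⟨some a, ha⟩
          · obtain ⟨r', rfl⟩ := Nat.exists_eq_add_of_le h
            have h1 := compile_correct M A hp (fun a => em (some a)) (em none)
              (fun a => hem (some a)) (fun i => w (i + 1))
            rw [Machine.run_add, h1]
            exact ihl em ex hem _ r' (by omega)

theorem up_run_succ (M : Machine) (t : ℕ) (w : ℕ → Bool) (c : M.Config) :
    M.run A (t + 1) w c = M.step A (w t) (M.run A t w c) := by
  rw [Machine.run_add, Machine.run_one]
  simp

/-! ### the machine -/

/-- the states of the guessing machine -/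
inductive UQ : Type
  | R | G | P (b : Bool) | O | F1 | F2 | K | H (b : Bool)

/-- an injection into a finite type -/
def UQ.enc : UQ → Fin 6 ⊕ Bool ⊕ Bool
  | .R => Sum.inl 0
  | .G => Sum.inl 1
  | .O => Sum.inl 2
  | .F1 => Sum.inl 3
  | .F2 => Sum.inl 4
  | .K => Sum.inl 5
  | .P b => Sum.inr (Sum.inl b)
  | .H b => Sum.inr (Sum.inr b)

theorem UQ.enc_inj : Injective UQ.enc := by
  intro a b h
  cases a <;> cases b <;> simp_all [UQ.enc]

/-- branching when reading the counter -/
def uR (X : Type) : Option Bool → X ⊕ UQ
  | none => Sum.inr .F1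
  | some _ => Sum.inr .G

/-- the actions of the guessing part -/
def uact (X : Type) (tg : Bool) : UQ → Act (X ⊕ UQ)
  | .R => .read 3 (uR X)
  | .G => .guess (fun b => Sum.inr (.P b))
  | .P b => .push 4 b (Sum.inr .O)
  | .O => .pop 3 (Sum.inr .R)
  | .F1 => .read 4 (fun o => if o = some tg then Sum.inr .F2 else Sum.inr (.H false))
  | .F2 => .push 4 true (Sum.inr .K)
  | .K => .ask 4 (fun b => Sum.inr (.H b))
  | .H b => .halt b

/-- run the program `P`, then guess as many bits as there are on stack `3`, pushing them on
stack `4`, check that the last one is `tg`, push `true` and ask the string on stack `4` -/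
def upM (P : Cmd) (tg : Bool) : Machine where
  Q := CC P ⊕ UQ
  fin := by
    have := CC.finite P
    have : Finite UQ := Finite.of_injective _ UQ.enc_inj
    infer_instance
  start := Sum.inl (CC.start P)
  act := fun s =>
    match s with
    | Sum.inl s => CC.act P Sum.inl (Sum.inr .R) s
    | Sum.inr q => uact (CC P) tg q

/-- a configuration in the guessing part -/
def uc (P : Cmd) (tg : Bool) (q : UQ) (σ : ℕ → List Bool) : (upM P tg).Config := (Sum.inr q, σ)

variable {P : Cmd} {tg : Bool}

theorem upM_R_nil (g : Bool) (σ : ℕ → List Bool) (h : σ 3 = []) :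
    (upM P tg).step A g (uc P tg .R σ) = uc P tg .F1 σ := by
  simp only [Machine.step, upM, uact, uc, h, List.head?_nil, uR]

theorem upM_R_cons (g : Bool) (σ : ℕ → List Bool) {b : Bool} {x : List Bool}
    (h : σ 3 = b :: x) : (upM P tg).step A g (uc P tg .R σ) = uc P tg .G σ := by
  simp only [Machine.step, upM, uact, uc, h, List.head?_cons, uR]

theorem upM_G (g : Bool) (σ : ℕ → List Bool) :
    (upM P tg).step A g (uc P tg .G σ) = uc P tg (.P g) σ := by
  simp only [Machine.step, upM, uact, uc]

theorem upM_P (g : Bool) (σ : ℕ → List Bool) (b : Bool) :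
    (upM P tg).step A g (uc P tg (.P b) σ) = uc P tg .O (update σ 4 (b :: σ 4)) := by
  simp only [Machine.step, upM, uact, uc]

theorem upM_O (g : Bool) (σ : ℕ → List Bool) :
    (upM P tg).step A g (uc P tg .O σ) = uc P tg .R (update σ 3 (σ 3).tail) := by
  simp only [Machine.step, upM, uact, uc]

theorem upM_F1 (g : Bool) (σ : ℕ → List Bool) :
    (upM P tg).step A g (uc P tg .F1 σ) =
      if (σ 4).head? = some tg then uc P tg .F2 σ else uc P tg (.H false) σ := by
  simp only [Machine.step, upM, uact, uc]
  split_ifs <;> rfl

theorem upM_F2 (g : Bool) (σ : ℕ → List Bool) :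
    (upM P tg).step A g (uc P tg .F2 σ) = uc P tg .K (update σ 4 (true :: σ 4)) := by
  simp only [Machine.step, upM, uact, uc]

open Classical in
theorem upM_K (g : Bool) (σ : ℕ → List Bool) :
    (upM P tg).step A g (uc P tg .K σ) = uc P tg (.H (decide (σ 4 ∈ A))) σ := by
  simp only [Machine.step, upM, uact, uc]
  rfl

theorem upM_H (g : Bool) (σ : ℕ → List Bool) (b : Bool) :
    (upM P tg).step A g (uc P tg (.H b) σ) = uc P tg (.H b) σ := by
  simp only [Machine.step, upM, uact, uc]

/-- the guessed string -/
def gs (n : ℕ) (w : ℕ → Bool) : List Bool :=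
  List.ofFn (fun j : Fin n => w (4 * (n - 1 - j) + 1))

theorem gs_succ (n : ℕ) (w : ℕ → Bool) :
    gs (n + 1) w = gs n (fun i => w (i + 1 + 1 + 1 + 1)) ++ [w 1] := by
  unfold gs
  rw [List.ofFn_succ', List.concat_eq_append]
  congr 1
  · congr 1
    funext j
    congr 1
    have := j.2
    simp only [Fin.val_castSucc]
    omega
  · simp

open Classical in
theorem upM_run : ∀ (n : ℕ) (σ : ℕ → List Bool) (w : ℕ → Bool), σ 3 = un n →
    ∃ σ' : ℕ → List Bool, (upM P tg).run A (4 * n + 4) w (uc P tg .R σ) =
      uc P tg (.H (decide ((gs n w ++ σ 4).head? = some tg ∧ true :: (gs n w ++ σ 4) ∈ A))) σ' := by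
  intro n
  induction n with
  | zero =>
      intro σ w h0
      have hrun : (upM P tg).run A (4 * 0 + 4) w (uc P tg .R σ) =
          (upM P tg).step A (w 3) ((upM P tg).step A (w 2) ((upM P tg).step A (w 1)
            ((upM P tg).step A (w 0) (uc P tg .R σ)))) := rfl
      have hg : gs 0 w ++ σ 4 = σ 4 := by simp [gs]
      rw [hrun, upM_R_nil _ _ h0, upM_F1, hg]
      by_cases h : (σ 4).head? = some tg
      · rw [if_pos h, upM_F2, upM_K, update_self]
        refine ⟨update σ 4 (true :: σ 4), ?_⟩
        simp only [h, true_and]
      · rw [if_neg h, upM_H, upM_H]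
        refine ⟨σ, ?_⟩
        simp only [h, false_and, decide_false]
  | succ n ih =>
      intro σ w h0
      have e : 4 * (n + 1) + 4 = (4 * n + 4) + 1 + 1 + 1 + 1 := by omega
      obtain ⟨σ', h⟩ := ih (update (update σ 4 (w 1 :: σ 4)) 3
        ((update σ 4 (w 1 :: σ 4)) 3).tail) (fun i => w (i + 1 + 1 + 1 + 1)) (by
          rw [update_self, update_of_ne (by omega), h0, un_tail]
          rfl)
      refine ⟨σ', ?_⟩
      rw [e, Machine.run, upM_R_cons _ _ h0, Machine.run, upM_G, Machine.run, upM_P,
        Machine.run, upM_O]
      simp only [Nat.zero_add]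
      rw [h]
      have e2 : (update (update σ 4 (w 1 :: σ 4)) 3
        ((update σ 4 (w 1 :: σ 4)) 3).tail) 4 = w 1 :: σ 4 := by
        rw [update_of_ne (by omega), update_self]
      rw [e2, gs_succ, List.append_assoc]
      rfl

theorem upM_uniq : ∀ (n : ℕ) (σ : ℕ → List Bool) (w w' : ℕ → Bool), σ 3 = un n →
    gs n w = gs n w' → ∀ t, (upM P tg).run A t w (uc P tg .R σ) =
      (upM P tg).run A t w' (uc P tg .R σ) := by
  have hH : ∀ (t : ℕ) (σ : ℕ → List Bool) (b : Bool) (w : ℕ → Bool),
      (upM P tg).run A t w (uc P tg (.H b) σ) = uc P tg (.H b) σ := by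
    intro t
    induction t with
    | zero => intros; rfl
    | succ t ih => intro σ b w; rw [Machine.run, upM_H, ih]
  intro n
  induction n with
  | zero =>
      intro σ w w' h0 _ t
      cases t with
      | zero => rfl
      | succ t =>
          rw [Machine.run, Machine.run, upM_R_nil _ _ h0, upM_R_nil _ _ h0]
          cases t with
          | zero => rfl
          | succ t =>
              rw [Machine.run, Machine.run, upM_F1, upM_F1]
              split_ifs
              · cases t with
                | zero => rfl
                | succ t =>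
                    rw [Machine.run, Machine.run, upM_F2, upM_F2]
                    cases t with
                    | zero => rfl
                    | succ t =>
                        rw [Machine.run, Machine.run, upM_K, upM_K, hH, hH]
              · rw [hH, hH]
  | succ n ih =>
      intro σ w w' h0 hg t
      rw [gs_succ, gs_succ] at hg
      have h1 := List.append_inj_left' hg (by simp)
      have h2 := List.append_inj_right' hg (by simp)
      have h3 : w 1 = w' 1 := by simpa using h2
      cases t with
      | zero => rfl
      | succ t =>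
          rw [Machine.run, Machine.run, upM_R_cons _ _ h0, upM_R_cons _ _ h0]
          cases t with
          | zero => rfl
          | succ t =>
              rw [Machine.run, Machine.run, upM_G, upM_G]
              simp only [Nat.zero_add]
              rw [h3]
              cases t with
              | zero => rfl
              | succ t =>
                  rw [Machine.run, Machine.run, upM_P, upM_P]
                  cases t with
                  | zero => rfl
                  | succ t =>
                      rw [Machine.run, Machine.run, upM_O, upM_O]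
                      exact ih _ _ _ (by
                        rw [update_self, update_of_ne (by omega), h0, un_tail]; rfl) h1 t

/-! ### assembly -/

theorem up_det (P : Cmd) (tg : Bool) {x : List Bool} {s' : St} {t : ℕ}
    (h : Ev A P (fun k => if k = 0 then x else []) s' t) (w w' : ℕ → Bool) :
    ∀ r ≤ t, (upM P tg).run A r w ((upM P tg).init x) =
      (upM P tg).run A r w' ((upM P tg).init x) := by
  intro r
  induction r with
  | zero => intro _; rfl
  | succ r ih =>
      intro hr
      obtain ⟨a, ha⟩ := up_prefix (upM P tg) h Sum.inl (Sum.inr .R) (fun a => rfl) w r (by omega)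
      have ha' : ((upM P tg).run A r w ((upM P tg).init x)).1 = Sum.inl a := ha
      rw [up_run_succ, up_run_succ, ← ih (by omega)]
      set c := (upM P tg).run A r w ((upM P tg).init x) with hc
      have hact : ∀ f, (upM P tg).act c.1 ≠ .guess f := by
        intro f
        rw [ha']
        exact act_ne_guess P _ _ a f
      unfold Machine.step
      cases hh : (upM P tg).act c.1 with
      | guess f => exact absurd hh (hact f)
      | push k b q => rfl
      | pop k q => rfl
      | read k q => rfl
      | ask k q => rfl
      | halt b => rfl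

open Classical in
theorem up_main (P : Cmd) (tg : Bool) {x : List Bool} {s' : St} {t n T : ℕ}
    (h : Ev A P (fun k => if k = 0 then x else []) s' t) (hn : s' 3 = un n)
    (hT : t + (4 * n + 4) ≤ T) (w : ℕ → Bool) :
    (upM P tg).Halted ((upM P tg).run A T w ((upM P tg).init x)) ∧
    ((upM P tg).Accepts ((upM P tg).run A T w ((upM P tg).init x)) ↔
      ((gs n (fun i => w (i + t)) ++ s' 4).head? = some tg ∧
        true :: (gs n (fun i => w (i + t)) ++ s' 4) ∈ A)) := by
  have h1 : (upM P tg).run A t w ((upM P tg).init x) = uc P tg .R s' :=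
    compile_correct (upM P tg) A h Sum.inl (Sum.inr .R) (fun a => rfl) w
  obtain ⟨σ', h2⟩ := upM_run (A := A) (P := P) (tg := tg) n s' (fun i => w (i + t)) hn
  have h3 : (upM P tg).run A (t + (4 * n + 4)) w ((upM P tg).init x) =
      uc P tg (.H (decide ((gs n (fun i => w (i + t)) ++ s' 4).head? = some tg ∧
        true :: (gs n (fun i => w (i + t)) ++ s' 4) ∈ A))) σ' := by
    rw [Machine.run_add, h1, h2]
  have hh : (upM P tg).Halted ((upM P tg).run A (t + (4 * n + 4)) w ((upM P tg).init x)) := by
    rw [h3]
    exact ⟨_, rfl⟩
  rw [run_mono _ _ _ hT hh]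
  refine ⟨hh, ?_⟩
  rw [h3]
  unfold Machine.Accepts
  change (Act.halt _ : Act (CC P ⊕ UQ)) = Act.halt true ↔ _
  simp only [Act.halt.injEq, decide_eq_true_eq]

theorem up_uniq (P : Cmd) (tg : Bool) {x : List Bool} {s' : St} {t n : ℕ}
    (h : Ev A P (fun k => if k = 0 then x else []) s' t) (hn : s' 3 = un n) (w w' : ℕ → Bool)
    (hg : gs n (fun i => w (i + t)) = gs n (fun i => w' (i + t))) (r : ℕ) :
    (upM P tg).run A r w ((upM P tg).init x) = (upM P tg).run A r w' ((upM P tg).init x) := by
  rcases Nat.lt_or_ge t r with h1 | h1
  · obtain ⟨r', rfl⟩ := Nat.exists_eq_add_of_le h1.le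
    have h2 : (upM P tg).run A t w ((upM P tg).init x) = uc P tg .R s' :=
      compile_correct (upM P tg) A h Sum.inl (Sum.inr .R) (fun a => rfl) w
    have h3 : (upM P tg).run A t w' ((upM P tg).init x) = uc P tg .R s' :=
      compile_correct (upM P tg) A h Sum.inl (Sum.inr .R) (fun a => rfl) w'
    rw [Machine.run_add, Machine.run_add, h2, h3]
    exact upM_uniq n s' _ _ hn hg r'
  · exact up_det P tg h w w' r h1

/-- the program building the base and the counter -/
theorem up_prog (A : Set (List Bool)) (e : ℕ) : ∃ (P : Cmd) (D : ℕ), ∀ x : List Bool,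
    ∃ (s' : St) (t : ℕ), t + (4 * bl e x + 4) ≤ x.length ^ D + D ∧ s' 3 = un (bl e x) ∧
      s' 4 = base e x ∧ Ev A P (fun k => if k = 0 then x else []) s' t := by
  classical
  have hU : U A (fun v : Fin 1 → ℕ => (v 0 + 1) ^ e) := U.pow (U.proj 0).succ e
  have hb := hU.bound
  obtain ⟨Pr, T, hT, hPr⟩ := hU
  set cst : List Bool := false :: (List.replicate e true ++ [false]) with hcst
  set P : Cmd := .seq split (.seq (Pr (fun _ => 2) 3 5) (.seq (pushL 4 cst) (.seq (back 2 4)
    (.seq (.push 4 false) (back 1 4))))) with hP
  have hprog : ∀ x : List Bool, ∃ s' : St, s' 3 = un (bl e x) ∧ s' 4 = base e x ∧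
      EvB A P (fun k => if k = 0 then x else []) s'
        ((5 * x.length + 1) + (T (fun _ => x.length) + ((cst.length + 1) +
          ((4 * x.length + 1) + (1 + (4 * x.length + 1)))))) := by
    intro x
    have h1 := split_ev (A := A) x [] 0 (fun k => if k = 0 then x else []) (by
      funext k
      split_ifs <;> rfl)
    rw [List.append_nil, Nat.zero_add] at h1
    set s1 : St := fun k => if k = 1 then x.reverse else if k = 2 then un x.length else []
      with hs1
    have h2 := (hPr (fun _ => x.length)).2 (fun _ => 2) 3 5 (fun _ => by omega) (by omega)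
      (fun _ => by omega) s1 (fun i => by simp [hs1]) (by simp [hs1])
      (fun k hk => by rw [hs1]; simp only; rw [if_neg (by omega), if_neg (by omega)])
    have ebl : (fun v : Fin 1 → ℕ => (v 0 + 1) ^ e) (fun _ => x.length) = bl e x := rfl
    rw [ebl] at h2
    set s2 : St := update s1 3 (un (bl e x)) with hs2
    have h3 := pushL_ev (A := A) 4 cst s2
    have e24 : s2 4 = [] := by
      rw [hs2, update_of_ne (by omega), hs1]
      simp
    rw [e24, List.append_nil] at h3
    set s3 : St := update s2 4 cst with hs3
    have e32 : s3 2 = un x.length := by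
      rw [hs3, update_of_ne (by omega), hs2, update_of_ne (by omega), hs1]
      simp
    have h4 := back_ev (A := A) (a := 2) (b := 4) (by omega) (un x.length) s3 e32
    have e34 : s3 4 = cst := by rw [hs3, update_self]
    rw [e34, un_length] at h4
    have erev : (un x.length).reverse = un x.length := by simp [un]
    rw [erev] at h4
    set s4 : St := update (update s3 2 []) 4 (un x.length ++ cst) with hs4
    have h5 := EvB.push (A := A) 4 false s4
    have e44 : s4 4 = un x.length ++ cst := by rw [hs4, update_self]
    rw [e44] at h5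
    set s5 : St := update s4 4 (false :: (un x.length ++ cst)) with hs5
    have e51 : s5 1 = x.reverse := by
      rw [hs5, update_of_ne (by omega), hs4, update_of_ne (by omega), update_of_ne (by omega),
        hs3, update_of_ne (by omega), hs2, update_of_ne (by omega), hs1]
      simp
    have e53 : s5 3 = un (bl e x) := by
      rw [hs5, update_of_ne (by omega), hs4, update_of_ne (by omega), update_of_ne (by omega),
        hs3, update_of_ne (by omega), hs2, update_self]
    have e54 : s5 4 = false :: (un x.length ++ cst) := by rw [hs5, update_self]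
    have h6 := back_ev (A := A) (a := 1) (b := 4) (by omega) x.reverse s5 e51
    rw [List.reverse_reverse, e54, List.length_reverse] at h6
    refine ⟨_, ?_, ?_, h1.seq (h2.seq (h3.seq (h4.seq (h5.seq h6))))⟩
    · rw [update_of_ne (by omega), update_of_ne (by omega), e53]
    · rw [update_self]
      simp [hcst, base, un]
  -- polynomial bound
  obtain ⟨D, hD⟩ : ∃ D, ∀ n, (((5 * n + 1) + (T (fun _ => n) + ((cst.length + 1) +
      ((4 * n + 1) + (1 + (4 * n + 1)))))) + (4 * (n + 1) ^ e + 4)) ≤ n ^ D + D := by
    have hid := PB.proj (0 : Fin 1)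
    have hTn : PB (fun v : Fin 1 → ℕ => T (fun _ => v 0)) :=
      PB.comp (G := fun _ v => v 0) hT (fun _ => hid)
    have h : PB (fun v : Fin 1 → ℕ => (((5 * v 0 + 1) + (T (fun _ => v 0) + ((cst.length + 1) +
      ((4 * v 0 + 1) + (1 + (4 * v 0 + 1)))))) + (4 * (v 0 + 1) ^ e + 4))) :=
      ((((PB.const 5).mul hid).add (PB.const 1)).add (hTn.add ((PB.const (cst.length + 1)).add
        ((((PB.const 4).mul hid).add (PB.const 1)).add ((PB.const 1).add
          (((PB.const 4).mul hid).add (PB.const 1))))))).add
        (((PB.const 4).mul hb).add (PB.const 4))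
    obtain ⟨c, hc⟩ := h
    obtain ⟨D, hD⟩ := pow_bound c
    refine ⟨D, fun n => ?_⟩
    have := hc (fun _ => n)
    simp only [Fin.sum_univ_one] at this
    exact this.trans (hD n)
  refine ⟨P, D, fun x => ?_⟩
  obtain ⟨s', h3, h4, t, ht, hev⟩ := hprog x
  refine ⟨s', t, ?_, h3, h4, hev⟩
  have h5 := hD x.length
  have ebl : (x.length + 1) ^ e = bl e x := rfl
  rw [ebl] at h5
  omega

/-- every string of length `n` is guessed -/
theorem up_exists (n t : ℕ) (y : List Bool) (hy : y.length = n) :
    ∃ w : ℕ → Bool, gs n (fun i => w (i + t)) = y := by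
  subst hy
  refine ⟨fun i => y.getD (y.length - 1 - (i - t) / 4) false, ?_⟩
  unfold gs
  refine List.ext_getElem (by simp) (fun i h1 h2 => ?_)
  rw [List.getElem_ofFn]
  have h3 : y.length - 1 - (4 * (y.length - 1 - i) + 1 + t - t) / 4 = i := by omega
  simp only [h3]
  rw [List.getD_eq_getElem _ _ h2]

theorem up_len (n : ℕ) (w : ℕ → Bool) : (gs n w).length = n := by simp [gs]

theorem up_bl_pos (e : ℕ) (x : List Bool) : 0 < bl e x := by
  unfold bl; positivity

/-- the head of the guessed string -/
theorem up_head {n : ℕ} (hn : 0 < n) (w : ℕ → Bool) (l : List Bool) :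
    (gs n w ++ l).head? = (gs n w).head? := by
  have h := up_len n w
  cases hg : gs n w with
  | nil => rw [hg] at h; simp at h; omega
  | cons b y => simp

theorem lang_UP' (full : Bool) (β : Set (List Bool)) (e : ℕ) (ω : Om) :
    InUP (orc full β ω) (Lang e ω) := by
  obtain ⟨P, D, hP⟩ := up_prog (orc full β ω) e
  refine ⟨upM P true, D, fun x => ?_⟩
  obtain ⟨s', t, hT, h3, h4, hev⟩ := hP x
  have hm := up_main P true hev h3 hT
  have hacc : ∀ w : ℕ → Bool, (upM P true).Accepts ((upM P true).run (orc full β ω)
      (x.length ^ D + D) w ((upM P true).init x)) ↔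
      ((hs e x ω).head? = some true ∧ gs (bl e x) (fun i => w (i + t)) = hs e x ω) := by
    intro w
    rw [(hm w).2, h4, up_head (up_bl_pos e x)]
    have : true :: (gs (bl e x) (fun i => w (i + t)) ++ base e x) =
      code e x (gs (bl e x) (fun i => w (i + t))) := rfl
    rw [this, code_mem_orc]
    constructor
    · rintro ⟨h1, h2, -⟩
      exact ⟨by rw [← h2]; exact h1, h2⟩
    · rintro ⟨h1, h2⟩
      exact ⟨by rw [h2]; exact h1, h2, Or.inr (by rw [h2]; exact h1)⟩
  refine ⟨fun w => (hm w).1, ?_, fun w w' hw hw' r _ => ?_⟩
  · constructor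
    · intro hx
      obtain ⟨w, hw⟩ := up_exists (bl e x) t (hs e x ω) (length_hs e x ω)
      exact ⟨w, (hacc w).2 ⟨hx, hw⟩⟩
    · rintro ⟨w, hw⟩
      exact ((hacc w).1 hw).1
  · rw [hacc] at hw hw'
    exact up_uniq P true hev h3 w w' (by rw [hw.2, hw'.2]) r

theorem lang_coUP' (β : Set (List Bool)) (e : ℕ) (ω : Om) :
    InUP (orc true β ω) (Lang e ω)ᶜ := by
  obtain ⟨P, D, hP⟩ := up_prog (orc true β ω) e
  refine ⟨upM P false, D, fun x => ?_⟩
  obtain ⟨s', t, hT, h3, h4, hev⟩ := hP x
  have hm := up_main P false hev h3 hT
  have hacc : ∀ w : ℕ → Bool, (upM P false).Accepts ((upM P false).run (orc true β ω)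
      (x.length ^ D + D) w ((upM P false).init x)) ↔
      ((hs e x ω).head? = some false ∧ gs (bl e x) (fun i => w (i + t)) = hs e x ω) := by
    intro w
    rw [(hm w).2, h4, up_head (up_bl_pos e x)]
    have : true :: (gs (bl e x) (fun i => w (i + t)) ++ base e x) =
      code e x (gs (bl e x) (fun i => w (i + t))) := rfl
    rw [this, code_mem_orc]
    constructor
    · rintro ⟨h1, h2, -⟩
      exact ⟨by rw [← h2]; exact h1, h2⟩
    · rintro ⟨h1, h2⟩
      exact ⟨by rw [h2]; exact h1, h2, Or.inl rfl⟩
  have hlang : x ∈ (Lang e ω)ᶜ ↔ (hs e x ω).head? = some false := by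
    have hl := length_hs e x ω
    have hp := up_bl_pos e x
    rw [Set.mem_compl_iff]
    unfold Lang
    rw [Set.mem_ofPred_eq]
    cases hh : hs e x ω with
    | nil => rw [hh] at hl; simp at hl; omega
    | cons b y => cases b <;> simp
  refine ⟨fun w => (hm w).1, ?_, fun w w' hw hw' r _ => ?_⟩
  · rw [hlang]
    constructor
    · intro hx
      obtain ⟨w, hw⟩ := up_exists (bl e x) t (hs e x ω) (length_hs e x ω)
      exact ⟨w, (hacc w).2 ⟨hx, hw⟩⟩
    · rintro ⟨w, hw⟩
      exact ((hacc w).1 hw).1
  · rw [hacc] at hw hw'
    exact up_uniq P false hev h3 w w' (by rw [hw.2, hw'.2]) r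

end Pool.Agent.H552R2.RM
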