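import Pool.Agent.H552R2.RM.Stubs

/-!
Winning: if few predictions are wrong then the average capital becomes large.
-/

namespace Pool.Agent.H552R2.RM

open Function MeasureTheory
open Pool.Agent.Helper556.OM

theorem wi_pre_length (L : Set (List Bool)) (n : ℕ) : (pre L n).length = n := by
  unfold pre
  rw [List.length_map, List.length_range]

theorem wi_seg_length (L : Set (List Bool)) (t : ℕ) :
    (seg t (pre L (2 ^ (nn t + 1) - 1))).length = 2 ^ nn t := by
  unfold seg
  rw [List.length_take, List.length_drop, wi_pre_length]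
  have : 1 ≤ 2 ^ nn t := Nat.one_le_two_pow
  rw [pow_succ]
  omega

open Classical in
theorem wi_seg_get (L : Set (List Bool)) (t : ℕ)
    (i : Fin (seg t (pre L (2 ^ (nn t + 1) - 1))).length) :
    (seg t (pre L (2 ^ (nn t + 1) - 1))).get i = decide (str (2 ^ nn t - 1 + i) ∈ L) := by
  rw [List.get_eq_getElem]
  have hi := i.2
  simp only [seg, pre, List.getElem_take, List.getElem_drop, List.getElem_map, List.getElem_range]

theorem wi_fac_nonneg (b : Bool) (p : Prop) : 0 ≤ fac b p := by
  unfold fac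
  split_ifs <;> norm_num

theorem wi_cap_nonneg (pred : List Bool → Om → Prop) (t : ℕ) (u : List Bool) :
    0 ≤ cap pred t u := by
  unfold cap
  exact integral_nonneg fun ω => Finset.prod_nonneg fun i _ => wi_fac_nonneg _ _

open Classical in
/-- the product of the payoffs -/
theorem wi_prod (m : ℕ) (P Q : ℕ → Prop) :
    ∏ i ∈ Finset.range m, fac (decide (P i)) (Q i) =
      (3 / 2) ^ (m - ((Finset.range m).filter (fun i => ¬ (P i ↔ Q i))).card) *
        (1 / 2) ^ ((Finset.range m).filter (fun i => ¬ (P i ↔ Q i))).card := by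
  have h1 : ∀ i, fac (decide (P i)) (Q i) = if ¬ (P i ↔ Q i) then (1 / 2 : ℝ) else 3 / 2 := by
    intro i
    unfold fac
    by_cases h : (P i ↔ Q i)
    · simp [h]
    · have : ¬ (decide (P i) = true ↔ Q i) := by
        rw [decide_eq_true_iff]; exact h
      rw [if_neg this, if_pos h]
  rw [Finset.prod_congr rfl fun i _ => h1 i, Finset.prod_ite, Finset.prod_const, Finset.prod_const,
    mul_comm]
  congr 2
  have h2 := Finset.card_filter_add_card_filter_not (s := Finset.range m)
    (p := fun i => ¬ (P i ↔ Q i))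
  rw [Finset.card_range] at h2
  omega

/-- the number -/
theorem wi_arith (m w : ℕ) (h16 : 16 ∣ m) (h : 16 * w ≤ m) :
    (2 : ℝ) ^ (m / 16) ≤ (3 / 2) ^ (m - w) * (1 / 2) ^ w := by
  obtain ⟨q, rfl⟩ := h16
  rw [Nat.mul_div_cancel_left _ (by norm_num)]
  have hw : w ≤ q := by omega
  calc (2 : ℝ) ^ q ≤ ((3 / 2) ^ 15 * (1 / 2)) ^ q := by
        apply pow_le_pow_left₀ (by norm_num)
        norm_num
    _ = (3 / 2) ^ (15 * q) * (1 / 2) ^ q := by rw [mul_pow, ← pow_mul]
    _ ≤ (3 / 2) ^ (16 * q - w) * (1 / 2) ^ w := by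
        apply mul_le_mul
        · apply pow_le_pow_right₀ (by norm_num)
          omega
        · exact pow_le_pow_of_le_one (by norm_num) (by norm_num) hw
        · positivity
        · positivity

theorem wi_dep (full : Bool) (φ : LFun) (β : Set (List Bool)) (t : ℕ) (u : List Bool) :
    Dep (S t) (fun ω => ∏ i : Fin u.length, fac (u.get i)
      (pr full φ β t (str (2 ^ nn t - 1 + i)) ω)) := by
  intro ω ω' h
  refine Finset.prod_congr rfl fun i _ => ?_
  rw [pr_dep full φ β t (str (2 ^ nn t - 1 + i)) ω ω' h]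

open Classical in
theorem cap_big' (full : Bool) (φ : LFun) (β : Set (List Bool)) (t : ℕ) (ω : Om)
    (L : Set (List Bool)) (h : 16 * wrong full φ β t ω L ≤ 2 ^ nn t) :
    2 ^ (t + 1) ≤ cap (pr full φ β t) t (seg t (pre L (2 ^ (nn t + 1) - 1))) := by
  set u := seg t (pre L (2 ^ (nn t + 1) - 1)) with hu
  set F : Om → ℝ := fun ω => ∏ i : Fin u.length, fac (u.get i)
    (pr full φ β t (str (2 ^ nn t - 1 + i)) ω) with hF
  have hlen : u.length = 2 ^ nn t := wi_seg_length L t
  have hdep : Dep (S t) F := wi_dep full φ β t u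
  have hFD : FD F := ⟨S t, S_finite t, hdep⟩
  -- the value at `ω`
  have hval0 : ∀ m, m = u.length → F ω = ∏ i ∈ Finset.range m,
      fac (decide (str (2 ^ nn t - 1 + i) ∈ L)) (pr full φ β t (str (2 ^ nn t - 1 + i)) ω) := by
    intro m hm
    subst hm
    rw [Finset.prod_range]
    refine Finset.prod_congr rfl fun i _ => ?_
    rw [wi_seg_get L t i]
  have hval := hval0 _ hlen.symm
  rw [wi_prod] at hval
  have hw := card_str (nn t) (fun x => ¬ (x ∈ L ↔ pr full φ β t x ω))
  have hw2 : ((Finset.range (2 ^ nn t)).filter (fun i => ¬ (str (2 ^ nn t - 1 + i) ∈ L ↔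
      pr full φ β t (str (2 ^ nn t - 1 + i)) ω))).card = wrong full φ β t ω L := by
    refine Eq.trans ?_ (hw.trans ?_)
    · apply congrArg
      ext i
      simp only [Finset.mem_filter]
    · unfold wrong
      apply congrArg
      ext x
      simp only [Finset.mem_filter]
  rw [hw2] at hval
  have hS := S_card t
  have h16 : 16 ∣ 2 ^ nn t := by
    have h4 : 4 ≤ nn t := by
      by_contra hc
      have : 2 ^ nn t ≤ 2 ^ 3 := Nat.pow_le_pow_right (by norm_num) (by omega)
      omega
    calc 16 = 2 ^ 4 := by norm_num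
      _ ∣ 2 ^ nn t := pow_dvd_pow 2 h4
  have hbig : (2 : ℝ) ^ (2 ^ nn t / 16) ≤ F ω := by
    rw [hval]
    exact wi_arith _ _ h16 h
  -- the cylinder
  set E : Set Om := {ω' | ∀ p ∈ S t, ω' p = ω p} with hE
  have hEm : MeasurableSet E := by
    apply FD.measurableSet
    refine ⟨S t, S_finite t, fun ω₁ ω₂ h12 => ?_⟩
    apply propext
    constructor
    · intro h1 p hp
      rw [← h12 p hp]
      exact h1 p hp
    · intro h1 p hp
      rw [h12 p hp]
      exact h1 p hp
  have hcyl := cyl (S t) (S_finite t) ω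
  have h1 : ∫ ω', E.indicator (fun _ => F ω) ω' ∂mu ≤ ∫ ω', F ω' ∂mu := by
    apply integral_mono
    · exact (integrable_const _).indicator hEm
    · exact hFD.integrable
    · intro ω'
      by_cases hω : ω' ∈ E
      · rw [Set.indicator_of_mem hω]
        exact le_of_eq (hdep ω ω' fun p hp => (hω p hp).symm)
      · rw [Set.indicator_of_notMem hω]
        exact Finset.prod_nonneg fun i _ => wi_fac_nonneg _ _
  rw [integral_indicator hEm, setIntegral_const, smul_eq_mul, hcyl] at h1
  have hcap : cap (pr full φ β t) t u = ∫ ω', F ω' ∂mu := rfl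
  rw [hcap]
  refine le_trans ?_ h1
  calc (2 : ℝ) ^ (t + 1) ≤ (1 / 2) ^ (S t).ncard * 2 ^ ((S t).ncard + (t + 1)) := by
        rw [pow_add (2 : ℝ) (S t).ncard, ← mul_assoc, ← mul_pow]
        norm_num
    _ ≤ (1 / 2) ^ (S t).ncard * 2 ^ (2 ^ nn t / 16) := by
        apply mul_le_mul_of_nonneg_left _ (by positivity)
        apply pow_le_pow_right₀ (by norm_num)
        omega
    _ ≤ (1 / 2) ^ (S t).ncard * F ω := by
        apply mul_le_mul_of_nonneg_left hbig (by positivity)

theorem wi_orc_trunc (full : Bool) (β : Set (List Bool)) (ω : Om) (N B : ℕ) (h : B < N) :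
    orc full (β ∩ {z | z.length < N}) ω ∩ {z | z.length ≤ B} =
      orc full β ω ∩ {z | z.length ≤ B} := by
  ext z
  constructor
  · rintro ⟨hz, hB⟩
    refine ⟨?_, hB⟩
    rcases hz with ⟨u, hu, rfl⟩ | hz
    · exact Or.inl ⟨u, hu.1, rfl⟩
    · exact Or.inr hz
  · rintro ⟨hz, hB⟩
    refine ⟨?_, hB⟩
    rcases hz with ⟨u, hu, rfl⟩ | hz
    · refine Or.inl ⟨u, ⟨hu, ?_⟩, rfl⟩
      have hB' : (false :: u).length ≤ B := hB
      rw [List.length_cons] at hB'
      show u.length < N
      omega
    · exact Or.inr hz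

theorem prT_eq' (full : Bool) (Φ : ℕ → LFun) (β : Set (List Bool)) (j : ℕ) :
    ∃ t0, ∀ t ≥ t0, (Nat.unpair t).1 = j → ∀ x : List Bool, x.length = nn t → ∀ ω,
      (prT full Φ β t x ω ↔ pr full (Φ j) β t x ω) := by
  obtain ⟨t0, ht0⟩ := th_big' (Φ j).d
  refine ⟨t0, fun t ht hj x hx ω => ?_⟩
  unfold prT
  rw [hj]
  unfold pr
  have h : ∀ ω', (Φ j).F x (orc full (β ∩ {z | z.length < 2 ^ nn t - 1}) (pw (S t) ω ω')) ↔
      (Φ j).F x (orc full β (pw (S t) ω ω')) := by
    intro ω'
    rw [(Φ j).loc x (orc full (β ∩ {z | z.length < 2 ^ nn t - 1}) (pw (S t) ω ω')),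
      (Φ j).loc x (orc full β (pw (S t) ω ω')), wi_orc_trunc]
    rw [hx]
    exact (ht0 t ht).2
  have h2 : {ω' | (Φ j).F x (orc full (β ∩ {z | z.length < 2 ^ nn t - 1}) (pw (S t) ω ω'))} =
      {ω' | (Φ j).F x (orc full β (pw (S t) ω ω'))} := by
    ext ω'
    exact h ω'
  rw [h2]

theorem wi_enc_length (k r : ℕ) (w : List Bool) : (enc k r w).length = k + r + w.length + 2 := by
  unfold enc
  simp only [List.length_append, List.length_cons, List.length_replicate]
  omega

theorem wi_cap_congr (pred pred' : List Bool → Om → Prop) (t : ℕ) (u : List Bool)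
    (hu : u.length ≤ 2 ^ nn t)
    (h : ∀ x : List Bool, x.length = nn t → ∀ ω, (pred x ω ↔ pred' x ω)) :
    cap pred t u = cap pred' t u := by
  unfold cap
  congr 1
  funext ω
  refine Finset.prod_congr rfl fun i _ => ?_
  have hi := i.2
  have h1 : 1 ≤ 2 ^ nn t := Nat.one_le_two_pow
  have h2 : (pred (str (2 ^ nn t - 1 + i)) ω) = (pred' (str (2 ^ nn t - 1 + i)) ω) := by
    apply propext
    apply h
    apply str_length
    · omega
    · rw [pow_succ]
      omega
  rw [h2]

theorem null_predicted' (full : Bool) (Φ : ℕ → LFun) {β : Set (List Bool)}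
    (hβ : Answers full Φ β) (ω : Om) :
    Null poly (orc full β ω) (Predicted full Φ β ω) := by
  have hFD : ∀ t x, FD (fun ω => prT full Φ β t x ω) := fun t x => pr_FD _ _ _ _ _
  have hlt : ∀ (k r : ℕ) (w : List Bool), w.length < (enc k r w).length := by
    intro k r w
    rw [wi_enc_length]
    omega
  have hN : ∀ k r w, num full Φ β k r w < 2 ^ (2 * (enc k r w).length) := by
    intro k r w
    unfold num
    have hnn : (0 : ℝ) ≤ 2 ^ (enc k r w).length * dd (prT full Φ β) k w :=
      mul_nonneg (by positivity) (dd_nonneg _ _ _)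
    rw [Nat.floor_lt hnn]
    push_cast
    have h1 := dd_le (prT full Φ β) hFD k w
    calc (2 : ℝ) ^ (enc k r w).length * dd (prT full Φ β) k w
        ≤ 2 ^ (enc k r w).length * 2 ^ w.length :=
          mul_le_mul_of_nonneg_left h1 (by positivity)
      _ < 2 ^ (enc k r w).length * 2 ^ (enc k r w).length := by
          apply mul_lt_mul_of_pos_left _ (by positivity)
          exact pow_lt_pow_right₀ (by norm_num) (hlt k r w)
      _ = 2 ^ (2 * (enc k r w).length) := by rw [← pow_add, two_mul]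
  obtain ⟨c, hc⟩ := comp_of_bits (orc full β ω) (num full Φ β) hN
    (fun i k r w => false_mem_orc.trans (hβ i k r w))
  refine ⟨dd (prT full Φ β), _, c, hc, ?_, fun k w => dd_nonneg _ _ _,
    fun k w => le_of_eq (dd_mart _ hFD k w), fun k => le_of_eq (dd_nil _ k), ?_⟩
  · intro k r w
    have hnn : (0 : ℝ) ≤ 2 ^ (enc k r w).length * dd (prT full Φ β) k w :=
      mul_nonneg (by positivity) (dd_nonneg _ _ _)
    have h1 := Nat.floor_le hnn
    have h2 := Nat.lt_floor_add_one ((2 : ℝ) ^ (enc k r w).length * dd (prT full Φ β) k w)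
    have hpos : (0 : ℝ) < 2 ^ (enc k r w).length := by positivity
    have h3 : ((num full Φ β k r w : ℕ) : ℝ) ≤
        2 ^ (enc k r w).length * dd (prT full Φ β) k w := h1
    have h4 : (2 : ℝ) ^ (enc k r w).length * dd (prT full Φ β) k w <
        ((num full Φ β k r w : ℕ) : ℝ) + 1 := h2
    have h5 : (1 : ℝ) / 2 ^ (enc k r w).length ≤ (1 / 2) ^ r := by
      rw [one_div, ← inv_pow, one_div]
      apply pow_le_pow_of_le_one (by norm_num) (by norm_num)
      rw [wi_enc_length]
      omega
    refine le_trans ?_ h5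
    rw [abs_le]
    constructor
    · rw [← sub_nonneg]
      have : (num full Φ β k r w : ℝ) / 2 ^ (enc k r w).length - dd (prT full Φ β) k w -
          -(1 / 2 ^ (enc k r w).length) =
          ((num full Φ β k r w : ℝ) + 1 - 2 ^ (enc k r w).length * dd (prT full Φ β) k w) /
            2 ^ (enc k r w).length := by
        field_simp
        ring
      rw [this]
      exact div_nonneg (by linarith) hpos.le
    · have : (num full Φ β k r w : ℝ) / 2 ^ (enc k r w).length - dd (prT full Φ β) k w =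
          ((num full Φ β k r w : ℝ) - 2 ^ (enc k r w).length * dd (prT full Φ β) k w) /
            2 ^ (enc k r w).length := by
        field_simp
      rw [this]
      apply div_le_div_of_nonneg_right _ hpos.le
      linarith
  · rintro k L ⟨j, hj⟩
    obtain ⟨t0, ht0⟩ := prT_eq' full Φ β j
    obtain ⟨t, ht, htj, hw⟩ := (Filter.frequently_atTop.1 hj) (max k t0)
    have hkt : k ≤ t := le_trans (le_max_left _ _) ht
    have ht0t : t0 ≤ t := le_trans (le_max_right _ _) ht
    refine ⟨2 ^ (nn t + 1) - 1, ?_⟩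
    unfold dd
    rw [wi_pre_length]
    have htlt : t < 2 ^ (nn t + 1) - 1 := by
      have h1 := t_le_nn t
      have h2 : nn t + 1 < 2 ^ (nn t + 1) := Nat.lt_two_pow_self
      omega
    have hmem : t ∈ Finset.Ico k (2 ^ (nn t + 1) - 1) := Finset.mem_Ico.2 ⟨hkt, htlt⟩
    have hterm : (1 : ℝ) ≤ (1 / 2) ^ (t + 1) *
        cap (prT full Φ β t) t (seg t (pre L (2 ^ (nn t + 1) - 1))) := by
      have h1 := cap_big' full (Φ j) β t ω L hw
      rw [wi_cap_congr (prT full Φ β t) (pr full (Φ j) β t) t _ (le_of_eq (wi_seg_length L t))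
        (fun x hx ω' => ht0 t ht0t htj x hx ω')]
      calc (1 : ℝ) = (1 / 2) ^ (t + 1) * 2 ^ (t + 1) := by
            rw [← mul_pow]; norm_num
        _ ≤ _ := mul_le_mul_of_nonneg_left h1 (by positivity)
    have hsum := Finset.single_le_sum (f := fun t' => (1 / 2 : ℝ) ^ (t' + 1) *
        cap (prT full Φ β t') t' (seg t' (pre L (2 ^ (nn t + 1) - 1))))
      (fun t' _ => mul_nonneg (by positivity) (wi_cap_nonneg _ _ _)) hmem
    have hlast : (0 : ℝ) ≤ (1 / 2) ^ (max k (2 ^ (nn t + 1) - 1)) := by positivity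
    have hsum' : (1 / 2 : ℝ) ^ (t + 1) *
        cap (prT full Φ β t) t (seg t (pre L (2 ^ (nn t + 1) - 1))) ≤
        ∑ t' ∈ Finset.Ico k (2 ^ (nn t + 1) - 1), (1 / 2 : ℝ) ^ (t' + 1) *
          cap (prT full Φ β t') t' (seg t' (pre L (2 ^ (nn t + 1) - 1))) := hsum
    linarith

end Pool.Agent.H552R2.RM
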